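import Mathlib
import Pool.Agent.Lib.P0c8ca5Ex.R1
import Pool.Agent.Lib.P0c8ca5Ex.R4
import Pool.Agent.Lib.P0c8ca5Ex.Rows

/-!
# AG: a lower bound for the sum of the squares of the absolute values of a virtual character over
the generators of a cyclic p-group

`ag`: `h` virtual character of the abelian group `T`, `y` a p-element with `h y ≠ 0`: the sum of
`h v * h v⁻¹` over the `v` generating the same subgroup as `y` is an integer, at least the number
of these `v`.
-/

set_option linter.unusedSectionVars false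

namespace Pool.Agent.Lib.P0c8ca5.Ex

open Finset

section
variable {C : Type*} [CommGroup C] [Fintype C] {K : Type*} [Field K] [CharZero K]
  [HasEnoughRootsOfUnity K (Monoid.exponent C)]

/-- Parseval with a twist -/
theorem parseval_tw {h : C → K} {m : (C →* Kˣ) → ℤ} (hm : ∀ l, mlt h l = (m l : K))
    (ρ : C →* Kˣ) :
    ∑ v, h v * h v⁻¹ * chr ρ v = (Fintype.card C : K) * ∑ l, (m l : K) * m (l * ρ) := by
  have h1 : ∀ v, h v * h v⁻¹ * chr ρ v = ∑ l, (m l : K) * (h v⁻¹ * chr (l * ρ) v) := by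
    intro v
    have h2 := eq_sum_mlt h v
    conv_lhs => rw [h2]
    rw [Finset.sum_mul, Finset.sum_mul]
    refine Finset.sum_congr rfl fun l _ => ?_
    rw [hm l, chr_mul, Pi.mul_apply]
    ring
  rw [Finset.sum_congr rfl fun v _ => h1 v, Finset.sum_comm, Finset.mul_sum]
  refine Finset.sum_congr rfl fun l _ => ?_
  rw [← Finset.mul_sum]
  have h3 : ∑ v, h v⁻¹ * chr (l * ρ) v = (Fintype.card C : K) * mlt h (l * ρ) := by
    unfold mlt
    rw [← mul_assoc, mul_inv_cancel₀ card_ne, one_mul, ← Equiv.sum_comp (Equiv.inv C)]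
    exact Finset.sum_congr rfl fun v _ => by simp
  rw [h3, hm]
  ring

theorem sum_zp [DecidableEq Kˣ] {p : ℕ} {r : C →* Kˣ} (hr : orderOf r = p)
    [Fintype ↥(Subgroup.zpowers r)] (v : C) :
    ∑ ρ : ↥(Subgroup.zpowers r), chr (ρ : C →* Kˣ) v = if r v = 1 then (p : K) else 0 := by
  classical
  split_ifs with h
  · rw [Finset.sum_congr rfl (g := fun _ => (1 : K))]
    · rw [Finset.sum_const, Finset.card_univ, nsmul_eq_mul, mul_one, ← Nat.card_eq_fintype_card,
        Nat.card_zpowers, hr]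
    · rintro ⟨_, n, rfl⟩ _
      change (((r ^ n : C →* Kˣ) v : Kˣ) : K) = 1
      rw [MonoidHom.zpow_apply, h, one_zpow, Units.val_one]
  · have h1 : ∑ ρ : ↥(Subgroup.zpowers r), chr (ρ : C →* Kˣ) v
        = chr r v * ∑ ρ : ↥(Subgroup.zpowers r), chr (ρ : C →* Kˣ) v := by
      rw [Finset.mul_sum, ← Equiv.sum_comp (Equiv.mulLeft (⟨r, Subgroup.mem_zpowers r⟩ :
        ↥(Subgroup.zpowers r)))]
      refine Finset.sum_congr rfl fun ρ _ => ?_
      change chr (r * (ρ : C →* Kˣ)) v = _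
      rw [chr_mul, Pi.mul_apply]
    have h2 : (1 - chr r v) * ∑ ρ : ↥(Subgroup.zpowers r), chr (ρ : C →* Kˣ) v = 0 := by
      rw [sub_mul, one_mul, ← h1, sub_self]
    rcases mul_eq_zero.1 h2 with h3 | h3
    · exfalso
      apply h
      ext
      rw [Units.val_one]
      exact (sub_eq_zero.1 h3).symm
    · exact h3

/-- the sum over the complement of the kernel of a character of order `p` -/
theorem ag_ker {p : ℕ} (hp : p.Prime) {r : C →* Kˣ} (hr : orderOf r = p) [DecidableEq Kˣ]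
    {h : C → K} (hh : h ∈ vir C K) {y : C} (hy : r y ≠ 1) (hy0 : h y ≠ 0) {a : ℤ}
    (ha : ∑ v with r v ≠ 1, h v * h v⁻¹ = (a : K)) :
    ((univ.filter fun v => r v ≠ 1).card : ℤ) ≤ a := by
  classical
  have := Fintype.ofFinite ↥(Subgroup.zpowers r)
  have hcR : Fintype.card ↥(Subgroup.zpowers r) = p := by
    rw [← Nat.card_eq_fintype_card, Nat.card_zpowers, hr]
  choose m hm using (mem_vir_iff (g := h)).1 hh
  -- `p` times the sum over the complement of the kernel
  have key : ∀ (g : C → K) (n : (C →* Kˣ) → ℤ) (hn : ∀ l, mlt g l = (n l : K)),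
      (p : K) * ∑ v with r v ≠ 1, g v * g v⁻¹ = (Fintype.card C : K) *
        ∑ ρ : ↥(Subgroup.zpowers r), ∑ l, ((n l : K) * n l - (n l : K) * n (l * ρ)) := by
    intro g n hn
    have h1 : ∀ v, (if r v ≠ 1 then g v * g v⁻¹ else 0) * (p : K)
        = (p : K) * (g v * g v⁻¹ * chr (1 : C →* Kˣ) v)
          - ∑ ρ : ↥(Subgroup.zpowers r), g v * g v⁻¹ * chr (ρ : C →* Kˣ) v := by
      intro v
      rw [← Finset.mul_sum, sum_zp hr, chr_one, Pi.one_apply]
      by_cases hv : r v = 1
      · rw [if_neg (fun h => h hv), if_pos hv]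
        ring
      · rw [if_pos hv, if_neg hv]
        ring
    rw [Finset.sum_filter, mul_comm (p : K), Finset.sum_mul, Finset.sum_congr rfl fun v _ => h1 v,
      Finset.sum_sub_distrib, ← Finset.mul_sum, parseval_tw hn, Finset.sum_comm,
      Finset.sum_congr rfl fun (ρ : ↥(Subgroup.zpowers r)) _ => parseval_tw hn (ρ : C →* Kˣ),
      ← Finset.mul_sum]
    have h2 : ∀ l : C →* Kˣ, l * 1 = l := fun l => mul_one l
    simp only [h2, Finset.sum_sub_distrib, Finset.sum_const, Finset.card_univ, hcR,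
      nsmul_eq_mul]
    ring
  -- the square form
  let W : ℤ := ∑ ρ : ↥(Subgroup.zpowers r), ∑ l, (m l - m (l * ρ)) ^ 2
  have hW : ∑ ρ : ↥(Subgroup.zpowers r), ∑ l, (m l * m l - m l * m (l * (ρ : C →* Kˣ))) * 2 = W := by
    refine Finset.sum_congr rfl fun ρ _ => ?_
    have h1 : ∑ l, m (l * (ρ : C →* Kˣ)) * m (l * (ρ : C →* Kˣ)) = ∑ l, m l * m l :=
      Equiv.sum_comp (Equiv.mulRight (ρ : C →* Kˣ)) fun l => m l * m l
    have h2 : ∑ l, (m l - m (l * (ρ : C →* Kˣ))) ^ 2
        = ∑ l, (m l * m l - m l * m (l * (ρ : C →* Kˣ))) * 2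
          + (∑ l, m (l * (ρ : C →* Kˣ)) * m (l * (ρ : C →* Kˣ)) - ∑ l, m l * m l) := by
      rw [← Finset.sum_sub_distrib, ← Finset.sum_add_distrib]
      exact Finset.sum_congr rfl fun l _ => by ring
    rw [h2, h1, sub_self, add_zero]
  have hS : 2 * (p : ℤ) * a = (Fintype.card C : ℤ) * W := by
    have h1 := key h m hm
    rw [ha] at h1
    have h2 : ((2 * (p : ℤ) * a : ℤ) : K) = (((Fintype.card C : ℤ) * W : ℤ) : K) := by
      rw [← hW]
      push_cast
      calc 2 * (p : K) * a = 2 * ((p : K) * a) := by ring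
        _ = _ := by
          rw [h1, Finset.mul_sum, Finset.mul_sum, Finset.mul_sum]
          refine Finset.sum_congr rfl fun ρ _ => ?_
          rw [← Finset.sum_mul]
          ring
    exact_mod_cast h2
  -- the number of elements outside the kernel
  have hN : (p : ℤ) * (univ.filter fun v => r v ≠ 1).card = (Fintype.card C : ℤ) * (p - 1) := by
    have h1 : ∀ v, (if r v ≠ 1 then (1 : K) else 0) * (p : K)
        = (p : K) - ∑ ρ : ↥(Subgroup.zpowers r), chr (ρ : C →* Kˣ) v := by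
      intro v
      rw [sum_zp hr]
      by_cases hv : r v = 1
      · rw [if_neg (fun h => h hv), if_pos hv]
        ring
      · rw [if_pos hv, if_neg hv]
        ring
    have h2 : (((univ.filter fun v => r v ≠ 1).card : ℕ) : K)
        = ∑ v, if r v ≠ 1 then (1 : K) else 0 := by
      rw [Finset.card_filter]
      push_cast
      rfl
    have h3 : (p : K) * ((univ.filter fun v => r v ≠ 1).card : K)
        = (Fintype.card C : K) * ((p : K) - 1) := by
      rw [h2, mul_comm, Finset.sum_mul, Finset.sum_congr rfl fun v _ => h1 v,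
        Finset.sum_sub_distrib, Finset.sum_const, Finset.card_univ, nsmul_eq_mul, Finset.sum_comm,
        Finset.sum_eq_single (1 : ↥(Subgroup.zpowers r))]
      · have h4 : ∑ v : C, chr ((1 : ↥(Subgroup.zpowers r)) : C →* Kˣ) v
            = (Fintype.card C : K) := by
          rw [Subgroup.coe_one, chr_one]
          simp
        rw [h4]
        ring
      · intro ρ _ hρ
        exact sum_chr _ fun h => hρ (Subtype.ext h)
      · intro h
        exact absurd (Finset.mem_univ _) h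
    exact_mod_cast h3
  -- not constant on the cosets
  obtain ⟨l0, ρ0, hl0⟩ : ∃ (l0 : C →* Kˣ) (ρ0 : ↥(Subgroup.zpowers r)),
      m l0 ≠ m (l0 * (ρ0 : C →* Kˣ)) := by
    by_contra hcon
    push Not at hcon
    have h1 : ∀ v, h v * chr r v = h v := by
      intro v
      rw [eq_sum_mlt h v, Finset.sum_mul,
        ← Equiv.sum_comp (Equiv.mulRight r) fun l => mlt h l * chr l v]
      refine Finset.sum_congr rfl fun l _ => ?_
      change mlt h l * chr l v * chr r v = mlt h (l * r) * chr (l * r) v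
      rw [hm, hm, ← hcon l ⟨r, Subgroup.mem_zpowers r⟩, chr_mul, Pi.mul_apply]
      ring
    have h2 := h1 y
    have h3 : chr r y = 1 := by
      have h4 : h y * (chr r y - 1) = 0 := by rw [mul_sub, h2, mul_one, sub_self]
      exact sub_eq_zero.1 ((mul_eq_zero.1 h4).resolve_left hy0)
    apply hy
    ext
    rw [Units.val_one]
    exact h3
  have hWge : 2 * ((p : ℤ) - 1) ≤ W := by
    have h1 := sum_sq_sub_ge (J := ↥(Subgroup.zpowers r))
      (fun x => m (l0 * (x : C →* Kˣ))) (j := 1) (l := ρ0) (by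
        have h0 : l0 * ((1 : ↥(Subgroup.zpowers r)) : C →* Kˣ) = l0 := mul_one l0
        rw [h0]
        exact hl0)
    rw [hcR] at h1
    refine h1.trans ?_
    have h2 : ∑ x : ↥(Subgroup.zpowers r), ∑ y : ↥(Subgroup.zpowers r),
        (m (l0 * (x : C →* Kˣ)) - m (l0 * (y : C →* Kˣ))) ^ 2
        = ∑ ρ : ↥(Subgroup.zpowers r), ∑ x : ↥(Subgroup.zpowers r),
          (m (l0 * (x : C →* Kˣ)) - m (l0 * (x : C →* Kˣ) * (ρ : C →* Kˣ))) ^ 2 := by
      rw [Finset.sum_comm (s := (univ : Finset ↥(Subgroup.zpowers r)))]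
      rw [Finset.sum_comm (s := (univ : Finset ↥(Subgroup.zpowers r)))]
      rw [Finset.sum_comm (f := fun (ρ x : ↥(Subgroup.zpowers r)) =>
        (m (l0 * (x : C →* Kˣ)) - m (l0 * (x : C →* Kˣ) * (ρ : C →* Kˣ))) ^ 2)]
      refine Finset.sum_congr rfl fun x _ => ?_
      rw [← Equiv.sum_comp (Equiv.mulLeft x)]
      refine Finset.sum_congr rfl fun y _ => ?_
      congr 3
      exact (mul_assoc l0 (x : C →* Kˣ) (y : C →* Kˣ)).symm
    rw [h2]
    refine Finset.sum_le_sum fun ρ _ => ?_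
    have hinj : Function.Injective fun x : ↥(Subgroup.zpowers r) => l0 * (x : C →* Kˣ) :=
      fun x y hxy => Subtype.ext (mul_left_cancel hxy)
    rw [← Finset.sum_image (f := fun l : C →* Kˣ => (m l - m (l * (ρ : C →* Kˣ))) ^ 2)
      (s := univ) (g := fun x : ↥(Subgroup.zpowers r) => l0 * (x : C →* Kˣ))
      (fun x _ y _ hxy => hinj hxy)]
    exact Finset.sum_le_sum_of_subset_of_nonneg (Finset.subset_univ _) fun _ _ _ => sq_nonneg _
  have hp0 : (0 : ℤ) < p := by exact_mod_cast hp.pos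
  have hC0 : (0 : ℤ) ≤ Fintype.card C := Int.natCast_nonneg _
  have h1 : 2 * (p : ℤ) * ((univ.filter fun v => r v ≠ 1).card : ℤ) ≤ 2 * (p : ℤ) * a := by
    rw [hS]
    calc 2 * (p : ℤ) * ((univ.filter fun v => r v ≠ 1).card : ℤ)
        = (Fintype.card C : ℤ) * (2 * ((p : ℤ) - 1)) := by rw [mul_assoc, hN]; ring
      _ ≤ _ := mul_le_mul_of_nonneg_left hWge hC0
  exact le_of_mul_le_mul_left h1 (by positivity)

end

section
variable {T : Type*} [CommGroup T] [Fintype T] {K : Type*} [Field K] [CharZero K]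
  [HasEnoughRootsOfUnity K (Monoid.exponent T)]

/-- composition with a homomorphism -/
theorem vir_comp' {T' : Type*} [CommGroup T'] {g : T → K} (hg : g ∈ vir T K) (φ : T' →* T) :
    (fun u => g (φ u)) ∈ vir T' K := by
  refine vir_induction (P := fun g => (fun u => g (φ u)) ∈ vir T' K) ?_ ?_ ?_ ?_ hg
  · intro l
    exact chr_mem (l.comp φ)
  · exact (vir T' K).zero_mem
  · intro x y hx hy
    exact (vir T' K).add_mem hx hy
  · intro x hx
    exact (vir T' K).neg_mem hx

theorem enough_quot (K : Type*) [Field K] (T : Type*) [CommGroup T] [Finite T]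
    [HasEnoughRootsOfUnity K (Monoid.exponent T)] (Z : Subgroup T) :
    HasEnoughRootsOfUnity K (Monoid.exponent (T ⧸ Z)) := by
  have : NeZero (Monoid.exponent T) := ⟨Monoid.exponent_ne_zero_of_finite⟩
  refine HasEnoughRootsOfUnity.of_dvd K (n := Monoid.exponent T) ?_
  refine Monoid.exponent_dvd_of_forall_pow_eq_one fun q => ?_
  obtain ⟨t, rfl⟩ := QuotientGroup.mk_surjective q
  rw [← QuotientGroup.mk_pow, Monoid.pow_exponent_eq_one, QuotientGroup.mk_one]

theorem enough_sub (K : Type*) [Field K] (T : Type*) [CommGroup T] [Finite T]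
    [HasEnoughRootsOfUnity K (Monoid.exponent T)] (Z : Subgroup T) :
    HasEnoughRootsOfUnity K (Monoid.exponent ↥Z) := by
  have : NeZero (Monoid.exponent T) := ⟨Monoid.exponent_ne_zero_of_finite⟩
  refine HasEnoughRootsOfUnity.of_dvd K (n := Monoid.exponent T) ?_
  refine Monoid.exponent_dvd_of_forall_pow_eq_one fun q => ?_
  apply Subtype.ext
  rw [SubmonoidClass.coe_pow, Monoid.pow_exponent_eq_one, OneMemClass.coe_one]

/-- a character of order `p` of a cyclic p-group separating the generators -/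
theorem exists_sep (K : Type*) [Field K] {p : ℕ} (hp : p.Prime) {C : Type*} [CommGroup C]
    [Finite C] [HasEnoughRootsOfUnity K (Monoid.exponent C)] {y : C}
    (hy : ∀ v, v ∈ Subgroup.zpowers y) {M : ℕ} (hyM : y ^ p ^ M = 1) (hy1 : y ≠ 1) :
    ∃ r : C →* Kˣ, orderOf r = p ∧ ∀ v, Subgroup.zpowers v = ⊤ ↔ r v ≠ 1 := by
  have hF : Fact p.Prime := ⟨hp⟩
  have hord : p ∣ orderOf y := by
    obtain ⟨k, -, hk⟩ := (Nat.dvd_prime_pow hp).1 (orderOf_dvd_of_pow_eq_one hyM)
    rw [hk]
    rcases Nat.eq_zero_or_pos k with h0 | h0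
    · exfalso
      apply hy1
      rw [h0, pow_zero] at hk
      exact orderOf_eq_one_iff.1 hk
    · exact dvd_pow_self p h0.ne'
  let Mp : Subgroup C := (powMonoidHom p : C →* C).range
  have hyMp : y ∉ Mp := by
    rintro ⟨w, hw⟩
    obtain ⟨k, rfl⟩ := hy w
    have h1 : y ^ (k * (p : ℤ) - 1) = 1 := by
      rw [zpow_sub, zpow_one, zpow_mul, zpow_natCast]
      have h2 : (y ^ k) ^ p = y := hw
      rw [h2, mul_inv_cancel]
    have h2 : (orderOf y : ℤ) ∣ k * (p : ℤ) - 1 := orderOf_dvd_iff_zpow_eq_one.2 h1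
    have h3 : (p : ℤ) ∣ k * (p : ℤ) - 1 := (Int.natCast_dvd_natCast.2 hord).trans h2
    have h4 : (p : ℤ) ∣ 1 := by
      have h5 := dvd_sub (Dvd.intro_left k rfl : (p : ℤ) ∣ k * (p : ℤ)) h3
      rwa [sub_sub_cancel] at h5
    have h6 : p ∣ 1 := by exact_mod_cast h4
    exact hp.one_lt.ne' (Nat.dvd_one.1 h6)
  have := enough_quot K C Mp
  have hq : (QuotientGroup.mk y : C ⧸ Mp) ≠ 1 := fun h => hyMp ((QuotientGroup.eq_one_iff _).1 h)
  obtain ⟨χ, hχ⟩ := CommGroup.exists_apply_ne_one_of_hasEnoughRootsOfUnity (C ⧸ Mp) K hq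
  let r : C →* Kˣ := χ.comp (QuotientGroup.mk' Mp)
  have hrM : ∀ v ∈ Mp, r v = 1 := by
    intro v hv
    change χ (QuotientGroup.mk v) = 1
    rw [(QuotientGroup.eq_one_iff v).2 hv, map_one]
  have hry : r y ≠ 1 := hχ
  have hrp : ∀ v, r v ^ p = 1 := by
    intro v
    rw [← map_pow]
    exact hrM _ ⟨v, rfl⟩
  have hr1 : r ≠ 1 := by
    intro h
    apply hry
    rw [h]
    rfl
  have hoy : orderOf (r y) = p := orderOf_eq_prime (hrp y) hry
  refine ⟨r, orderOf_eq_prime (by ext v; simpa using congrArg (fun x : Kˣ => (x : K)) (hrp v)) hr1,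
    fun v => ⟨fun h => ?_, fun h => ?_⟩⟩
  · intro hv
    have h1 : y ∈ Subgroup.zpowers v := h ▸ Subgroup.mem_top y
    obtain ⟨k, hk⟩ := h1
    apply hry
    have h2 : v ^ k = y := hk
    rw [← h2, map_zpow, hv, one_zpow]
  · obtain ⟨k, hk⟩ := hy v
    have hk' : y ^ k = v := hk
    have hpk : ¬ (p : ℤ) ∣ k := by
      rintro ⟨c, rfl⟩
      apply h
      rw [← hk', zpow_mul, zpow_natCast, map_zpow, map_pow, hrp, one_zpow]
    have hcop : IsCoprime k ((p ^ M : ℕ) : ℤ) := by
      rw [Nat.cast_pow]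
      exact IsCoprime.pow_right ((Int.isCoprime_iff_gcd_eq_one.2 (by
        rw [Int.gcd_comm]
        exact_mod_cast (Nat.Prime.coprime_iff_not_dvd hp).2 (fun h' => hpk (Int.natCast_dvd.2 h')))))
    obtain ⟨a, b, hab⟩ := hcop
    have hyv : y ∈ Subgroup.zpowers v := by
      refine ⟨a, ?_⟩
      change v ^ a = y
      calc v ^ a = y ^ (a * k) := by rw [← hk', ← zpow_mul, mul_comm]
        _ = y ^ (a * k) * (y ^ p ^ M) ^ b := by rw [hyM, one_zpow, mul_one]
        _ = y ^ (a * k + b * ((p ^ M : ℕ) : ℤ)) := by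
          rw [zpow_add, mul_comm b, zpow_mul y ((p ^ M : ℕ) : ℤ), zpow_natCast]
        _ = y := by rw [hab, zpow_one]
    rw [eq_top_iff]
    intro w _
    exact (Subgroup.zpowers_le.2 hyv) (hy w)

/-- **the lower bound** -/
theorem ag {p : ℕ} (hp : p.Prime) [DecidableEq (Subgroup T)] {h : T → K} (hh : h ∈ vir T K)
    {y : T} {M : ℕ} (hy : y ^ p ^ M = 1) (hy0 : h y ≠ 0) :
    ∃ a : ℤ, ∑ v with Subgroup.zpowers v = Subgroup.zpowers y, h v * h v⁻¹ = (a : K) ∧
      ((univ.filter fun v => Subgroup.zpowers v = Subgroup.zpowers y).card : ℤ) ≤ a := by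
  classical
  obtain ⟨a, ha⟩ : ∃ a : ℤ, ∑ v with Subgroup.zpowers v = Subgroup.zpowers y,
      h v * h v⁻¹ = (a : K) := by
    refine sum_vir_gen (g := fun v => h v * h v⁻¹) ?_ (Subgroup.zpowers y)
    have h1 := vir_comp' hh (invMonoidHom : T →* T)
    exact (vir T K).mul_mem hh h1
  refine ⟨a, ha, ?_⟩
  by_cases hy1 : y = 1
  · subst hy1
    have h1 : (univ.filter fun v : T => Subgroup.zpowers v = Subgroup.zpowers (1 : T)) = {1} := by
      ext v
      rw [Finset.mem_filter, Finset.mem_singleton]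
      constructor
      · rintro ⟨-, h2⟩
        rw [Subgroup.zpowers_one_eq_bot, Subgroup.zpowers_eq_bot] at h2
        exact h2
      · rintro rfl
        exact ⟨Finset.mem_univ _, rfl⟩
    rw [h1, Finset.card_singleton]
    obtain ⟨m, hm⟩ := vir_one hh
    rw [h1, Finset.sum_singleton, inv_one, hm] at ha
    have hm0 : m ≠ 0 := by
      rintro rfl
      exact hy0 (by rw [hm, Int.cast_zero])
    have h3 : m * m = a := by exact_mod_cast ha
    rw [← h3]
    have h4 : 0 < m * m := mul_self_pos.2 hm0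
    push_cast
    linarith
  · have := Fintype.ofFinite ↥(Subgroup.zpowers y)
    have hE : HasEnoughRootsOfUnity K (Monoid.exponent ↥(Subgroup.zpowers y)) :=
      enough_sub K T (Subgroup.zpowers y)
    obtain ⟨y', hy'⟩ : ∃ y' : ↥(Subgroup.zpowers y), (y' : T) = y :=
      ⟨⟨y, Subgroup.mem_zpowers y⟩, rfl⟩
    have hcz : ∀ (v : ↥(Subgroup.zpowers y)) (k : ℤ), ((v ^ k : ↥(Subgroup.zpowers y)) : T)
      = (v : T) ^ k := fun v k => rfl
    have hgen : ∀ v : ↥(Subgroup.zpowers y), v ∈ Subgroup.zpowers y' := by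
      rintro ⟨v, k, rfl⟩
      exact ⟨k, Subtype.ext (by rw [hcz, hy'])⟩
    obtain ⟨r, hr, hsep⟩ := exists_sep K hp (y := y') hgen (M := M)
      (Subtype.ext (by
        change (y' : T) ^ p ^ M = 1
        rw [hy', hy])) (fun h => hy1 (by rw [← hy', h]; rfl))
    have hiff : ∀ v : ↥(Subgroup.zpowers y),
        Subgroup.zpowers (v : T) = Subgroup.zpowers y ↔ r v ≠ 1 := by
      intro v
      rw [← hsep v]
      constructor
      · intro h
        rw [eq_top_iff]
        intro w _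
        have h1 : (w : T) ∈ Subgroup.zpowers (v : T) := by
          rw [h]
          exact w.2
        obtain ⟨k, hk⟩ := h1
        exact ⟨k, Subtype.ext hk⟩
      · intro h
        apply le_antisymm
        · rw [Subgroup.zpowers_le]
          exact v.2
        · rw [Subgroup.zpowers_le]
          have h1 : y' ∈ Subgroup.zpowers v := h ▸ Subgroup.mem_top _
          obtain ⟨k, hk⟩ := h1
          exact ⟨k, (congrArg Subtype.val hk).trans hy'⟩
    have hmap : (univ.filter fun v : T => Subgroup.zpowers v = Subgroup.zpowers y)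
        = (univ.filter fun v : ↥(Subgroup.zpowers y) => r v ≠ 1).map
          ⟨Subtype.val, Subtype.val_injective⟩ := by
      ext v
      rw [Finset.mem_filter, Finset.mem_map]
      constructor
      · rintro ⟨-, h⟩
        have hv : v ∈ Subgroup.zpowers y := h ▸ Subgroup.mem_zpowers v
        exact ⟨⟨v, hv⟩, Finset.mem_filter.2 ⟨Finset.mem_univ _, (hiff ⟨v, hv⟩).1 h⟩, rfl⟩
      · rintro ⟨w, hw, rfl⟩
        exact ⟨Finset.mem_univ _, (hiff w).2 (Finset.mem_filter.1 hw).2⟩
    rw [hmap, Finset.card_map]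
    rw [hmap, Finset.sum_map] at ha
    have h1 := vir_comp' hh (Subgroup.subtype (Subgroup.zpowers y))
    refine ag_ker hp hr h1 (y := y') ((hiff y').1 (by rw [hy'])) (by
      change h (y' : T) ≠ 0
      rw [hy']
      exact hy0) ?_
    rw [← ha]
    rfl

/-- `h` vanishes on all generators or the sum is positive -/
theorem ag_nonneg {p : ℕ} (hp : p.Prime) [DecidableEq (Subgroup T)] {h : T → K}
    (hh : h ∈ vir T K) {y : T} {M : ℕ} (hM : ∀ u : T, u ^ p ^ M = 1) :
    ∃ a : ℤ, ∑ v with Subgroup.zpowers v = Subgroup.zpowers y, h v * h v⁻¹ = (a : K) ∧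
      0 ≤ a ∧ (h y ≠ 0 →
        ((univ.filter fun v => Subgroup.zpowers v = Subgroup.zpowers y).card : ℤ) ≤ a) := by
  classical
  by_cases hz : ∃ v, Subgroup.zpowers v = Subgroup.zpowers y ∧ h v ≠ 0
  · obtain ⟨v, hv, hv0⟩ := hz
    obtain ⟨a, ha, hle⟩ := ag hp hh (hM v) hv0
    rw [hv] at ha hle
    exact ⟨a, ha, (Int.natCast_nonneg _).trans hle, fun _ => hle⟩
  · push Not at hz
    refine ⟨0, ?_, le_rfl, fun h0 => absurd (hz y rfl) h0⟩
    rw [Int.cast_zero]
    refine Finset.sum_eq_zero fun v hv => ?_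
    rw [hz v (Finset.mem_filter.1 hv).2, zero_mul]

end

end Pool.Agent.Lib.P0c8ca5.Ex

namespace Pool.Agent.Lib.P0c8ca5.Ku

open Finset Ex

/-- the sum of `h v * h v⁻¹` over the powers of `y` by the units modulo `p ^ s` -/
noncomputable def nm {T : Type*} [CommGroup T] {K : Type*} [Field K] (p s : ℕ) [NeZero p]
    (h : T → K) (y : T) : K :=
  ∑ k : (ZMod (p ^ s))ˣ, h (y ^ (k : ZMod (p ^ s)).val) * h (y ^ (k : ZMod (p ^ s)).val)⁻¹

/-- **the lower bound, over the units** -/
theorem nm_int {T : Type*} [CommGroup T] [Fintype T] {K : Type*} [Field K] [CharZero K]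
    [HasEnoughRootsOfUnity K (Monoid.exponent T)] {p s : ℕ} [Fact p.Prime]
    (hT : ∀ u : T, u ^ p ^ s = 1) {h : T → K} (hh : h ∈ vir T K) (y : T) :
    ∃ z : ℤ, 0 ≤ z ∧ (z : K) = nm p s h y ∧
      (h y ≠ 0 → (Fintype.card (ZMod (p ^ s))ˣ : ℤ) ≤ z) := by
  classical
  have hp : p.Prime := Fact.out
  have hps : NeZero (p ^ s) := ⟨(pow_pos hp.pos s).ne'⟩
  let F : (ZMod (p ^ s))ˣ → T := fun k => y ^ (k : ZMod (p ^ s)).val
  -- powers modulo `p ^ s`
  have hmod : ∀ (u : T) (m n : ℕ), m ≡ n [MOD p ^ s] → u ^ m = u ^ n := by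
    intro u m n hmn
    exact pow_eq_pow_iff_modEq.2 (hmn.of_dvd (orderOf_dvd_of_pow_eq_one (hT u)))
  have hmul : ∀ (u : T) (k l : (ZMod (p ^ s))ˣ),
      u ^ ((k * l : (ZMod (p ^ s))ˣ) : ZMod (p ^ s)).val
        = (u ^ (k : ZMod (p ^ s)).val) ^ (l : ZMod (p ^ s)).val := by
    intro u k l
    rw [← pow_mul, Units.val_mul, ZMod.val_mul]
    exact hmod u _ _ (Nat.mod_modEq _ _)
  have hone : ∀ u : T, u ^ ((1 : (ZMod (p ^ s))ˣ) : ZMod (p ^ s)).val = u := by
    intro u
    rw [Units.val_one]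
    have h1 : u ^ (1 : ZMod (p ^ s)).val = u ^ 1 := by
      apply hmod
      rw [ZMod.val_one_eq_one_mod]
      exact Nat.mod_modEq _ _
    rw [h1, pow_one]
  have hgenF : ∀ k, Subgroup.zpowers (F k) = Subgroup.zpowers y := by
    intro k
    apply le_antisymm
    · rw [Subgroup.zpowers_le]
      exact ⟨(((k : ZMod (p ^ s)).val : ℕ) : ℤ), zpow_natCast _ _⟩
    · rw [Subgroup.zpowers_le]
      have h1 := hmul y k k⁻¹
      rw [mul_inv_cancel, hone] at h1
      exact ⟨(((k⁻¹ : (ZMod (p ^ s))ˣ) : ZMod (p ^ s)).val : ℤ), by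
        change (F k) ^ ((((k⁻¹ : (ZMod (p ^ s))ˣ) : ZMod (p ^ s)).val : ℕ) : ℤ) = y
        rw [zpow_natCast]
        exact h1.symm⟩
  have hsurj : ∀ v, Subgroup.zpowers v = Subgroup.zpowers y → ∃ k, F k = v := by
    intro v hv
    have h1 : v ∈ Subgroup.zpowers y := hv ▸ Subgroup.mem_zpowers v
    have h2 : y ∈ Subgroup.zpowers v := hv.symm ▸ Subgroup.mem_zpowers y
    rw [mem_zpowers_iff_mem_range_orderOf] at h1 h2
    obtain ⟨m, -, hm⟩ := Finset.mem_image.1 h1
    obtain ⟨n, -, hn⟩ := Finset.mem_image.1 h2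
    by_cases hy1 : y = 1
    · refine ⟨1, ?_⟩
      change y ^ ((1 : (ZMod (p ^ s))ˣ) : ZMod (p ^ s)).val = v
      rw [hone, ← hm, hy1, one_pow]
    · have hpm : ¬ p ∣ m := by
        intro hpm
        have h3 : y ^ (m * n) = y ^ 1 := by rw [pow_mul, hm, hn, pow_one]
        have h4 : p ∣ orderOf y := by
          obtain ⟨k, -, hk⟩ := (Nat.dvd_prime_pow hp).1 (orderOf_dvd_of_pow_eq_one (hT y))
          rw [hk]
          rcases Nat.eq_zero_or_pos k with h0 | h0
          · exfalso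
            apply hy1
            rw [h0, pow_zero] at hk
            exact orderOf_eq_one_iff.1 hk
          · exact dvd_pow_self p h0.ne'
        have h5 : m * n ≡ 1 [MOD p] := (pow_eq_pow_iff_modEq.1 h3).of_dvd h4
        have h6 : m * n ≡ 0 [MOD p] :=
          (Nat.modEq_zero_iff_dvd).2 (hpm.mul_right n)
        have h7 : p ∣ 1 := (Nat.modEq_zero_iff_dvd).1 (h5.symm.trans h6)
        exact hp.one_lt.ne' (Nat.dvd_one.1 h7)
      have hcop : Nat.Coprime m (p ^ s) :=
        Nat.Coprime.pow_right s ((Nat.coprime_comm.1 ((Nat.Prime.coprime_iff_not_dvd hp).2 hpm)))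
      refine ⟨ZMod.unitOfCoprime m hcop, ?_⟩
      change y ^ ((ZMod.unitOfCoprime m hcop : (ZMod (p ^ s))ˣ) : ZMod (p ^ s)).val = v
      rw [ZMod.coe_unitOfCoprime, ZMod.val_natCast, ← hm]
      exact hmod y _ _ (Nat.mod_modEq _ _)
  -- the fibres have equal size
  have hfib : ∀ v, Subgroup.zpowers v = Subgroup.zpowers y →
      (univ.filter fun k => F k = v).card = (univ.filter fun k => F k = y).card := by
    intro v hv
    obtain ⟨k0, hk0⟩ := hsurj v hv
    symm
    refine Finset.card_bij (fun k _ => k0 * k) ?_ ?_ ?_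
    · intro k hk
      rw [Finset.mem_filter] at hk ⊢
      refine ⟨Finset.mem_univ _, ?_⟩
      have h1 : y ^ (k : ZMod (p ^ s)).val = y := hk.2
      have h2 : y ^ (k0 : ZMod (p ^ s)).val = v := hk0
      change y ^ ((k0 * k : (ZMod (p ^ s))ˣ) : ZMod (p ^ s)).val = v
      rw [mul_comm, hmul, h1, h2]
    · intro k _ l _ hkl
      exact mul_left_cancel hkl
    · intro k hk
      rw [Finset.mem_filter] at hk
      refine ⟨k0⁻¹ * k, ?_, by rw [mul_inv_cancel_left]⟩
      rw [Finset.mem_filter]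
      refine ⟨Finset.mem_univ _, ?_⟩
      change y ^ ((k0⁻¹ * k : (ZMod (p ^ s))ˣ) : ZMod (p ^ s)).val = y
      have h1 : y ^ (k : ZMod (p ^ s)).val = v := hk.2
      have h2 : y ^ (k0 : ZMod (p ^ s)).val = v := hk0
      rw [mul_comm, hmul, h1, ← h2, ← hmul, mul_inv_cancel, hone]
  obtain ⟨a, ha, ha0, hle⟩ := ag_nonneg hp hh (y := y) hT
  set N := univ.filter fun v : T => Subgroup.zpowers v = Subgroup.zpowers y with hN
  set c := (univ.filter fun k => F k = y).card with hc
  have hmaps : ∀ k ∈ (univ : Finset (ZMod (p ^ s))ˣ), F k ∈ N := fun k _ =>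
    Finset.mem_filter.2 ⟨Finset.mem_univ _, hgenF k⟩
  refine ⟨c * a, mul_nonneg (Int.natCast_nonneg _) ha0, ?_, fun h0 => ?_⟩
  · unfold nm
    rw [← Finset.sum_fiberwise_of_maps_to hmaps, Int.cast_mul, ← ha, Finset.mul_sum]
    refine Finset.sum_congr rfl fun v hv => ?_
    rw [Finset.sum_congr rfl (g := fun _ => h v * h v⁻¹)]
    · rw [Finset.sum_const, hfib v (Finset.mem_filter.1 hv).2, nsmul_eq_mul, Int.cast_natCast]
    · intro k hk
      have h1 : y ^ (k : ZMod (p ^ s)).val = v := (Finset.mem_filter.1 hk).2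
      rw [h1]
  · have h1 : Fintype.card (ZMod (p ^ s))ˣ = N.card * c := by
      rw [← Finset.card_univ]
      exact Finset.card_eq_sum_card_fiberwise hmaps |>.trans (by
        rw [Finset.sum_congr rfl fun v hv => hfib v (Finset.mem_filter.1 hv).2, Finset.sum_const,
          smul_eq_mul])
    rw [h1, Nat.cast_mul, mul_comm]
    exact mul_le_mul_of_nonneg_left (hle h0) (Int.natCast_nonneg _)

end Pool.Agent.Lib.P0c8ca5.Ku
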