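import Mathlib
import Pool.Agent.Lib.P0c8ca5Ex.Jd

/-!
# ND: the inertial index of a block with an abelian defect group is prime to `p`

If `p` divides `|St D f : C(D)|`, a p-element `g` of `St D f` lies outside `C(D)`. The block `f` of
`C(D)` is stable under `M = C(D) ⟨g⟩`, so there is a p-subgroup `P` with `C(D) P = M` and nonzero
Brauer image of `f` (`exists_br_sup`); `Q = P D` is a p-group and has nonzero Brauer image of `f`
as the support of `f` lies in `C(D)`; so `Q` has nonzero Brauer image of `b`, and `Q = D` by the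
maximality of `D`, `P ≤ C(D)`, a contradiction.
-/

namespace Pool.Agent.Lib.P0c8ca5.Ku

open MonoidAlgebra Ex JdAux

set_option linter.unusedSectionVars false

variable {p : ℕ} {k : Type*} [Field k] {A : Type*} [Group A]

namespace NDAux

theorem conj_CD {D : Subgroup A} {m x : A} (hm : m ∈ Subgroup.normalizer (D : Set A))
    (hx : x ∈ CD D) : m * x * m⁻¹ ∈ CD D := by
  rw [Subgroup.mem_centralizer_iff] at hx ⊢
  intro y hy
  have h1 : m⁻¹ * y * m ∈ D := by
    have h2 := (Subgroup.mem_normalizer_iff.1 (Subgroup.inv_mem _ hm) y).1 hy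
    rwa [inv_inv] at h2
  have h3 := hx _ h1
  calc y * (m * x * m⁻¹) = m * ((m⁻¹ * y * m) * x) * m⁻¹ := by group
    _ = m * (x * (m⁻¹ * y * m)) * m⁻¹ := by rw [h3]
    _ = m * x * m⁻¹ * y := by group

theorem conj_CD_iff {D : Subgroup A} {m x : A} (hm : m ∈ Subgroup.normalizer (D : Set A)) :
    x ∈ CD D ↔ m * x * m⁻¹ ∈ CD D := by
  refine ⟨conj_CD hm, fun h => ?_⟩
  have h1 := conj_CD (Subgroup.inv_mem _ hm) h
  have h2 : m⁻¹ * (m * x * m⁻¹) * m⁻¹⁻¹ = x := by group
  rwa [h2] at h1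

theorem suppIn_resS' {C : Subgroup A} (a : MonoidAlgebra k A) : SuppIn C (resS (C : Set A) a) := by
  intro x hx
  by_contra h
  exact hx (coeff_resS_of_notMem _ h)

theorem N_le_NC {D : Subgroup A} :
    Subgroup.normalizer (D : Set A) ≤ Subgroup.normalizer (CD D : Set A) := by
  intro m hm
  rw [Subgroup.mem_normalizer_iff]
  exact fun x => conj_CD_iff hm

/-- powers modulo a normalized subgroup -/
theorem pow_mod {C : Subgroup A} {c u : A} (hc : c ∈ C)
    (hu : u ∈ Subgroup.normalizer (C : Set A)) (m : ℕ) : (c * u) ^ m * (u ^ m)⁻¹ ∈ C := by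
  induction m with
  | zero =>
    rw [pow_zero, pow_zero, inv_one, mul_one]
    exact C.one_mem
  | succ m ih =>
    have h1 : (c * u) ^ (m + 1) * (u ^ (m + 1))⁻¹
        = c * (u * ((c * u) ^ m * (u ^ m)⁻¹) * u⁻¹) := by
      rw [pow_succ' (c * u), pow_succ' u, mul_inv_rev]
      group
    rw [h1]
    exact C.mul_mem hc ((Subgroup.mem_normalizer_iff.1 hu _).1 ih)

end NDAux

open NDAux

variable [Fact p.Prime] [CharP k p] [IsAlgClosed k] [Fintype A]
variable {b f : MonoidAlgebra k A} {D : Subgroup A}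

/-- **the inertial index is prime to `p`** -/
theorem ndvd (h : Root p b D f) : ¬ p ∣ eN D f := by
  intro hdvd
  have hp := (Fact.out : p.Prime)
  have hD := h.dfg.isPGroup
  have hDC := D_le_CD h.com
  have hCS := CD_le_St h.fblk
  obtain ⟨P⟩ : Nonempty (Sylow p (St D f)) := inferInstance
  have h1 : ¬ (P : Subgroup (St D f)) ≤ (CD D).subgroupOf (St D f) := by
    intro h2
    exact P.not_dvd_index (hdvd.trans (Subgroup.index_dvd_of_le h2))
  obtain ⟨g, hgP, hgC⟩ := SetLike.not_le_iff_exists.1 h1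
  rw [Subgroup.mem_subgroupOf] at hgC
  obtain ⟨n, hn⟩ : ∃ n : ℕ, (g : A) ^ p ^ n = 1 := by
    obtain ⟨n, hn⟩ := P.2 ⟨g, hgP⟩
    exact ⟨n, congrArg (fun x : (P : Subgroup (St D f)) => ((x : St D f) : A)) hn⟩
  have hSN : St D f ≤ Subgroup.normalizer (D : Set A) := fun x hx => hx.1
  let M : Subgroup A := CD D ⊔ Subgroup.zpowers (g : A)
  have hMS : M ≤ St D f := sup_le hCS (by rw [Subgroup.zpowers_le]; exact g.2)
  have hMC : M ≤ Subgroup.normalizer (CD D : Set A) := hMS.trans (hSN.trans N_le_NC)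
  have hpM : ∀ x ∈ M, ∃ n : ℕ, x ^ p ^ n ∈ CD D := by
    intro x hx
    have hgN : Subgroup.zpowers (g : A) ≤ Subgroup.normalizer (CD D : Set A) :=
      le_sup_right.trans hMC
    have hx1 : x ∈ ((CD D ⊔ Subgroup.zpowers (g : A) : Subgroup A) : Set A) := hx
    rw [Subgroup.coe_mul_of_right_le_normalizer_left _ _ hgN] at hx1
    obtain ⟨c, hc, u, hu, rfl⟩ := hx1
    change ∃ n : ℕ, (c * u) ^ p ^ n ∈ CD D
    refine ⟨n, ?_⟩
    have h2 := pow_mod hc (hgN hu) (p ^ n)
    have h3 : u ^ p ^ n = 1 := by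
      obtain ⟨j, rfl⟩ := hu
      change ((g : A) ^ j) ^ p ^ n = 1
      rw [← zpow_natCast, ← zpow_mul, mul_comm, zpow_mul, zpow_natCast, hn, one_zpow]
    rwa [h3, inv_one, mul_one] at h2
  have hfM : InvBy M f := by
    rw [invBy_iff_cj]
    intro x hx
    exact (hMS hx).2
  obtain ⟨P', hP'M, hP', hsup, hbr⟩ := exists_br_sup h.fblk hfM le_sup_left hMC hpM
  have hQ : IsPGroup p (P' ⊔ D : Subgroup A) :=
    hP'.to_sup_of_normal_right' hD (hP'M.trans (hMS.trans hSN))
  have hQN : P' ⊔ D ≤ Subgroup.normalizer (D : Set A) :=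
    sup_le (hP'M.trans (hMS.trans hSN)) Subgroup.le_normalizer
  have hQS : P' ⊔ D ≤ St D f := sup_le (hP'M.trans hMS) (hDC.trans hCS)
  have hbrQ : HasBr (P' ⊔ D) f := by
    obtain ⟨y, hy, hfy⟩ := hbr
    refine ⟨y, ?_, hfy⟩
    have hyC : y ∈ CD D := h.fblk.suppIn y hfy
    have h2 : P' ⊔ D ≤ Subgroup.centralizer ({y} : Set A) := by
      refine sup_le ?_ ?_
      · intro x hx
        rw [Subgroup.mem_centralizer_iff]
        rintro _ rfl
        exact (Subgroup.mem_centralizer_iff.1 hy x hx).symm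
      · intro x hx
        rw [Subgroup.mem_centralizer_iff]
        rintro _ rfl
        exact (Subgroup.mem_centralizer_iff.1 hyC x hx).symm
    rw [Subgroup.mem_centralizer_iff]
    intro x hx
    exact (Subgroup.mem_centralizer_iff.1 (h2 hx) y rfl).symm
  have hQf : InvBy (P' ⊔ D) f := by
    rw [invBy_iff_cj]
    intro x hx
    exact (hQS hx).2
  have hQb : InvBy (P' ⊔ D) (resS (CD D : Set A) b) :=
    invBy_resS (h.blk.invBy.mono le_top) fun g hg x => conj_CD_iff (hQN hg)
  have hcm : f * resS (CD D : Set A) b = f := by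
    have h2 : Commute (resS (CD D : Set A) b) f :=
      commute_of (K := CD D) (suppIn_resS' b) h.fblk.invBy
    rw [← h2.eq, h.bf]
  have hbrb : HasBr (P' ⊔ D) (resS (CD D : Set A) b) := hasBr_of_mul hQ hQf hQb hcm hbrQ
  obtain ⟨y, hy, hby⟩ := hbrb
  have hbry : HasBr (P' ⊔ D) b := by
    refine ⟨y, hy, ?_⟩
    rw [coeff_resS] at hby
    split_ifs at hby with h2
    · exact hby
    · exact absurd rfl hby
  have hmax := h.dfg.max (P' ⊔ D) le_top hQ hbry le_sup_right
  apply hgC
  have h2 : P' ≤ CD D := by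
    have h3 : P' ≤ D := by
      rw [← hmax]
      exact le_sup_left
    exact h3.trans hDC
  have h4 : (g : A) ∈ M := (le_sup_right : Subgroup.zpowers (g : A) ≤ M) (Subgroup.mem_zpowers _)
  rw [← hsup, sup_eq_left.2 h2] at h4
  exact h4

end Pool.Agent.Lib.P0c8ca5.Ku
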