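import Mathlib

/-!
# KD: regular elements modulo `T ^ (p ^ i)`

`T` is a finite abelian `p`-group, `E` a group of automorphisms of `T` of order prime to `p`.
`exists_regular`: if `|E| ≤ p ^ i` and the elements of order `p` of `[T, E]` are `p ^ i`-th
powers, then there is `x` in `T` whose image in `T / T ^ (p ^ i)` is regular for `E`.
`card_le_sq`: `|E| ≤ p ^ (r * r)` if `|Ω₁(T)| ≤ p ^ r`. `index_pow`: the index of
`T ^ (p ^ n)` is at most `p ^ (r * n)`.
-/

set_option autoImplicit false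
set_option linter.unusedSectionVars false

namespace Pool.Agent.Lib.P0c8ca5.Ku

open Finset

section
variable {T : Type*} [CommGroup T]

/-- the commutator map -/
def cm (φ : MulAut T) : T →* T where
  toFun u := u⁻¹ * φ u
  map_one' := by simp
  map_mul' u v := by
    rw [map_mul, mul_inv]
    exact mul_mul_mul_comm _ _ _ _

theorem cm_apply (φ : MulAut T) (u : T) : cm φ u = u⁻¹ * φ u := rfl

/-- the norm -/
def nu (φ : MulAut T) (n : ℕ) (u : T) : T := ∏ j ∈ range n, (φ ^ j) u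

theorem nu_shift {φ : MulAut T} {n : ℕ} (hn : φ ^ n = 1) (u : T) : nu φ n (φ u) = nu φ n u := by
  unfold nu
  have h1 : ∀ j, (φ ^ j) (φ u) = (φ ^ (j + 1)) u := fun j => by
    rw [pow_succ]
    rfl
  have h2 := prod_range_succ (fun j => (φ ^ j) u) n
  have h3 := prod_range_succ' (fun j => (φ ^ j) u) n
  rw [h3] at h2
  simp only [h1]
  have h4 : (φ ^ n) u = (φ ^ 0) u := by rw [hn, pow_zero]
  rw [h4] at h2
  exact mul_right_cancel h2

theorem nu_mul (φ : MulAut T) (n : ℕ) (u v : T) : nu φ n (u * v) = nu φ n u * nu φ n v := by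
  unfold nu
  rw [← prod_mul_distrib]
  exact prod_congr rfl fun j _ => map_mul _ _ _

theorem nu_cm {φ : MulAut T} {n : ℕ} (hn : φ ^ n = 1) (u : T) : nu φ n (cm φ u) = 1 := by
  have h1 : u * cm φ u = φ u := by rw [cm_apply, mul_inv_cancel_left]
  have h2 : nu φ n u * nu φ n (cm φ u) = nu φ n u := by rw [← nu_mul, h1, nu_shift hn]
  exact mul_eq_left.1 h2

theorem nu_fix {φ : MulAut T} {u : T} (hu : φ u = u) (n : ℕ) : nu φ n u = u ^ n := by
  unfold nu
  have h1 : ∀ j, (φ ^ j) u = u := by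
    intro j
    induction j with
    | zero => rfl
    | succ j ih =>
      have h2 : (φ ^ (j + 1)) u = (φ ^ j) (φ u) := by
        rw [pow_succ]
        rfl
      rw [h2, hu, ih]
  rw [prod_congr rfl fun j _ => h1 j, prod_const, card_range]

theorem inv_pow_mem (φ : MulAut T) (j : ℕ) (u : T) : u⁻¹ * (φ ^ j) u ∈ (cm φ).range := by
  induction j with
  | zero =>
    rw [pow_zero]
    have h1 : u⁻¹ * (1 : MulAut T) u = 1 := inv_mul_cancel u
    rw [h1]
    exact one_mem _
  | succ j ih =>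
    have h1 : (φ ^ (j + 1)) u = φ ((φ ^ j) u) := by
      rw [pow_succ']
      rfl
    have h2 : u⁻¹ * (φ ^ (j + 1)) u = (u⁻¹ * (φ ^ j) u) * (((φ ^ j) u)⁻¹ * φ ((φ ^ j) u)) := by
      rw [h1, mul_assoc, mul_inv_cancel_left]
    rw [h2]
    exact mul_mem ih ⟨(φ ^ j) u, rfl⟩

/-- the projection to `[T, φ]`, up to a power -/
def pr (φ : MulAut T) (n : ℕ) (u : T) : T := (u ^ n)⁻¹ * nu φ n u

theorem pr_mem (φ : MulAut T) (n : ℕ) (u : T) : pr φ n u ∈ (cm φ).range := by
  have h1 : pr φ n u = ∏ j ∈ range n, (u⁻¹ * (φ ^ j) u) := by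
    unfold pr nu
    rw [prod_mul_distrib, prod_const, card_range, inv_pow]
  rw [h1]
  exact Subgroup.prod_mem _ fun j _ => inv_pow_mem φ j u

theorem pr_mul (φ : MulAut T) (n : ℕ) (u v : T) : pr φ n (u * v) = pr φ n u * pr φ n v := by
  unfold pr
  rw [nu_mul, mul_pow, mul_inv]
  exact mul_mul_mul_comm _ _ _ _

theorem pr_pow (φ : MulAut T) (n : ℕ) (u : T) (k : ℕ) : pr φ n (u ^ k) = pr φ n u ^ k := by
  induction k with
  | zero =>
    rw [pow_zero, pow_zero]
    have h := pr_mul φ n 1 1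
    rw [mul_one] at h
    exact (mul_eq_left.1 h.symm)
  | succ k ih => rw [pow_succ, pr_mul, ih, pow_succ]

theorem pr_cm {φ : MulAut T} {n : ℕ} (hn : φ ^ n = 1) {w : T} (hw : w ∈ (cm φ).range) :
    pr φ n w = (w ^ n)⁻¹ := by
  obtain ⟨u, rfl⟩ := hw
  unfold pr
  rw [nu_cm hn, mul_one]

variable [Finite T] {p : ℕ}

theorem mem_pow_coprime (hp : p.Prime) (hT : IsPGroup p T) {n : ℕ} (hn : ¬ p ∣ n) (y : T)
    (H : Subgroup T) (h : y ^ n ∈ H) : y ∈ H := by
  obtain ⟨k, hk⟩ := hT y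
  have h1 : n.gcd (orderOf y) = 1 := by
    have h2 : orderOf y ∣ p ^ k := orderOf_dvd_of_pow_eq_one hk
    have h3 : Nat.Coprime n (p ^ k) := (Nat.Coprime.pow_left k
      ((Nat.Prime.coprime_iff_not_dvd hp).2 hn)).symm
    exact Nat.Coprime.coprime_dvd_right h2 h3
  have h2 : y ∈ Subgroup.zpowers (y ^ n) := mem_zpowers_pow_iff.2 h1
  exact (Subgroup.zpowers_le.2 h) h2

/-- a fixed point in `[T, φ]` is trivial -/
theorem fix_cm (hp : p.Prime) (hT : IsPGroup p T) {φ : MulAut T} {n : ℕ} (hn : φ ^ n = 1)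
    (hpn : ¬ p ∣ n) {w : T} (hw : w ∈ (cm φ).range) (hf : φ w = w) : w = 1 := by
  have h1 : w ^ n ∈ (⊥ : Subgroup T) := by
    obtain ⟨u, rfl⟩ := hw
    rw [Subgroup.mem_bot, ← nu_fix hf n]
    exact nu_cm hn u
  exact Subgroup.mem_bot.1 (mem_pow_coprime hp hT hpn w ⊥ h1)

/-- a `k`-th power in `[T, φ]` is the `k`-th power of an element of `[T, φ]` -/
theorem pow_cm (hp : p.Prime) (hT : IsPGroup p T) {φ : MulAut T} {n : ℕ} (hn : φ ^ n = 1)
    (hpn : ¬ p ∣ n) {w y : T} {k : ℕ} (hw : w ∈ (cm φ).range) (hy : w = y ^ k) :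
    ∃ z ∈ (cm φ).range, w = z ^ k := by
  have h1 : w ^ n ∈ ((cm φ).range.map (powMonoidHom k)) := by
    refine ⟨(pr φ n y)⁻¹, inv_mem (pr_mem φ n y), ?_⟩
    rw [powMonoidHom_apply, inv_pow, ← pr_pow, ← hy, pr_cm hn hw, inv_inv]
  obtain ⟨z, hz, hz'⟩ := mem_pow_coprime hp hT hpn w _ h1
  exact ⟨z, hz, hz'.symm⟩

theorem card_ker_mul_range {G H : Type*} [Group G] [Group H] [Finite G] (f : G →* H) :
    Nat.card f.ker * Nat.card f.range = Nat.card G := by
  rw [← Subgroup.index_ker, Subgroup.card_mul_index]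

/-- an element of order `p` in a nontrivial subgroup -/
theorem exists_order (hT : IsPGroup p T) {H : Subgroup T} (hH : H ≠ ⊥) :
    ∃ x ∈ H, x ≠ 1 ∧ x ^ p = 1 := by
  obtain ⟨y, hy, hy1⟩ : ∃ y ∈ H, y ≠ 1 := by
    by_contra h
    push Not at h
    exact hH ((Subgroup.eq_bot_iff_forall H).2 h)
  obtain ⟨k, hk⟩ := hT y
  have h1 : ∃ k, y ^ p ^ k = 1 := ⟨k, hk⟩
  classical
  have h2 := Nat.find_spec h1
  have h3 : Nat.find h1 ≠ 0 := by
    intro h
    rw [h, pow_zero, pow_one] at h2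
    exact hy1 h2
  obtain ⟨m, hm⟩ := Nat.exists_eq_succ_of_ne_zero h3
  refine ⟨y ^ p ^ m, H.pow_mem hy _, ?_, ?_⟩
  · exact Nat.find_min h1 (by omega)
  · rw [← pow_mul, ← pow_succ]
    rw [hm] at h2
    exact h2

/-- the number of elements moved by `φ` modulo `T ^ (p ^ i)` -/
theorem card_irr (hp : p.Prime) (hT : IsPGroup p T) {φ : MulAut T} {n : ℕ} (hn : φ ^ n = 1)
    (hpn : ¬ p ∣ n) (hφ : φ ≠ 1) {i : ℕ}
    (hinv : ∀ x ∈ (cm φ).range, x ^ p = 1 → ∃ y : T, x = y ^ p ^ i) :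
    p ^ i * Nat.card {x : T // ∃ y : T, x⁻¹ * φ x = y ^ p ^ i} ≤ Nat.card T := by
  have hD1 : (cm φ).range ≠ ⊥ := by
    intro h
    apply hφ
    ext u
    have h1 : cm φ u ∈ (⊥ : Subgroup T) := by
      rw [← h]
      exact ⟨u, rfl⟩
    rw [Subgroup.mem_bot, cm_apply, inv_mul_eq_one] at h1
    exact h1.symm
  obtain ⟨x, hx, hx1, hxp⟩ := exists_order hT hD1
  obtain ⟨y, hy⟩ := hinv x hx hxp
  obtain ⟨d, hd, hd'⟩ := pow_cm hp hT hn hpn hx hy
  -- `D1 = [T, φ]`
  set D1 := (cm φ).range with hD1d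
  let P : D1 →* D1 := powMonoidHom (p ^ i)
  -- the kernel of `P` has at least `p ^ i` elements
  have hker : p ^ i ≤ Nat.card P.ker := by
    have hpf : Fact p.Prime := ⟨hp⟩
    have h1 : orderOf d = p ^ (i + 1) := by
      refine orderOf_eq_prime_pow ?_ ?_
      · rw [← hd']
        exact hx1
      · rw [pow_succ, pow_mul, ← hd', hxp]
    have h2 : orderOf (d ^ p) = p ^ i := by
      rw [orderOf_pow' d hp.ne_zero, h1]
      have h3 : (p ^ (i + 1)).gcd p = p := Nat.gcd_eq_right (dvd_pow_self p (Nat.succ_ne_zero i))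
      rw [h3, pow_succ, Nat.mul_div_cancel _ hp.pos]
    let g : Subgroup.zpowers (d ^ p) → P.ker := fun z => ⟨⟨z.1, by
        have h3 : d ^ p ∈ D1 := D1.pow_mem hd p
        exact (Subgroup.zpowers_le.2 h3) z.2⟩, by
        rw [MonoidHom.mem_ker]
        apply Subtype.ext
        change z.1 ^ p ^ i = 1
        obtain ⟨k, hk⟩ := z.2
        have hk' : (d ^ p) ^ k = z.1 := hk
        rw [← hk', ← zpow_natCast, ← zpow_mul, mul_comm, zpow_mul, zpow_natCast]
        have h4 : (d ^ p) ^ p ^ i = 1 := by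
          rw [← h2]
          exact pow_orderOf_eq_one _
        rw [h4, one_zpow]⟩
    have h3 : Nat.card (Subgroup.zpowers (d ^ p)) ≤ Nat.card P.ker := by
      refine Nat.card_le_card_of_injective g ?_
      intro a b hab
      have h4 : ((g a).1 : D1) = (g b).1 := congrArg Subtype.val hab
      have h5 : ((g a).1 : D1).1 = ((g b).1 : D1).1 := congrArg Subtype.val h4
      exact Subtype.ext h5
    rw [Nat.card_zpowers, h2] at h3
    exact h3
  have hP := card_ker_mul_range P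
  have hg := card_ker_mul_range (cm φ)
  -- the irregular elements
  let S := {x : T // ∃ y : T, x⁻¹ * φ x = y ^ p ^ i}
  let A : Subgroup T := {
    carrier := {x | ∃ y : T, x⁻¹ * φ x = y ^ p ^ i}
    mul_mem' := by
      rintro a b ⟨y, hy⟩ ⟨z, hz⟩
      refine ⟨y * z, ?_⟩
      rw [mul_pow, ← hy, ← hz, map_mul, mul_inv]
      exact mul_mul_mul_comm _ _ _ _
    one_mem' := ⟨1, by simp⟩
    inv_mem' := by
      rintro a ⟨y, hy⟩
      refine ⟨y⁻¹, ?_⟩
      rw [inv_pow, ← hy, map_inv, mul_inv] }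
  have hA : Nat.card S = Nat.card A := rfl
  let f : A →* D1 := ((cm φ).rangeRestrict).comp A.subtype
  have hf := card_ker_mul_range f
  have hfk : Nat.card f.ker ≤ Nat.card (cm φ).ker := by
    let g : f.ker → (cm φ).ker := fun a => ⟨a.1.1, by
      have h1 := a.2
      rw [MonoidHom.mem_ker] at h1 ⊢
      exact congrArg Subtype.val h1⟩
    refine Nat.card_le_card_of_injective g ?_
    intro a b hab
    have h4 : (g a).1 = (g b).1 := congrArg Subtype.val hab
    exact Subtype.ext (Subtype.ext h4)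
  have hfr : Nat.card f.range ≤ Nat.card P.range := by
    have h1 : f.range ≤ P.range := by
      rintro _ ⟨a, rfl⟩
      obtain ⟨y, hy⟩ := a.2
      have h2 : (f a).1 ∈ (cm φ).range := (f a).2
      have h3 : (f a).1 = y ^ p ^ i := hy
      obtain ⟨z, hz, hz'⟩ := pow_cm hp hT hn hpn h2 h3
      exact ⟨⟨z, hz⟩, Subtype.ext hz'.symm⟩
    exact Nat.card_le_card_of_injective (Subgroup.inclusion h1) (Subgroup.inclusion_injective h1)
  change p ^ i * Nat.card S ≤ Nat.card T
  rw [hA, ← hf]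
  calc p ^ i * (Nat.card f.ker * Nat.card f.range)
      ≤ Nat.card P.ker * (Nat.card (cm φ).ker * Nat.card P.range) :=
        Nat.mul_le_mul hker (Nat.mul_le_mul hfk hfr)
    _ = Nat.card (cm φ).ker * (Nat.card P.ker * Nat.card P.range) := by ring
    _ = Nat.card T := by rw [hP, hg]

theorem exists_regular (hp : p.Prime) (hT : IsPGroup p T) (E : Subgroup (MulAut T))
    (hpE : ¬ p ∣ Nat.card E) {i : ℕ} (hE : Nat.card E ≤ p ^ i)
    (hinv : ∀ x ∈ Subgroup.closure {w : T | ∃ φ ∈ E, ∃ u, w = u⁻¹ * φ u}, x ^ p = 1 →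
      ∃ y : T, x = y ^ p ^ i) :
    ∃ x : T, ∀ φ ∈ E, (∃ y : T, x⁻¹ * φ x = y ^ p ^ i) → φ = 1 := by
  classical
  have hEfin : Finite E := by
    have : Finite (MulAut T) := Finite.of_injective (fun φ : MulAut T => (φ : T → T))
      (fun a b h => MulEquiv.ext fun x => congrFun h x)
    infer_instance
  have := Fintype.ofFinite E
  have := Fintype.ofFinite T
  by_contra hcon
  push Not at hcon
  -- every `x` is irregular
  have h1 : (univ : Finset T) ⊆ (univ.erase (1 : E)).biUnion fun φ =>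
      univ.filter fun x : T => ∃ y : T, x⁻¹ * (φ : MulAut T) x = y ^ p ^ i := by
    intro x _
    obtain ⟨φ, hφ, hy, hφ1⟩ := hcon x
    refine mem_biUnion.2 ⟨⟨φ, hφ⟩, mem_erase.2 ⟨?_, mem_univ _⟩, mem_filter.2 ⟨mem_univ _, hy⟩⟩
    intro h
    exact hφ1 (congrArg Subtype.val h)
  have h2 := (card_le_card h1).trans card_biUnion_le
  have h3 : ∀ φ ∈ univ.erase (1 : E), p ^ i *
      (univ.filter fun x : T => ∃ y : T, x⁻¹ * (φ : MulAut T) x = y ^ p ^ i).card
        ≤ Fintype.card T := by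
    intro φ hφ
    have h4 : (φ : MulAut T) ^ Nat.card E = 1 := by
      have h5 : φ ^ Nat.card E = 1 := pow_card_eq_one'
      have h6 := congrArg (Subtype.val : E → MulAut T) h5
      exact h6
    have h7 := card_irr (i := i) hp hT h4 hpE (fun h => (mem_erase.1 hφ).1 (Subtype.ext h)) (by
      rintro x ⟨u, rfl⟩ hx
      exact hinv _ (Subgroup.subset_closure ⟨φ, φ.2, u, rfl⟩) hx)
    rw [Nat.card_eq_fintype_card, Nat.card_eq_fintype_card, Fintype.card_subtype] at h7
    exact h7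
  have h4 : p ^ i * Fintype.card T ≤ (Nat.card E - 1) * Fintype.card T := by
    calc p ^ i * Fintype.card T ≤ p ^ i * ∑ φ ∈ univ.erase (1 : E),
          (univ.filter fun x : T => ∃ y : T, x⁻¹ * (φ : MulAut T) x = y ^ p ^ i).card :=
          Nat.mul_le_mul_left _ (by rw [← card_univ]; exact h2)
      _ = ∑ φ ∈ univ.erase (1 : E), p ^ i *
          (univ.filter fun x : T => ∃ y : T, x⁻¹ * (φ : MulAut T) x = y ^ p ^ i).card := by
          rw [mul_sum]
      _ ≤ ∑ φ ∈ univ.erase (1 : E), Fintype.card T := sum_le_sum h3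
      _ = (Nat.card E - 1) * Fintype.card T := by
          rw [sum_const, smul_eq_mul, card_erase_of_mem (mem_univ _), card_univ,
            Nat.card_eq_fintype_card]
  have h5 : 0 < Fintype.card T := Fintype.card_pos
  have h6 : p ^ i ≤ Nat.card E - 1 := Nat.le_of_mul_le_mul_right h4 h5
  have h7 : 0 < Nat.card E := Nat.card_pos
  omega

/-- a group of automorphisms of order prime to `p` acts faithfully on `Ω₁(T)` -/
theorem faithful (hp : p.Prime) (hT : IsPGroup p T) {φ : MulAut T} {n : ℕ} (hn : φ ^ n = 1)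
    (hpn : ¬ p ∣ n) (h : ∀ x : T, x ^ p = 1 → φ x = x) : φ = 1 := by
  by_contra hφ
  have hD1 : (cm φ).range ≠ ⊥ := by
    intro h
    apply hφ
    ext u
    have h1 : cm φ u ∈ (⊥ : Subgroup T) := by
      rw [← h]
      exact ⟨u, rfl⟩
    rw [Subgroup.mem_bot, cm_apply, inv_mul_eq_one] at h1
    exact h1.symm
  obtain ⟨x, hx, hx1, hxp⟩ := exists_order hT hD1
  exact hx1 (fix_cm hp hT hn hpn hx (h x hxp))

/-- the restriction to `Ω₁(T)` -/
def rho (p : ℕ) (φ : MulAut T) : (powMonoidHom p : T →* T).ker →* (powMonoidHom p : T →* T).ker where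
  toFun x := ⟨φ x.1, by
    have h1 := x.2
    rw [MonoidHom.mem_ker, powMonoidHom_apply] at h1 ⊢
    rw [← map_pow, h1, map_one]⟩
  map_one' := Subtype.ext (map_one φ)
  map_mul' x y := Subtype.ext (map_mul φ x.1 y.1)

theorem gens_aux (p : ℕ) [Fact p.Prime] (V : Type*) [AddCommGroup V] [Module (ZMod p) V]
    [Finite V] : ∃ (s : ℕ) (b : Fin s → V), Nat.card V = p ^ s ∧
      ∀ f g : V →+ V, (∀ j, f (b j) = g (b j)) → f = g := by
  have hmf : Module.Finite (ZMod p) V := Module.Finite.of_finite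
  refine ⟨Module.finrank (ZMod p) V, Module.finBasis (ZMod p) V, ?_, ?_⟩
  · rw [Module.natCard_eq_pow_finrank (K := ZMod p), Nat.card_zmod]
  · intro f g h
    have h1 : f.toZModLinearMap p = g.toZModLinearMap p :=
      (Module.finBasis (ZMod p) V).ext fun j => h j
    ext x
    exact LinearMap.congr_fun h1 x

theorem gens (p : ℕ) [Fact p.Prime] {V : Type*} [AddCommGroup V] (hV : ∀ x : V, p • x = 0)
    [Finite V] : ∃ (s : ℕ) (b : Fin s → V), Nat.card V = p ^ s ∧
      ∀ f g : V →+ V, (∀ j, f (b j) = g (b j)) → f = g :=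
  @gens_aux p _ V _ (AddCommGroup.zmodModule hV) _

theorem card_le_sq (hp : p.Prime) (hT : IsPGroup p T) (E : Subgroup (MulAut T))
    (hpE : ¬ p ∣ Nat.card E) {r : ℕ} (hr : Nat.card {x : T // x ^ p = 1} ≤ p ^ r) :
    Nat.card E ≤ p ^ (r * r) := by
  have hpf : Fact p.Prime := ⟨hp⟩
  let W : Subgroup T := (powMonoidHom p : T →* T).ker
  have hW : ∀ x : Additive W, p • x = 0 := by
    intro x
    have h1 : (Additive.toMul x) ^ p = 1 := Subtype.ext (Additive.toMul x).2
    exact congrArg Additive.ofMul h1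
  have hfin : Finite (Additive W) := inferInstanceAs (Finite W)
  obtain ⟨s, b, hc, hb⟩ := gens p hW
  have hsr : s ≤ r := by
    have h1 : Nat.card (Additive W) ≤ p ^ r := hr
    rw [hc] at h1
    exact (Nat.pow_le_pow_iff_right hp.one_lt).1 h1
  let L : E → (Additive W →+ Additive W) := fun φ => MonoidHom.toAdditive (rho p (φ : MulAut T))
  have hinj : Function.Injective fun φ : E => fun j => L φ (b j) := by
    intro φ ψ h
    have h1 : L φ = L ψ := hb _ _ fun j => congrFun h j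
    have h2 : ∀ x : T, x ^ p = 1 → (φ : MulAut T) x = (ψ : MulAut T) x := by
      intro x hx
      have h3 := DFunLike.congr_fun h1 (Additive.ofMul (⟨x, hx⟩ : W))
      have h4 : rho p (φ : MulAut T) ⟨x, hx⟩ = rho p (ψ : MulAut T) ⟨x, hx⟩ := h3
      exact congrArg Subtype.val h4
    have h5 : (ψ⁻¹ * φ) ^ Nat.card E = 1 := pow_card_eq_one'
    have h6 : ((ψ⁻¹ * φ : E) : MulAut T) ^ Nat.card E = 1 :=
      congrArg (Subtype.val : E → MulAut T) h5
    have h7 := faithful hp hT h6 hpE (by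
      intro x hx
      change (ψ : MulAut T)⁻¹ ((φ : MulAut T) x) = x
      rw [h2 x hx]
      exact (ψ : MulAut T).symm_apply_apply x)
    have h8 : ψ⁻¹ * φ = 1 := Subtype.ext h7
    exact (inv_mul_eq_one.1 h8).symm
  have h9 := Nat.card_le_card_of_injective _ hinj
  rw [Nat.card_fun, hc, Nat.card_eq_fintype_card (α := Fin _), Fintype.card_fin, ← pow_mul] at h9
  exact h9.trans (Nat.pow_le_pow_right hp.pos (Nat.mul_le_mul hsr hsr))

theorem card_ker_pow {r : ℕ} (hr : Nat.card {x : T // x ^ p = 1} ≤ p ^ r) (n : ℕ) :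
    Nat.card (powMonoidHom (p ^ n) : T →* T).ker ≤ p ^ (r * n) := by
  induction n with
  | zero =>
    have h1 : (powMonoidHom (p ^ 0) : T →* T).ker = ⊥ := by
      ext x
      rw [MonoidHom.mem_ker, powMonoidHom_apply, pow_zero, pow_one, Subgroup.mem_bot]
    rw [h1]
    simp
  | succ n ih =>
    let f : (powMonoidHom (p ^ (n + 1)) : T →* T).ker →* (powMonoidHom (p ^ n) : T →* T).ker :=
      { toFun := fun x => ⟨x.1 ^ p, by
          have h1 := x.2
          rw [MonoidHom.mem_ker, powMonoidHom_apply] at h1 ⊢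
          rw [← pow_mul, ← pow_succ']
          exact h1⟩
        map_one' := Subtype.ext (one_pow p)
        map_mul' := fun x y => Subtype.ext (mul_pow x.1 y.1 p) }
    have h1 := card_ker_mul_range f
    have h2 : Nat.card f.ker ≤ p ^ r := by
      refine le_trans ?_ hr
      refine Nat.card_le_card_of_injective (fun x : f.ker => (⟨x.1.1, by
        have h3 := x.2
        rw [MonoidHom.mem_ker] at h3
        exact congrArg Subtype.val h3⟩ : {x : T // x ^ p = 1})) ?_
      intro a b hab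
      have h4 := congrArg (Subtype.val : {x : T // x ^ p = 1} → T) hab
      exact Subtype.ext (Subtype.ext h4)
    have h3 : Nat.card f.range ≤ p ^ (r * n) := by
      refine le_trans ?_ ih
      exact Nat.card_le_card_of_injective _ (Subtype.val_injective)
    have h5 : p ^ (r * (n + 1)) = p ^ r * p ^ (r * n) := by
      rw [mul_add, mul_one, pow_add, mul_comm]
    rw [h5]
    refine h1.symm.le.trans ?_
    exact Nat.mul_le_mul h2 h3

theorem index_pow {r : ℕ} (hr : Nat.card {x : T // x ^ p = 1} ≤ p ^ r) (n : ℕ) :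
    Nat.card T ≤ p ^ (r * n) * Nat.card (powMonoidHom (p ^ n) : T →* T).range := by
  rw [← card_ker_mul_range (powMonoidHom (p ^ n) : T →* T)]
  exact Nat.mul_le_mul_right _ (card_ker_pow hr n)

end

end Pool.Agent.Lib.P0c8ca5.Ku
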