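import Mathlib
import Pool.Agent.Lib.P0c8ca5Ex.R2

/-!
# KA: the parts of a function on a finite abelian group over the characters of a subgroup

`bet Φ m h` is the part of `h` over the character `m` of the subgroup `Φ`. Fourier inversion and
Parseval's formula on the cosets of `Φ`; the Gram sum of the parts of orthogonal rows.
-/

set_option linter.unusedSectionVars false

namespace Pool.Agent.Lib.P0c8ca5.Ku

open Finset Ex

section
variable {T : Type*} [CommGroup T] {K : Type*} [Field K] [CharZero K]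

/-- the part of `h` over the character `m` of `Φ` -/
noncomputable def bet (Φ : Subgroup T) [Fintype Φ] (m : Φ →* Kˣ) (h : T → K) (y : T) : K :=
  (Fintype.card Φ : K)⁻¹ * ∑ v : Φ, h (y * v) * ((m v⁻¹ : Kˣ) : K)

variable (Φ : Subgroup T) [Fintype Φ]

theorem card_ne : (Fintype.card Φ : K) ≠ 0 := by
  have : Nonempty Φ := ⟨1⟩
  exact_mod_cast Fintype.card_ne_zero

theorem bet_add (m : Φ →* Kˣ) (g h : T → K) (y : T) :
    bet Φ m (g + h) y = bet Φ m g y + bet Φ m h y := by
  rw [bet, bet, bet, ← mul_add, ← Finset.sum_add_distrib]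
  congr 1
  exact Finset.sum_congr rfl fun v _ => by rw [Pi.add_apply, add_mul]

theorem bet_neg (m : Φ →* Kˣ) (h : T → K) (y : T) : bet Φ m (-h) y = -bet Φ m h y := by
  rw [bet, bet, ← mul_neg, ← Finset.sum_neg_distrib]
  congr 1
  exact Finset.sum_congr rfl fun v _ => by rw [Pi.neg_apply, neg_mul]

theorem bet_zero (m : Φ →* Kˣ) (y : T) : bet Φ m (0 : T → K) y = 0 := by
  rw [bet, Finset.sum_eq_zero (fun v _ => by rw [Pi.zero_apply, zero_mul]), mul_zero]

open Classical in
theorem sum_units (m : Φ →* Kˣ) :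
    ∑ v : Φ, ((m v : Kˣ) : K) = if m = 1 then (Fintype.card Φ : K) else 0 := by
  classical
  have h1 := sum_hom_units (R := K) ((Units.coeHom K).comp m)
  have h2 : (Units.coeHom K).comp m = 1 ↔ m = 1 := by
    constructor
    · intro h
      ext v
      have h3 := DFunLike.congr_fun h v
      exact h3
    · rintro rfl
      ext v
      rfl
  have h3 : ∑ v : Φ, ((m v : Kˣ) : K) = ∑ v : Φ, ((Units.coeHom K).comp m) v := rfl
  rw [h3, h1]
  by_cases hm : m = 1
  · rw [if_pos (h2.2 hm), if_pos hm]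
  · rw [if_neg (fun h => hm (h2.1 h)), if_neg hm, Nat.cast_zero]

open Classical in
theorem bet_chr (m : Φ →* Kˣ) (l : T →* Kˣ) (y : T) :
    bet Φ m (chr l) y = if l.comp Φ.subtype = m then chr l y else 0 := by
  have h1 : ∑ v : Φ, chr l (y * v) * ((m v⁻¹ : Kˣ) : K)
      = chr l y * ∑ v : Φ, ((((l.comp Φ.subtype) * m⁻¹) v : Kˣ) : K) := by
    rw [Finset.mul_sum]
    refine Finset.sum_congr rfl fun v _ => ?_
    rw [chr_map_mul, mul_assoc]
    congr 1
    rw [MonoidHom.mul_apply, MonoidHom.inv_apply, map_inv, Units.val_mul]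
    rfl
  rw [bet, h1, sum_units]
  have h2 : (l.comp Φ.subtype) * m⁻¹ = 1 ↔ l.comp Φ.subtype = m := by
    constructor
    · intro h
      ext v
      have h3 : (l.comp Φ.subtype) v * (m v)⁻¹ = 1 := DFunLike.congr_fun h v
      rw [mul_inv_eq_one.1 h3]
    · intro h
      ext v
      rw [h, MonoidHom.mul_apply, MonoidHom.inv_apply, mul_inv_cancel]
      rfl
  by_cases h : l.comp Φ.subtype = m
  · rw [if_pos (h2.2 h), if_pos h]
    have h3 := card_ne (K := K) Φ
    field_simp
  · rw [if_neg (fun h4 => h (h2.1 h4)), if_neg h, mul_zero, mul_zero]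

/-- the parts are virtual characters -/
theorem bet_vir (m : Φ →* Kˣ) {h : T → K} (hh : h ∈ vir T K) : bet Φ m h ∈ vir T K := by
  classical
  refine vir_induction (P := fun h => bet Φ m h ∈ vir T K) ?_ ?_ ?_ ?_ hh
  · intro l
    by_cases hl : l.comp Φ.subtype = m
    · have : bet Φ m (chr l) = chr l := by
        funext y
        rw [bet_chr, if_pos hl]
      rw [this]
      exact chr_mem l
    · have : bet Φ m (chr l) = 0 := by
        funext y
        rw [bet_chr, if_neg hl]
        rfl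
      rw [this]
      exact (vir T K).zero_mem
  · have : bet Φ m (0 : T → K) = 0 := funext fun y => bet_zero Φ m y
    rw [this]
    exact (vir T K).zero_mem
  · intro g h hg hh
    have : bet Φ m (g + h) = bet Φ m g + bet Φ m h := funext fun y => bet_add Φ m g h y
    rw [this]
    exact (vir T K).add_mem hg hh
  · intro g hg
    have : bet Φ m (-g) = -bet Φ m g := funext fun y => bet_neg Φ m g y
    rw [this]
    exact (vir T K).neg_mem hg

theorem bet_inv (m : Φ →* Kˣ) (h : T → K) (y : T) :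
    bet Φ m h y⁻¹ = (Fintype.card Φ : K)⁻¹ * ∑ v : Φ, h (y * v)⁻¹ * ((m v : Kˣ) : K) := by
  rw [bet]
  congr 1
  refine Fintype.sum_equiv (Equiv.inv Φ) _ _ fun v => ?_
  rw [Equiv.inv_apply, mul_inv, Subgroup.coe_inv, inv_inv]

/-- the columns of the coset `y Φ` are orthogonal with the square sum `N` -/
structure Gr {I : Type*} [Fintype I] (g : I → T → K) (N : K) (y : T) : Prop where
  diag : ∀ v : Φ, ∑ i, g i (y * v) * g i (y * v)⁻¹ = N
  off : ∀ v w : Φ, v ≠ w → ∑ i, g i (y * v) * g i (y * w)⁻¹ = 0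

open Classical in
theorem Gr.eq {I : Type*} [Fintype I] {g : I → T → K} {N : K} {y : T} (h : Gr Φ g N y)
    (v w : Φ) : ∑ i, g i (y * v) * g i (y * w)⁻¹ = if v = w then N else 0 := by
  split_ifs with hvw
  · rw [← hvw]
    exact h.diag v
  · exact h.off v w hvw

/-- the Gram sum of the parts -/
theorem bet_gram (m : Φ →* Kˣ) {I : Type*} [Fintype I] {g : I → T → K} {y : T} {N : K}
    (h : Gr Φ g N y) :
    ∑ i, bet Φ m (g i) y * bet Φ m (g i) y⁻¹ = N * (Fintype.card Φ : K)⁻¹ := by
  classical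
  have h3 := card_ne (K := K) Φ
  have h1 : ∀ i, bet Φ m (g i) y * bet Φ m (g i) y⁻¹
      = (Fintype.card Φ : K)⁻¹ * (Fintype.card Φ : K)⁻¹ * ∑ v : Φ, ∑ w : Φ,
        (g i (y * v) * g i (y * w)⁻¹) * (((m v⁻¹ : Kˣ) : K) * ((m w : Kˣ) : K)) := by
    intro i
    rw [bet_inv, bet, mul_mul_mul_comm, Finset.sum_mul_sum]
    congr 1
    refine Finset.sum_congr rfl fun v _ => Finset.sum_congr rfl fun w _ => ?_
    ring
  rw [Finset.sum_congr rfl fun i _ => h1 i, ← Finset.mul_sum, Finset.sum_comm]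
  have h2 : ∀ v : Φ, ∑ i, ∑ w : Φ,
      (g i (y * v) * g i (y * w)⁻¹) * (((m v⁻¹ : Kˣ) : K) * ((m w : Kˣ) : K)) = N := by
    intro v
    rw [Finset.sum_comm]
    have h4 : ∀ w : Φ, ∑ i, (g i (y * v) * g i (y * w)⁻¹) * (((m v⁻¹ : Kˣ) : K) * ((m w : Kˣ) : K))
        = if v = w then N else 0 := by
      intro w
      rw [← Finset.sum_mul, h.eq]
      split_ifs with hvw
      · subst hvw
        rw [← Units.val_mul, ← map_mul, inv_mul_cancel, map_one, Units.val_one, mul_one]
      · rw [zero_mul]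
    rw [Finset.sum_congr rfl fun w _ => h4 w, Finset.sum_ite_eq]
    simp
  rw [Finset.sum_congr rfl fun v _ => h2 v, Finset.sum_const, Finset.card_univ, nsmul_eq_mul]
  field_simp

section dual
variable [Fintype (Φ →* Kˣ)]

/-- Fourier inversion on the cosets of `Φ` -/
theorem bet_sum {h : T → K} (hh : h ∈ vir T K) (y : T) (v : Φ) :
    h (y * v) = ∑ m : Φ →* Kˣ, bet Φ m h y * ((m v : Kˣ) : K) := by
  classical
  refine vir_induction (P := fun h => h (y * v) = ∑ m : Φ →* Kˣ, bet Φ m h y * ((m v : Kˣ) : K))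
    ?_ ?_ ?_ ?_ hh
  · intro l
    have h1 : ∀ m : Φ →* Kˣ, bet Φ m (chr l) y * ((m v : Kˣ) : K)
        = if l.comp Φ.subtype = m then chr l y * ((m v : Kˣ) : K) else 0 := by
      intro m
      rw [bet_chr]
      split_ifs
      · rfl
      · rw [zero_mul]
    rw [Finset.sum_congr rfl fun m _ => h1 m, Finset.sum_ite_eq]
    simp [chr]
  · rw [Finset.sum_eq_zero (fun m _ => by rw [bet_zero, zero_mul])]
    rfl
  · intro g h hg hh
    rw [Pi.add_apply, hg, hh, ← Finset.sum_add_distrib]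
    exact Finset.sum_congr rfl fun m _ => by rw [bet_add, add_mul]
  · intro g hg
    rw [Pi.neg_apply, hg, ← Finset.sum_neg_distrib]
    exact Finset.sum_congr rfl fun m _ => by rw [bet_neg, neg_mul]

/-- Parseval's formula on the cosets of `Φ` -/
theorem parseval {h : T → K} (hh : h ∈ vir T K) (y : T) :
    ∑ m : Φ →* Kˣ, bet Φ m h y * bet Φ m h y⁻¹
      = (Fintype.card Φ : K)⁻¹ * ∑ v : Φ, h (y * v) * h (y * v)⁻¹ := by
  classical
  have h1 : ∀ m : Φ →* Kˣ, bet Φ m h y * bet Φ m h y⁻¹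
      = (Fintype.card Φ : K)⁻¹ * ∑ v : Φ, h (y * v)⁻¹ * (bet Φ m h y * ((m v : Kˣ) : K)) := by
    intro m
    rw [bet_inv, mul_left_comm, Finset.mul_sum]
    congr 1
    exact Finset.sum_congr rfl fun v _ => by ring
  rw [Finset.sum_congr rfl fun m _ => h1 m, ← Finset.mul_sum, Finset.sum_comm]
  congr 1
  refine Finset.sum_congr rfl fun v _ => ?_
  rw [← Finset.mul_sum, ← bet_sum Φ hh y v, mul_comm]

end dual

end

end Pool.Agent.Lib.P0c8ca5.Ku
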