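import Mathlib
import Pool.Agent.Lib.P0c8ca5Ku.KA
import Pool.Agent.Lib.P0c8ca5Ku.AG

/-!
# KB: the number of rows fixed by `t = 1 + p`

`rows_le`: orthogonal rows on the cosets `x ^ k Φ`; the rows fixed by `u ↦ u ^ (1 + p)` on these
cosets and with `g x ≠ 0` are at most `|T : Φ₁|`, `Φ₁` the `p ^ (c + 1)`-th powers of `Φ`,
`|T : Φ| = p ^ c`.
-/

set_option linter.unusedSectionVars false

namespace Pool.Agent.Lib.P0c8ca5.Ku

open Finset Ex

section
variable {T : Type*} [CommGroup T] {K : Type*} [Field K] [CharZero K] {p : ℕ} [Fact p.Prime]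
  {s : ℕ}

theorem pow_val_mul {y : T} (hy : y ^ p ^ s = 1) (a b : ZMod (p ^ s)) :
    y ^ (a * b).val = (y ^ a.val) ^ b.val := by
  rw [ZMod.val_mul, ← pow_mul, ← pow_mod_orderOf, ← pow_mod_orderOf (n := a.val * b.val)]
  congr 1
  exact (Nat.mod_mod_of_dvd _ (orderOf_dvd_of_pow_eq_one hy))

theorem pow_val_natCast {y : T} (hy : y ^ p ^ s = 1) (n : ℕ) :
    y ^ ((n : ZMod (p ^ s))).val = y ^ n := by
  rw [ZMod.val_natCast, ← pow_mod_orderOf, ← pow_mod_orderOf (n := n)]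
  congr 1
  exact (Nat.mod_mod_of_dvd _ (orderOf_dvd_of_pow_eq_one hy))

theorem pow_val_neg {y : T} (hy : y ^ p ^ s = 1) (a : ZMod (p ^ s)) :
    y ^ (-a).val = (y ^ a.val)⁻¹ := by
  rw [eq_inv_iff_mul_eq_one, ← pow_add]
  have h1 : ((((-a).val + a.val : ℕ)) : ZMod (p ^ s)) = 0 := by
    have : NeZero (p ^ s) := ⟨pow_ne_zero _ (Fact.out : p.Prime).ne_zero⟩
    rw [Nat.cast_add, ZMod.natCast_zmod_val, ZMod.natCast_zmod_val, neg_add_cancel]
  have h2 := (ZMod.natCast_eq_zero_iff _ _).1 h1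
  obtain ⟨c, hc⟩ := h2
  rw [hc, pow_mul, hy, one_pow]

end

section
variable {T : Type*} [CommGroup T] [Fintype T] {K : Type*} [Field K] [CharZero K] {p : ℕ}
  [Fact p.Prime] {s : ℕ} (Φ : Subgroup T) [Fintype Φ] {I : Type*} [Fintype I] [DecidableEq I]
  {g : I → T → K}

/-- a power of a character -/
def mpow {G : Type*} [CommGroup G] (m : G →* Kˣ) (n : ℕ) : G →* Kˣ := (powMonoidHom n).comp m

theorem mpow_apply {G : Type*} [CommGroup G] (m : G →* Kˣ) (n : ℕ) (v : G) :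
    mpow m n v = m v ^ n := rfl

theorem mpow_one {G : Type*} [CommGroup G] (m : G →* Kˣ) : mpow m 1 = m := by
  ext v
  rw [mpow_apply, pow_one]

theorem mpow_mul {G : Type*} [CommGroup G] (m : G →* Kˣ) (a b : ℕ) :
    mpow m (a * b) = mpow (mpow m a) b := by
  ext v
  rw [mpow_apply, mpow_apply, mpow_apply, pow_mul]

theorem mpow_eq {G : Type*} [CommGroup G] (m : G →* Kˣ) (n : ℕ) :
    @HPow.hPow (G →* Kˣ) ℕ (G →* Kˣ) (@instHPow _ ℕ NPow.toPow) m n = mpow m n := by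
  induction n with
  | zero =>
    rw [pow_zero]
    ext v
    rw [mpow_apply, pow_zero]
    rfl
  | succ n ih =>
    rw [pow_succ, ih]
    ext v
    rw [mpow_apply, pow_succ]
    rfl

/-- the defect of the projection of a unit vector onto the columns of a coset -/
noncomputable def FF (N : ℤ) (g : I → T → K) (j : I) (i : I) (y : T) : K :=
  (if i = j then (N : K) else 0) - ∑ v : Φ, g j (y * v)⁻¹ * g i (y * v)

theorem FF_inv (N : ℤ) (j i : I) (y : T) :
    FF Φ N g j i y⁻¹ = (if i = j then (N : K) else 0) - ∑ v : Φ, g j (y * v) * g i (y * v)⁻¹ := by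
  rw [FF]
  congr 1
  refine Fintype.sum_equiv (Equiv.inv Φ) _ _ fun v => ?_
  rw [Equiv.inv_apply, mul_inv, inv_inv, Subgroup.coe_inv, mul_inv, inv_inv]

theorem vir_inv {h : T → K} (hh : h ∈ vir T K) : (fun u => h u⁻¹) ∈ vir T K :=
  vir_comp hh (invMonoidHom : T →* T)

theorem FF_vir (hg : ∀ i, g i ∈ vir T K) (N : ℤ) (j i : I) : FF Φ N g j i ∈ vir T K := by
  have h1 : FF Φ N g j i = (if i = j then (N : ℤ) else 0) • (1 : T → K)
      - (Fintype.card Φ) • bet Φ 1 ((fun u => g j u⁻¹) * g i) := by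
    funext y
    rw [FF, Pi.sub_apply, Pi.smul_apply, Pi.smul_apply, Pi.one_apply, nsmul_eq_mul, bet,
      ← mul_assoc, mul_inv_cancel₀ (card_ne Φ), one_mul, zsmul_eq_mul, mul_one]
    congr 1
    · split_ifs
      · rfl
      · rw [Int.cast_zero]
    · exact Finset.sum_congr rfl fun v _ => by
        rw [MonoidHom.one_apply, Units.val_one, mul_one, Pi.mul_apply]
  rw [h1]
  exact (vir T K).sub_mem (zsmul_mem (vir T K).one_mem _)
    (nsmul_mem (bet_vir Φ 1 ((vir T K).mul_mem (vir_inv (hg j)) (hg i))) _)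

theorem FF_gram {N : ℤ} {y : T} (h : Gr Φ g (N : K) y) (j : I) :
    ∑ i, FF Φ N g j i y * FF Φ N g j i y⁻¹
      = (N : K) * (N - ∑ v : Φ, g j (y * v) * g j (y * v)⁻¹) := by
  classical
  have h1 : ∀ i, FF Φ N g j i y * FF Φ N g j i y⁻¹
      = (if i = j then (N : K) else 0) * (if i = j then (N : K) else 0)
        - (if i = j then (N : K) else 0) * (∑ v : Φ, g j (y * v) * g i (y * v)⁻¹)
        - (if i = j then (N : K) else 0) * (∑ v : Φ, g j (y * v)⁻¹ * g i (y * v))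
        + ∑ v : Φ, ∑ w : Φ, (g j (y * v)⁻¹ * g j (y * w)) * (g i (y * v) * g i (y * w)⁻¹) := by
    intro i
    rw [FF_inv, FF]
    have h2 : (∑ v : Φ, g j (y * v)⁻¹ * g i (y * v)) * (∑ v : Φ, g j (y * v) * g i (y * v)⁻¹)
        = ∑ v : Φ, ∑ w : Φ, (g j (y * v)⁻¹ * g j (y * w)) * (g i (y * v) * g i (y * w)⁻¹) := by
      rw [Finset.sum_mul_sum]
      exact Finset.sum_congr rfl fun v _ => Finset.sum_congr rfl fun w _ => by ring
    rw [← h2]
    ring
  rw [Finset.sum_congr rfl fun i _ => h1 i, Finset.sum_add_distrib, Finset.sum_sub_distrib,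
    Finset.sum_sub_distrib]
  have e1 : ∑ i, (if i = j then (N : K) else 0) * (if i = j then (N : K) else 0) = N * N := by
    rw [Finset.sum_eq_single j]
    · rw [if_pos rfl]
    · intro i _ hij
      rw [if_neg hij, zero_mul]
    · intro h2
      exact absurd (Finset.mem_univ j) h2
  have e2 : ∑ i, (if i = j then (N : K) else 0) * (∑ v : Φ, g j (y * v) * g i (y * v)⁻¹)
      = N * ∑ v : Φ, g j (y * v) * g j (y * v)⁻¹ := by
    rw [Finset.sum_eq_single j]
    · rw [if_pos rfl]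
    · intro i _ hij
      rw [if_neg hij, zero_mul]
    · intro h2
      exact absurd (Finset.mem_univ j) h2
  have e3 : ∑ i, (if i = j then (N : K) else 0) * (∑ v : Φ, g j (y * v)⁻¹ * g i (y * v))
      = N * ∑ v : Φ, g j (y * v) * g j (y * v)⁻¹ := by
    rw [Finset.sum_eq_single j]
    · rw [if_pos rfl]
      congr 1
      exact Finset.sum_congr rfl fun v _ => mul_comm _ _
    · intro i _ hij
      rw [if_neg hij, zero_mul]
    · intro h2
      exact absurd (Finset.mem_univ j) h2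
  have e4 : ∑ i, ∑ v : Φ, ∑ w : Φ, (g j (y * v)⁻¹ * g j (y * w)) * (g i (y * v) * g i (y * w)⁻¹)
      = N * ∑ v : Φ, g j (y * v) * g j (y * v)⁻¹ := by
    rw [Finset.sum_comm, Finset.mul_sum]
    refine Finset.sum_congr rfl fun v _ => ?_
    rw [Finset.sum_comm]
    have h3 : ∀ w : Φ, ∑ i, (g j (y * v)⁻¹ * g j (y * w)) * (g i (y * v) * g i (y * w)⁻¹)
        = if v = w then (g j (y * v)⁻¹ * g j (y * w)) * (N : K) else 0 := by
      intro w
      rw [← Finset.mul_sum, h.eq]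
      split_ifs
      · rfl
      · rw [mul_zero]
    rw [Finset.sum_congr rfl fun w _ => h3 w, Finset.sum_ite_eq, if_pos (Finset.mem_univ _)]
    ring
  rw [e1, e2, e3, e4]
  ring

/-- the sum of the squares of the absolute values of the part over `m` at the generators -/
theorem nm_bet_pow {x : T} (hT : ∀ u : T, u ^ p ^ s = 1) {h : T → K}
    (hfix : ∀ k : (ZMod (p ^ s))ˣ, ∀ v : Φ,
      h ((x ^ (k : ZMod (p ^ s)).val * v) ^ (1 + p)) = h (x ^ (k : ZMod (p ^ s)).val * v))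
    (m : Φ →* Kˣ) : nm p s (bet Φ (mpow m (1 + p)) h) x = nm p s (bet Φ m h) x := by
  have hp : p.Prime := Fact.out
  have : NeZero (p ^ s) := ⟨pow_ne_zero _ hp.ne_zero⟩
  have hcop : (1 + p).Coprime (p ^ s) := by
    refine Nat.Coprime.pow_right s ?_
    rw [Nat.coprime_add_self_left]
    exact Nat.coprime_one_left p
  have hbij : Function.Bijective fun v : Φ => v ^ (1 + p) := by
    have hinj : Function.Injective fun v : Φ => v ^ (1 + p) := by
      intro v w hvw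
      have hvw' : v ^ (1 + p) = w ^ (1 + p) := hvw
      obtain ⟨n, hn⟩ := exists_pow_eq_self_of_coprime (n := 1 + p) (x := v * w⁻¹)
        (Nat.Coprime.coprime_dvd_right (orderOf_dvd_of_pow_eq_one (Subtype.ext (hT _))) hcop)
      rw [mul_pow, hvw', inv_pow, mul_inv_cancel, one_pow] at hn
      exact (mul_inv_eq_one.1 hn.symm)
    exact Finite.injective_iff_bijective.1 hinj
  have step : ∀ k : (ZMod (p ^ s))ˣ, bet Φ (mpow m (1 + p)) h (x ^ (k : ZMod (p ^ s)).val)
      = bet Φ m h ((x ^ (k : ZMod (p ^ s)).val) ^ (1 + p)) := by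
    intro k
    rw [bet, bet]
    congr 1
    refine Fintype.sum_bijective _ hbij _ _ fun v => ?_
    rw [← hfix k v, mul_pow, ← Subgroup.coe_pow]
    congr 2
    rw [mpow_apply, ← map_pow, inv_pow]
  let u : (ZMod (p ^ s))ˣ := ZMod.unitOfCoprime (1 + p) hcop
  have hu : ((u : (ZMod (p ^ s))ˣ) : ZMod (p ^ s)) = ((1 + p : ℕ) : ZMod (p ^ s)) :=
    ZMod.coe_unitOfCoprime _ _
  rw [nm, nm]
  refine Fintype.sum_equiv (Equiv.mulRight u) _ _ fun k => ?_
  have e1 : x ^ ((Equiv.mulRight u k : (ZMod (p ^ s))ˣ) : ZMod (p ^ s)).val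
      = (x ^ (k : ZMod (p ^ s)).val) ^ (1 + p) := by
    rw [Equiv.coe_mulRight, Units.val_mul, pow_val_mul (hT x), hu, pow_val_natCast (hT _)]
  have e2 : (x ^ (k : ZMod (p ^ s)).val)⁻¹ = x ^ ((-k : (ZMod (p ^ s))ˣ) : ZMod (p ^ s)).val := by
    rw [Units.val_neg, pow_val_neg (hT x)]
  rw [e1, step k, e2, step (-k), ← e2, inv_pow]

theorem nm_bet_iter {x : T} (hT : ∀ u : T, u ^ p ^ s = 1) {h : T → K}
    (hfix : ∀ k : (ZMod (p ^ s))ˣ, ∀ v : Φ,
      h ((x ^ (k : ZMod (p ^ s)).val * v) ^ (1 + p)) = h (x ^ (k : ZMod (p ^ s)).val * v))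
    (m : Φ →* Kˣ) (n : ℕ) : nm p s (bet Φ (mpow m ((1 + p) ^ n)) h) x = nm p s (bet Φ m h) x := by
  induction n with
  | zero => rw [pow_zero, mpow_one]
  | succ n ih => rw [pow_succ, mpow_mul, nm_bet_pow Φ hT hfix, ih]

variable [HasEnoughRootsOfUnity K (Monoid.exponent T)]

/-- the Gram sum over the rows -/
theorem count_defl {N : ℤ} {x : T} (hT : ∀ u : T, u ^ p ^ s = 1) (hg : ∀ i, g i ∈ vir T K)
    (hx : ∀ k : (ZMod (p ^ s))ˣ, Gr Φ g (N : K) (x ^ (k : ZMod (p ^ s)).val))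
    (m : Φ →* Kˣ) (R : Finset I) (hR : ∀ i ∈ R, bet Φ m (g i) x ≠ 0) :
    (R.card : ℤ) * Fintype.card Φ ≤ N := by
  classical
  have hz := fun i => nm_int hT (bet_vir Φ m (hg i)) x
  choose z hz0 hz1 hz2 using hz
  have hc0 : (0 : ℤ) < Fintype.card (ZMod (p ^ s))ˣ := by
    exact_mod_cast Fintype.card_pos
  have h1 : (∑ i, z i : ℤ) * Fintype.card Φ = Fintype.card (ZMod (p ^ s))ˣ * N := by
    have h2 : ((∑ i, z i : ℤ) : K) = Fintype.card (ZMod (p ^ s))ˣ * (N * (Fintype.card Φ : K)⁻¹) := by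
      rw [Int.cast_sum, Finset.sum_congr rfl fun i _ => hz1 i]
      unfold nm
      rw [Finset.sum_comm, Finset.sum_congr rfl fun k _ => bet_gram Φ m (hx k),
        Finset.sum_const, Finset.card_univ, nsmul_eq_mul]
    have h3 : (((∑ i, z i : ℤ) * Fintype.card Φ : ℤ) : K)
        = ((Fintype.card (ZMod (p ^ s))ˣ * N : ℤ) : K) := by
      push_cast at h2 ⊢
      rw [h2]
      have h4 := card_ne (K := K) Φ
      field_simp
    exact_mod_cast h3
  have h2 : (R.card : ℤ) * Fintype.card (ZMod (p ^ s))ˣ ≤ ∑ i, z i := by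
    calc (R.card : ℤ) * Fintype.card (ZMod (p ^ s))ˣ
        = ∑ i ∈ R, (Fintype.card (ZMod (p ^ s))ˣ : ℤ) := by
          rw [Finset.sum_const, nsmul_eq_mul]
      _ ≤ ∑ i ∈ R, z i := Finset.sum_le_sum fun i hi => hz2 i (hR i hi)
      _ ≤ ∑ i, z i := Finset.sum_le_sum_of_subset_of_nonneg (Finset.subset_univ R)
          fun i _ _ => hz0 i
  have h3 : (Fintype.card (ZMod (p ^ s))ˣ : ℤ) * (R.card * Fintype.card Φ)
      ≤ Fintype.card (ZMod (p ^ s))ˣ * N := by
    rw [← h1, ← mul_assoc, mul_comm _ (R.card : ℤ)]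
    exact mul_le_mul_of_nonneg_right h2 (by positivity)
  exact le_of_mul_le_mul_left h3 hc0

/-- the characters of `Φ` over which a fixed row is not zero have small order -/
theorem order_le (hp2 : p ≠ 2) {N : ℤ} (hN : 0 < N) {x : T} (hT : ∀ u : T, u ^ p ^ s = 1)
    (hg : ∀ i, g i ∈ vir T K)
    (hx : ∀ k : (ZMod (p ^ s))ˣ, Gr Φ g (N : K) (x ^ (k : ZMod (p ^ s)).val))
    {j : I} (hfix : ∀ k : (ZMod (p ^ s))ˣ, ∀ v : Φ,
      g j ((x ^ (k : ZMod (p ^ s)).val * v) ^ (1 + p)) = g j (x ^ (k : ZMod (p ^ s)).val * v))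
    [Fintype (Φ →* Kˣ)] {m : Φ →* Kˣ} {a : ℕ} (hm : orderOf m = p ^ (a + 1))
    (hne : bet Φ m (g j) x ≠ 0) : (p ^ a : ℤ) * Fintype.card Φ ≤ N := by
  classical
  have hp : p.Prime := Fact.out
  have hz := fun m => nm_int hT (bet_vir Φ m (hg j)) x
  choose z hz0 hz1 hz2 using hz
  have hw := fun i => nm_int hT (FF_vir Φ hg N j i) x
  choose w hw0 hw1 _ using hw
  have hc0 : (0 : ℤ) < Fintype.card (ZMod (p ^ s))ˣ := by
    exact_mod_cast Fintype.card_pos
  have hF := card_ne (K := K) Φ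
  -- Bessel
  have h1 : (Fintype.card Φ : ℤ) * ∑ m, z m ≤ Fintype.card (ZMod (p ^ s))ˣ * N := by
    have e1 : ((Fintype.card Φ : ℤ) * ∑ m, z m : ℤ) = (∑ k : (ZMod (p ^ s))ˣ, ∑ v : Φ,
        g j (x ^ (k : ZMod (p ^ s)).val * v) * g j (x ^ (k : ZMod (p ^ s)).val * v)⁻¹ : K) := by
      rw [Int.cast_mul, Int.cast_sum, Finset.sum_congr rfl fun m _ => hz1 m]
      unfold nm
      rw [Finset.sum_comm, Finset.sum_congr rfl fun k _ => parseval Φ (hg j) _, ← Finset.mul_sum,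
        Int.cast_natCast, ← mul_assoc, mul_inv_cancel₀ hF, one_mul]
    have e2 : ((∑ i, w i : ℤ) : K)
        = ((N * (Fintype.card (ZMod (p ^ s))ˣ * N - Fintype.card Φ * ∑ m, z m) : ℤ) : K) := by
      rw [Int.cast_sum, Finset.sum_congr rfl fun i _ => hw1 i]
      unfold nm
      rw [Finset.sum_comm, Finset.sum_congr rfl fun k _ => FF_gram Φ (hx k) j, ← Finset.mul_sum,
        Finset.sum_sub_distrib, Finset.sum_const, Finset.card_univ, nsmul_eq_mul, ← e1]
      push_cast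
      ring
    have e3 : ∑ i, w i = N * (Fintype.card (ZMod (p ^ s))ˣ * N - Fintype.card Φ * ∑ m, z m) := by
      exact_mod_cast e2
    have e4 : 0 ≤ ∑ i, w i := Finset.sum_nonneg fun i _ => hw0 i
    rw [e3] at e4
    have e5 := nonneg_of_mul_nonneg_right e4 hN
    linarith
  -- the conjugates
  have h2 : (p ^ a : ℤ) * Fintype.card (ZMod (p ^ s))ˣ ≤ ∑ m, z m := by
    have hinj : Set.InjOn (fun n => mpow m ((1 + p) ^ n)) (Finset.range (p ^ a) : Set ℕ) := by
      intro n hn n' hn' h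
      rw [Finset.coe_range, Set.mem_Iio] at hn hn'
      have e1 : mpow m ((1 + p) ^ n) = mpow m ((1 + p) ^ n') := h
      rw [← mpow_eq, ← mpow_eq] at e1
      have e1 := (pow_eq_pow_iff_modEq (G := Φ →* Kˣ) (x := m)).1 e1
      rw [hm] at e1
      have e2 := (ZMod.natCast_eq_natCast_iff _ _ _).2 e1
      push_cast at e2
      have e3 := ZMod.orderOf_one_add_prime hp hp2 a
      refine pow_injOn_Iio_orderOf (x := (1 + p : ZMod (p ^ (a + 1)))) ?_ ?_ e2
      · rw [Set.mem_Iio, e3]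
        exact hn
      · rw [Set.mem_Iio, e3]
        exact hn'
    have e0 : ∀ n, z (mpow m ((1 + p) ^ n)) = z m := by
      intro n
      have e1 : ((z (mpow m ((1 + p) ^ n)) : ℤ) : K) = (z m : K) := by
        rw [hz1, hz1, nm_bet_iter Φ hT hfix]
      exact_mod_cast e1
    calc (p ^ a : ℤ) * Fintype.card (ZMod (p ^ s))ˣ ≤ p ^ a * z m :=
          mul_le_mul_of_nonneg_left (hz2 m hne) (by positivity)
      _ = ∑ n ∈ Finset.range (p ^ a), z (mpow m ((1 + p) ^ n)) := by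
          rw [Finset.sum_congr rfl fun n _ => e0 n, Finset.sum_const, Finset.card_range,
            nsmul_eq_mul, Nat.cast_pow]
      _ = ∑ m' ∈ (Finset.range (p ^ a)).image fun n => mpow m ((1 + p) ^ n), z m' := by
          rw [Finset.sum_image hinj]
      _ ≤ ∑ m, z m := Finset.sum_le_sum_of_subset_of_nonneg (Finset.subset_univ _)
          fun m _ _ => hz0 m
  have h3 : (Fintype.card (ZMod (p ^ s))ˣ : ℤ) * (p ^ a * Fintype.card Φ)
      ≤ Fintype.card (ZMod (p ^ s))ˣ * N := by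
    refine le_trans ?_ h1
    calc (Fintype.card (ZMod (p ^ s))ˣ : ℤ) * (p ^ a * Fintype.card Φ)
        = Fintype.card Φ * (p ^ a * Fintype.card (ZMod (p ^ s))ˣ) := by ring
      _ ≤ _ := mul_le_mul_of_nonneg_left h2 (by positivity)
  exact le_of_mul_le_mul_left h3 hc0

end

end Pool.Agent.Lib.P0c8ca5.Ku
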