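import Mathlib
import Pool.Agent.Lib.P0c8ca5Ku.KB

/-!
# KB2: the number of rows fixed by `t = 1 + p`
-/

set_option linter.unusedSectionVars false

namespace Pool.Agent.Lib.P0c8ca5.Ku

open Finset Ex

section
variable {T : Type*} [CommGroup T] [Fintype T] {K : Type*} [Field K] [CharZero K] {p : ℕ}
  [Fact p.Prime] [HasEnoughRootsOfUnity K (Monoid.exponent T)] {s : ℕ} {I : Type*} [Fintype I]
  {g : I → T → K} {E : Subgroup (MulAut T)} {U : T → Prop}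

theorem pow_unit_mem {Φ : Subgroup T} (hT : ∀ u : T, u ^ p ^ s = 1) (k : (ZMod (p ^ s))ˣ) {w : T}
    (h : w ^ (k : ZMod (p ^ s)).val ∈ Φ) : w ∈ Φ := by
  have h1 := ZMod.val_coe_unit_coprime k
  obtain ⟨n, hn⟩ := exists_pow_eq_self_of_coprime (n := (k : ZMod (p ^ s)).val) (x := w)
    (Nat.Coprime.coprime_dvd_right (orderOf_dvd_of_pow_eq_one (hT w)) h1)
  rw [← hn]
  exact Φ.pow_mem h n

/-- **the number of rows fixed by `u ↦ u ^ (1 + p)`** -/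
theorem rows_le (hp2 : p ≠ 2) (hT : ∀ u : T, u ^ p ^ s = 1) (hg : ∀ i, g i ∈ vir T K)
    (horth : ∀ u v, U u → U v → (∃ φ ∈ E, v = φ u) →
      ∑ i, g i u * g i v⁻¹ = (Fintype.card T : K))
    (horth0 : ∀ u v, U u → U v → (¬ ∃ φ ∈ E, v = φ u) → ∑ i, g i u * g i v⁻¹ = 0)
    {R : Finset I} (hfix : ∀ j ∈ R, ∀ u, U u → g j (u ^ (1 + p)) = g j u)
    (hne : ∀ j ∈ R, ∀ u, U u → g j u ≠ 0)
    {Φ : Subgroup T} (hΦ : ∀ φ ∈ E, ∀ v ∈ Φ, φ v ∈ Φ) {x : T}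
    (hx : ∀ φ ∈ E, x⁻¹ * φ x ∈ Φ → φ = 1)
    (hU : ∀ u, (∀ φ ∈ E, u⁻¹ * φ u ∈ Φ → φ = 1) → U u)
    {c : ℕ} (hc : Nat.card T = p ^ c * Nat.card Φ) {Φ₁ : Subgroup T}
    (hΦ₁ : ∀ w ∈ Φ₁, ∃ v ∈ Φ, w = v ^ p ^ (c + 1)) : R.card * Nat.card Φ₁ ≤ Nat.card T := by
  classical
  have hp : p.Prime := Fact.out
  have hle : Φ₁ ≤ Φ := by
    intro w hw
    obtain ⟨v, hv, rfl⟩ := hΦ₁ w hw
    exact Φ.pow_mem hv _
  have hreg : ∀ (k : (ZMod (p ^ s))ˣ) (v : T), v ∈ Φ →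
      ∀ φ ∈ E, (x ^ (k : ZMod (p ^ s)).val * v)⁻¹ * φ (x ^ (k : ZMod (p ^ s)).val * v) ∈ Φ →
        φ = 1 := by
    intro k v hv φ hφ h
    apply hx φ hφ
    apply pow_unit_mem hT k
    have h1 : (x⁻¹ * φ x) ^ (k : ZMod (p ^ s)).val
        = ((x ^ (k : ZMod (p ^ s)).val * v)⁻¹ * φ (x ^ (k : ZMod (p ^ s)).val * v))
          * (v * (φ v)⁻¹) := by
      rw [map_mul, map_pow, mul_pow, inv_pow, mul_inv]
      have e : ∀ a b c d : T, (a * b) * (c * d) * (b⁻¹ * d⁻¹) = a * c := by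
        intro a b c d
        calc (a * b) * (c * d) * (b⁻¹ * d⁻¹) = a * c * (b * b⁻¹) * (d * d⁻¹) := by
              simp only [mul_assoc, mul_left_comm, mul_comm]
          _ = a * c := by rw [mul_inv_cancel, mul_inv_cancel, mul_one, mul_one]
      have e2 := e (x ^ (k : ZMod (p ^ s)).val)⁻¹ v⁻¹ (φ x ^ (k : ZMod (p ^ s)).val) (φ v)
      rw [inv_inv] at e2
      exact e2.symm
    rw [h1]
    exact Φ.mul_mem h (Φ.mul_mem hv (Φ.inv_mem (hΦ φ hφ v hv)))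
  have hUk : ∀ (k : (ZMod (p ^ s))ˣ) (v : T), v ∈ Φ → U (x ^ (k : ZMod (p ^ s)).val * v) :=
    fun k v hv => hU _ (hreg k v hv)
  have hGr : ∀ (Ψ : Subgroup T) (_ : Ψ ≤ Φ) (k : (ZMod (p ^ s))ˣ),
      Gr Ψ g ((Fintype.card T : ℤ) : K) (x ^ (k : ZMod (p ^ s)).val) := by
    intro Ψ hΨ k
    refine ⟨fun v => ?_, fun v w hvw => ?_⟩
    · rw [horth _ _ (hUk k v (hΨ v.2)) (hUk k v (hΨ v.2)) ⟨1, E.one_mem, rfl⟩, Int.cast_natCast]
    · refine horth0 _ _ (hUk k v (hΨ v.2)) (hUk k w (hΨ w.2)) ?_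
      rintro ⟨φ, hφ, h⟩
      have h1 : φ = 1 := by
        refine hreg k v (hΨ v.2) φ hφ ?_
        rw [← h, mul_inv, mul_mul_mul_comm, inv_mul_cancel, one_mul]
        exact Φ.mul_mem (Φ.inv_mem (hΨ v.2)) (hΨ w.2)
      rw [h1, MulAut.one_apply] at h
      exact hvw (Subtype.ext (mul_left_cancel h).symm)
  have hN0 : (0 : ℤ) < Fintype.card T := by
    have : Nonempty T := ⟨1⟩
    exact_mod_cast Fintype.card_pos
  have hexp : Monoid.exponent Φ ∣ Monoid.exponent T := by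
    apply Monoid.exponent_dvd_of_forall_pow_eq_one
    intro v
    exact Subtype.ext (Monoid.pow_exponent_eq_one (v : T))
  have : NeZero (Monoid.exponent T) := ⟨Monoid.exponent_ne_zero_of_finite⟩
  have : HasEnoughRootsOfUnity K (Monoid.exponent Φ) := HasEnoughRootsOfUnity.of_dvd K hexp
  have : Fintype (Φ →* Kˣ) := Fintype.ofFinite _
  have hΦcard : (Fintype.card Φ : ℤ) = Nat.card Φ := by rw [Nat.card_eq_fintype_card]
  have hΦpos : (0 : ℤ) < Nat.card Φ := by exact_mod_cast Nat.card_pos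
  have hx1 : U x := hU x hx
  -- the rows in `R` are constant on `x Φ₁`
  have hconst : ∀ j ∈ R, ∀ w : Φ, (w : T) ∈ Φ₁ → g j (x * w) = g j x := by
    intro j hj w hw
    have h1 := bet_sum Φ (hg j) x w
    have h2 := bet_sum Φ (hg j) x 1
    rw [Subgroup.coe_one, mul_one] at h2
    rw [h1, h2]
    refine Finset.sum_congr rfl fun m _ => ?_
    by_cases hb : bet Φ m (g j) x = 0
    · rw [hb, zero_mul, zero_mul]
    congr 2
    rw [map_one]
    obtain ⟨v, hv, hvw⟩ := hΦ₁ w hw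
    have h3 : w = (⟨v, hv⟩ : Φ) ^ p ^ (c + 1) := Subtype.ext hvw
    have h4 : (mpow m (p ^ s)) = 1 := by
      ext z
      rw [mpow_apply, ← map_pow]
      have h5 : z ^ p ^ s = 1 := Subtype.ext (hT z)
      rw [h5, map_one]
      rfl
    rw [← mpow_eq] at h4
    obtain ⟨a, -, ha⟩ := (Nat.dvd_prime_pow hp).1
      ((orderOf_dvd_iff_pow_eq_one (G := Φ →* Kˣ) (x := m)).2 h4)
    have h5 : a ≤ c + 1 := by
      rcases a with _ | a
      · exact Nat.zero_le _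
      · have h6 := order_le Φ hp2 hN0 hT hg (hGr Φ le_rfl)
          (fun k v => hfix j hj _ (hUk k v v.2)) ha hb
        rw [hΦcard, Fintype.card_eq_nat_card, hc] at h6
        push_cast at h6
        have h7 := le_of_mul_le_mul_right h6 hΦpos
        have h8 : p ^ a ≤ p ^ c := by exact_mod_cast h7
        have := (Nat.pow_le_pow_iff_right hp.one_lt).1 h8
        omega
    have h6 : @HPow.hPow (Φ →* Kˣ) ℕ (Φ →* Kˣ) (@instHPow _ ℕ NPow.toPow) m (p ^ (c + 1)) = 1 :=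
      (orderOf_dvd_iff_pow_eq_one (G := Φ →* Kˣ) (x := m)).1 (ha ▸ pow_dvd_pow p h5)
    rw [mpow_eq] at h6
    rw [h3, map_pow, ← mpow_apply, h6, MonoidHom.one_apply]
  have hb : ∀ j ∈ R, bet Φ₁ 1 (g j) x ≠ 0 := by
    intro j hj
    have h1 : bet Φ₁ 1 (g j) x = g j x := by
      rw [bet, Finset.sum_congr rfl (g := fun _ => g j x) fun v _ => by
        rw [MonoidHom.one_apply, Units.val_one, mul_one]
        exact hconst j hj ⟨v, hle v.2⟩ v.2, Finset.sum_const, Finset.card_univ, nsmul_eq_mul,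
        ← mul_assoc, inv_mul_cancel₀ (card_ne Φ₁), one_mul]
    rw [h1]
    exact hne j hj x hx1
  have h1 := count_defl Φ₁ hT hg (hGr Φ₁ hle) 1 R hb
  rw [Fintype.card_eq_nat_card, Fintype.card_eq_nat_card] at h1
  exact_mod_cast h1

end

end Pool.Agent.Lib.P0c8ca5.Ku
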