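import Mathlib
import Pool.Agent.Lib.P0c8ca5Ex.GG
import Pool.Agent.Lib.P0c8ca5Ex.GH

/-!
# KC: the irreducible representations of a block and the fixed points of a permutation of its
ordinary characters

`fix_ge'`: `s` permutes the ordinary characters in the block `b` such that `s χ` has on `v F` the
value of `χ` on `v ^ t F` (`v` a p-element, `F` an idempotent commuting with `v`), and no pair
`(v, c)` with `v ^ t ≠ v` is conjugate to `(v ^ t, c)`. Then `s` has at least `l(b)` fixed points.
-/

set_option linter.unusedSectionVars false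

namespace Pool.Agent.Lib.P0c8ca5.Ex

open MonoidAlgebra Finset

theorem trace_perm_set {K : Type*} [Field K] [CharZero K] {I : Type*} [Fintype I] [DecidableEq I]
    {R : Type*} [Fintype R] [DecidableEq R] {J : R → Type*} [∀ r, Fintype (J r)]
    [∀ r, DecidableEq (J r)] (t t' : ∀ r, J r → I → K) (s : Equiv.Perm I) (S : R → Prop)
    [DecidablePred S]
    (h0 : ∀ r r', r ≠ r' → ∀ j j', ∑ i, t r j i * t' r' j' i = 0)
    (hdet : ∀ r, (Matrix.of fun j j' => ∑ i, t r j i * t' r j' i).det ≠ 0)
    (hinj : ∀ a : I → K, (∀ r j, ∑ i, t r j i * a i = 0) → a = 0)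
    (h1 : ∀ r, S r → ∀ j i, t r j (s i) = t r j i)
    (h2 : ∀ r, ¬ S r → ∀ j j', ∑ i, t r j (s i) * t' r j' i = 0) :
    (univ.filter fun i => s i = i).card = ∑ r ∈ univ.filter S, Fintype.card (J r) := by
  classical
  let G : ∀ r, Matrix (J r) (J r) K := fun r => Matrix.of fun j j' => ∑ i, t r j i * t' r j' i
  have hG : ∀ r, G r * (G r)⁻¹ = 1 := fun r => Matrix.mul_nonsing_inv _ (isUnit_iff_ne_zero.2 (hdet r))
  let X : Matrix (Σ r, J r) I K := fun x i => t x.1 x.2 i
  let Y : Matrix I (Σ r, J r) K := fun i x => ∑ j', t' x.1 j' i * (G x.1)⁻¹ j' x.2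
  have hgen : ∀ (w : I → K) (y : Σ r, J r), ∑ i, w i * Y i y
      = ∑ j', (∑ i, w i * t' y.1 j' i) * (G y.1)⁻¹ j' y.2 := by
    intro w y
    simp only [Y, Finset.mul_sum, Finset.sum_mul]
    rw [Finset.sum_comm]
    exact Finset.sum_congr rfl fun j' _ => Finset.sum_congr rfl fun i _ => by ring
  have hXY : X * Y = 1 := by
    ext x y
    rw [Matrix.mul_apply, hgen]
    obtain ⟨r, j⟩ := x
    obtain ⟨r', j'⟩ := y
    by_cases hr : r = r'
    · subst hr
      have e1 : ∑ l, (∑ i, X ⟨r, j⟩ i * t' r l i) * (G r)⁻¹ l j' = (G r * (G r)⁻¹) j j' := by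
        rw [Matrix.mul_apply]
        rfl
      rw [e1, hG]
      by_cases hj : j = j'
      · subst hj
        rw [Matrix.one_apply_eq, Matrix.one_apply_eq]
      · rw [Matrix.one_apply_ne hj, Matrix.one_apply_ne]
        intro h
        exact hj (by simpa using h)
    · rw [Matrix.one_apply_ne (fun h => hr (congrArg Sigma.fst h))]
      refine Finset.sum_eq_zero fun l _ => ?_
      have e1 : ∑ i, X ⟨r, j⟩ i * t' r' l i = 0 := h0 r r' hr j l
      rw [e1, zero_mul]
  have hYX : Y * X = 1 := by
    have e1 : X * (Y * X - 1) = 0 := by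
      rw [Matrix.mul_sub, ← Matrix.mul_assoc, hXY, Matrix.one_mul, Matrix.mul_one, sub_self]
    have e2 : Y * X - 1 = 0 := by
      ext i i'
      have e3 := hinj (fun l => (Y * X - 1 : Matrix I I K) l i') fun r j => by
        have e4 := congrFun (congrFun e1 ⟨r, j⟩) i'
        rw [Matrix.mul_apply] at e4
        exact e4
      exact congrFun e3 i
    exact sub_eq_zero.1 e2
  let P : Matrix I I K := fun i' i => if i' = s i then 1 else 0
  have hXP : ∀ x i, (X * P) x i = X x (s i) := by
    intro x i
    rw [Matrix.mul_apply, Finset.sum_eq_single (s i)]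
    · simp [P]
    · intro i' _ hi'
      simp [P, hi']
    · intro h
      exact absurd (Finset.mem_univ _) h
  have htr : P.trace = ((univ.filter fun i => s i = i).card : K) := by
    rw [Matrix.trace, Finset.card_filter, Nat.cast_sum]
    refine Finset.sum_congr rfl fun i _ => ?_
    change (if i = s i then (1 : K) else 0) = _
    by_cases h : s i = i
    · rw [if_pos h.symm, if_pos h, Nat.cast_one]
    · rw [if_neg (fun h' => h h'.symm), if_neg h, Nat.cast_zero]
  have htr2 : P.trace = ((∑ r ∈ univ.filter S, Fintype.card (J r) : ℕ) : K) := by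
    have e1 : P.trace = (X * P * Y).trace := by
      calc P.trace = (P * (Y * X)).trace := by rw [hYX, Matrix.mul_one]
        _ = (P * Y * X).trace := by rw [Matrix.mul_assoc]
        _ = (X * (P * Y)).trace := Matrix.trace_mul_comm _ _
        _ = (X * P * Y).trace := by rw [Matrix.mul_assoc]
    rw [e1, Matrix.trace, Fintype.sum_sigma, Nat.cast_sum, Finset.sum_filter]
    refine Finset.sum_congr rfl fun r _ => ?_
    split_ifs with hS
    · rw [Finset.sum_congr rfl (g := fun _ => (1 : K)), Finset.sum_const, Finset.card_univ,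
        nsmul_eq_mul, mul_one]
      intro j _
      rw [Matrix.diag_apply, Matrix.mul_apply, hgen]
      have e2 : ∑ l, (∑ i, (X * P) ⟨r, j⟩ i * t' r l i) * (G r)⁻¹ l j
          = (G r * (G r)⁻¹) j j := by
        rw [Matrix.mul_apply]
        refine Finset.sum_congr rfl fun l _ => ?_
        congr 1
        refine Finset.sum_congr rfl fun i _ => ?_
        rw [hXP]
        exact congrArg (· * t' r l i) (h1 r hS j i)
      rw [e2, hG, Matrix.one_apply_eq]
    · refine Finset.sum_eq_zero fun j _ => ?_
      rw [Matrix.diag_apply, Matrix.mul_apply, hgen]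
      refine Finset.sum_eq_zero fun l _ => ?_
      have e2 : ∑ i, (X * P) ⟨r, j⟩ i * t' r l i = 0 := by
        rw [← h2 r hS j l]
        refine Finset.sum_congr rfl fun i _ => ?_
        rw [hXP]
      rw [e2, zero_mul]
  have := htr.symm.trans htr2
  exact_mod_cast this


section
variable {p : ℕ} [Fact p.Prime] {k : Type*} [Field k] [IsAlgClosed k] [CharP k p]
  {A : Type*} [Group A] [Finite A]

theorem fix_ge' {b : MonoidAlgebra k A} {B : MonoidAlgebra (OW p k) A}
    (hb : IsBlock (⊤ : Subgroup A) b) (hB : CenL b B) (s : Equiv.Perm (IrB B)) {t : ℕ}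
    (ht : t.Coprime p)
    (hs : ∀ (χ : IrB B) (v : A) (M : ℕ), v ^ p ^ M = 1 → ∀ F : MonoidAlgebra (OW p k) A,
      F * F = F → single v 1 * F = F * single v (1 : OW p k) →
      chO (s χ).1 (single v 1 * F) = chO χ.1 (single (v ^ t) 1 * F))
    (hN : ∀ (v g : A) (M : ℕ) (c : MonoidAlgebra k A), v ^ p ^ M = 1 → v ^ t ≠ v →
      IsBlock (C1 v) c → resS (C1 v : Set A) b * c = c → v ^ t * g = g * v → cj g c ≠ c) :
    Nat.card (Quotient (irrInvSetoid (⊤ : Subgroup A) ⊤ b))
      ≤ Nat.card {χ : IrB B // s χ = χ} := by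
  classical
  have hp : p.Prime := Fact.out
  have := Fintype.ofFinite A
  have hfin := finite_pr (p := p) b
  let R := Quotient (prS p b)
  have : Fintype R := Fintype.ofFinite R
  -- the trivial pair
  have hC1 : C1 (1 : A) = ⊤ := by
    ext x
    rw [mem_C1', one_mul, mul_one]
    simp
  have hres1 : resS (C1 (1 : A) : Set A) b = b := by
    ext x
    rw [coeff_resS_of_mem]
    rw [hC1]
    exact Subgroup.mem_top x
  let x₁ : Pr p b := ⟨1, b, ⟨0, one_pow _⟩, by rw [hC1]; exact hb, by rw [hres1, hb.idem]⟩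
  let r₁ : R := Quotient.mk _ x₁
  have hr₁ : (Quotient.out r₁).v = 1 ∧ (Quotient.out r₁).c = b := by
    obtain ⟨g, h1, h2⟩ : (prS p b).r (Quotient.out r₁) x₁ := Quotient.mk_out x₁
    refine ⟨?_, ?_⟩
    · have h3 : (Quotient.out r₁).v * g = g * 1 := h1
      rw [mul_one] at h3
      exact mul_eq_right.1 h3
    · rw [← h2]
      exact invBy_iff_cj.1 hb.invBy g (Subgroup.mem_top g)
  -- the idempotents
  have hfam := fun r : R => exists_family (p := p) (dnr (C1 (Quotient.out r).v) (Quotient.out r).c)
  choose n F hF using hfam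
  have hM : ∃ M : ℕ, ∀ v : A, (∃ M : ℕ, v ^ p ^ M = 1) → v ^ p ^ M = 1 := by
    refine ⟨Nat.card A, ?_⟩
    rintro v ⟨M, hM⟩
    have h1 : orderOf v ∣ p ^ M := orderOf_dvd_of_pow_eq_one hM
    obtain ⟨j, -, hj⟩ := (Nat.dvd_prime_pow hp).1 h1
    have h2 : p ^ j ≤ Nat.card A := hj ▸ orderOf_le_card
    have h3 : j ≤ Nat.card A := (Nat.lt_pow_self hp.one_lt).le.trans h2
    exact orderOf_dvd_iff_pow_eq_one.1 (hj ▸ pow_dvd_pow p h3)
  obtain ⟨M, hM⟩ := hM
  have hv : ∀ r : R, (Quotient.out r).v ^ p ^ M = 1 := fun r => hM _ (Quotient.out r).pel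
  have hcomm : ∀ r j, single (Quotient.out r).v 1 * upr (C1 (Quotient.out r).v) (F r j)
      = upr (C1 (Quotient.out r).v) (F r j) * single (Quotient.out r).v (1 : OW p k) :=
    fun r j => single_upr _ _
  have hidem : ∀ r j, upr (C1 (Quotient.out r).v) (F r j) * upr (C1 (Quotient.out r).v) (F r j)
      = upr (C1 (Quotient.out r).v) (F r j) := fun r j => by rw [← map_mul, (hF r).idem]
  let T : ∀ r : R, Fin (n r) → Ir (KW p k) A → KW p k := fun r j χ =>
    chO χ (single (Quotient.out r).v 1 * upr (C1 (Quotient.out r).v) (F r j))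
  let T' : ∀ r : R, Fin (n r) → Ir (KW p k) A → KW p k := fun r j χ =>
    chO χ (upr (C1 (Quotient.out r).v) (F r j) * single (Quotient.out r).v⁻¹ 1)
  have hTz : ∀ r j χ, chO χ B = 0 → T r j χ = 0 := fun r j χ hχ =>
    col_zero hB (hv r) (Quotient.out r).blk (Quotient.out r).below ((hF r).below j)
      ⟨(hF r).idem j, rfl⟩ χ hχ
  have hsum : ∀ (w : Ir (KW p k) A → KW p k) r j, ∑ χ : IrB B, T r j χ.1 * w χ.1
      = ∑ χ, T r j χ * w χ := by
    intro w r j
    symm
    exact sum_irB (fun χ => T r j χ * w χ) fun χ hχ => by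
      rw [hTz r j χ hχ, zero_mul]
  have hCt : ∀ r : R, C1 ((Quotient.out r).v ^ t) = C1 (Quotient.out r).v := by
    intro r
    have h1 : Subgroup.zpowers ((Quotient.out r).v ^ t) = Subgroup.zpowers (Quotient.out r).v := by
      refine le_antisymm ?_ ?_
      · rw [Subgroup.zpowers_le]
        exact (Subgroup.zpowers (Quotient.out r).v).pow_mem (Subgroup.mem_zpowers _) t
      · rw [Subgroup.zpowers_le]
        have h1 : t.Coprime (orderOf (Quotient.out r).v) :=
          Nat.Coprime.coprime_dvd_right (orderOf_dvd_of_pow_eq_one (hv r))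
            (Nat.Coprime.pow_right M ht)
        obtain ⟨j, hj⟩ := exists_pow_eq_self_of_coprime h1
        have h2 : ((Quotient.out r).v ^ t) ^ j ∈ Subgroup.zpowers ((Quotient.out r).v ^ t) :=
          Subgroup.pow_mem _ (Subgroup.mem_zpowers _) _
        rwa [hj] at h2
    rw [← CD_zpowers, h1, CD_zpowers]
  have key := trace_perm_set (K := KW p k) (I := IrB B) (R := R) (J := fun r => Fin (n r))
    (fun r j χ => T r j χ.1) (fun r j χ => T' r j χ.1) s
    (fun r => (Quotient.out r).v ^ t = (Quotient.out r).v)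
    (fun r r' hrr j j' => by
      rw [hsum (fun χ => T' r' j' χ)]
      refine off_zero (hv r) (hv r') (Quotient.out r).blk (Quotient.out r').blk
        ((hF r).below j) ⟨(hF r).idem j, rfl⟩ ((hF r').below j') ⟨(hF r').idem j', rfl⟩ ?_
      intro g hg hcd
      apply hrr
      rw [← Quotient.out_eq r, ← Quotient.out_eq r']
      exact Quotient.sound ⟨g, hg, hcd⟩)
    (fun r => by
      have e1 := (hF r).gram
      intro h0
      apply e1
      rw [← h0]
      congr 1
      ext j j'
      rw [Matrix.of_apply, Matrix.of_apply, hsum (fun χ => T' r j' χ)]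
      symm
      exact tp_chi_self (p := p) (hv r) sepO (hidem r j) (hidem r j') ((hF r).idem j)
        ((hF r).idem j') (hcomm r j) (hcomm r j') (gap_self _ (F r j) _) (gap_self _ (F r j') _))
    (fun a ha => by
      let a' : Ir (KW p k) A → KW p k := fun χ => if h : chO χ B ≠ 0 then a ⟨χ, h⟩ else 0
      have ha'1 : ∀ χ, chO χ B = 0 → a' χ = 0 := fun χ hχ => by
        simp only [a']
        rw [dif_neg (fun h => h hχ)]
      have ha'2 : ∀ χ : IrB B, a' χ.1 = a χ := fun χ => by
        simp only [a']
        rw [dif_pos χ.2]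
      have hT0 : ∀ r j, ∑ χ, a' χ * T r j χ = 0 := by
        intro r j
        have h1 := hsum a' r j
        simp only [ha'2] at h1
        rw [ha r j] at h1
        rw [h1]
        exact Finset.sum_congr rfl fun χ _ => mul_comm _ _
      have h0 := form_zero (fun g => invBy_iff_cj.1 hb.invBy g (Subgroup.mem_top g)) hb.idem hB
        a' ha'1 (by
          intro v M' hvM c hc hbc E hE hEc
          let x : Pr p b := ⟨v, c, ⟨M', hvM⟩, hc, hbc⟩
          let r : R := Quotient.mk _ x
          obtain ⟨g, hg, hgc⟩ : (prS p b).r (Quotient.out r) x := Quotient.mk_out x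
          obtain ⟨m, hm⟩ := (hF r).span (dnr (C1 (Quotient.out r).v) (cjr g (upr (C1 v) E)))
            (cjr_idem hg hE) (cj_below (Quotient.out r).blk hc hgc hEc)
          have h2 : ∀ χ : Ir (KW p k) A, chO χ (single v 1 * upr (C1 v) E)
              = ∑ j, m j * T r j χ := by
            intro χ
            rw [cj_col hg, col_lin hm]
          simp only [h2, Finset.mul_sum]
          rw [Finset.sum_comm]
          refine Finset.sum_eq_zero fun j _ => ?_
          have h3 := hT0 r j
          calc ∑ χ, a' χ * (m j * T r j χ) = m j * ∑ χ, a' χ * T r j χ := by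
                rw [Finset.mul_sum]
                exact Finset.sum_congr rfl fun χ _ => by ring
            _ = 0 := by rw [h3, mul_zero])
      funext χ
      rw [← ha'2 χ, h0 χ.1]
      rfl)
    (fun r hr j χ => by
      have h1 := hs χ (Quotient.out r).v M (hv r) (upr (C1 (Quotient.out r).v) (F r j))
        (hidem r j) (hcomm r j)
      change chO (s χ).1 (single (Quotient.out r).v 1 * upr (C1 (Quotient.out r).v) (F r j))
        = chO χ.1 (single (Quotient.out r).v 1 * upr (C1 (Quotient.out r).v) (F r j))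
      rw [h1, hr])
    (fun r hne j j' => by
      have h1 : ∀ χ : IrB B, T r j (s χ).1
          = chO χ.1 (single ((Quotient.out r).v ^ t) 1 * upr (C1 (Quotient.out r).v) (F r j)) :=
        fun χ => hs χ (Quotient.out r).v M (hv r) _ (hidem r j) (hcomm r j)
      have h2 := off_zero' (p := p) (u := (Quotient.out r).v ^ t) (v := (Quotient.out r).v)
        (M := M) (by rw [← pow_mul, mul_comm, pow_mul, hv r, one_pow]) (hv r) (hCt r)
        (Quotient.out r).blk (Quotient.out r).blk ((hF r).idem j) ((hF r).below j)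
        ((hF r).idem j') ((hF r).below j')
        (fun g hg => hN _ g M _ (hv r) hne (Quotient.out r).blk (Quotient.out r).below hg)
      rw [sum_irB (fun χ => chO χ (single ((Quotient.out r).v ^ t) 1 *
        upr (C1 (Quotient.out r).v) (F r j)) * T' r j' χ) fun χ hχ => by
          change chO χ (single ((Quotient.out r).v ^ t) 1 *
            upr (C1 (Quotient.out r).v) (F r j)) * T' r j' χ = 0
          rw [col_zero' hB (M := M) (by rw [← pow_mul, mul_comm, pow_mul, hv r, one_pow]) (hCt r)
            (Quotient.out r).blk (Quotient.out r).below ((hF r).idem j) ((hF r).below j) χ hχ,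
            zero_mul]] at h2
      refine (Finset.sum_congr rfl fun χ _ => ?_).trans h2
      rw [h1])
  have h1 := family_card (Quotient.out r₁).blk (hF r₁)
  rw [hr₁.1, hr₁.2, hC1] at h1
  have hmem : r₁ ∈ Finset.univ.filter fun r : R => (Quotient.out r).v ^ t = (Quotient.out r).v :=
    Finset.mem_filter.2 ⟨Finset.mem_univ _, by rw [hr₁.1, one_pow]⟩
  have h2 := Finset.single_le_sum (f := fun r : R => Fintype.card (Fin (n r)))
    (fun _ _ => Nat.zero_le _) hmem
  rw [← key] at h2
  refine (h1.trans h2).trans (le_of_eq ?_)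
  rw [Nat.card_eq_fintype_card, Fintype.card_subtype]

end

end Pool.Agent.Lib.P0c8ca5.Ex
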