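import Mathlib
import Pool.Agent.Lib.P0c8ca5Ex.GH

/-!
# KC2: a p-element conjugate to its `t`-th power, `t = 1` modulo `p`

`no_gal1`: `t = 1` modulo `p`, `v` a p-element with `v ^ t ≠ v`, `c` a block of `C(v)` below the
block `b` whose inertial index is prime to `p`: the pairs `(v, c)` and `(v ^ t, c)` are not
conjugate.
-/

set_option linter.unusedSectionVars false

namespace Pool.Agent.Lib.P0c8ca5.Ex

open MonoidAlgebra

theorem dvd_of_pow_one {p t n l : ℕ} (hp : p.Prime) (ht : p ∣ t - 1) (ht1 : 1 ≤ t) (hn : ¬ p ∣ n)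
    (h : p ^ l ∣ t ^ n - 1) : p ^ l ∣ t - 1 := by
  have h1 : (t - 1) * ∑ i ∈ Finset.range n, t ^ i = t ^ n - 1 := by
    obtain ⟨c, rfl⟩ := Nat.exists_eq_add_of_le' ht1
    rw [Nat.add_sub_cancel]
    have h2 : c * ∑ i ∈ Finset.range n, (c + 1) ^ i + 1 = (c + 1) ^ n := by
      clear h hn ht
      induction n with
      | zero => simp
      | succ n ih =>
        rw [Finset.sum_range_succ, pow_succ, ← ih]
        ring_nf
    omega
  rw [← h1] at h
  refine (Nat.Coprime.pow_left l ?_).dvd_of_dvd_mul_right h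
  rw [Nat.Prime.coprime_iff_not_dvd hp]
  intro h3
  apply hn
  have h4 : ((∑ i ∈ Finset.range n, t ^ i : ℕ) : ZMod p) = (n : ZMod p) := by
    have h5 : (t : ZMod p) = 1 := by
      obtain ⟨c, hc⟩ := ht
      have h6 : t = p * c + 1 := by omega
      rw [h6]
      simp
    push_cast
    rw [h5]
    simp
  rw [(ZMod.natCast_eq_zero_iff _ _).2 h3] at h4
  exact (ZMod.natCast_eq_zero_iff _ _).1 h4.symm

section
variable {p : ℕ} [Fact p.Prime] {k : Type*} [Field k] [IsAlgClosed k] [CharP k p]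
  {A : Type*} [Group A] [Finite A] {b f i : MonoidAlgebra k A} {D : Subgroup A}

theorem pow_eN_mem {e : A} (he : e ∈ St D f) : e ^ eN D f ∈ CD D := by
  have hn : ((CD D).subgroupOf (St D f)).Normal := by
    refine ⟨fun x hx g => Subgroup.mem_subgroupOf.2 ?_⟩
    have hg : (g : A) ∈ Subgroup.normalizer (D : Set A) := g.2.1
    have hx' := Subgroup.mem_subgroupOf.1 hx
    refine Subgroup.mem_centralizer_iff.2 fun u hu => ?_
    have h1 : (g : A)⁻¹ * u * g ∈ D := by
      have h2 := (Subgroup.mem_normalizer_iff.1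
        ((Subgroup.normalizer (D : Set A)).inv_mem hg) u).1 hu
      rwa [inv_inv] at h2
    have h2 := Subgroup.mem_centralizer_iff.1 hx' _ h1
    change u * ((g : A) * x * (g : A)⁻¹) = (g : A) * x * (g : A)⁻¹ * u
    calc u * ((g : A) * x * (g : A)⁻¹) = g * (((g : A)⁻¹ * u * g) * x) * (g : A)⁻¹ := by group
      _ = g * (x * ((g : A)⁻¹ * u * g)) * (g : A)⁻¹ := by rw [h2]
      _ = g * x * (g : A)⁻¹ * u := by group
  have h1 := ((CD D).subgroupOf (St D f)).pow_index_mem (⟨e, he⟩ : ↥(St D f))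
  exact Subgroup.mem_subgroupOf.1 h1

theorem no_gal1 (h : Src p b D f i) (hpE : ¬ p ∣ eN D f) {t : ℕ} (ht : p ∣ t - 1) (ht1 : 1 ≤ t)
    {v g : A} {M : ℕ} (hv : v ^ p ^ M = 1) (hv1 : v ^ t ≠ v) {c : MonoidAlgebra k A}
    (hc : IsBlock (C1 v) c) (hbc : resS (C1 v : Set A) b * c = c) (hg : v ^ t * g = g * v) :
    cj g c ≠ c := by
  intro hgc
  have hp : p.Prime := Fact.out
  have hQ : IsPGroup p (Subgroup.zpowers v) := by
    intro x
    obtain ⟨n, hn⟩ := x.2
    refine ⟨M, ?_⟩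
    ext
    rw [Subgroup.coe_pow, ← hn, Subgroup.coe_one]
    change (v ^ n) ^ p ^ M = 1
    rw [← zpow_natCast, ← zpow_mul, mul_comm, zpow_mul, zpow_natCast, hv, one_zpow]
  have := Fintype.ofFinite A
  obtain ⟨x, R, hR, hQR, d, hd, hcd⟩ := lb_all h hpE hQ (c := c)
    (by rw [CD_zpowers]; exact hc) (by rw [CD_zpowers]; exact hbc)
  set u : A := x⁻¹ * v * x with hu
  have huR : u ∈ R := by
    have h1 : v ∈ cg x R := by
      rw [← hQR]
      exact Subgroup.mem_zpowers v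
    exact mem_cg.1 h1
  have hvx : v * x = x * u := by rw [hu]; group
  have hRu : R = Subgroup.zpowers u := by
    have h1 : cg x (Subgroup.zpowers u) = Subgroup.zpowers v := cg_zp hvx
    rw [hQR] at h1
    have h2 : cg x⁻¹ (cg x (Subgroup.zpowers u)) = cg x⁻¹ (cg x R) := by rw [h1]
    rw [cg_cg, cg_cg, inv_mul_cancel, cg_one, cg_one] at h2
    exact h2.symm
  subst hRu
  have huD : u ∈ D := hR (Subgroup.mem_zpowers u)
  have hdH : LbH (C1 u) i d := hd.toH (CD_zpowers u)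
  have hut : u ^ t = x⁻¹ * v ^ t * x := by
    rw [hu]
    have h2 := conj_pow (a := x⁻¹) (b := v) (i := t)
    rw [inv_inv] at h2
    exact h2
  have hy : u ^ t * (x⁻¹ * g * x) = (x⁻¹ * g * x) * u := by
    calc u ^ t * (x⁻¹ * g * x) = x⁻¹ * (v ^ t * g) * x := by rw [hut]; group
      _ = x⁻¹ * (g * v) * x := by rw [hg]
      _ = _ := by rw [hu]; group
  have hyd : cj (x⁻¹ * g * x) d = d := by
    rw [hcd, cj_cj] at hgc
    rw [mul_assoc, ← cj_cj, hgc, cj_cj, inv_mul_cancel, cj_one_left]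
  have hC := C1_conj_pow hy
  have hutD : u ^ t ∈ D := D.pow_mem huD t
  have hdt : LbH (C1 (u ^ t)) i d := by
    rw [hC]
    exact hdH
  obtain ⟨e, he, hue⟩ := fus_elt h hutD huD hy hdt hdH hyd
  have hen := pow_eN_mem he
  have h1 := conj_pow_iter hue (eN D f)
  have h2 : e ^ eN D f * u = u * e ^ eN D f := ((Subgroup.mem_centralizer_iff.1 hen) u huD).symm
  rw [h2] at h1
  have h3 : u ^ t ^ eN D f = u := mul_right_cancel h1
  obtain ⟨m, hm⟩ := h.root.dfg.isPGroup ⟨u, huD⟩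
  have h9 : u ^ p ^ m = 1 := congrArg Subtype.val hm
  obtain ⟨l, -, hl⟩ := (Nat.dvd_prime_pow hp).1 (orderOf_dvd_of_pow_eq_one h9)
  have h4 : 1 ≤ t ^ eN D f := Nat.one_le_pow _ _ ht1
  have h5 : u ^ (t ^ eN D f - 1) = 1 := by
    have h8 : u ^ (t ^ eN D f - 1) * u = u := by
      rw [← pow_succ, Nat.sub_add_cancel h4, h3]
    exact mul_eq_right.1 h8
  have h6 : p ^ l ∣ t ^ eN D f - 1 := hl ▸ orderOf_dvd_of_pow_eq_one h5
  have h7 := dvd_of_pow_one hp ht ht1 hpE h6
  have h8 : u ^ (t - 1) = 1 := by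
    rw [← hl] at h7
    exact orderOf_dvd_iff_pow_eq_one.1 h7
  have h10 : u ^ t = u := by
    rw [← Nat.sub_add_cancel ht1, pow_succ, h8, one_mul]
  apply hv1
  have h11 : v ^ t = x * u ^ t * x⁻¹ := by rw [hut]; group
  rw [h11, h10, hu]
  group

end

end Pool.Agent.Lib.P0c8ca5.Ex
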