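import Mathlib
import Pool.Agent.Lib.P0c8ca5Ex.GJ
import Pool.Agent.Lib.P0c8ca5Ku.KB2
import Pool.Agent.Lib.P0c8ca5Ku.KC
import Pool.Agent.Lib.P0c8ca5Ku.KC2
import Pool.Agent.Lib.P0c8ca5Ku.KD
import Pool.Agent.Lib.P0c8ca5Ku.ND

/-!
# KE: blocks with a large abelian defect group: a bound for `l(B)`

`l_le_large`: `l(B) ≤ p ^ (r * (i * (r + 1) + 1))` if the defect group `D` is abelian of rank at
most `r`, the inertial index is at most `p ^ i` and the elements of order `p` of `[D, E]` are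
`p ^ i`-th powers in `D`.
-/

set_option linter.unusedSectionVars false

namespace Pool.Agent.Lib.P0c8ca5.Ku

open MonoidAlgebra Finset Ex

section
variable {T : Type*} [CommGroup T] [Fintype T] {K : Type*} [Field K] [CharZero K]
  [HasEnoughRootsOfUnity K (Monoid.exponent T)]
variable {p : ℕ} [Fact p.Prime] {E : Subgroup (MulAut T)} [Fintype E] {U : T → Prop} {I : Type*}
  [Fintype I] {g f : I → T → K} {n : T → ℤ} {a : ℤ}

/-- the number of fixed rows -/
theorem fix_large (hp2 : p ≠ 2) (hU : Places E U) (hpE : ¬ p ∣ Nat.card E)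
    (hd : RowDataU p E U g f n a) {m : ℕ} (hTm : ∀ u : T, u ^ p ^ m = 1) (s : Equiv.Perm I)
    (hs : ∀ i, s i = i → ∀ u, g i (u ^ (1 + p)) = g i u) (hne : ∀ i u, U u → g i u ≠ 0)
    {Φ : Subgroup T} (hΦ : ∀ φ ∈ E, ∀ v ∈ Φ, φ v ∈ Φ) {x : T}
    (hx : ∀ φ ∈ E, x⁻¹ * φ x ∈ Φ → φ = 1)
    (hUx : ∀ u, (∀ φ ∈ E, u⁻¹ * φ u ∈ Φ → φ = 1) → U u)
    {c : ℕ} (hc : Nat.card T = p ^ c * Nat.card Φ) {Φ₁ : Subgroup T}
    (hΦ₁ : ∀ w ∈ Φ₁, ∃ v ∈ Φ, w = v ^ p ^ (c + 1)) :
    Nat.card {i // s i = i} * Nat.card Φ₁ ≤ Nat.card T := by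
  classical
  have hp : p.Prime := Fact.out
  have hT : IsPGroup p T := fun u => ⟨m, hTm u⟩
  have htp : (1 + p).Coprime p := by
    rw [Nat.coprime_add_self_left]
    exact Nat.coprime_one_left p
  obtain ⟨σ, ψ, hψ, hσ, hσg, hσE, hψf⟩ := rows_existU hp hp2 hT hU hpE hd
  have hσK : ∀ u, (σ u : K) * (σ u : K) = 1 := fun u => by exact_mod_cast hσ u
  have hσ0 : ∀ u, (σ u : K) ≠ 0 := fun u h0 => by
    have h2 := hσK u
    rw [h0, zero_mul] at h2
    exact zero_ne_one h2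
  have h1 := rows_le (R := Finset.univ.filter fun i => s i = i) hp2 hTm hψ (E := E) (U := U)
    (fun u v hu hv h => by
      rw [Finset.sum_congr rfl fun i _ => by rw [hψf i u hu, hψf i v⁻¹ (hU.inv hv)]]
      have h2 : (σ v⁻¹ : K) = (σ u : K) := by
        obtain ⟨φ, hφ, rfl⟩ := h
        rw [hσg (φ u) (φ u)⁻¹ Subgroup.zpowers_inv, hσE φ hφ]
      rw [h2]
      have h3 : ∑ i, (σ u : K) * f i u * ((σ u : K) * f i v⁻¹)
          = ((σ u : K) * (σ u : K)) * ∑ i, f i u * f i v⁻¹ := by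
        rw [Finset.mul_sum]
        exact Finset.sum_congr rfl fun i _ => by ring
      rw [h3, hσK, one_mul]
      exact f_gramU hp hp2 hT hU hpE hd hu h)
    (fun u v hu hv h => by
      rw [Finset.sum_congr rfl fun i _ => by rw [hψf i u hu, hψf i v⁻¹ (hU.inv hv)]]
      have h3 : ∑ i, (σ u : K) * f i u * ((σ v⁻¹ : K) * f i v⁻¹)
          = ((σ u : K) * (σ v⁻¹ : K)) * ∑ i, f i u * f i v⁻¹ := by
        rw [Finset.mul_sum]
        exact Finset.sum_congr rfl fun i _ => by ring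
      rw [h3, f_gram0U hp hp2 hT hU hpE hd hu hv h, mul_zero])
    (fun i hi u hu => by
      have hi := (Finset.mem_filter.1 hi).2
      have hz : Subgroup.zpowers (u ^ (1 + p)) = Subgroup.zpowers u := zpowers_pow htp (hTm u)
      have hut : U (u ^ (1 + p)) := hU.gen u (u ^ (1 + p)) hz hu
      have hn : (n u : K) ≠ 0 := fun h0 => by
        have h3 := hd.fac i u hu
        rw [h0, zero_mul] at h3
        exact hne i u hu h3
      have h3 := hs i hi u
      rw [hd.fac i u hu, hd.fac i _ hut, hd.gen u (u ^ (1 + p)) hz] at h3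
      rw [hψf i u hu, hψf i _ hut, hσg u (u ^ (1 + p)) hz, mul_left_cancel₀ hn h3])
    (fun i _ u hu h0 => by
      rw [hψf i u hu] at h0
      have h5 := (mul_eq_zero.1 h0).resolve_left (hσ0 u)
      have h6 := hd.fac i u hu
      rw [h5, mul_zero] at h6
      exact hne i u hu h6) hΦ hx hUx hc hΦ₁
  rwa [Nat.card_eq_fintype_card (α := {i // s i = i}), Fintype.card_subtype]

end

section
variable {p : ℕ} [Fact p.Prime] {k : Type*} [Field k] [IsAlgClosed k] [CharP k p]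
  {A : Type*} [Group A] [Fintype A] {b f i : MonoidAlgebra k A} {D : Subgroup A}

/-- the number of irreducible representations from a place which is regular modulo `Φ` -/
theorem l_le_reg (hp2 : p ≠ 2) (h : Src p b D f i) (hpE : ¬ p ∣ eN D f) {T : Type*} [CommGroup T]
    [Fintype T] {φ : T →* A} (hφ : Function.Injective φ) (hr : ∀ x, x ∈ D ↔ ∃ t, φ t = x)
    {Φ : Subgroup T} (hΦ : ∀ ψ ∈ EG φ D f, ∀ v ∈ Φ, ψ v ∈ Φ) {x : T}
    (hx : ∀ ψ ∈ EG φ D f, x⁻¹ * ψ x ∈ Φ → ψ = 1)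
    {c : ℕ} (hc : Nat.card T = p ^ c * Nat.card Φ) {Φ₁ : Subgroup T}
    (hΦ₁ : ∀ w ∈ Φ₁, ∃ v ∈ Φ, w = v ^ p ^ (c + 1)) :
    Nat.card (Quotient (irrInvSetoid (⊤ : Subgroup A) ⊤ b)) * Nat.card Φ₁ ≤ Nat.card T := by
  classical
  have hp : p.Prime := Fact.out
  have hb := h.root.blk
  obtain ⟨B, hB⟩ := exists_cenL (p := p) hb.idem
    (fun g => invBy_iff_cj.1 hb.invBy g (Subgroup.mem_top g))
  have hcard : Nat.card (EG φ D f) = eN D f := card_EG hφ hr
  obtain ⟨I, f', n, a, hI, hIc, hd, hne⟩ := exists_rowU hp2 h hpE hB hφ hr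
  have ht1 : (1 + p).Coprime p := by
    rw [Nat.coprime_add_self_left]
    exact Nat.coprime_one_left p
  obtain ⟨s, hs⟩ := exists_galB (p := p) (k := k) B ht1
  have h1 := fix_ge' hb hB s ht1 hs
    (fun v g M c hv hv1 hc hbc hg => no_gal1 h hpE (t := 1 + p)
      (by rw [Nat.add_sub_cancel_left]) (Nat.le_add_right 1 p) hv hv1 hc hbc hg)
  have := Fintype.ofFinite (EG φ D f)
  obtain ⟨M, hM⟩ := pow_one_of h
  have hTm : ∀ u : T, u ^ p ^ M = 1 := by
    intro u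
    apply hφ
    rw [map_pow, map_one]
    exact hM (φ u) ((hr _).2 ⟨u, rfl⟩)
  have h2 := fix_large hp2 places_reg (by rw [hcard]; exact hpE) hd hTm s
    (fun χ hχ u => by
      have h2 := hs χ (φ u) M (hM _ ((hr _).2 ⟨u, rfl⟩)) I hI (hIc u)
      rw [hχ] at h2
      change chO χ.1 (single (φ (u ^ (1 + p))) 1 * I) = chO χ.1 (single (φ u) 1 * I)
      rw [map_pow, h2])
    (fun χ u _ => hne χ u) hΦ hx
    (fun u hu => by
      rw [Ex.st, Nat.card_eq_one_iff_unique]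
      have key : ∀ ψ : EG φ D f, (ψ : MulAut T) u = u → ψ = 1 := by
        intro ψ hψ
        refine Subtype.ext (hu ψ ψ.2 ?_)
        rw [hψ, inv_mul_cancel]
        exact Φ.one_mem
      exact ⟨⟨fun y z => Subtype.ext ((key y.1 y.2).trans (key z.1 z.2).symm)⟩,
        ⟨⟨1, rfl⟩⟩⟩) hc hΦ₁
  exact (Nat.mul_le_mul_right _ h1).trans h2

/-- the commutator subgroup `[D, E]` -/
def cmD (D : Subgroup A) (f : MonoidAlgebra k A) : Subgroup A :=
  Subgroup.closure {w | ∃ g ∈ St D f, ∃ u ∈ D, w = u⁻¹ * (g * u * g⁻¹)}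

/-- **the number of irreducible representations of a block with a large abelian defect group** -/
theorem l_le_large (hp2 : p ≠ 2) (h : Root p b D f) {r i : ℕ}
    (hr : Nat.card {x : A // x ∈ D ∧ x ^ p = 1} ≤ p ^ r) (hE : eN D f ≤ p ^ i)
    (hinv : ∀ x ∈ cmD D f, x ^ p = 1 → ∃ y ∈ D, x = y ^ p ^ i) :
    Nat.card (Quotient (irrInvSetoid (⊤ : Subgroup A) ⊤ b)) ≤ p ^ (r * (i * (r + 1) + 1)) := by
  classical
  have hp : p.Prime := Fact.out
  have hpE : ¬ p ∣ eN D f := ndvd h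
  obtain ⟨i₀, hi⟩ := exists_src h
  let _ : CommGroup ↥D := cgrp D h.com
  let _ : Fintype ↥D := Fintype.ofFinite _
  have hφ : Function.Injective (D.subtype : ↥D →* A) := Subtype.val_injective
  have hrD : ∀ x, x ∈ D ↔ ∃ t, (D.subtype : ↥D →* A) t = x :=
    fun x => ⟨fun hx => ⟨⟨x, hx⟩, rfl⟩, by rintro ⟨t, rfl⟩; exact t.2⟩
  have hcard : Nat.card (EG D.subtype D f) = eN D f := card_EG hφ hrD
  obtain ⟨M, hM⟩ := pow_one_of hi
  have hT : IsPGroup p ↥D := fun u => ⟨M, Subtype.ext (hM u u.2)⟩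
  have hrT : Nat.card {x : ↥D // x ^ p = 1} ≤ p ^ r := by
    refine le_trans (le_of_eq (Nat.card_congr ?_)) hr
    exact
      { toFun := fun x => ⟨x.1, x.1.2, congrArg Subtype.val x.2⟩
        invFun := fun x => ⟨⟨x.1, x.2.1⟩, Subtype.ext x.2.2⟩
        left_inv := fun x => rfl
        right_inv := fun x => rfl }
  obtain ⟨x, hx⟩ := exists_regular hp hT (EG D.subtype D f) (by rw [hcard]; exact hpE)
    (i := i) (by rw [hcard]; exact hE) (by
      intro x hx hxp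
      have h1 : (x : A) ∈ cmD D f := by
        have hle : Subgroup.closure {w : ↥D | ∃ ψ ∈ EG D.subtype D f, ∃ u, w = u⁻¹ * ψ u}
            ≤ (cmD D f).comap D.subtype := by
          rw [Subgroup.closure_le]
          rintro w ⟨ψ, ⟨g, hg, hψ⟩, u, rfl⟩
          refine Subgroup.subset_closure ⟨g, hg, u, u.2, ?_⟩
          have h2 : ((ψ u : ↥D) : A) = g * (u : A) * g⁻¹ := hψ u
          rw [← h2]
          rfl
        exact hle hx
      obtain ⟨y, hy, hxy⟩ := hinv x h1 (congrArg Subtype.val hxp)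
      exact ⟨⟨y, hy⟩, Subtype.ext hxy⟩)
  obtain ⟨c, hc⟩ : ∃ c, Nat.card (powMonoidHom (p ^ i) : ↥D →* ↥D).ker = p ^ c := by
    have h1 : IsPGroup p (powMonoidHom (p ^ i) : ↥D →* ↥D).ker := hT.to_subgroup _
    exact IsPGroup.iff_card.1 h1
  have hci : c ≤ r * i := by
    have h1 := card_ker_pow hrT i
    rw [hc] at h1
    exact (Nat.pow_le_pow_iff_right hp.one_lt).1 h1
  have h1 := l_le_reg hp2 hi hpE (T := ↥D) (φ := D.subtype) hφ hrD
    (Φ := (powMonoidHom (p ^ i) : ↥D →* ↥D).range)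
    (by
      rintro ψ _ _ ⟨y, rfl⟩
      exact ⟨ψ y, by rw [powMonoidHom_apply, powMonoidHom_apply, map_pow]⟩)
    (x := x) (by
      rintro ψ hψ ⟨y, hy⟩
      exact hx ψ hψ ⟨y, hy.symm⟩)
    (c := c) (by rw [← hc, card_ker_mul_range])
    (Φ₁ := (powMonoidHom (p ^ (i + (c + 1))) : ↥D →* ↥D).range)
    (by
      rintro _ ⟨y, rfl⟩
      refine ⟨y ^ p ^ i, ⟨y, rfl⟩, ?_⟩
      rw [powMonoidHom_apply, pow_add, pow_mul])
  have h2 := h1.trans (index_pow hrT (i + (c + 1)))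
  have hpos : 0 < Nat.card (powMonoidHom (p ^ (i + (c + 1))) : ↥D →* ↥D).range := Nat.card_pos
  refine (Nat.le_of_mul_le_mul_right h2 hpos).trans (Nat.pow_le_pow_right hp.pos ?_)
  refine Nat.mul_le_mul_left r ?_
  rw [mul_add, mul_one, mul_comm i r]
  omega

end

end Pool.Agent.Lib.P0c8ca5.Ku
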