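import Mathlib
import Pool.Agent.Lib.P0c8ca5Ku.KE

/-!
# KF: large invariants of `[D, E]` and subgroups of `D` with a nontrivial centralizer in `E`

`exists_notMem`: the elements of order `p` of `[D, E]` are `p ^ N`-th powers in `D`; a subgroup
`Q` centralized by an element of `St D f` outside `C(D)` does not contain all `p ^ N`-th powers.
`cmD_le`: monotonicity.
-/

set_option linter.unusedSectionVars false

namespace Pool.Agent.Lib.P0c8ca5.Ku

open MonoidAlgebra Ex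

section
variable {p : ℕ} [Fact p.Prime] {k : Type*} [Field k] [IsAlgClosed k] [CharP k p]
  {A : Type*} [Group A] [Fintype A] {b f : MonoidAlgebra k A} {D : Subgroup A}

theorem conj_iter {g v z : A} (h : g * v * g⁻¹ = v * z) (hz : g * z * g⁻¹ = z) (n : ℕ) :
    g ^ n * v * (g ^ n)⁻¹ = v * z ^ n := by
  induction n with
  | zero => simp
  | succ n ih =>
    have h1 : g ^ (n + 1) * v * (g ^ (n + 1))⁻¹ = g * (g ^ n * v * (g ^ n)⁻¹) * g⁻¹ := by
      rw [pow_succ']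
      group
    have h2 : g * (v * z ^ n) * g⁻¹ = (g * v * g⁻¹) * (g * z * g⁻¹) ^ n := by
      rw [conj_pow]
      group
    rw [h1, ih, h2, h, hz, pow_succ', mul_assoc]

theorem exists_notMem (h : Root p b D f) {N : ℕ}
    (hinv : ∀ x ∈ cmD D f, x ^ p = 1 → ∃ y ∈ D, x = y ^ p ^ N) {Q : Subgroup A} {g : A}
    (hg : g ∈ St D f) (hgD : g ∉ CD D) (hgQ : ∀ u ∈ Q, g * u = u * g) :
    ∃ y ∈ D, y ^ p ^ N ∉ Q := by
  classical
  have hp : p.Prime := Fact.out
  have hpE : ¬ p ∣ eN D f := ndvd h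
  have hN : ∀ u ∈ D, g * u * g⁻¹ ∈ D := fun u hu => (Subgroup.mem_normalizer_iff.1 hg.1 u).1 hu
  -- the commutator map
  let _ : CommGroup ↥D := cgrp D h.com
  let c : ↥D →* ↥D :=
    { toFun := fun u => ⟨(u : A)⁻¹ * (g * u * g⁻¹), D.mul_mem (D.inv_mem u.2) (hN u u.2)⟩
      map_one' := by
        apply Subtype.ext
        simp
      map_mul' := by
        intro u v
        apply Subtype.ext
        change ((u : A) * v)⁻¹ * (g * (u * v) * g⁻¹)
          = (u : A)⁻¹ * (g * u * g⁻¹) * ((v : A)⁻¹ * (g * v * g⁻¹))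
        have e1 := h.com _ (D.mul_mem (D.inv_mem u.2) (hN u u.2)) _ (D.inv_mem v.2)
        calc ((u : A) * v)⁻¹ * (g * (u * v) * g⁻¹)
            = (v : A)⁻¹ * ((u : A)⁻¹ * (g * u * g⁻¹)) * (g * v * g⁻¹) := by group
          _ = ((u : A)⁻¹ * (g * u * g⁻¹)) * (v : A)⁻¹ * (g * v * g⁻¹) := by rw [e1]
          _ = _ := by group }
  obtain ⟨u₀, hu₀⟩ : ∃ u : ↥D, c u ≠ 1 := by
    by_contra hcon
    push Not at hcon
    apply hgD
    refine Subgroup.mem_centralizer_iff.2 fun u hu => ?_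
    have h1 : (u : A)⁻¹ * (g * u * g⁻¹) = 1 := congrArg Subtype.val (hcon ⟨u, hu⟩)
    have h2 := inv_mul_eq_one.1 h1
    rw [eq_mul_inv_iff_mul_eq] at h2
    exact h2
  have hTp : IsPGroup p ↥D := h.dfg.isPGroup
  -- an element of order `p` in the range of `c`
  obtain ⟨v, hv1, hvp⟩ : ∃ v : ↥D, c v ≠ 1 ∧ c v ^ p = 1 := by
    obtain ⟨n, hn⟩ := hTp (c u₀)
    have hex : ∃ n, c u₀ ^ p ^ n = 1 := ⟨n, hn⟩
    have h1 := Nat.find_spec hex
    have h0 : Nat.find hex ≠ 0 := by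
      intro h0
      rw [h0, pow_zero, pow_one] at h1
      exact hu₀ h1
    obtain ⟨m, hm⟩ := Nat.exists_eq_succ_of_ne_zero h0
    refine ⟨u₀ ^ p ^ m, ?_, ?_⟩
    · intro h2
      rw [map_pow] at h2
      have := Nat.find_min' hex h2
      omega
    · rw [map_pow, ← pow_mul, ← pow_succ, ← Nat.succ_eq_add_one, ← hm]
      exact h1
  have hz : ((c v : ↥D) : A) = (v : A)⁻¹ * (g * v * g⁻¹) := rfl
  obtain ⟨y, hy, hzy⟩ := hinv (c v) (by
    rw [hz]
    exact Subgroup.subset_closure ⟨g, hg, v, v.2, rfl⟩) (congrArg Subtype.val hvp)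
  refine ⟨y, hy, fun hyQ => hv1 ?_⟩
  rw [← hzy] at hyQ
  have h1 : g * ((c v : ↥D) : A) * g⁻¹ = (c v : ↥D) := by
    rw [mul_inv_eq_iff_eq_mul]
    exact hgQ _ hyQ
  have h2 : g * (v : A) * g⁻¹ = v * ((c v : ↥D) : A) := by
    rw [hz, mul_inv_cancel_left]
  have h3 := conj_iter h2 h1 (eN D f)
  have h4 := Subgroup.mem_centralizer_iff.1 (pow_eN_mem hg) (v : A) v.2
  rw [← h4, mul_inv_cancel_right] at h3
  have h5 : ((c v : ↥D) : A) ^ eN D f = 1 := mul_eq_left.1 h3.symm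
  have h6 : ((c v : ↥D) : A) ^ p = 1 := congrArg Subtype.val hvp
  have h7 : (Nat.gcd (eN D f) p) = 1 := ((Nat.Prime.coprime_iff_not_dvd hp).2 hpE).symm
  have h8 := Nat.dvd_gcd (orderOf_dvd_of_pow_eq_one h5) (orderOf_dvd_of_pow_eq_one h6)
  rw [h7] at h8
  exact Subtype.ext (orderOf_eq_one_iff.1 (Nat.dvd_one.1 h8))

end

end Pool.Agent.Lib.P0c8ca5.Ku
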