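import Mathlib
import Pool.Agent.Lib.P0c8ca5Ku.KD

/-!
# KG: the order of a group of automorphisms of order prime to `p`

`card_le_gl`: a group `E` of automorphisms of order prime to `p` of a finite abelian `p`-group `T`
with at most `p ^ r` elements of order dividing `p` has at most `p ^ (r * (r + 1) / 2)` elements:
it embeds into `GL_s(F_p)`, `p ^ s = |Ω₁(T)|`.
-/

set_option autoImplicit false
set_option linter.unusedSectionVars false

namespace Pool.Agent.Lib.P0c8ca5.Ku

open Finset

theorem sum_tri (s : ℕ) : ∑ i ∈ range s, (s - i) = s * (s + 1) / 2 := by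
  have h1 : ∑ i ∈ range s, (s - i) = ∑ i ∈ range s, (i + 1) := by
    rw [← Finset.sum_range_reflect (fun i => i + 1) s]
    refine sum_congr rfl fun i hi => ?_
    have := mem_range.1 hi
    omega
  have h2 : ∀ s : ℕ, 2 * ∑ i ∈ range s, (i + 1) = s * (s + 1) := by
    intro s
    induction s with
    | zero => rfl
    | succ s ih =>
      rw [sum_range_succ, mul_add, ih]
      ring
  have h3 := h2 s
  rw [h1]
  omega

/-- the part prime to `p` of the order of `GL_s(F_p)` -/
theorem dvd_gl {p s m : ℕ} (hp : p.Prime) (hm : ¬ p ∣ m)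
    (h : m ∣ ∏ i : Fin s, (p ^ s - p ^ (i : ℕ))) : m ≤ p ^ (s * (s + 1) / 2) := by
  have h1 : ∏ i : Fin s, (p ^ s - p ^ (i : ℕ))
      = (∏ i ∈ range s, p ^ i) * ∏ i ∈ range s, (p ^ (s - i) - 1) := by
    rw [← Fin.prod_univ_eq_prod_range (fun i => p ^ i) s,
      ← Fin.prod_univ_eq_prod_range (fun i => p ^ (s - i) - 1) s, ← prod_mul_distrib]
    refine prod_congr rfl fun i _ => ?_
    rw [Nat.mul_sub, mul_one, ← pow_add]
    congr 2
    have := i.2
    omega
  rw [h1, prod_pow_eq_pow_sum] at h
  have h2 : Nat.Coprime m (p ^ ∑ i ∈ range s, i) :=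
    (Nat.Coprime.pow_left _ ((Nat.Prime.coprime_iff_not_dvd hp).2 hm)).symm
  have h3 : m ∣ ∏ i ∈ range s, (p ^ (s - i) - 1) := h2.dvd_of_dvd_mul_left h
  have hpos : 0 < ∏ i ∈ range s, (p ^ (s - i) - 1) := by
    refine prod_pos fun i hi => ?_
    have h4 : 1 < p ^ (s - i) := Nat.one_lt_pow (by
      have := mem_range.1 hi
      omega) hp.one_lt
    omega
  refine (Nat.le_of_dvd hpos h3).trans ?_
  rw [← sum_tri, ← prod_pow_eq_pow_sum]
  exact prod_le_prod' fun i _ => Nat.sub_le _ _

theorem dvd_gl_of (p : ℕ) [Fact p.Prime] (V : Type*) [AddCommGroup V] [Module (ZMod p) V]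
    [Finite V] {G : Type*} [Group G] (R₀ : G →* AddMonoid.End V)
    (hR₀ : Function.Injective R₀) :
    ∃ s : ℕ, Nat.card V = p ^ s ∧ Nat.card G ∣ ∏ i : Fin s, (p ^ s - p ^ (i : ℕ)) := by
  have hmf : Module.Finite (ZMod p) V := Module.Finite.of_finite
  let R : G →* Module.End (ZMod p) V :=
    { toFun := fun g => AddMonoidHom.toZModLinearMap p (R₀ g)
      map_one' := by
        apply LinearMap.ext
        intro x
        change R₀ 1 x = x
        rw [map_one]
        rfl
      map_mul' := fun g h => by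
        apply LinearMap.ext
        intro x
        change R₀ (g * h) x = R₀ g (R₀ h x)
        rw [map_mul]
        rfl }
  have hR : Function.Injective R := by
    intro x y h
    apply hR₀
    apply AddMonoidHom.ext
    intro v
    exact LinearMap.congr_fun h v
  refine ⟨Module.finrank (ZMod p) V, ?_, ?_⟩
  · rw [Module.natCard_eq_pow_finrank (K := ZMod p), Nat.card_zmod]
  · let b := Module.finBasis (ZMod p) V
    let f : G →* Matrix (Fin (Module.finrank (ZMod p) V)) (Fin (Module.finrank (ZMod p) V))
        (ZMod p) := ((LinearMap.toMatrixAlgEquiv b : _ →* _)).comp R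
    have hf : Function.Injective f := (LinearMap.toMatrixAlgEquiv b).injective.comp hR
    have hf' : Function.Injective f.toHomUnits := by
      intro x y h
      apply hf
      have h1 := congrArg Units.val h
      exact h1
    have h1 := Subgroup.card_dvd_of_injective f.toHomUnits hf'
    have h2 := Matrix.card_GL_field (𝔽 := ZMod p) (Module.finrank (ZMod p) V)
    rw [ZMod.card] at h2
    rw [← h2]
    exact h1

section
variable {T : Type*} [CommGroup T] [Finite T] {p : ℕ}

theorem card_le_gl (hp : p.Prime) (hT : IsPGroup p T) (E : Subgroup (MulAut T))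
    (hpE : ¬ p ∣ Nat.card E) {r : ℕ} (hr : Nat.card {x : T // x ^ p = 1} ≤ p ^ r) :
    Nat.card E ≤ p ^ (r * (r + 1) / 2) := by
  have hpf : Fact p.Prime := ⟨hp⟩
  let W : Subgroup T := (powMonoidHom p : T →* T).ker
  have hW : ∀ x : Additive W, p • x = 0 := by
    intro x
    have h1 : (Additive.toMul x) ^ p = 1 := Subtype.ext (Additive.toMul x).2
    exact congrArg Additive.ofMul h1
  have hfin : Finite (Additive W) := inferInstanceAs (Finite W)
  let R : E →* AddMonoid.End (Additive W) :=
    { toFun := fun φ => MonoidHom.toAdditive (rho p (φ : MulAut T))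
      map_one' := by
        apply AddMonoidHom.ext
        intro x
        rfl
      map_mul' := fun φ ψ => by
        apply AddMonoidHom.ext
        intro x
        rfl }
  have hR : Function.Injective R := by
    intro φ ψ h1
    have h2 : ∀ x : T, x ^ p = 1 → (φ : MulAut T) x = (ψ : MulAut T) x := by
      intro x hx
      have h3 := DFunLike.congr_fun h1 (Additive.ofMul (⟨x, hx⟩ : W))
      have h4 : rho p (φ : MulAut T) ⟨x, hx⟩ = rho p (ψ : MulAut T) ⟨x, hx⟩ := h3
      exact congrArg Subtype.val h4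
    have h5 : (ψ⁻¹ * φ) ^ Nat.card E = 1 := pow_card_eq_one'
    have h6 : ((ψ⁻¹ * φ : E) : MulAut T) ^ Nat.card E = 1 :=
      congrArg (Subtype.val : E → MulAut T) h5
    have h7 := faithful hp hT h6 hpE (by
      intro x hx
      change (ψ : MulAut T)⁻¹ ((φ : MulAut T) x) = x
      rw [h2 x hx]
      exact (ψ : MulAut T).symm_apply_apply x)
    have h8 : ψ⁻¹ * φ = 1 := Subtype.ext h7
    exact (inv_mul_eq_one.1 h8).symm
  obtain ⟨s, hs, hd⟩ := @dvd_gl_of p _ (Additive W) _ (AddCommGroup.zmodModule hW) _ E _ R hR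
  have hsr : s ≤ r := by
    have h1 : Nat.card (Additive W) ≤ p ^ r := hr
    rw [hs] at h1
    exact (Nat.pow_le_pow_iff_right hp.one_lt).1 h1
  refine (dvd_gl hp hpE hd).trans (Nat.pow_le_pow_right hp.pos ?_)
  exact Nat.div_le_div_right (Nat.mul_le_mul hsr (by omega))

end

end Pool.Agent.Lib.P0c8ca5.Ku
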