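import Mathlib
import Pool.Agent.Lib.P0c8ca5Ku.KD
import Pool.Agent.Lib.P0c8ca5Ku.KG

/-!
# KP: groups of automorphisms of finite abelian p-groups which fix an element

`fix_le`: a `p'`-group of automorphisms of an abelian `p`-group of rank at most `r` which fixes a
nontrivial element has order at most `p ^ (r * (r - 1) / 2)`.
`fix_pow_le`: a nontrivial automorphism of order prime to `p` fixes at most `p ^ ((r - 1) * a)` of
the elements `x` with `x ^ (p ^ a) = 1`.
-/

set_option autoImplicit false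
set_option linter.unusedSectionVars false

namespace Pool.Agent.Lib.P0c8ca5.Ku

open Finset

section
variable {T : Type*} [CommGroup T] {p : ℕ}

/-- the restriction to an invariant subgroup -/
def resG (F : Subgroup (MulAut T)) (S : Subgroup T) (h : ∀ φ ∈ F, ∀ y ∈ S, φ y ∈ S) :
    F →* MulAut S where
  toFun φ :=
    { toFun := fun y => ⟨(φ : MulAut T) y, h φ φ.2 y y.2⟩
      invFun := fun y => ⟨(φ : MulAut T)⁻¹ y, h _ (F.inv_mem φ.2) y y.2⟩
      left_inv := fun y => Subtype.ext (MulAut.inv_apply_self _ _ _)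
      right_inv := fun y => Subtype.ext (MulAut.apply_inv_self _ _ _)
      map_mul' := fun y z => Subtype.ext (map_mul _ _ _) }
  map_one' := by
    ext y
    rfl
  map_mul' φ ψ := by
    ext y
    rfl

theorem resG_apply {F : Subgroup (MulAut T)} {S : Subgroup T}
    (h : ∀ φ ∈ F, ∀ y ∈ S, φ y ∈ S) (φ : F) (y : S) :
    ((resG F S h φ y : S) : T) = (φ : MulAut T) y := rfl

theorem zpow_mem_dvd (hp : p.Prime) {S : Subgroup T} {x : T} (hx : x ^ p = 1) (hxS : x ∉ S)
    {k : ℤ} (hk : x ^ k ∈ S) : (p : ℤ) ∣ k := by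
  by_contra hcon
  have h1 : IsCoprime k (p : ℤ) := by
    rw [isCoprime_comm]
    exact (Nat.prime_iff_prime_int.1 hp).coprime_iff_not_dvd.2 hcon
  obtain ⟨a, b, hab⟩ := h1
  apply hxS
  have h2 : x = (x ^ k) ^ a := by
    rw [← zpow_mul]
    have h3 : x ^ (b * (p : ℤ)) = 1 := by
      rw [mul_comm, zpow_mul, zpow_natCast, hx, one_zpow]
    calc x = x ^ (1 : ℤ) := (zpow_one x).symm
      _ = x ^ (a * k + b * (p : ℤ)) := by rw [hab]
      _ = x ^ (k * a) := by rw [zpow_add, h3, mul_one, mul_comm]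
  rw [h2]
  exact S.zpow_mem hk a

variable [Finite T]

/-- the rank of a subgroup which does not contain all elements of order `p` -/
theorem omega_lt (hp : p.Prime) {S : Subgroup T} {x : T} (hx : x ^ p = 1) (hxS : x ∉ S) :
    p * Nat.card {y : S // y ^ p = 1} ≤ Nat.card {y : T // y ^ p = 1} := by
  have hc : p * Nat.card {y : S // y ^ p = 1} = Nat.card (Fin p × {y : S // y ^ p = 1}) := by
    rw [Nat.card_prod, Nat.card_fin]
  rw [hc]
  refine Nat.card_le_card_of_injective
    (fun z : Fin p × {y : S // y ^ p = 1} => (⟨x ^ (z.1 : ℕ) * ((z.2.1 : S) : T), ?_⟩ :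
      {y : T // y ^ p = 1})) ?_
  · rw [mul_pow, ← pow_mul, mul_comm (z.1 : ℕ), pow_mul, hx, one_pow, one_mul]
    exact congrArg Subtype.val z.2.2
  · rintro ⟨i, y⟩ ⟨j, z⟩ hyz
    have h1 : x ^ (i : ℕ) * ((y.1 : S) : T) = x ^ (j : ℕ) * ((z.1 : S) : T) :=
      congrArg Subtype.val hyz
    have h2 : x ^ ((i : ℤ) - (j : ℤ)) = ((z.1 : S) : T) * ((y.1 : S) : T)⁻¹ := by
      rw [zpow_sub, zpow_natCast, zpow_natCast, eq_mul_inv_iff_mul_eq, mul_right_comm, h1,
        mul_right_comm, mul_inv_cancel, one_mul]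
    have h3 : (p : ℤ) ∣ (i : ℤ) - (j : ℤ) := zpow_mem_dvd hp hx hxS (by
      rw [h2]
      exact S.mul_mem z.1.2 (S.inv_mem y.1.2))
    have h4 : (i : ℕ) = j := by
      have hi := i.2
      have hj := j.2
      have h5 : (i : ℤ) - (j : ℤ) = 0 := Int.eq_zero_of_abs_lt_dvd h3 (by
        rw [abs_lt]
        constructor <;> omega)
      omega
    have h5 : i = j := Fin.ext h4
    subst h5
    have h6 : y = z := Subtype.ext (Subtype.ext (mul_left_cancel h1))
    rw [h6]

/-- the fixed points of an automorphism -/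
def fixS (φ : MulAut T) : Subgroup T where
  carrier := {x | φ x = x}
  mul_mem' := by
    intro a b ha hb
    change φ (a * b) = a * b
    rw [map_mul, ha, hb]
  one_mem' := map_one φ
  inv_mem' := by
    intro a ha
    change φ a⁻¹ = a⁻¹
    rw [map_inv, ha]

theorem rank_pos {x : T} (hx : x ^ p = 1) (hx1 : x ≠ 1) {r : ℕ}
    (hr : Nat.card {x : T // x ^ p = 1} ≤ p ^ r) : 1 ≤ r := by
  by_contra hcon
  have h0 : r = 0 := by omega
  rw [h0, pow_zero] at hr
  have h1 := Finite.card_le_one_iff_subsingleton.1 hr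
  exact hx1 (congrArg Subtype.val (h1.elim (⟨x, hx⟩ : {x : T // x ^ p = 1}) ⟨1, one_pow _⟩))

/-- the fixed points of `φ ≠ 1` in the elements of exponent `p ^ a` -/
theorem fix_pow_le (hp : p.Prime) (hT : IsPGroup p T) {φ : MulAut T} {n : ℕ} (hn : φ ^ n = 1)
    (hpn : ¬ p ∣ n) (hφ : φ ≠ 1) {r : ℕ} (hr : Nat.card {x : T // x ^ p = 1} ≤ p ^ r) (a : ℕ) :
    Nat.card {x : T // x ^ p ^ a = 1 ∧ φ x = x} ≤ p ^ ((r - 1) * a) := by
  have hD1 : (cm φ).range ≠ ⊥ := by
    intro h
    apply hφ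
    ext u
    have h1 : cm φ u ∈ (⊥ : Subgroup T) := by
      rw [← h]
      exact ⟨u, rfl⟩
    rw [Subgroup.mem_bot, cm_apply, inv_mul_eq_one] at h1
    exact h1.symm
  obtain ⟨x, hx, hx1, hxp⟩ := exists_order hT hD1
  have hxS : x ∉ fixS φ := fun h => hx1 (fix_cm hp hT hn hpn hx h)
  have h1 := (omega_lt hp hxp hxS).trans hr
  have hr1 := rank_pos hxp hx1 hr
  have h2 : Nat.card {y : fixS φ // y ^ p = 1} ≤ p ^ (r - 1) := by
    obtain ⟨s, rfl⟩ : ∃ s, r = s + 1 := ⟨r - 1, by omega⟩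
    rw [pow_succ, mul_comm] at h1
    exact Nat.le_of_mul_le_mul_right h1 hp.pos
  refine le_trans ?_ (card_ker_pow h2 a)
  refine Nat.card_le_card_of_injective
    (fun y : {x : T // x ^ p ^ a = 1 ∧ φ x = x} =>
      (⟨⟨y.1, y.2.2⟩, by
        rw [MonoidHom.mem_ker, powMonoidHom_apply]
        apply Subtype.ext
        rw [SubmonoidClass.coe_pow]
        exact y.2.1⟩ : (powMonoidHom (p ^ a) : fixS φ →* fixS φ).ker)) ?_
  intro y z hyz
  have h3 := congrArg (fun w : (powMonoidHom (p ^ a) : fixS φ →* fixS φ).ker =>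
    ((w.1 : fixS φ) : T)) hyz
  exact Subtype.ext h3

/-- **the order of a group of automorphisms which fixes a nontrivial element** -/
theorem fix_le (hp : p.Prime) (hT : IsPGroup p T) (F : Subgroup (MulAut T))
    (hpF : ¬ p ∣ Nat.card F) {r : ℕ} (hr : Nat.card {x : T // x ^ p = 1} ≤ p ^ r) {x : T}
    (hx1 : x ≠ 1) (hx : ∀ φ ∈ F, φ x = x) : Nat.card F ≤ p ^ (r * (r - 1) / 2) := by
  classical
  have hEfin : Finite F := by
    have : Finite (MulAut T) := Finite.of_injective (fun φ : MulAut T => (φ : T → T))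
      (fun a b h => MulEquiv.ext fun x => congrFun h x)
    infer_instance
  have := Fintype.ofFinite F
  -- an element of order `p`
  obtain ⟨y, hy, hy1, hyp⟩ := exists_order hT (H := Subgroup.zpowers x) (by
    intro h
    apply hx1
    have h1 : x ∈ (⊥ : Subgroup T) := by
      rw [← h]
      exact Subgroup.mem_zpowers x
    exact Subgroup.mem_bot.1 h1)
  have hyF : ∀ φ ∈ F, φ y = y := by
    intro φ hφ
    obtain ⟨k, rfl⟩ := hy
    change φ (x ^ k) = x ^ k
    rw [map_zpow, hx φ hφ]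
  -- the norm
  let N : T →* T :=
    { toFun := fun y => ∏ φ : F, (φ : MulAut T) y
      map_one' := by simp
      map_mul' := fun y z => by
        rw [← prod_mul_distrib]
        exact prod_congr rfl fun φ _ => map_mul _ _ _ }
  have hN : ∀ φ : F, ∀ y, N ((φ : MulAut T) y) = N y := by
    intro φ y
    change ∏ ψ : F, (ψ : MulAut T) ((φ : MulAut T) y) = ∏ ψ : F, (ψ : MulAut T) y
    exact Fintype.prod_equiv (Equiv.mulRight φ) _ _ fun ψ => rfl
  have hK : ∀ φ ∈ F, ∀ y ∈ N.ker, φ y ∈ N.ker := by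
    intro φ hφ y hy
    rw [MonoidHom.mem_ker] at hy ⊢
    rw [hN ⟨φ, hφ⟩, hy]
  have hinj : Function.Injective (resG F N.ker hK) := by
    rw [injective_iff_map_eq_one]
    intro φ hφ
    apply Subtype.ext
    apply MulEquiv.ext
    intro u
    have h1 : u⁻¹ * (φ : MulAut T) u ∈ N.ker := by
      rw [MonoidHom.mem_ker, map_mul, map_inv, hN φ, inv_mul_cancel]
    have h2 : (φ : MulAut T) (u⁻¹ * (φ : MulAut T) u) = u⁻¹ * (φ : MulAut T) u := by
      have h3 := DFunLike.congr_fun hφ ⟨_, h1⟩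
      exact congrArg Subtype.val h3
    have h4 : (φ : MulAut T) ^ Nat.card F = 1 := by
      have h5 : φ ^ Nat.card F = 1 := pow_card_eq_one'
      exact congrArg Subtype.val h5
    have h5 := fix_cm hp hT h4 hpF (w := u⁻¹ * (φ : MulAut T) u) ⟨u, rfl⟩ h2
    exact (inv_mul_eq_one.1 h5).symm
  have hyK : y ∉ N.ker := by
    intro h
    rw [MonoidHom.mem_ker] at h
    have h1 : N y = y ^ Nat.card F := by
      change ∏ φ : F, (φ : MulAut T) y = _
      rw [prod_congr rfl fun (φ : F) _ => hyF φ φ.2, prod_const, card_univ, Nat.card_eq_fintype_card]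
    rw [h1] at h
    have h2 : orderOf y ∣ Nat.card F := orderOf_dvd_of_pow_eq_one h
    have hpf : Fact p.Prime := ⟨hp⟩
    rw [orderOf_eq_prime hyp hy1] at h2
    exact hpF h2
  have h1 := (omega_lt hp hyp hyK).trans hr
  have hr1 := rank_pos hyp hy1 hr
  obtain ⟨s, rfl⟩ : ∃ s, r = s + 1 := ⟨r - 1, by omega⟩
  have h2 : Nat.card {y : N.ker // y ^ p = 1} ≤ p ^ s := by
    rw [pow_succ, mul_comm] at h1
    exact Nat.le_of_mul_le_mul_right h1 hp.pos
  have h3 : Nat.card (resG F N.ker hK).range = Nat.card F :=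
    (Nat.card_congr (Equiv.ofInjective _ hinj)).symm
  have h4 := card_le_gl hp (hT.to_subgroup N.ker) (resG F N.ker hK).range (by rw [h3]; exact hpF)
    h2
  rw [h3] at h4
  refine h4.trans (le_of_eq ?_)
  congr 2
  rw [Nat.add_sub_cancel, mul_comm]

end

end Pool.Agent.Lib.P0c8ca5.Ku
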