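import Mathlib
import Pool.Agent.Lib.P0c8ca5Ku.KF
import Pool.Agent.Lib.P0c8ca5Ku.KG

/-!
# KH: small lemmas for the statement of the theorem

`eN_le_gl`: `|E| ≤ p ^ (r * (r + 1) / 2)` for a defect group of rank at most `r`. `exists_exp`: an
element of order `exp(D)`.
-/

set_option linter.unusedSectionVars false

namespace Pool.Agent.Lib.P0c8ca5.Ku

open MonoidAlgebra Ex

section
variable {p : ℕ} [Fact p.Prime] {k : Type*} [Field k] [IsAlgClosed k] [CharP k p]
  {A : Type*} [Group A] [Fintype A] {b f : MonoidAlgebra k A} {D : Subgroup A}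

/-- the inertial index of a block with an abelian defect group of rank at most `r` -/
theorem eN_le_gl (h : Root p b D f) {r : ℕ}
    (hr : Nat.card {x : A // x ∈ D ∧ x ^ p = 1} ≤ p ^ r) : eN D f ≤ p ^ (r * (r + 1) / 2) := by
  classical
  have hp : p.Prime := Fact.out
  have hpE : ¬ p ∣ eN D f := ndvd h
  let _ : CommGroup ↥D := cgrp D h.com
  let _ : Fintype ↥D := Fintype.ofFinite _
  have hφ : Function.Injective (D.subtype : ↥D →* A) := Subtype.val_injective
  have hrD : ∀ x, x ∈ D ↔ ∃ t, (D.subtype : ↥D →* A) t = x :=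
    fun x => ⟨fun hx => ⟨⟨x, hx⟩, rfl⟩, by rintro ⟨t, rfl⟩; exact t.2⟩
  have hcard : Nat.card (EG D.subtype D f) = eN D f := card_EG hφ hrD
  have hT : IsPGroup p ↥D := h.dfg.isPGroup
  have hrT : Nat.card {x : ↥D // x ^ p = 1} ≤ p ^ r := by
    refine le_trans (le_of_eq (Nat.card_congr ?_)) hr
    exact
      { toFun := fun x => ⟨x.1, x.1.2, congrArg Subtype.val x.2⟩
        invFun := fun x => ⟨⟨x.1, x.2.1⟩, Subtype.ext x.2.2⟩
        left_inv := fun x => rfl
        right_inv := fun x => rfl }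
  rw [← hcard]
  exact card_le_gl hp hT (EG D.subtype D f) (by rw [hcard]; exact hpE) hrT

/-- an element of the order `exp(D)` -/
theorem exists_exp (hT : IsPGroup p ↥D) {m : ℕ} (hm : 1 ≤ m) (hE : m < Monoid.exponent ↥D) :
    ∃ x ∈ D, ∃ s, x ^ p ^ s ≠ 1 ∧ m < p ^ (s + 1) := by
  classical
  have hp : p.Prime := Fact.out
  obtain ⟨M, hM⟩ : ∃ M : ℕ, ∀ x : ↥D, x ^ p ^ M = 1 := by
    obtain ⟨M, hM⟩ := IsPGroup.iff_card.1 hT
    exact ⟨M, fun x => by rw [← hM]; exact pow_card_eq_one'⟩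
  obtain ⟨t, -, ht⟩ := (Nat.dvd_prime_pow hp).1 (Monoid.exponent_dvd_of_forall_pow_eq_one hM)
  rcases t with _ | s
  · rw [ht, pow_zero] at hE
    omega
  · have h1 : ∃ x : ↥D, x ^ p ^ s ≠ 1 := by
      by_contra hcon
      push Not at hcon
      have h2 := Monoid.exponent_dvd_of_forall_pow_eq_one hcon
      rw [ht] at h2
      have := (Nat.pow_dvd_pow_iff_le_right hp.one_lt).1 h2
      omega
    obtain ⟨x, hx⟩ := h1
    refine ⟨x, x.2, s, fun h2 => hx (Subtype.ext ?_), ht ▸ hE⟩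
    rw [SubmonoidClass.coe_pow, h2]
    rfl

end

end Pool.Agent.Lib.P0c8ca5.Ku
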