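import Mathlib
import Pool.Agent.Lib.P0c8ca5Ku.KB2

/-!
# KI: the number of rows fixed by `t = 1 + p`, average over the regular places

`rows_le2`: as `rows_le`, with the norms of the rows on all places which are regular modulo `Φ`.
-/

set_option linter.unusedSectionVars false

namespace Pool.Agent.Lib.P0c8ca5.Ku

open Finset Ex

section
variable {T : Type*} [CommGroup T] [Fintype T] {K : Type*} [Field K] [CharZero K] {p : ℕ}
  [Fact p.Prime] [HasEnoughRootsOfUnity K (Monoid.exponent T)] {s : ℕ} {I : Type*} [Fintype I]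
  [DecidableEq I] {g : I → T → K} {E : Subgroup (MulAut T)} {U : T → Prop} {Φ : Subgroup T}

/-- regular modulo `Φ` -/
def RegM (E : Subgroup (MulAut T)) (Φ : Subgroup T) (u : T) : Prop :=
  ∀ φ ∈ E, u⁻¹ * φ u ∈ Φ → φ = 1

theorem RegM.of_zpow {u v : T} (hv : RegM E Φ v) (h : v ∈ Subgroup.zpowers u) : RegM E Φ u := by
  obtain ⟨n, rfl⟩ := h
  intro φ hφ h1
  refine hv φ hφ ?_
  have h2 : ((fun x : T => x ^ n) u)⁻¹ * φ ((fun x : T => x ^ n) u) = (u⁻¹ * φ u) ^ n := by
    change (u ^ n)⁻¹ * φ (u ^ n) = _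
    rw [map_zpow, mul_zpow, inv_zpow]
  rw [h2]
  exact Φ.zpow_mem h1 n

theorem RegM.inv {u : T} (hu : RegM E Φ u) : RegM E Φ u⁻¹ :=
  RegM.of_zpow hu ⟨-1, by simp⟩

theorem RegM.conj {u : T} (hu : RegM E Φ u) {ψ : MulAut T} (hψ : ψ ∈ E)
    (hΦ : ∀ φ ∈ E, ∀ v ∈ Φ, φ v ∈ Φ) : RegM E Φ (ψ u) := by
  intro φ hφ h
  have h1 : ψ⁻¹ * φ * ψ = 1 := by
    refine hu _ (E.mul_mem (E.mul_mem (E.inv_mem hψ) hφ) hψ) ?_
    have h2 := hΦ ψ⁻¹ (E.inv_mem hψ) _ h
    rw [map_mul, map_inv, MulAut.inv_apply_self] at h2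
    exact h2
  calc φ = ψ * (ψ⁻¹ * φ * ψ) * ψ⁻¹ := by group
    _ = 1 := by rw [h1]; group

theorem RegM.mul {u v : T} (hu : RegM E Φ u) (hv : v ∈ Φ)
    (hΦ : ∀ φ ∈ E, ∀ v ∈ Φ, φ v ∈ Φ) : RegM E Φ (u * v) := by
  intro φ hφ h
  apply hu φ hφ
  have h1 : u⁻¹ * φ u = ((u * v)⁻¹ * φ (u * v)) * (v * (φ v)⁻¹) := by
    rw [map_mul, mul_inv]
    have e : ∀ a b c d : T, (a⁻¹ * b⁻¹) * (c * d) * (b * d⁻¹) = a⁻¹ * c := by
      intro a b c d
      calc (a⁻¹ * b⁻¹) * (c * d) * (b * d⁻¹) = a⁻¹ * c * (b⁻¹ * b) * (d * d⁻¹) := by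
            simp only [mul_assoc, mul_left_comm, mul_comm]
        _ = a⁻¹ * c := by rw [inv_mul_cancel, mul_inv_cancel, mul_one, mul_one]
    exact (e u v (φ u) (φ v)).symm
  rw [h1]
  exact Φ.mul_mem h (Φ.mul_mem hv (Φ.inv_mem (hΦ φ hφ v hv)))

theorem RegM.pow {u : T} (hT : ∀ u : T, u ^ p ^ s = 1) (k : (ZMod (p ^ s))ˣ) (hu : RegM E Φ u) :
    RegM E Φ (u ^ (k : ZMod (p ^ s)).val) := by
  intro φ hφ h
  apply hu φ hφ
  apply pow_unit_mem hT k
  rw [map_pow, ← inv_pow, ← mul_pow] at h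
  exact h

open Classical in
/-- the sum of a virtual character over a set closed under generators is an integer -/
theorem int_sum (P : T → Prop) (hP : ∀ u v, Subgroup.zpowers v = Subgroup.zpowers u → P u → P v)
    {h : T → K} (hh : h ∈ vir T K) : ∃ a : ℤ, (a : K) = ∑ u with P u, h u := by
  choose a ha using fun C : Subgroup T => sum_vir_gen hh C
  refine ⟨∑ C ∈ (univ.filter P).image Subgroup.zpowers, a C, ?_⟩
  rw [Int.cast_sum, ← Finset.sum_fiberwise_of_maps_to (s := univ.filter P)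
    (t := (univ.filter P).image Subgroup.zpowers) (g := Subgroup.zpowers)
    (fun u hu => Finset.mem_image_of_mem _ hu)]
  refine Finset.sum_congr rfl fun C hC => ?_
  obtain ⟨u, hu, rfl⟩ := Finset.mem_image.1 hC
  rw [← ha]
  refine Finset.sum_congr ?_ fun _ _ => rfl
  ext v
  simp only [Finset.mem_filter, Finset.mem_univ, true_and]
  exact ⟨fun h1 => ⟨hP u v h1 (Finset.mem_filter.1 hu).2, h1⟩, fun h1 => h1.2⟩

open Classical in
/-- the norm of a row on the regular places -/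
theorem row_norm [Fintype E] (hg : ∀ i, g i ∈ vir T K)
    (hinv : ∀ i, ∀ φ ∈ E, ∀ u, U u → g i (φ u) = g i u)
    (horth : ∀ u v, U u → U v → (∃ φ ∈ E, v = φ u) →
      ∑ i, g i u * g i v⁻¹ = (Fintype.card T : K))
    (horth0 : ∀ u v, U u → U v → (¬ ∃ φ ∈ E, v = φ u) → ∑ i, g i u * g i v⁻¹ = 0)
    (hΦ : ∀ φ ∈ E, ∀ v ∈ Φ, φ v ∈ Φ) (hU : ∀ u, RegM E Φ u → U u) (j : I) :
    ∃ S : ℤ, (S : K) = ∑ u with RegM E Φ u, g j u * g j u⁻¹ ∧
      S ≤ Fintype.card T * Fintype.card E := by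
  have hgen : ∀ u v, Subgroup.zpowers v = Subgroup.zpowers u → RegM E Φ u → RegM E Φ v :=
    fun u v h hu => RegM.of_zpow hu (h ▸ Subgroup.mem_zpowers u)
  have hmem : ∀ i, (fun u => g j u⁻¹ * g i u) ∈ vir T K := fun i =>
    (vir T K).mul_mem (vir_inv (hg j)) (hg i)
  choose S hS using fun i => int_sum (fun u => RegM E Φ u) hgen (hmem i)
  have hS' : ∀ i, (S i : K) = ∑ u with RegM E Φ u, g j u * g i u⁻¹ := by
    intro i
    rw [hS]
    refine Finset.sum_bij (fun u _ => u⁻¹) ?_ ?_ ?_ ?_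
    · intro u hu
      rw [Finset.mem_filter] at hu ⊢
      exact ⟨Finset.mem_univ _, hu.2.inv⟩
    · intro a _ b _ h
      exact inv_injective h
    · intro b hb
      rw [Finset.mem_filter] at hb
      exact ⟨b⁻¹, Finset.mem_filter.2 ⟨Finset.mem_univ _, hb.2.inv⟩, inv_inv b⟩
    · intro u _
      rw [inv_inv]
  have h1 : ((∑ i, S i * S i : ℤ) : K) = ((Fintype.card T * Fintype.card E * S j : ℤ) : K) := by
    rw [Int.cast_sum]
    have e1 : ∀ i, ((S i * S i : ℤ) : K) = ∑ u with RegM E Φ u, ∑ v with RegM E Φ v,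
        (g j u⁻¹ * g j v) * (g i u * g i v⁻¹) := by
      intro i
      rw [Int.cast_mul]
      conv_lhs => rw [hS' i]
      conv_lhs => enter [1]; rw [← hS' i, hS i]
      rw [Finset.sum_mul_sum]
      exact Finset.sum_congr rfl fun u _ => Finset.sum_congr rfl fun v _ => by ring
    rw [Finset.sum_congr rfl fun i _ => e1 i, Finset.sum_comm]
    have e2 : ∀ u ∈ univ.filter fun u => RegM E Φ u,
        ∑ i, ∑ v with RegM E Φ v, (g j u⁻¹ * g j v) * (g i u * g i v⁻¹)
          = Fintype.card T * Fintype.card E * (g j u⁻¹ * g j u) := by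
      intro u hu
      have hu := (Finset.mem_filter.1 hu).2
      rw [Finset.sum_comm]
      have e3 : ∀ v ∈ univ.filter fun v => RegM E Φ v,
          ∑ i, (g j u⁻¹ * g j v) * (g i u * g i v⁻¹)
            = if ∃ φ ∈ E, v = φ u then (g j u⁻¹ * g j u) * Fintype.card T else 0 := by
        intro v hv
        have hv := (Finset.mem_filter.1 hv).2
        rw [← Finset.mul_sum]
        split_ifs with h
        · rw [horth u v (hU u hu) (hU v hv) h]
          obtain ⟨φ, hφ, rfl⟩ := h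
          rw [hinv j φ hφ u (hU u hu)]
        · rw [horth0 u v (hU u hu) (hU v hv) h, mul_zero]
      rw [Finset.sum_congr rfl e3, ← Finset.sum_filter, Finset.sum_const, nsmul_eq_mul]
      have e4 : ((univ.filter fun v => RegM E Φ v).filter fun v => ∃ φ ∈ E, v = φ u).card
          = Fintype.card E := by
        rw [← Finset.card_univ]
        symm
        refine Finset.card_bij (fun φ _ => (φ : MulAut T) u) ?_ ?_ ?_
        · intro φ _
          rw [Finset.mem_filter, Finset.mem_filter]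
          exact ⟨⟨Finset.mem_univ _, hu.conj φ.2 hΦ⟩, φ, φ.2, rfl⟩
        · intro a _ b _ h
          have h1 : (b : MulAut T)⁻¹ * a = 1 := by
            refine hu _ (E.mul_mem (E.inv_mem b.2) a.2) ?_
            rw [MulAut.mul_apply, h, MulAut.inv_apply_self, inv_mul_cancel]
            exact Φ.one_mem
          exact Subtype.ext (inv_mul_eq_one.1 h1).symm
        · intro v hv
          rw [Finset.mem_filter] at hv
          obtain ⟨φ, hφ, rfl⟩ := hv.2
          exact ⟨⟨φ, hφ⟩, Finset.mem_univ _, rfl⟩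
      rw [e4]
      ring
    rw [Finset.sum_congr rfl e2, ← Finset.mul_sum, ← hS j]
    push_cast
    ring
  have h2 : ∑ i, S i * S i = Fintype.card T * Fintype.card E * S j := by exact_mod_cast h1
  have h3 : S j * S j ≤ Fintype.card T * Fintype.card E * S j := by
    rw [← h2]
    exact Finset.single_le_sum (f := fun i => S i * S i) (fun i _ => mul_self_nonneg _)
      (Finset.mem_univ j)
  refine ⟨S j, ?_, ?_⟩
  · rw [hS' j]
  · rcases lt_or_ge 0 (S j) with h0 | h0
    · exact le_of_mul_le_mul_right h3 h0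
    · exact h0.trans (by positivity)

end

end Pool.Agent.Lib.P0c8ca5.Ku
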