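import Mathlib
import Pool.Agent.Lib.P0c8ca5Ku.KI

/-!
# KJ: the number of rows fixed by `t = 1 + p`, second form

`rows_le2`: `|R| |Φ₁| ≤ 2 |T|` for the rows `R` fixed by `u ↦ u ^ (1 + p)` on the places which are
regular modulo `Φ`, `Φ₁` the `p ^ (c + 1)`-th powers of `Φ`, if `p ^ (c + 1)` times the number of
the regular places is at least `2 |T| |E|`.
-/

set_option linter.unusedSectionVars false

namespace Pool.Agent.Lib.P0c8ca5.Ku

open Finset Ex

section
variable {T : Type*} [CommGroup T] [Fintype T] {K : Type*} [Field K] [CharZero K] {p : ℕ}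
  [Fact p.Prime] [HasEnoughRootsOfUnity K (Monoid.exponent T)] {s : ℕ} {I : Type*} [Fintype I]
  [DecidableEq I] {g : I → T → K} {E : Subgroup (MulAut T)} {U : T → Prop} {Φ : Subgroup T}

/-- the local norm of a row: an integer which bounds the orders of the characters -/
theorem exists_loc [Fintype Φ] [Fintype (Φ →* Kˣ)] (hp2 : p ≠ 2) {x : T}
    (hT : ∀ u : T, u ^ p ^ s = 1) {h : T → K} (hh : h ∈ vir T K) :
    ∃ Z : ℤ, 0 ≤ Z ∧ ((Fintype.card Φ : ℤ) * Z : ℤ) = (∑ k : (ZMod (p ^ s))ˣ, ∑ v : Φ,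
        h (x ^ (k : ZMod (p ^ s)).val * v) * h (x ^ (k : ZMod (p ^ s)).val * v)⁻¹ : K) ∧
      ((∀ k : (ZMod (p ^ s))ˣ, ∀ v : Φ,
        h ((x ^ (k : ZMod (p ^ s)).val * v) ^ (1 + p)) = h (x ^ (k : ZMod (p ^ s)).val * v)) →
      ∀ (m : Φ →* Kˣ) (a : ℕ), orderOf m = p ^ (a + 1) → bet Φ m h x ≠ 0 →
        (p ^ a : ℤ) * Fintype.card (ZMod (p ^ s))ˣ ≤ Z) := by
  classical
  have hp : p.Prime := Fact.out
  have hz := fun m => nm_int hT (bet_vir Φ m hh) x
  choose z hz0 hz1 hz2 using hz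
  have hF := card_ne (K := K) Φ
  refine ⟨∑ m, z m, Finset.sum_nonneg fun m _ => hz0 m, ?_, fun hfix m a hm hne => ?_⟩
  · rw [Int.cast_mul, Int.cast_sum, Finset.sum_congr rfl fun m _ => hz1 m]
    unfold nm
    rw [Finset.sum_comm, Finset.sum_congr rfl fun k _ => parseval Φ hh _, ← Finset.mul_sum,
      Int.cast_natCast, ← mul_assoc, mul_inv_cancel₀ hF, one_mul]
  · have hinj : Set.InjOn (fun n => mpow m ((1 + p) ^ n)) (Finset.range (p ^ a) : Set ℕ) := by
      intro n hn n' hn' h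
      rw [Finset.coe_range, Set.mem_Iio] at hn hn'
      have e1 : mpow m ((1 + p) ^ n) = mpow m ((1 + p) ^ n') := h
      rw [← mpow_eq, ← mpow_eq] at e1
      have e1 := (pow_eq_pow_iff_modEq (G := Φ →* Kˣ) (x := m)).1 e1
      rw [hm] at e1
      have e2 := (ZMod.natCast_eq_natCast_iff _ _ _).2 e1
      push_cast at e2
      have e3 := ZMod.orderOf_one_add_prime hp hp2 a
      refine pow_injOn_Iio_orderOf (x := (1 + p : ZMod (p ^ (a + 1)))) ?_ ?_ e2
      · rw [Set.mem_Iio, e3]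
        exact hn
      · rw [Set.mem_Iio, e3]
        exact hn'
    have e0 : ∀ n, z (mpow m ((1 + p) ^ n)) = z m := by
      intro n
      have e1 : ((z (mpow m ((1 + p) ^ n)) : ℤ) : K) = (z m : K) := by
        rw [hz1, hz1, nm_bet_iter Φ hT hfix]
      exact_mod_cast e1
    calc (p ^ a : ℤ) * Fintype.card (ZMod (p ^ s))ˣ ≤ p ^ a * z m :=
          mul_le_mul_of_nonneg_left (hz2 m hne) (by positivity)
      _ = ∑ n ∈ Finset.range (p ^ a), z (mpow m ((1 + p) ^ n)) := by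
          rw [Finset.sum_congr rfl fun n _ => e0 n, Finset.sum_const, Finset.card_range,
            nsmul_eq_mul, Nat.cast_pow]
      _ = ∑ m' ∈ (Finset.range (p ^ a)).image fun n => mpow m ((1 + p) ^ n), z m' := by
          rw [Finset.sum_image hinj]
      _ ≤ ∑ m, z m := Finset.sum_le_sum_of_subset_of_nonneg (Finset.subset_univ _)
          fun m _ _ => hz0 m

open Classical in
/-- shifting the regular places -/
theorem sum_shift (hT : ∀ u : T, u ^ p ^ s = 1) (hΦ : ∀ φ ∈ E, ∀ v ∈ Φ, φ v ∈ Φ)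
    (k : (ZMod (p ^ s))ˣ) {v : T} (hv : v ∈ Φ) (F : T → K) :
    ∑ x with RegM E Φ x, F (x ^ (k : ZMod (p ^ s)).val * v) = ∑ x with RegM E Φ x, F x := by
  have hinj : Function.Injective fun x : T => x ^ (k : ZMod (p ^ s)).val * v := by
    intro x y hxy
    have h1 : x ^ (k : ZMod (p ^ s)).val = y ^ (k : ZMod (p ^ s)).val := mul_right_cancel hxy
    have h2 : (x * y⁻¹) ^ (k : ZMod (p ^ s)).val ∈ (⊥ : Subgroup T) := by
      rw [mul_pow, inv_pow, h1, mul_inv_cancel]
      exact one_mem _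
    have h3 := pow_unit_mem hT k h2
    exact mul_inv_eq_one.1 (Subgroup.mem_bot.1 h3)
  have hmaps : ∀ x, RegM E Φ x → RegM E Φ (x ^ (k : ZMod (p ^ s)).val * v) :=
    fun x hx => (hx.pow hT k).mul hv hΦ
  have himg : (univ.filter fun x => RegM E Φ x).image
      (fun x : T => x ^ (k : ZMod (p ^ s)).val * v) = univ.filter fun x => RegM E Φ x := by
    refine Finset.eq_of_subset_of_card_le ?_ ?_
    · intro y hy
      obtain ⟨x, hx, rfl⟩ := Finset.mem_image.1 hy
      exact Finset.mem_filter.2 ⟨Finset.mem_univ _, hmaps x (Finset.mem_filter.1 hx).2⟩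
    · rw [Finset.card_image_of_injective _ hinj]
  conv_rhs => rw [← himg, Finset.sum_image (fun x _ y _ h => hinj h)]

open Classical in
/-- **the number of rows fixed by `u ↦ u ^ (1 + p)`, second form** -/
theorem rows_le2 [Fintype E] (hp2 : p ≠ 2) (hT : ∀ u : T, u ^ p ^ s = 1)
    (hg : ∀ i, g i ∈ vir T K)
    (hinv : ∀ i, ∀ φ ∈ E, ∀ u, U u → g i (φ u) = g i u)
    (horth : ∀ u v, U u → U v → (∃ φ ∈ E, v = φ u) →
      ∑ i, g i u * g i v⁻¹ = (Fintype.card T : K))
    (horth0 : ∀ u v, U u → U v → (¬ ∃ φ ∈ E, v = φ u) → ∑ i, g i u * g i v⁻¹ = 0)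
    {R : Finset I} (hfix : ∀ j ∈ R, ∀ u, U u → g j (u ^ (1 + p)) = g j u)
    (hne : ∀ j ∈ R, ∀ u, U u → g j u ≠ 0)
    (hΦ : ∀ φ ∈ E, ∀ v ∈ Φ, φ v ∈ Φ) (hU : ∀ u, RegM E Φ u → U u) {c : ℕ}
    (hreg : 2 * (Fintype.card T * Fintype.card E)
      ≤ p ^ (c + 1) * (univ.filter fun u => RegM E Φ u).card)
    {Φ₁ : Subgroup T} (hΦ₁ : ∀ w ∈ Φ₁, ∃ v ∈ Φ, w = v ^ p ^ (c + 1)) :
    R.card * Nat.card Φ₁ ≤ 2 * Nat.card T := by
  have hp : p.Prime := Fact.out
  have hle : Φ₁ ≤ Φ := by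
    intro w hw
    obtain ⟨v, hv, rfl⟩ := hΦ₁ w hw
    exact Φ.pow_mem hv _
  have : Fintype Φ := Fintype.ofFinite _
  have : Fintype Φ₁ := Fintype.ofFinite _
  have hexp : Monoid.exponent Φ ∣ Monoid.exponent T := by
    apply Monoid.exponent_dvd_of_forall_pow_eq_one
    intro v
    exact Subtype.ext (Monoid.pow_exponent_eq_one (v : T))
  have : NeZero (Monoid.exponent T) := ⟨Monoid.exponent_ne_zero_of_finite⟩
  have : HasEnoughRootsOfUnity K (Monoid.exponent Φ) := HasEnoughRootsOfUnity.of_dvd K hexp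
  have : Fintype (Φ →* Kˣ) := Fintype.ofFinite _
  have hF := card_ne (K := K) Φ
  set u₀ : ℤ := (Fintype.card (ZMod (p ^ s))ˣ : ℤ) with hu₀
  have hc0 : (0 : ℤ) < u₀ := by
    rw [hu₀]
    exact_mod_cast Fintype.card_pos
  have hT0 : 0 < Fintype.card T := Fintype.card_pos
  have hE0 : 0 < Fintype.card E := Fintype.card_pos
  set Rg : Finset T := univ.filter fun u => RegM E Φ u with hRg
  have hRg0 : 0 < Rg.card := by
    rcases Nat.eq_zero_or_pos Rg.card with h0 | h0
    · rw [h0, mul_zero] at hreg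
      have : 0 < 2 * (Fintype.card T * Fintype.card E) := by positivity
      omega
    · exact h0
  have hUk : ∀ x ∈ Rg, ∀ (k : (ZMod (p ^ s))ˣ) (v : T), v ∈ Φ →
      RegM E Φ (x ^ (k : ZMod (p ^ s)).val * v) := fun x hx k v hv =>
    ((Finset.mem_filter.1 hx).2.pow hT k).mul hv hΦ
  have hGr : ∀ x ∈ Rg, ∀ (Ψ : Subgroup T) (_ : Fintype Ψ) (_ : Ψ ≤ Φ) (k : (ZMod (p ^ s))ˣ),
      Gr Ψ g ((Fintype.card T : ℤ) : K) (x ^ (k : ZMod (p ^ s)).val) := by
    intro x hx Ψ _ hΨ k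
    refine ⟨fun v => ?_, fun v w hvw => ?_⟩
    · rw [horth _ _ (hU _ (hUk x hx k v (hΨ v.2))) (hU _ (hUk x hx k v (hΨ v.2)))
        ⟨1, E.one_mem, rfl⟩, Int.cast_natCast]
    · refine horth0 _ _ (hU _ (hUk x hx k v (hΨ v.2))) (hU _ (hUk x hx k w (hΨ w.2))) ?_
      rintro ⟨φ, hφ, h⟩
      have h1 : φ = 1 := by
        refine hUk x hx k v (hΨ v.2) φ hφ ?_
        rw [← h, mul_inv, mul_mul_mul_comm, inv_mul_cancel, one_mul]
        exact Φ.mul_mem (Φ.inv_mem (hΨ v.2)) (hΨ w.2)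
      rw [h1, MulAut.one_apply] at h
      exact hvw (Subtype.ext (mul_left_cancel h).symm)
  choose Z hZ0 hZ1 hZ2 using fun (i : I) (x : T) => exists_loc (Φ := Φ) (x := x) hp2 hT (hg i)
  -- the sum of the local norms
  have hsum : ∀ i, ∑ x ∈ Rg, Z i x ≤ u₀ * (Fintype.card T * Fintype.card E) := by
    intro i
    obtain ⟨S, hS1, hS2⟩ := row_norm hg hinv horth horth0 hΦ hU i
    have h1 : (((Fintype.card Φ : ℤ) * ∑ x ∈ Rg, Z i x : ℤ) : K)
        = ((u₀ * (Fintype.card Φ * S) : ℤ) : K) := by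
      rw [Finset.mul_sum, Int.cast_sum, Finset.sum_congr rfl fun x _ => hZ1 i x, Finset.sum_comm]
      have e1 : ∀ k ∈ (univ : Finset (ZMod (p ^ s))ˣ), ∑ x ∈ Rg, ∑ v : Φ,
          g i (x ^ (k : ZMod (p ^ s)).val * v) * g i (x ^ (k : ZMod (p ^ s)).val * v)⁻¹
          = Fintype.card Φ * (S : K) := by
        intro k _
        rw [Finset.sum_comm]
        rw [Finset.sum_congr rfl (g := fun _ => (S : K)) fun v _ => by
          rw [hS1]
          exact sum_shift hT hΦ k v.2 (fun u => g i u * g i u⁻¹), Finset.sum_const,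
          Finset.card_univ, nsmul_eq_mul]
      rw [Finset.sum_congr rfl e1, Finset.sum_const, Finset.card_univ, nsmul_eq_mul,
        Int.cast_mul, hu₀, Int.cast_natCast, Int.cast_mul, Int.cast_natCast]
    have h2 : (Fintype.card Φ : ℤ) * ∑ x ∈ Rg, Z i x = u₀ * (Fintype.card Φ * S) := by
      exact_mod_cast h1
    have hΦpos : (0 : ℤ) < Fintype.card Φ := by
      have : Nonempty Φ := ⟨1⟩
      exact_mod_cast Fintype.card_pos
    have h3 : ∑ x ∈ Rg, Z i x = u₀ * S := by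
      apply mul_left_cancel₀ hΦpos.ne'
      rw [h2]
      ring
    rw [h3]
    exact mul_le_mul_of_nonneg_left hS2 hc0.le
  -- the bad places of a row
  let bad : I → Finset T := fun i => Rg.filter fun x => u₀ * p ^ (c + 1) ≤ Z i x
  have hbad : ∀ i, p ^ (c + 1) * (bad i).card ≤ Fintype.card T * Fintype.card E := by
    intro i
    have h1 : ((bad i).card : ℤ) * (u₀ * p ^ (c + 1)) ≤ ∑ x ∈ Rg, Z i x := by
      calc ((bad i).card : ℤ) * (u₀ * p ^ (c + 1)) = ∑ x ∈ bad i, (u₀ * p ^ (c + 1)) := by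
            rw [Finset.sum_const, nsmul_eq_mul]
        _ ≤ ∑ x ∈ bad i, Z i x := Finset.sum_le_sum fun x hx => (Finset.mem_filter.1 hx).2
        _ ≤ ∑ x ∈ Rg, Z i x := Finset.sum_le_sum_of_subset_of_nonneg (Finset.filter_subset _ _)
            fun x _ _ => hZ0 i x
    have h2 := h1.trans (hsum i)
    have h3 : u₀ * (p ^ (c + 1) * ((bad i).card : ℤ))
        ≤ u₀ * (Fintype.card T * Fintype.card E) := by
      refine le_trans (le_of_eq ?_) h2
      ring
    have h4 := le_of_mul_le_mul_left h3 hc0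
    exact_mod_cast h4
  have hbad2 : ∀ i, 2 * (bad i).card ≤ Rg.card := by
    intro i
    have h1 : p ^ (c + 1) * (2 * (bad i).card) ≤ p ^ (c + 1) * Rg.card := by
      refine le_trans ?_ hreg
      have h2 := Nat.mul_le_mul_left 2 (hbad i)
      refine le_trans (le_of_eq ?_) h2
      ring
    exact Nat.le_of_mul_le_mul_left h1 (pow_pos hp.pos _)
  -- the good rows at a place
  let good : T → Finset I := fun x => R.filter fun i => ¬ u₀ * p ^ (c + 1) ≤ Z i x
  have hgood : ∀ x ∈ Rg, (good x).card * Nat.card Φ₁ ≤ Nat.card T := by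
    intro x hx
    have hxr : RegM E Φ x := (Finset.mem_filter.1 hx).2
    have hb : ∀ j ∈ good x, bet Φ₁ 1 (g j) x ≠ 0 := by
      intro j hj
      obtain ⟨hjR, hjZ⟩ := Finset.mem_filter.1 hj
      have hconst : ∀ w : Φ, (w : T) ∈ Φ₁ → g j (x * w) = g j x := by
        intro w hw
        have h1 := bet_sum Φ (hg j) x w
        have h2 := bet_sum Φ (hg j) x 1
        rw [Subgroup.coe_one, mul_one] at h2
        rw [h1, h2]
        refine Finset.sum_congr rfl fun m _ => ?_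
        by_cases hb : bet Φ m (g j) x = 0
        · rw [hb, zero_mul, zero_mul]
        congr 2
        rw [map_one]
        obtain ⟨v, hv, hvw⟩ := hΦ₁ w hw
        have h3 : w = (⟨v, hv⟩ : Φ) ^ p ^ (c + 1) := Subtype.ext hvw
        have h4 : (mpow m (p ^ s)) = 1 := by
          ext z
          rw [mpow_apply, ← map_pow]
          have h5 : z ^ p ^ s = 1 := Subtype.ext (hT z)
          rw [h5, map_one]
          rfl
        rw [← mpow_eq] at h4
        obtain ⟨a, -, ha⟩ := (Nat.dvd_prime_pow hp).1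
          ((orderOf_dvd_iff_pow_eq_one (G := Φ →* Kˣ) (x := m)).2 h4)
        have h5 : a ≤ c + 1 := by
          rcases a with _ | a
          · exact Nat.zero_le _
          · have h6 := hZ2 j x (fun k v => hfix j hjR _ (hU _ (hUk x hx k v v.2))) m a ha hb
            have h7 : (p : ℤ) ^ a * u₀ < u₀ * p ^ (c + 1) := lt_of_le_of_lt h6 (not_le.1 hjZ)
            rw [mul_comm] at h7
            have h8 : (p : ℤ) ^ a < p ^ (c + 1) := lt_of_mul_lt_mul_left h7 hc0.le
            have h9 : p ^ a < p ^ (c + 1) := by exact_mod_cast h8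
            exact (Nat.pow_lt_pow_iff_right hp.one_lt).1 h9
        have h6 : @HPow.hPow (Φ →* Kˣ) ℕ (Φ →* Kˣ) (@instHPow _ ℕ NPow.toPow) m (p ^ (c + 1))
            = 1 :=
          (orderOf_dvd_iff_pow_eq_one (G := Φ →* Kˣ) (x := m)).1 (ha ▸ pow_dvd_pow p h5)
        rw [mpow_eq] at h6
        rw [h3, map_pow, ← mpow_apply, h6, MonoidHom.one_apply]
      have h1 : bet Φ₁ 1 (g j) x = g j x := by
        rw [bet, Finset.sum_congr rfl (g := fun _ => g j x) fun v _ => by
          rw [MonoidHom.one_apply, Units.val_one, mul_one]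
          exact hconst ⟨v, hle v.2⟩ v.2, Finset.sum_const, Finset.card_univ, nsmul_eq_mul,
          ← mul_assoc, inv_mul_cancel₀ (card_ne Φ₁), one_mul]
      rw [h1]
      exact hne j hjR x (hU x hxr)
    have h1 := count_defl Φ₁ hT hg (hGr x hx Φ₁ inferInstance hle) 1 (good x) hb
    rw [Fintype.card_eq_nat_card, Fintype.card_eq_nat_card] at h1
    exact_mod_cast h1
  -- double counting
  have hdc : ∑ x ∈ Rg, (good x).card = ∑ i ∈ R, (Rg.card - (bad i).card) := by
    have e1 : ∀ i ∈ R, Rg.card - (bad i).card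
        = (Rg.filter fun x => ¬ u₀ * p ^ (c + 1) ≤ Z i x).card := by
      intro i _
      have h1 := Finset.card_filter_add_card_filter_not (s := Rg)
        (fun x => u₀ * p ^ (c + 1) ≤ Z i x)
      have h2 : (bad i).card = (Rg.filter fun x => u₀ * p ^ (c + 1) ≤ Z i x).card := rfl
      omega
    rw [Finset.sum_congr rfl e1]
    simp only [good, Finset.card_filter]
    exact Finset.sum_comm
  have h1 : R.card * Rg.card ≤ 2 * ∑ x ∈ Rg, (good x).card := by
    rw [hdc, Finset.mul_sum, ← smul_eq_mul, ← Finset.sum_const]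
    refine Finset.sum_le_sum fun i _ => ?_
    have := hbad2 i
    omega
  have h2 : (∑ x ∈ Rg, (good x).card) * Nat.card Φ₁ ≤ Rg.card * Nat.card T := by
    rw [Finset.sum_mul, ← smul_eq_mul, ← Finset.sum_const]
    exact Finset.sum_le_sum hgood
  have h3 : Rg.card * (R.card * Nat.card Φ₁) ≤ Rg.card * (2 * Nat.card T) := by
    calc Rg.card * (R.card * Nat.card Φ₁) = (R.card * Rg.card) * Nat.card Φ₁ := by ring
      _ ≤ (2 * ∑ x ∈ Rg, (good x).card) * Nat.card Φ₁ := Nat.mul_le_mul_right _ h1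
      _ = 2 * ((∑ x ∈ Rg, (good x).card) * Nat.card Φ₁) := by ring
      _ ≤ 2 * (Rg.card * Nat.card T) := Nat.mul_le_mul_left _ h2
      _ = Rg.card * (2 * Nat.card T) := by ring
  exact Nat.le_of_mul_le_mul_left h3 hRg0

end

end Pool.Agent.Lib.P0c8ca5.Ku
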