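import Mathlib
import Pool.Agent.Lib.P0c8ca5Ku.KE
import Pool.Agent.Lib.P0c8ca5Ku.KJ

/-!
# KK: blocks with a large abelian defect group: a better bound for `l(B)`

`l_le_large2`: `l(B) ≤ 2 * p ^ (r * (2 * i + 2))` if the defect group `D` is abelian of rank at
most `r`, the inertial index is at most `p ^ i` and the elements of order `p` of `[D, E]` are
`p ^ (i + 1)`-th powers in `D`.
-/

set_option linter.unusedSectionVars false

namespace Pool.Agent.Lib.P0c8ca5.Ku

open MonoidAlgebra Finset Ex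

section
variable {T : Type*} [CommGroup T] [Fintype T] {p : ℕ}

open Classical in
/-- the number of the places which are regular modulo the `p ^ j`-th powers -/
theorem card_RegM (hp : p.Prime) (hT : IsPGroup p T) (E : Subgroup (MulAut T)) [Fintype E]
    (hpE : ¬ p ∣ Nat.card E) {j : ℕ}
    (hinv : ∀ x ∈ Subgroup.closure {w : T | ∃ φ ∈ E, ∃ u, w = u⁻¹ * φ u}, x ^ p = 1 →
      ∃ y : T, x = y ^ p ^ j) :
    p ^ j * Fintype.card T ≤
      p ^ j * (univ.filter fun u => RegM E (powMonoidHom (p ^ j) : T →* T).range u).card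
        + (Fintype.card E - 1) * Fintype.card T := by
  set Φ := (powMonoidHom (p ^ j) : T →* T).range with hΦ
  set Rg := univ.filter fun u => RegM E Φ u with hRg
  let Bd : Finset T := (univ.filter fun φ : E => φ ≠ 1).biUnion fun φ =>
    univ.filter fun u : T => u⁻¹ * (φ : MulAut T) u ∈ Φ
  have h1 : (univ : Finset T) ⊆ Rg ∪ Bd := by
    intro u _
    rw [Finset.mem_union]
    by_cases hu : RegM E Φ u
    · exact Or.inl (Finset.mem_filter.2 ⟨Finset.mem_univ _, hu⟩)
    · right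
      unfold RegM at hu
      push Not at hu
      obtain ⟨φ, hφ, h2, h3⟩ := hu
      rw [Finset.mem_biUnion]
      exact ⟨⟨φ, hφ⟩, Finset.mem_filter.2 ⟨Finset.mem_univ _, fun h4 =>
        h3 (congrArg Subtype.val h4)⟩, Finset.mem_filter.2 ⟨Finset.mem_univ _, h2⟩⟩
  have h2 : Fintype.card T ≤ Rg.card + Bd.card := by
    rw [← Finset.card_univ]
    exact (Finset.card_le_card h1).trans (Finset.card_union_le _ _)
  have h3 : p ^ j * Bd.card ≤ (Fintype.card E - 1) * Fintype.card T := by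
    have h4 : Bd.card ≤ ∑ φ ∈ univ.filter (fun φ : E => φ ≠ 1),
        (univ.filter fun u : T => u⁻¹ * (φ : MulAut T) u ∈ Φ).card := Finset.card_biUnion_le
    have h5 : ∀ φ ∈ univ.filter (fun φ : E => φ ≠ 1),
        p ^ j * (univ.filter fun u : T => u⁻¹ * (φ : MulAut T) u ∈ Φ).card
          ≤ Fintype.card T := by
      intro φ hφ
      have hφ1 : φ ≠ 1 := (Finset.mem_filter.1 hφ).2
      have h6 := card_irr hp hT (φ := (φ : MulAut T)) (n := Nat.card E)
        (by
          have h7 : φ ^ Nat.card E = 1 := pow_card_eq_one'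
          exact congrArg Subtype.val h7) hpE
        (fun h8 => hφ1 (Subtype.ext h8)) (i := j)
        (by
          rintro _ ⟨u, rfl⟩ hxp
          exact hinv _ (Subgroup.subset_closure ⟨φ, φ.2, u, rfl⟩) hxp)
      have h9 : (univ.filter fun u : T => u⁻¹ * (φ : MulAut T) u ∈ Φ).card
          = Nat.card {x : T // ∃ y : T, x⁻¹ * (φ : MulAut T) x = y ^ p ^ j} := by
        rw [Nat.card_eq_fintype_card, Fintype.card_subtype]
        congr 1
        ext u
        simp only [Finset.mem_filter, Finset.mem_univ, true_and]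
        constructor
        · rintro ⟨y, hy⟩
          exact ⟨y, hy.symm⟩
        · rintro ⟨y, hy⟩
          exact ⟨y, hy.symm⟩
      rw [h9, ← Nat.card_eq_fintype_card (α := T)]
      exact h6
    have h6 : (univ.filter fun φ : E => φ ≠ 1).card = Fintype.card E - 1 := by
      rw [Finset.filter_ne', Finset.card_erase_of_mem (Finset.mem_univ _), Finset.card_univ]
    calc p ^ j * Bd.card ≤ p ^ j * ∑ φ ∈ univ.filter (fun φ : E => φ ≠ 1),
        (univ.filter fun u : T => u⁻¹ * (φ : MulAut T) u ∈ Φ).card := Nat.mul_le_mul_left _ h4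
      _ = ∑ φ ∈ univ.filter (fun φ : E => φ ≠ 1),
        p ^ j * (univ.filter fun u : T => u⁻¹ * (φ : MulAut T) u ∈ Φ).card := by
          rw [Finset.mul_sum]
      _ ≤ ∑ φ ∈ univ.filter (fun φ : E => φ ≠ 1), Fintype.card T := Finset.sum_le_sum h5
      _ = (Fintype.card E - 1) * Fintype.card T := by
          rw [Finset.sum_const, smul_eq_mul, h6]
  calc p ^ j * Fintype.card T ≤ p ^ j * (Rg.card + Bd.card) := Nat.mul_le_mul_left _ h2
    _ = p ^ j * Rg.card + p ^ j * Bd.card := by ring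
    _ ≤ _ := Nat.add_le_add_left h3 _

end

section
variable {T : Type*} [CommGroup T] [Fintype T] {K : Type*} [Field K] [CharZero K]
  [HasEnoughRootsOfUnity K (Monoid.exponent T)]
variable {p : ℕ} [Fact p.Prime] {E : Subgroup (MulAut T)} [Fintype E] {U : T → Prop} {I : Type*}
  [Fintype I] {g f : I → T → K} {n : T → ℤ} {a : ℤ}

open Classical in
/-- the number of fixed rows, second form -/
theorem fix_large2 (hp2 : p ≠ 2) (hU : Places E U) (hpE : ¬ p ∣ Nat.card E)
    (hd : RowDataU p E U g f n a) {m : ℕ} (hTm : ∀ u : T, u ^ p ^ m = 1) (s : Equiv.Perm I)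
    (hs : ∀ i, s i = i → ∀ u, g i (u ^ (1 + p)) = g i u) (hne : ∀ i u, U u → g i u ≠ 0)
    {Φ : Subgroup T} (hΦ : ∀ φ ∈ E, ∀ v ∈ Φ, φ v ∈ Φ)
    (hUx : ∀ u, RegM E Φ u → U u) {c : ℕ}
    (hreg : 2 * (Fintype.card T * Fintype.card E)
      ≤ p ^ (c + 1) * (univ.filter fun u => RegM E Φ u).card)
    {Φ₁ : Subgroup T} (hΦ₁ : ∀ w ∈ Φ₁, ∃ v ∈ Φ, w = v ^ p ^ (c + 1)) :
    Nat.card {i // s i = i} * Nat.card Φ₁ ≤ 2 * Nat.card T := by
  have hp : p.Prime := Fact.out
  have hT : IsPGroup p T := fun u => ⟨m, hTm u⟩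
  have htp : (1 + p).Coprime p := by
    rw [Nat.coprime_add_self_left]
    exact Nat.coprime_one_left p
  obtain ⟨σ, ψ, hψ, hσ, hσg, hσE, hψf⟩ := rows_existU hp hp2 hT hU hpE hd
  have hσK : ∀ u, (σ u : K) * (σ u : K) = 1 := fun u => by exact_mod_cast hσ u
  have hσ0 : ∀ u, (σ u : K) ≠ 0 := fun u h0 => by
    have h2 := hσK u
    rw [h0, zero_mul] at h2
    exact zero_ne_one h2
  have h1 := rows_le2 (R := Finset.univ.filter fun i => s i = i) hp2 hTm hψ (E := E) (U := U)
    (fun i φ hφ u hu => by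
      rw [hψf i u hu, hψf i (φ u) (hU.act φ hφ u hu), hσE φ hφ, hd.inv i φ hφ u hu])
    (fun u v hu hv h => by
      rw [Finset.sum_congr rfl fun i _ => by rw [hψf i u hu, hψf i v⁻¹ (hU.inv hv)]]
      have h2 : (σ v⁻¹ : K) = (σ u : K) := by
        obtain ⟨φ, hφ, rfl⟩ := h
        rw [hσg (φ u) (φ u)⁻¹ Subgroup.zpowers_inv, hσE φ hφ]
      rw [h2]
      have h3 : ∑ i, (σ u : K) * f i u * ((σ u : K) * f i v⁻¹)
          = ((σ u : K) * (σ u : K)) * ∑ i, f i u * f i v⁻¹ := by
        rw [Finset.mul_sum]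
        exact Finset.sum_congr rfl fun i _ => by ring
      rw [h3, hσK, one_mul]
      exact f_gramU hp hp2 hT hU hpE hd hu h)
    (fun u v hu hv h => by
      rw [Finset.sum_congr rfl fun i _ => by rw [hψf i u hu, hψf i v⁻¹ (hU.inv hv)]]
      have h3 : ∑ i, (σ u : K) * f i u * ((σ v⁻¹ : K) * f i v⁻¹)
          = ((σ u : K) * (σ v⁻¹ : K)) * ∑ i, f i u * f i v⁻¹ := by
        rw [Finset.mul_sum]
        exact Finset.sum_congr rfl fun i _ => by ring
      rw [h3, f_gram0U hp hp2 hT hU hpE hd hu hv h, mul_zero])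
    (fun i hi u hu => by
      have hi := (Finset.mem_filter.1 hi).2
      have hz : Subgroup.zpowers (u ^ (1 + p)) = Subgroup.zpowers u := zpowers_pow htp (hTm u)
      have hut : U (u ^ (1 + p)) := hU.gen u (u ^ (1 + p)) hz hu
      have hn : (n u : K) ≠ 0 := fun h0 => by
        have h3 := hd.fac i u hu
        rw [h0, zero_mul] at h3
        exact hne i u hu h3
      have h3 := hs i hi u
      rw [hd.fac i u hu, hd.fac i _ hut, hd.gen u (u ^ (1 + p)) hz] at h3
      rw [hψf i u hu, hψf i _ hut, hσg u (u ^ (1 + p)) hz, mul_left_cancel₀ hn h3])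
    (fun i _ u hu h0 => by
      rw [hψf i u hu] at h0
      have h5 := (mul_eq_zero.1 h0).resolve_left (hσ0 u)
      have h6 := hd.fac i u hu
      rw [h5, mul_zero] at h6
      exact hne i u hu h6) hΦ hUx hreg hΦ₁
  rwa [Nat.card_eq_fintype_card (α := {i // s i = i}), Fintype.card_subtype]

end

section
variable {p : ℕ} [Fact p.Prime] {k : Type*} [Field k] [IsAlgClosed k] [CharP k p]
  {A : Type*} [Group A] [Fintype A] {b f i : MonoidAlgebra k A} {D : Subgroup A}

open Classical in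
/-- the number of irreducible representations from the number of the regular places -/
theorem l_le_reg2 (hp2 : p ≠ 2) (h : Src p b D f i) (hpE : ¬ p ∣ eN D f) {T : Type*} [CommGroup T]
    [Fintype T] {φ : T →* A} (hφ : Function.Injective φ) (hr : ∀ x, x ∈ D ↔ ∃ t, φ t = x)
    {Φ : Subgroup T} (hΦ : ∀ ψ ∈ EG φ D f, ∀ v ∈ Φ, ψ v ∈ Φ) {c : ℕ}
    (hreg : 2 * (Fintype.card T * Nat.card (EG φ D f))
      ≤ p ^ (c + 1) * (univ.filter fun u => RegM (EG φ D f) Φ u).card)
    {Φ₁ : Subgroup T} (hΦ₁ : ∀ w ∈ Φ₁, ∃ v ∈ Φ, w = v ^ p ^ (c + 1)) :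
    Nat.card (Quotient (irrInvSetoid (⊤ : Subgroup A) ⊤ b)) * Nat.card Φ₁ ≤ 2 * Nat.card T := by
  have hp : p.Prime := Fact.out
  have hb := h.root.blk
  obtain ⟨B, hB⟩ := exists_cenL (p := p) hb.idem
    (fun g => invBy_iff_cj.1 hb.invBy g (Subgroup.mem_top g))
  have hcard : Nat.card (EG φ D f) = eN D f := card_EG hφ hr
  obtain ⟨I, f', n, a, hI, hIc, hd, hne⟩ := exists_rowU hp2 h hpE hB hφ hr
  have ht1 : (1 + p).Coprime p := by
    rw [Nat.coprime_add_self_left]
    exact Nat.coprime_one_left p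
  obtain ⟨s, hs⟩ := exists_galB (p := p) (k := k) B ht1
  have h1 := fix_ge' hb hB s ht1 hs
    (fun v g M c hv hv1 hc hbc hg => no_gal1 h hpE (t := 1 + p)
      (by rw [Nat.add_sub_cancel_left]) (Nat.le_add_right 1 p) hv hv1 hc hbc hg)
  have := Fintype.ofFinite (EG φ D f)
  obtain ⟨M, hM⟩ := pow_one_of h
  have hTm : ∀ u : T, u ^ p ^ M = 1 := by
    intro u
    apply hφ
    rw [map_pow, map_one]
    exact hM (φ u) ((hr _).2 ⟨u, rfl⟩)
  have h2 := fix_large2 hp2 places_reg (by rw [hcard]; exact hpE) hd hTm s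
    (fun χ hχ u => by
      have h2 := hs χ (φ u) M (hM _ ((hr _).2 ⟨u, rfl⟩)) I hI (hIc u)
      rw [hχ] at h2
      change chO χ.1 (single (φ (u ^ (1 + p))) 1 * I) = chO χ.1 (single (φ u) 1 * I)
      rw [map_pow, h2])
    (fun χ u _ => hne χ u) hΦ
    (fun u hu => by
      rw [Ex.st, Nat.card_eq_one_iff_unique]
      have key : ∀ ψ : EG φ D f, (ψ : MulAut T) u = u → ψ = 1 := by
        intro ψ hψ
        refine Subtype.ext (hu ψ ψ.2 ?_)
        rw [hψ, inv_mul_cancel]
        exact Φ.one_mem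
      exact ⟨⟨fun y z => Subtype.ext ((key y.1 y.2).trans (key z.1 z.2).symm)⟩,
        ⟨⟨1, rfl⟩⟩⟩) (by rw [Nat.card_eq_fintype_card] at hreg; exact hreg) hΦ₁
  exact (Nat.mul_le_mul_right _ h1).trans h2

/-- **the number of irreducible representations of a block with a large abelian defect group** -/
theorem l_le_large2 (hp2 : p ≠ 2) (h : Root p b D f) {r i : ℕ}
    (hr : Nat.card {x : A // x ∈ D ∧ x ^ p = 1} ≤ p ^ r) (hE : eN D f ≤ p ^ i)
    (hinv : ∀ x ∈ cmD D f, x ^ p = 1 → ∃ y ∈ D, x = y ^ p ^ (i + 1)) :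
    Nat.card (Quotient (irrInvSetoid (⊤ : Subgroup A) ⊤ b)) ≤ 2 * p ^ (r * (2 * i + 2)) := by
  classical
  have hp : p.Prime := Fact.out
  have hp3 : 3 ≤ p := by
    have := hp.two_le
    omega
  have hpE : ¬ p ∣ eN D f := ndvd h
  obtain ⟨i₀, hi⟩ := exists_src h
  let _ : CommGroup ↥D := cgrp D h.com
  let _ : Fintype ↥D := Fintype.ofFinite _
  have hφ : Function.Injective (D.subtype : ↥D →* A) := Subtype.val_injective
  have hrD : ∀ x, x ∈ D ↔ ∃ t, (D.subtype : ↥D →* A) t = x :=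
    fun x => ⟨fun hx => ⟨⟨x, hx⟩, rfl⟩, by rintro ⟨t, rfl⟩; exact t.2⟩
  have hcard : Nat.card (EG D.subtype D f) = eN D f := card_EG hφ hrD
  obtain ⟨M, hM⟩ := pow_one_of hi
  have hT : IsPGroup p ↥D := fun u => ⟨M, Subtype.ext (hM u u.2)⟩
  have hrT : Nat.card {x : ↥D // x ^ p = 1} ≤ p ^ r := by
    refine le_trans (le_of_eq (Nat.card_congr ?_)) hr
    exact
      { toFun := fun x => ⟨x.1, x.1.2, congrArg Subtype.val x.2⟩
        invFun := fun x => ⟨⟨x.1, x.2.1⟩, Subtype.ext x.2.2⟩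
        left_inv := fun x => rfl
        right_inv := fun x => rfl }
  have := Fintype.ofFinite (EG D.subtype D f)
  have h0 := card_RegM hp hT (EG D.subtype D f) (by rw [hcard]; exact hpE) (j := i + 1) (by
      intro x hx hxp
      have h1 : (x : A) ∈ cmD D f := by
        have hle : Subgroup.closure {w : ↥D | ∃ ψ ∈ EG D.subtype D f, ∃ u, w = u⁻¹ * ψ u}
            ≤ (cmD D f).comap D.subtype := by
          rw [Subgroup.closure_le]
          rintro w ⟨ψ, ⟨g, hg, hψ⟩, u, rfl⟩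
          refine Subgroup.subset_closure ⟨g, hg, u, u.2, ?_⟩
          have h2 : ((ψ u : ↥D) : A) = g * (u : A) * g⁻¹ := hψ u
          rw [← h2]
          rfl
        exact hle hx
      obtain ⟨y, hy, hxy⟩ := hinv x h1 (congrArg Subtype.val hxp)
      exact ⟨⟨y, hy⟩, Subtype.ext hxy⟩)
  have hEc : Fintype.card (EG D.subtype D f) ≤ p ^ i := by
    rw [← Nat.card_eq_fintype_card, hcard]
    exact hE
  have hreg : 2 * (Fintype.card ↥D * Nat.card (EG D.subtype D f)) ≤ p ^ (i + 1) *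
      (univ.filter fun u => RegM (EG D.subtype D f)
        (powMonoidHom (p ^ (i + 1)) : ↥D →* ↥D).range u).card := by
    rw [Nat.card_eq_fintype_card]
    set e := Fintype.card (EG D.subtype D f) with he
    set d := Fintype.card ↥D with hd
    set q := (univ.filter fun u => RegM (EG D.subtype D f)
        (powMonoidHom (p ^ (i + 1)) : ↥D →* ↥D).range u).card with hq
    have h1 : 3 * e ≤ p ^ (i + 1) := by
      rw [pow_succ, mul_comm]
      exact Nat.mul_le_mul hEc hp3
    have h2 : 3 * e * d ≤ p ^ (i + 1) * d := Nat.mul_le_mul_right _ h1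
    have h3 : (e - 1) * d ≤ e * d := Nat.mul_le_mul_right _ (Nat.sub_le _ _)
    have h4 : 2 * (d * e) + e * d = 3 * e * d := by ring
    omega
  have h1 := l_le_reg2 hp2 hi hpE (T := ↥D) (φ := D.subtype) hφ hrD
    (Φ := (powMonoidHom (p ^ (i + 1)) : ↥D →* ↥D).range)
    (by
      rintro ψ _ _ ⟨y, rfl⟩
      exact ⟨ψ y, by rw [powMonoidHom_apply, powMonoidHom_apply, map_pow]⟩)
    (c := i) hreg
    (Φ₁ := (powMonoidHom (p ^ (2 * i + 2)) : ↥D →* ↥D).range)
    (by
      rintro _ ⟨y, rfl⟩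
      refine ⟨y ^ p ^ (i + 1), ⟨y, rfl⟩, ?_⟩
      rw [powMonoidHom_apply, ← pow_mul, ← pow_add]
      congr 2
      ring)
  have h2 := h1.trans (Nat.mul_le_mul_left 2 (index_pow hrT (2 * i + 2)))
  have hpos : 0 < Nat.card (powMonoidHom (p ^ (2 * i + 2)) : ↥D →* ↥D).range := Nat.card_pos
  rw [← mul_assoc] at h2
  exact Nat.le_of_mul_le_mul_right h2 hpos

end

end Pool.Agent.Lib.P0c8ca5.Ku
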