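import Mathlib
import Pool.Agent.Lib.P0c8ca5Kk.Kv
import Pool.Agent.Lib.P0c8ca5Ku.KK
import Pool.Agent.Lib.P0c8ca5Ku.KH

/-!
# KL: the weight conjecture for blocks with large abelian defect groups

`gap_dvd`: the congruence; `l_eq_kap_large`: the equality.
-/

set_option autoImplicit false
set_option linter.unusedSectionVars false

namespace Pool.Agent.Lib.P0c8ca5.Ku

open MonoidAlgebra Bq Ex Kq Kk QCorAux

universe u v

section
variable {p : ℕ} [Fact p.Prime] {k : Type v} [Field k] [IsAlgClosed k] [CharP k p]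
variable {A : Type u} [Group A] [Fintype A] {b f : MonoidAlgebra k A} {D : Subgroup A}

theorem gap_val (h : Root p b D f) : gap p (⊤ : Subgroup A) ⊤ b
    = (((Nat.card (IrX (⊤ : Subgroup A) b) : ℤ) - (kap D b : ℤ) : ℤ) : ℚ) := by
  obtain ⟨j, hj⟩ := exists_src h
  have hnd : ¬ p ∣ eN D f := ndvd h
  obtain ⟨T, hT1, hT2⟩ := exists_transversal (⊤ : Subgroup A) (Theta p (⊤ : Subgroup A) ⊤ b)
  have hk := wt_kap hj hnd T hT1 hT2
  have hinv : InvBy ⊤ b := h.blk.invBy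
  have hg := gap_eq (p := p) (le_refl (⊤ : Subgroup A)) (by
    intro x _
    rw [Subgroup.mem_normalizer_iff]
    intro y
    simp) (fun x _ => ⟨0, Subgroup.mem_top _⟩) h.blk hinv T hT1 hT2
  rw [card_top h.blk, hk] at hg
  rw [hg]
  push_cast
  rfl

/-- **the congruence** -/
theorem gap_dvd (hp2 : p ≠ 2) (h : Root p b D f) {n : ℕ}
    (hbig : ∀ x ∈ cmD D f, x ^ p = 1 → ∃ y ∈ D, x = y ^ p ^ n) :
    ∃ z : ℤ, gap p (⊤ : Subgroup A) ⊤ b = (z : ℚ) ∧ ((p ^ (n + 1) : ℕ) : ℤ) ∣ z :=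
  ⟨_, gap_val h, l_kap_dvd hp2 h hbig⟩

/-- **the equality** -/
theorem l_eq_kap_large (hp2 : p ≠ 2) (h : Root p b D f) {r i : ℕ} (hr0 : 1 ≤ r)
    (hr : Nat.card {x : A // x ∈ D ∧ x ^ p = 1} ≤ p ^ r) (hE : eN D f ≤ p ^ i)
    (hbig : ∀ x ∈ cmD D f, x ^ p = 1 → ∃ y ∈ D, x = y ^ p ^ (2 * r * (i + 1))) :
    Nat.card (IrX (⊤ : Subgroup A) b) = kap D b := by
  have hp : p.Prime := Fact.out
  have hp3 : 3 ≤ p := by
    have := hp.two_le
    omega
  obtain ⟨j, hj⟩ := exists_src h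
  have hri : i + 1 ≤ 2 * r * (i + 1) := by nlinarith
  have h1 := l_kap_dvd hp2 h hbig
  have h2 : Nat.card (IrX (⊤ : Subgroup A) b) ≤ 2 * p ^ (2 * r * (i + 1)) := by
    have h3 := l_le_large2 hp2 h hr hE (fun x hx hxp => by
      obtain ⟨y, hy, rfl⟩ := hbig x hx hxp
      refine ⟨y ^ p ^ (2 * r * (i + 1) - (i + 1)), D.pow_mem hy _, ?_⟩
      rw [← pow_mul, ← pow_add, Nat.sub_add_cancel hri])
    rw [card_top h.blk] at h3
    refine h3.trans (le_of_eq ?_)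
    congr 2
    ring
  have h3 : kap D b ≤ p ^ (2 * r * (i + 1)) :=
    (kap_le hj).trans (hE.trans (Nat.pow_le_pow_right hp.pos (by omega)))
  have h4 : 0 < Nat.card (IrX (⊤ : Subgroup A) b) := card_irX_pos h.blk
  have h5 : 0 < kap D b := kap_pos h
  have h6 : 3 * p ^ (2 * r * (i + 1)) ≤ p ^ (2 * r * (i + 1) + 1) := by
    rw [pow_succ, mul_comm]
    exact Nat.mul_le_mul_left _ hp3
  have h7 : (Nat.card (IrX (⊤ : Subgroup A) b) : ℤ) - (kap D b : ℤ) = 0 := by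
    refine Int.eq_zero_of_abs_lt_dvd h1 ?_
    rw [abs_lt]
    constructor <;> omega
  omega

/-- a trivial defect group -/
theorem eN_bot (h : Root p b D f) (hr : Nat.card {x : A // x ∈ D ∧ x ^ p = 1} ≤ 1) :
    ∀ x ∈ D, x ^ p = 1 → x = 1 := by
  intro x hx hxp
  have h1 := Finite.card_le_one_iff_subsingleton.1 hr
  exact congrArg Subtype.val (h1.elim (⟨x, hx, hxp⟩ : {x : A // x ∈ D ∧ x ^ p = 1})
    ⟨1, D.one_mem, one_pow _⟩)

theorem cmD_le (h : Root p b D f) : cmD D f ≤ D := by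
  rw [cmD, Subgroup.closure_le]
  rintro w ⟨g, hg, u, hu, rfl⟩
  exact D.mul_mem (D.inv_mem hu) ((Subgroup.mem_normalizer_iff.1 hg.1 u).1 hu)

/-- **the weight conjecture, rank at most `r` and `|E| ≤ p ^ i`** -/
theorem large (hp2 : p ≠ 2) (h : Root p b D f) {r i : ℕ}
    (hr : Nat.card {x : A // x ∈ D ∧ x ^ p = 1} ≤ p ^ r) (hE : eN D f ≤ p ^ i)
    (hbig : ∀ x ∈ cmD D f, x ^ p = 1 → ∃ y ∈ D, x = y ^ p ^ (2 * r * (i + 1))) :
    gap p (⊤ : Subgroup A) ⊤ b = 0 ∧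
      Nat.card (Quotient (irrInvSetoid (⊤ : Subgroup A) ⊤ b)) ≤ eN D f := by
  have hp : p.Prime := Fact.out
  obtain ⟨j, hj⟩ := exists_src h
  have h1 : Nat.card (IrX (⊤ : Subgroup A) b) = kap D b := by
    rcases Nat.eq_zero_or_pos r with rfl | hr0
    · have hD := eN_bot h (by rwa [pow_zero] at hr)
      refine l_eq_kap_large hp2 h (r := 1) (i := i) le_rfl
        (hr.trans (Nat.pow_le_pow_right hp.pos (Nat.zero_le 1))) hE ?_
      intro x hx hxp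
      exact ⟨1, D.one_mem, by rw [hD x (cmD_le h hx) hxp, one_pow]⟩
    · exact l_eq_kap_large hp2 h hr0 hr hE hbig
  refine ⟨?_, ?_⟩
  · rw [gap_val h, h1, sub_self, Int.cast_zero]
  · rw [card_top h.blk, h1]
    exact kap_le hj

end

end Pool.Agent.Lib.P0c8ca5.Ku
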