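import Mathlib
import Pool.Agent.Lib.P0c8ca5Kk.Kv
import Pool.Agent.Lib.P0c8ca5Ku.KK
import Pool.Agent.Lib.P0c8ca5Ku.KH
import Pool.Agent.Lib.P0c8ca5Ku.KL

/-!
# KN: the results for a faithful action on the powers

`Faith p n D f`: the inertial quotient acts faithfully on the subgroup of the `p ^ n`-th powers
of `D`. `l_kap_dvd'`: then `p ^ (n + 1)` divides `l(b) - kap D b`. `large'`: the weight
conjecture. `faith_of_big`: the condition holds if all elements of order `p` of `D` are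
`p ^ n`-th powers.
-/

set_option autoImplicit false
set_option linter.unusedSectionVars false

namespace Pool.Agent.Lib.P0c8ca5.Ku

open MonoidAlgebra Finset Bq Ex Kq Kk QCorAux

universe u v

/-- the inertial quotient acts faithfully on the `p ^ n`-th powers of `D` -/
def Faith {k : Type v} [Field k] {A : Type u} [Group A] (p n : ℕ) (D : Subgroup A)
    (f : MonoidAlgebra k A) : Prop :=
  ∀ g ∈ St D f, (∀ y ∈ D, g * y ^ p ^ n = y ^ p ^ n * g) → g ∈ CD D

theorem Faith.mono {k : Type v} [Field k] {A : Type u} [Group A] {p n m : ℕ} {D : Subgroup A}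
    {f : MonoidAlgebra k A} (h : Faith p n D f) (hm : m ≤ n) : Faith p m D f := by
  intro g hg hy
  refine h g hg fun y hyD => ?_
  have h1 := hy (y ^ p ^ (n - m)) (D.pow_mem hyD _)
  rwa [← pow_mul, ← pow_add, Nat.sub_add_cancel hm] at h1

section
variable {k : Type v} [Field k] [IsAlgClosed k] {A : Type u} [Group A] [Fintype A]
variable {p : ℕ} [Fact p.Prime] [CharP k p]
variable {b f c : MonoidAlgebra k A} {D M U : Subgroup A}

theorem dn_faith {n : ℕ} (hr : Root p b D f) (h : Faith p n D f) (hMU : CD M ≤ U) {g : A}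
    (hg : M ≤ cg g D) (hgd : IsDefectGroup p U c (cg g D)) :
    Faith p n ((cg g D).subgroupOf U) (dn U (cj g f)) := by
  have hDU : cg g D ≤ U := hgd.le
  have hCU : CD (cg g D) ≤ U := (Subgroup.centralizer_le hg).trans hMU
  have hfb : IsBlock (CD (cg g D)) (cj g f) := by
    rw [← FuAux.cg_CD]
    exact isBlock_cg hr.fblk g
  have hfs : SuppIn U (cj g f) := fun x hx => hCU (((mem_fixAlg.1 hfb.mem).1 x hx))
  intro x hx hxy
  rw [FinAux.St_subgroupOf hDU hfs, Subgroup.mem_subgroupOf, Subgroup.mem_inf,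
    KhAux.mem_St_cg] at hx
  have h1 := h _ hx.2 (fun y hy => by
    have hy' : g * y * g⁻¹ ∈ cg g D := by
      rw [mem_cg]
      have e1 : g⁻¹ * (g * y * g⁻¹) * g = y := by group
      rw [e1]
      exact hy
    have h2 := congrArg (Subtype.val : ↥U → A)
      (hxy ⟨g * y * g⁻¹, hDU hy'⟩ (Subgroup.mem_subgroupOf.2 hy'))
    rw [Subgroup.coe_mul, Subgroup.coe_mul, SubmonoidClass.coe_pow] at h2
    have h3 : (x : A) * (g * y ^ p ^ n * g⁻¹) = (g * y ^ p ^ n * g⁻¹) * (x : A) := by
      rw [← conj_pow]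
      exact h2
    calc g⁻¹ * (x : A) * g * y ^ p ^ n = g⁻¹ * ((x : A) * (g * y ^ p ^ n * g⁻¹)) * g := by group
      _ = g⁻¹ * ((g * y ^ p ^ n * g⁻¹) * (x : A)) * g := by rw [h3]
      _ = y ^ p ^ n * (g⁻¹ * (x : A) * g) := by group)
  rw [FinAux.CD_subgroupOf hDU, Subgroup.mem_subgroupOf, Subgroup.mem_inf]
  refine ⟨x.2, ?_⟩
  rw [← FuAux.cg_CD, mem_cg]
  exact h1

theorem dn_root (hr : Root p b D f) (hMU : CD M ≤ U) {g : A} (hg : M ≤ cg g D)
    (hc : IsBlock U c) (hgd : IsDefectGroup p U c (cg g D))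
    (hcf : resS (CD (cg g D) : Set A) c * cj g f = cj g f) :
    Root p (dn U c) ((cg g D).subgroupOf U) (dn U (cj g f)) := by
  have hCU : CD (cg g D) ≤ U := (Subgroup.centralizer_le hg).trans hMU
  have hfb : IsBlock (CD (cg g D)) (cj g f) := by
    rw [← FuAux.cg_CD]
    exact isBlock_cg hr.fblk g
  have hcom : ∀ x ∈ cg g D, ∀ y ∈ cg g D, x * y = y * x := by
    intro x hx y hy
    rw [mem_cg] at hx hy
    have h1 := hr.com _ hx _ hy
    have e1 : x * y = g * ((g⁻¹ * x * g) * (g⁻¹ * y * g)) * g⁻¹ := by group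
    rw [e1, h1]
    group
  refine root_dn U hc hgd hcom ?_ hcf
  rw [inf_eq_right.2 hCU]
  exact hfb

end

theorem l_kap_dvd'_aux {p : ℕ} [Fact p.Prime] (hp : p ≠ 2) {k : Type v} [Field k]
    [IsAlgClosed k] [CharP k p] {n : ℕ} (m : ℕ) :
    ∀ (A : Type u) [Group A] [Fintype A], Nat.card A = m →
      ∀ (b : MonoidAlgebra k A) (D : Subgroup A) (f : MonoidAlgebra k A),
        Root p b D f → Faith p n D f → ((p ^ (n + 1) : ℕ) : ℤ) ∣
          (Nat.card (IrX (⊤ : Subgroup A) b) : ℤ) - (kap D b : ℤ) := by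
  classical
  induction m using Nat.strong_induction_on with
  | _ m ih =>
    intro A _ _ hA b D f hr h
    have hpp : p.Prime := Fact.out
    obtain ⟨j, hj⟩ := exists_src hr
    have hE : ¬ p ∣ eN D f := Ku.ndvd hr
    obtain ⟨R, hRp, hRn, hRmax⟩ := exists_op p A
    have hRD : R ≤ D := op_le hr.blk hr.dfg hRp hRn
    by_cases hreg : ∀ g ∈ St D f, (∀ u ∈ R, g * u = u * g) → g ∈ CD D
    · rw [Nc.l_eq_local hp hj hE hRD hRn hreg, sub_self]
      exact dvd_zero _
    push Not at hreg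
    obtain ⟨g, hg, hgR, hgD⟩ := hreg
    obtain ⟨y, hy, hyR⟩ : ∃ y ∈ D, y ^ p ^ n ∉ R := by
      by_contra hcon
      push Not at hcon
      exact hgD (h g hg fun y hy => hgR _ (hcon y hy))
    have hlt : R < D := lt_of_le_of_ne hRD (by
      rintro rfl
      exact hyR (R.pow_mem hy _))
    have h1 := krQ_comm hr.blk hr.dfg hr.com hRn hRD hy hyR
    have h2 := kR_cong (q := ((p ^ (n + 1) : ℕ) : ℤ)) hj hlt hRn
      (fun τ hτ hne c hc hcb g hg hgd hcf => by
      obtain ⟨M, hM, hall, hsC, hCN, hNM⟩ := CgAux.exists_max hτ.1 hne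
      have hMg : M ≤ cg g D := hg M hM
      have hU : sN τ ≠ ⊤ := sN_ne_top hRmax hτ hne
      have hlt' : Nat.card (sN τ) < m := by
        rw [← hA]
        have h3 := Subgroup.card_le_card_group (sN τ)
        refine lt_of_le_of_ne h3 (fun h4 => hU ?_)
        exact Subgroup.eq_top_of_card_eq _ h4
      have : Fintype ↥(sN τ) := Fintype.ofFinite _
      have h4 := ih _ hlt' ↥(sN τ) rfl _ _ _ (dn_root hr hCN hMg hc hgd hcf)
        (dn_faith hr h hCN hMg hgd)
      have h5 := irX_dn (le_refl (sN τ)) hc.suppIn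
      rw [Subgroup.subgroupOf_self] at h5
      rw [h5, kap_dn hgd.le ((Subgroup.centralizer_le hMg).trans hCN)] at h4
      exact h4)
    exact (dvd_sub_right h1).1 h2

/-- **the number of simple modules is congruent to the number of weights** -/
theorem l_kap_dvd' {p : ℕ} [Fact p.Prime] (hp : p ≠ 2) {k : Type v} [Field k] [IsAlgClosed k]
    [CharP k p] {n : ℕ} {A : Type u} [Group A] [Fintype A] {b : MonoidAlgebra k A}
    {D : Subgroup A} {f : MonoidAlgebra k A} (h : Root p b D f) (hF : Faith p n D f) :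
    ((p ^ (n + 1) : ℕ) : ℤ) ∣ (Nat.card (IrX (⊤ : Subgroup A) b) : ℤ) - (kap D b : ℤ) :=
  l_kap_dvd'_aux hp _ A rfl b D f h hF

section
variable {T : Type*} [CommGroup T] [Finite T] {p : ℕ}

/-- the number of elements moved by `φ` modulo `T ^ (p ^ i)`: the exponent of `[T, φ]` is large -/
theorem card_irr' (hp : p.Prime) (hT : IsPGroup p T) {φ : MulAut T} {n : ℕ} (hn : φ ^ n = 1)
    (hpn : ¬ p ∣ n) {i : ℕ} (hinv : ∃ u : T, (u⁻¹ * φ u) ^ p ^ i ≠ 1) :
    p ^ i * Nat.card {x : T // ∃ y : T, x⁻¹ * φ x = y ^ p ^ i} ≤ Nat.card T := by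
  obtain ⟨u, hu⟩ := hinv
  -- `D1 = [T, φ]`
  set D1 := (cm φ).range with hD1d
  let P : D1 →* D1 := powMonoidHom (p ^ i)
  -- the kernel of `P` has at least `p ^ i` elements
  have hker : p ^ i ≤ Nat.card P.ker := by
    have hpf : Fact p.Prime := ⟨hp⟩
    obtain ⟨d, hd, h2⟩ : ∃ d ∈ D1, orderOf d = p ^ i := by
      obtain ⟨N, hN⟩ := hT (u⁻¹ * φ u)
      obtain ⟨N, -, hN⟩ := (Nat.dvd_prime_pow hp).1 (orderOf_dvd_of_pow_eq_one hN)
      have hle : i ≤ N := by
        by_contra hcon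
        apply hu
        refine orderOf_dvd_iff_pow_eq_one.1 ?_
        rw [hN]
        exact pow_dvd_pow p (by omega)
      refine ⟨(u⁻¹ * φ u) ^ p ^ (N - i), D1.pow_mem ⟨u, rfl⟩ _, ?_⟩
      rw [orderOf_pow_of_dvd (pow_ne_zero _ hp.ne_zero)
        (by rw [hN]; exact pow_dvd_pow p (Nat.sub_le _ _)), hN]
      exact Nat.div_eq_of_eq_mul_left (pow_pos hp.pos _)
        (by rw [← pow_add]; congr 1; omega)
    let g : Subgroup.zpowers d → P.ker := fun z => ⟨⟨z.1, (Subgroup.zpowers_le.2 hd) z.2⟩, by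
        rw [MonoidHom.mem_ker]
        apply Subtype.ext
        change z.1 ^ p ^ i = 1
        obtain ⟨k, hk⟩ := z.2
        have hk' : d ^ k = z.1 := hk
        rw [← hk', ← zpow_natCast, ← zpow_mul, mul_comm, zpow_mul, zpow_natCast]
        have h4 : d ^ p ^ i = 1 := by
          rw [← h2]
          exact pow_orderOf_eq_one _
        rw [h4, one_zpow]⟩
    have h3 : Nat.card (Subgroup.zpowers d) ≤ Nat.card P.ker := by
      refine Nat.card_le_card_of_injective g ?_
      intro a b hab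
      have h4 : ((g a).1 : D1) = (g b).1 := congrArg Subtype.val hab
      have h5 : ((g a).1 : D1).1 = ((g b).1 : D1).1 := congrArg Subtype.val h4
      exact Subtype.ext h5
    rw [Nat.card_zpowers, h2] at h3
    exact h3
  have hP := card_ker_mul_range P
  have hg := card_ker_mul_range (cm φ)
  -- the irregular elements
  let S := {x : T // ∃ y : T, x⁻¹ * φ x = y ^ p ^ i}
  let A : Subgroup T := {
    carrier := {x | ∃ y : T, x⁻¹ * φ x = y ^ p ^ i}
    mul_mem' := by
      rintro a b ⟨y, hy⟩ ⟨z, hz⟩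
      refine ⟨y * z, ?_⟩
      rw [mul_pow, ← hy, ← hz, map_mul, mul_inv]
      exact mul_mul_mul_comm _ _ _ _
    one_mem' := ⟨1, by simp⟩
    inv_mem' := by
      rintro a ⟨y, hy⟩
      refine ⟨y⁻¹, ?_⟩
      rw [inv_pow, ← hy, map_inv, mul_inv] }
  have hA : Nat.card S = Nat.card A := rfl
  let f : A →* D1 := ((cm φ).rangeRestrict).comp A.subtype
  have hf := card_ker_mul_range f
  have hfk : Nat.card f.ker ≤ Nat.card (cm φ).ker := by
    let g : f.ker → (cm φ).ker := fun a => ⟨a.1.1, by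
      have h1 := a.2
      rw [MonoidHom.mem_ker] at h1 ⊢
      exact congrArg Subtype.val h1⟩
    refine Nat.card_le_card_of_injective g ?_
    intro a b hab
    have h4 : (g a).1 = (g b).1 := congrArg Subtype.val hab
    exact Subtype.ext (Subtype.ext h4)
  have hfr : Nat.card f.range ≤ Nat.card P.range := by
    have h1 : f.range ≤ P.range := by
      rintro _ ⟨a, rfl⟩
      obtain ⟨y, hy⟩ := a.2
      have h2 : (f a).1 ∈ (cm φ).range := (f a).2
      have h3 : (f a).1 = y ^ p ^ i := hy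
      obtain ⟨z, hz, hz'⟩ := pow_cm hp hT hn hpn h2 h3
      exact ⟨⟨z, hz⟩, Subtype.ext hz'.symm⟩
    exact Nat.card_le_card_of_injective (Subgroup.inclusion h1) (Subgroup.inclusion_injective h1)
  change p ^ i * Nat.card S ≤ Nat.card T
  rw [hA, ← hf]
  calc p ^ i * (Nat.card f.ker * Nat.card f.range)
      ≤ Nat.card P.ker * (Nat.card (cm φ).ker * Nat.card P.range) :=
        Nat.mul_le_mul hker (Nat.mul_le_mul hfk hfr)
    _ = Nat.card (cm φ).ker * (Nat.card P.ker * Nat.card P.range) := by ring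
    _ = Nat.card T := by rw [hP, hg]

end

section
variable {T : Type*} [CommGroup T] [Fintype T] {p : ℕ}

open Classical in
/-- the number of the places which are regular modulo the `p ^ j`-th powers -/
theorem card_RegM' (hp : p.Prime) (hT : IsPGroup p T) (E : Subgroup (MulAut T)) [Fintype E]
    (hpE : ¬ p ∣ Nat.card E) {j : ℕ}
    (hinv : ∀ φ ∈ E, φ ≠ 1 → ∃ u : T, (u⁻¹ * φ u) ^ p ^ j ≠ 1) :
    p ^ j * Fintype.card T ≤
      p ^ j * (univ.filter fun u => RegM E (powMonoidHom (p ^ j) : T →* T).range u).card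
        + (Fintype.card E - 1) * Fintype.card T := by
  set Φ := (powMonoidHom (p ^ j) : T →* T).range with hΦ
  set Rg := univ.filter fun u => RegM E Φ u with hRg
  let Bd : Finset T := (univ.filter fun φ : E => φ ≠ 1).biUnion fun φ =>
    univ.filter fun u : T => u⁻¹ * (φ : MulAut T) u ∈ Φ
  have h1 : (univ : Finset T) ⊆ Rg ∪ Bd := by
    intro u _
    rw [Finset.mem_union]
    by_cases hu : RegM E Φ u
    · exact Or.inl (Finset.mem_filter.2 ⟨Finset.mem_univ _, hu⟩)
    · right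
      unfold RegM at hu
      push Not at hu
      obtain ⟨φ, hφ, h2, h3⟩ := hu
      rw [Finset.mem_biUnion]
      exact ⟨⟨φ, hφ⟩, Finset.mem_filter.2 ⟨Finset.mem_univ _, fun h4 =>
        h3 (congrArg Subtype.val h4)⟩, Finset.mem_filter.2 ⟨Finset.mem_univ _, h2⟩⟩
  have h2 : Fintype.card T ≤ Rg.card + Bd.card := by
    rw [← Finset.card_univ]
    exact (Finset.card_le_card h1).trans (Finset.card_union_le _ _)
  have h3 : p ^ j * Bd.card ≤ (Fintype.card E - 1) * Fintype.card T := by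
    have h4 : Bd.card ≤ ∑ φ ∈ univ.filter (fun φ : E => φ ≠ 1),
        (univ.filter fun u : T => u⁻¹ * (φ : MulAut T) u ∈ Φ).card := Finset.card_biUnion_le
    have h5 : ∀ φ ∈ univ.filter (fun φ : E => φ ≠ 1),
        p ^ j * (univ.filter fun u : T => u⁻¹ * (φ : MulAut T) u ∈ Φ).card
          ≤ Fintype.card T := by
      intro φ hφ
      have hφ1 : φ ≠ 1 := (Finset.mem_filter.1 hφ).2
      have h6 := card_irr' hp hT (φ := (φ : MulAut T)) (n := Nat.card E)
        (by
          have h7 : φ ^ Nat.card E = 1 := pow_card_eq_one'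
          exact congrArg Subtype.val h7) hpE
        (i := j) (hinv _ φ.2 (fun h8 => hφ1 (Subtype.ext h8)))
      have h9 : (univ.filter fun u : T => u⁻¹ * (φ : MulAut T) u ∈ Φ).card
          = Nat.card {x : T // ∃ y : T, x⁻¹ * (φ : MulAut T) x = y ^ p ^ j} := by
        rw [Nat.card_eq_fintype_card, Fintype.card_subtype]
        congr 1
        ext u
        simp only [Finset.mem_filter, Finset.mem_univ, true_and]
        constructor
        · rintro ⟨y, hy⟩
          exact ⟨y, hy.symm⟩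
        · rintro ⟨y, hy⟩
          exact ⟨y, hy.symm⟩
      rw [h9, ← Nat.card_eq_fintype_card (α := T)]
      exact h6
    have h6 : (univ.filter fun φ : E => φ ≠ 1).card = Fintype.card E - 1 := by
      rw [Finset.filter_ne', Finset.card_erase_of_mem (Finset.mem_univ _), Finset.card_univ]
    calc p ^ j * Bd.card ≤ p ^ j * ∑ φ ∈ univ.filter (fun φ : E => φ ≠ 1),
        (univ.filter fun u : T => u⁻¹ * (φ : MulAut T) u ∈ Φ).card := Nat.mul_le_mul_left _ h4
      _ = ∑ φ ∈ univ.filter (fun φ : E => φ ≠ 1),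
        p ^ j * (univ.filter fun u : T => u⁻¹ * (φ : MulAut T) u ∈ Φ).card := by
          rw [Finset.mul_sum]
      _ ≤ ∑ φ ∈ univ.filter (fun φ : E => φ ≠ 1), Fintype.card T := Finset.sum_le_sum h5
      _ = (Fintype.card E - 1) * Fintype.card T := by
          rw [Finset.sum_const, smul_eq_mul, h6]
  calc p ^ j * Fintype.card T ≤ p ^ j * (Rg.card + Bd.card) := Nat.mul_le_mul_left _ h2
    _ = p ^ j * Rg.card + p ^ j * Bd.card := by ring
    _ ≤ _ := Nat.add_le_add_left h3 _

end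

section
variable {p : ℕ} [Fact p.Prime] {k : Type v} [Field k] [IsAlgClosed k] [CharP k p]
  {A : Type u} [Group A] [Fintype A] {b f i : MonoidAlgebra k A} {D : Subgroup A}

/-- **the number of irreducible representations of a block with a large abelian defect group** -/
theorem l_le_large' (hp2 : p ≠ 2) (h : Root p b D f) {r i : ℕ}
    (hr : Nat.card {x : A // x ∈ D ∧ x ^ p = 1} ≤ p ^ r) (hE : eN D f ≤ p ^ i)
    (hinv : Faith p (i + 1) D f) :
    Nat.card (Quotient (irrInvSetoid (⊤ : Subgroup A) ⊤ b)) ≤ 2 * p ^ (r * (2 * i + 2)) := by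
  classical
  have hp : p.Prime := Fact.out
  have hp3 : 3 ≤ p := by
    have := hp.two_le
    omega
  have hpE : ¬ p ∣ eN D f := ndvd h
  obtain ⟨i₀, hi⟩ := exists_src h
  let _ : CommGroup ↥D := cgrp D h.com
  let _ : Fintype ↥D := Fintype.ofFinite _
  have hφ : Function.Injective (D.subtype : ↥D →* A) := Subtype.val_injective
  have hrD : ∀ x, x ∈ D ↔ ∃ t, (D.subtype : ↥D →* A) t = x :=
    fun x => ⟨fun hx => ⟨⟨x, hx⟩, rfl⟩, by rintro ⟨t, rfl⟩; exact t.2⟩
  have hcard : Nat.card (EG D.subtype D f) = eN D f := card_EG hφ hrD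
  obtain ⟨M, hM⟩ := pow_one_of hi
  have hT : IsPGroup p ↥D := fun u => ⟨M, Subtype.ext (hM u u.2)⟩
  have hrT : Nat.card {x : ↥D // x ^ p = 1} ≤ p ^ r := by
    refine le_trans (le_of_eq (Nat.card_congr ?_)) hr
    exact
      { toFun := fun x => ⟨x.1, x.1.2, congrArg Subtype.val x.2⟩
        invFun := fun x => ⟨⟨x.1, x.2.1⟩, Subtype.ext x.2.2⟩
        left_inv := fun x => rfl
        right_inv := fun x => rfl }
  have := Fintype.ofFinite (EG D.subtype D f)
  have h0 := card_RegM' hp hT (EG D.subtype D f) (by rw [hcard]; exact hpE) (j := i + 1) (by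
      intro ψ hψE hψ
      by_contra hcon
      push Not at hcon
      apply hψ
      obtain ⟨g, hg, hψg⟩ := hψE
      have h1 : g ∈ CD D := by
        refine hinv g hg fun y hy => ?_
        have h2 := hcon ⟨y, hy⟩
        rw [mul_pow, inv_pow, ← map_pow, inv_mul_eq_one] at h2
        have h3 := congrArg (Subtype.val : ↥D → A) h2
        have h4 := hψg ((⟨y, hy⟩ : ↥D) ^ p ^ (i + 1))
        rw [SubmonoidClass.coe_pow] at h3
        have h5 : y ^ p ^ (i + 1) = g * y ^ p ^ (i + 1) * g⁻¹ := by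
          refine h3.trans (h4.trans ?_)
          rw [map_pow]
          rfl
        rw [eq_mul_inv_iff_mul_eq] at h5
        exact h5.symm
      refine MulEquiv.ext fun u => ?_
      have h2 : ((ψ u : ↥D) : A) = g * (u : A) * g⁻¹ := hψg u
      apply Subtype.ext
      rw [h2, ← Subgroup.mem_centralizer_iff.1 h1 (u : A) u.2, mul_inv_cancel_right]
      rfl)
  have hEc : Fintype.card (EG D.subtype D f) ≤ p ^ i := by
    rw [← Nat.card_eq_fintype_card, hcard]
    exact hE
  have hreg : 2 * (Fintype.card ↥D * Nat.card (EG D.subtype D f)) ≤ p ^ (i + 1) *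
      (univ.filter fun u => RegM (EG D.subtype D f)
        (powMonoidHom (p ^ (i + 1)) : ↥D →* ↥D).range u).card := by
    rw [Nat.card_eq_fintype_card]
    set e := Fintype.card (EG D.subtype D f) with he
    set d := Fintype.card ↥D with hd
    set q := (univ.filter fun u => RegM (EG D.subtype D f)
        (powMonoidHom (p ^ (i + 1)) : ↥D →* ↥D).range u).card with hq
    have h1 : 3 * e ≤ p ^ (i + 1) := by
      rw [pow_succ, mul_comm]
      exact Nat.mul_le_mul hEc hp3
    have h2 : 3 * e * d ≤ p ^ (i + 1) * d := Nat.mul_le_mul_right _ h1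
    have h3 : (e - 1) * d ≤ e * d := Nat.mul_le_mul_right _ (Nat.sub_le _ _)
    have h4 : 2 * (d * e) + e * d = 3 * e * d := by ring
    omega
  have h1 := l_le_reg2 hp2 hi hpE (T := ↥D) (φ := D.subtype) hφ hrD
    (Φ := (powMonoidHom (p ^ (i + 1)) : ↥D →* ↥D).range)
    (by
      rintro ψ _ _ ⟨y, rfl⟩
      exact ⟨ψ y, by rw [powMonoidHom_apply, powMonoidHom_apply, map_pow]⟩)
    (c := i) hreg
    (Φ₁ := (powMonoidHom (p ^ (2 * i + 2)) : ↥D →* ↥D).range)
    (by
      rintro _ ⟨y, rfl⟩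
      refine ⟨y ^ p ^ (i + 1), ⟨y, rfl⟩, ?_⟩
      rw [powMonoidHom_apply, ← pow_mul, ← pow_add]
      congr 2
      ring)
  have h2 := h1.trans (Nat.mul_le_mul_left 2 (index_pow hrT (2 * i + 2)))
  have hpos : 0 < Nat.card (powMonoidHom (p ^ (2 * i + 2)) : ↥D →* ↥D).range := Nat.card_pos
  rw [← mul_assoc] at h2
  exact Nat.le_of_mul_le_mul_right h2 hpos

end

section
variable {p : ℕ} [Fact p.Prime] {k : Type v} [Field k] [IsAlgClosed k] [CharP k p]
variable {A : Type u} [Group A] [Fintype A] {b f : MonoidAlgebra k A} {D : Subgroup A}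

/-- all elements of order `p` of `D` are `p ^ n`-th powers -/
theorem faith_of_big (h : Root p b D f) {n : ℕ}
    (hbig : ∀ x ∈ D, x ^ p = 1 → ∃ y ∈ D, x = y ^ p ^ n) : Faith p n D f := by
  have hp : p.Prime := Fact.out
  obtain ⟨i₀, hi⟩ := exists_src h
  have hpE : ¬ p ∣ eN D f := ndvd h
  let _ : CommGroup ↥D := cgrp D h.com
  let _ : Fintype ↥D := Fintype.ofFinite _
  have hφ : Function.Injective (D.subtype : ↥D →* A) := Subtype.val_injective
  have hrD : ∀ x, x ∈ D ↔ ∃ t, (D.subtype : ↥D →* A) t = x :=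
    fun x => ⟨fun hx => ⟨⟨x, hx⟩, rfl⟩, by rintro ⟨t, rfl⟩; exact t.2⟩
  have hcard : Nat.card (EG D.subtype D f) = eN D f := card_EG hφ hrD
  obtain ⟨M, hM⟩ := pow_one_of hi
  have hT : IsPGroup p ↥D := fun u => ⟨M, Subtype.ext (hM u u.2)⟩
  intro g hg hy
  obtain ⟨ψ, hψ, hψg⟩ := exists_EG (f := f) hφ hrD hg
  have hfin : Finite ↥(EG D.subtype D f) := finite_EG
  have h1 : (ψ : MulAut ↥D) ^ Nat.card (EG D.subtype D f) = 1 := by
    have h2 : (⟨ψ, hψ⟩ : EG D.subtype D f) ^ Nat.card (EG D.subtype D f) = 1 := pow_card_eq_one'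
    exact congrArg Subtype.val h2
  have h2 := faithful hp hT h1 (by rw [hcard]; exact hpE) (fun x hx => by
    obtain ⟨y, hyD, hxy⟩ := hbig x x.2 (by
      have h3 := congrArg (Subtype.val : ↥D → A) hx
      rwa [SubmonoidClass.coe_pow] at h3)
    apply Subtype.ext
    have h3 : ((ψ x : ↥D) : A) = g * (x : A) * g⁻¹ := hψg x
    rw [h3, hxy, hy y hyD, mul_inv_cancel_right])
  rw [Subgroup.mem_centralizer_iff]
  intro u hu
  have h3 : ((ψ ⟨u, hu⟩ : ↥D) : A) = g * u * g⁻¹ := hψg ⟨u, hu⟩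
  rw [h2] at h3
  have h4 : u = g * u * g⁻¹ := h3
  rw [eq_mul_inv_iff_mul_eq] at h4
  exact h4

theorem gap_dvd' (hp2 : p ≠ 2) (h : Root p b D f) {n : ℕ} (hF : Faith p n D f) :
    ∃ z : ℤ, gap p (⊤ : Subgroup A) ⊤ b = (z : ℚ) ∧ ((p ^ (n + 1) : ℕ) : ℤ) ∣ z :=
  ⟨_, gap_val h, l_kap_dvd' hp2 h hF⟩

/-- **the weight conjecture, rank at most `r` and `|E| ≤ p ^ i`** -/
theorem large' (hp2 : p ≠ 2) (h : Root p b D f) {r i : ℕ}
    (hr : Nat.card {x : A // x ∈ D ∧ x ^ p = 1} ≤ p ^ r) (hE : eN D f ≤ p ^ i)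
    (hF : Faith p (2 * r * (i + 1)) D f) :
    gap p (⊤ : Subgroup A) ⊤ b = 0 ∧
      Nat.card (Quotient (irrInvSetoid (⊤ : Subgroup A) ⊤ b)) ≤ eN D f := by
  have hp : p.Prime := Fact.out
  have hp3 : 3 ≤ p := by
    have := hp.two_le
    omega
  obtain ⟨j, hj⟩ := exists_src h
  have key : Nat.card (IrX (⊤ : Subgroup A) b) = kap D b := by
    rcases Nat.eq_zero_or_pos r with rfl | hr0
    · have hD := eN_bot h (by rwa [pow_zero] at hr)
      refine l_eq_kap_large hp2 h (r := 1) (i := i) le_rfl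
        (hr.trans (Nat.pow_le_pow_right hp.pos (Nat.zero_le 1))) hE ?_
      intro x hx hxp
      exact ⟨1, D.one_mem, by rw [hD x (cmD_le h hx) hxp, one_pow]⟩
    · have hri : i + 1 ≤ 2 * r * (i + 1) := by nlinarith
      have h1 := l_kap_dvd' hp2 h hF
      have h2 : Nat.card (IrX (⊤ : Subgroup A) b) ≤ 2 * p ^ (2 * r * (i + 1)) := by
        have h3 := l_le_large' hp2 h hr hE (hF.mono hri)
        rw [card_top h.blk] at h3
        refine h3.trans (le_of_eq ?_)
        congr 2
        ring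
      have h3 : kap D b ≤ p ^ (2 * r * (i + 1)) :=
        (kap_le hj).trans (hE.trans (Nat.pow_le_pow_right hp.pos (by omega)))
      have h4 : 0 < Nat.card (IrX (⊤ : Subgroup A) b) := card_irX_pos h.blk
      have h5 : 0 < kap D b := kap_pos h
      have h6 : 3 * p ^ (2 * r * (i + 1)) ≤ p ^ (2 * r * (i + 1) + 1) := by
        rw [pow_succ, mul_comm]
        exact Nat.mul_le_mul_left _ hp3
      have h7 : (Nat.card (IrX (⊤ : Subgroup A) b) : ℤ) - (kap D b : ℤ) = 0 := by
        refine Int.eq_zero_of_abs_lt_dvd h1 ?_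
        rw [abs_lt]
        constructor <;> omega
      omega
  refine ⟨?_, ?_⟩
  · rw [gap_val h, key, sub_self, Int.cast_zero]
  · rw [card_top h.blk, key]
    exact kap_le hj

end

end Pool.Agent.Lib.P0c8ca5.Ku
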