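import Mathlib
import Pool.Agent.Lib.P0c8ca5Ku.KP

/-!
# KQ: a sum over the elements of an abelian p-group with a group of automorphisms

`F` a `p'`-group of automorphisms of the abelian `p`-group `Λ` of rank at most `r`, `stF F l` the
order of the stabilizer of `l`, `ta p l = max 1 (o(l) / p)`. `tsum_lt`: the sum of
`(stF F l / ta p l) ^ 2` over the `l` with `ta p l ≤ stF F l` is less than
`|F| * p ^ ((r - 2) * (r * (r - 1) / 2) + 4)`.
-/

set_option autoImplicit false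
set_option linter.unusedSectionVars false

namespace Pool.Agent.Lib.P0c8ca5.Ku

open Finset

section
variable {Λ : Type*} [CommGroup Λ] [Fintype Λ] {p : ℕ}

/-- the order of the stabilizer -/
noncomputable def stF (F : Subgroup (MulAut Λ)) (l : Λ) : ℕ :=
  Nat.card {φ : F // (φ : MulAut Λ) l = l}

/-- the number of the powers `l ^ t` with `t = 1` modulo `p` -/
noncomputable def ta (p : ℕ) (l : Λ) : ℕ := max 1 (orderOf l / p)

theorem finF (F : Subgroup (MulAut Λ)) : Finite F := by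
  have : Finite (MulAut Λ) := Finite.of_injective (fun φ : MulAut Λ => (φ : Λ → Λ))
    (fun a b h => MulEquiv.ext fun x => congrFun h x)
  infer_instance

theorem one_le_stF (F : Subgroup (MulAut Λ)) (l : Λ) : 1 ≤ stF F l := by
  have := finF F
  have : Nonempty {φ : F // (φ : MulAut Λ) l = l} := ⟨⟨1, rfl⟩⟩
  exact Nat.card_pos

theorem stF_le_card (F : Subgroup (MulAut Λ)) (l : Λ) : stF F l ≤ Nat.card F := by
  have := finF F
  exact Nat.card_le_card_of_injective _ Subtype.val_injective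

theorem stF_lt (hp : p.Prime) (hΛ : IsPGroup p Λ) (F : Subgroup (MulAut Λ))
    (hpF : ¬ p ∣ Nat.card F) {r : ℕ} (hr : Nat.card {x : Λ // x ^ p = 1} ≤ p ^ r) (hr2 : 2 ≤ r)
    {l : Λ} (hl : l ≠ 1) : stF F l < p ^ (r * (r - 1) / 2) := by
  let G : Subgroup (MulAut Λ) :=
    { carrier := {φ | φ ∈ F ∧ φ l = l}
      mul_mem' := by
        rintro a b ⟨ha, ha1⟩ ⟨hb, hb1⟩
        refine ⟨F.mul_mem ha hb, ?_⟩
        rw [MulAut.mul_apply, hb1, ha1]
      one_mem' := ⟨F.one_mem, rfl⟩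
      inv_mem' := by
        rintro a ⟨ha, ha1⟩
        refine ⟨F.inv_mem ha, ?_⟩
        conv_lhs => rw [← ha1]
        rw [MulAut.inv_apply_self] }
  have hG : Nat.card G = stF F l := by
    refine Nat.card_congr
      { toFun := fun φ => ⟨⟨φ.1, φ.2.1⟩, φ.2.2⟩
        invFun := fun φ => ⟨φ.1.1, φ.1.2, φ.2⟩
        left_inv := fun φ => rfl
        right_inv := fun φ => rfl }
  have hle : G ≤ F := fun φ hφ => hφ.1
  rw [← hG]
  have hpG : ¬ p ∣ Nat.card G := fun h => hpF (h.trans (Subgroup.card_dvd_of_le hle))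
  refine lt_of_le_of_ne (fix_le hp hΛ G hpG hr hl fun φ hφ => hφ.2) (fun h => hpG ?_)
  rw [h]
  refine dvd_pow_self p ?_
  have h1 : 2 * 1 ≤ r * (r - 1) := Nat.mul_le_mul hr2 (by omega)
  omega

theorem ta_eq (hp : p.Prime) (hΛ : IsPGroup p Λ) {l : Λ} (hl : l ≠ 1) :
    ∃ a, orderOf l = p ^ (a + 1) ∧ ta p l = p ^ a := by
  obtain ⟨m, hm⟩ := hΛ l
  obtain ⟨a, -, ha⟩ := (Nat.dvd_prime_pow hp).1 (orderOf_dvd_of_pow_eq_one hm)
  have ha0 : a ≠ 0 := by
    rintro rfl
    rw [pow_zero, orderOf_eq_one_iff] at ha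
    exact hl ha
  obtain ⟨b, rfl⟩ := Nat.exists_eq_succ_of_ne_zero ha0
  refine ⟨b, ha, ?_⟩
  rw [ta, ha, Nat.succ_eq_add_one, pow_succ, Nat.mul_div_cancel _ hp.pos]
  exact max_eq_right (Nat.one_le_pow _ _ hp.pos)

open Classical in
/-- the sum of the orders of the stabilizers, without the identity -/
theorem sum_fix (hp : p.Prime) (hΛ : IsPGroup p Λ) (F : Subgroup (MulAut Λ))
    (hpF : ¬ p ∣ Nat.card F) {r : ℕ} (hr : Nat.card {x : Λ // x ^ p = 1} ≤ p ^ r) (a : ℕ) :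
    ∑ l ∈ univ.filter (fun l : Λ => l ^ p ^ a = 1), ((stF F l : ℚ) - 1)
      ≤ (Nat.card F : ℚ) * (p : ℚ) ^ ((r - 1) * a) := by
  have := finF F
  have := Fintype.ofFinite F
  have h1 : ∀ l : Λ, (stF F l : ℚ) - 1
      = ∑ φ ∈ univ.erase (1 : F), if (φ : MulAut Λ) l = l then (1 : ℚ) else 0 := by
    intro l
    have h2 : (stF F l : ℚ) = ∑ φ : F, if (φ : MulAut Λ) l = l then (1 : ℚ) else 0 := by
      rw [sum_boole, stF, Nat.card_eq_fintype_card, Fintype.card_subtype]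
    rw [h2, ← add_sum_erase univ _ (mem_univ (1 : F))]
    have h3 : ((1 : F) : MulAut Λ) l = l := rfl
    rw [if_pos h3]
    ring
  rw [sum_congr rfl fun l _ => h1 l, sum_comm]
  have h2 : ∀ φ ∈ univ.erase (1 : F), ∑ l ∈ univ.filter (fun l : Λ => l ^ p ^ a = 1),
      (if (φ : MulAut Λ) l = l then (1 : ℚ) else 0) ≤ (p : ℚ) ^ ((r - 1) * a) := by
    intro φ hφ
    have h4 : (φ : MulAut Λ) ^ Nat.card F = 1 := by
      have h5 : φ ^ Nat.card F = 1 := pow_card_eq_one'
      exact congrArg Subtype.val h5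
    have h5 := fix_pow_le hp hΛ h4 hpF (fun h => (mem_erase.1 hφ).1 (Subtype.ext h)) hr a
    rw [sum_boole]
    have h6 : ((univ.filter (fun l : Λ => l ^ p ^ a = 1)).filter
        (fun l => (φ : MulAut Λ) l = l)).card
        = Nat.card {x : Λ // x ^ p ^ a = 1 ∧ (φ : MulAut Λ) x = x} := by
      rw [Nat.card_eq_fintype_card, Fintype.card_subtype, filter_filter]
    rw [h6]
    exact_mod_cast h5
  refine (sum_le_sum h2).trans ?_
  rw [sum_const, nsmul_eq_mul]
  refine mul_le_mul_of_nonneg_right ?_ (by positivity)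
  have h3 : (univ.erase (1 : F)).card ≤ Nat.card F := by
    rw [Nat.card_eq_fintype_card, ← Finset.card_univ]
    exact card_le_card (erase_subset _ _)
  exact_mod_cast h3

theorem geo {x : ℚ} (hx : 3 ≤ x) (j : ℕ) : ∑ a ∈ Icc 2 j, x ^ a ≤ 3 / 2 * x ^ j := by
  induction j with
  | zero => norm_num
  | succ j ih =>
    rcases Nat.lt_or_ge (j + 1) 2 with hj | hj
    · rw [Icc_eq_empty (by omega), sum_empty]
      positivity
    · rw [Finset.sum_Icc_succ_top hj]
      have h1 : 0 ≤ x ^ j := by positivity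
      rw [pow_succ]
      nlinarith

open Classical in
/-- one term -/
theorem term_le (hp : p.Prime) (hp2 : p ≠ 2) (hΛ : IsPGroup p Λ) (F : Subgroup (MulAut Λ))
    {i : ℕ} {l : Λ} (hst : l ≠ 1 → stF F l < p ^ i) (h : ta p l ≤ stF F l) :
    ((stF F l : ℚ) / (ta p l : ℚ)) ^ 2 ≤ (if l = 1 then (Nat.card F : ℚ) ^ 2 else 0)
      + ((if l ^ p ^ 1 = 1 then 1 + 2 * (p : ℚ) ^ i * ((stF F l : ℚ) - 1) else 0)
      + ∑ a ∈ Icc 2 i, if l ^ p ^ a = 1 then
        3 / 2 * (p : ℚ) ^ i * ((stF F l : ℚ) - 1) / (p : ℚ) ^ (2 * (a - 1))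
        else 0) := by
  have hp3 : 3 ≤ p := by
    have := hp.two_le
    omega
  set s := stF F l with hs
  have hs1 : (1 : ℚ) ≤ s := by exact_mod_cast one_le_stF F l
  have hn1 : (0 : ℚ) ≤ (if l ^ p ^ 1 = 1 then
      1 + 2 * (p : ℚ) ^ i * ((s : ℚ) - 1) else 0) := by
    split_ifs
    · have : (0 : ℚ) ≤ (p : ℚ) ^ i * ((s : ℚ) - 1) :=
        mul_nonneg (by positivity) (by linarith)
      linarith
    · exact le_rfl
  have hn2 : ∀ a ∈ Icc 2 i, (0 : ℚ) ≤ if l ^ p ^ a = 1 then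
      3 / 2 * (p : ℚ) ^ i * ((s : ℚ) - 1) / (p : ℚ) ^ (2 * (a - 1)) else 0 := by
    intro a _
    split_ifs
    · refine div_nonneg (mul_nonneg (by positivity) (by linarith)) (by positivity)
    · exact le_rfl
  by_cases hl : l = 1
  · rw [if_pos hl]
    have h1 : (1 : ℚ) ≤ (ta p l : ℚ) := by
      have : 1 ≤ ta p l := le_max_left _ _
      exact_mod_cast this
    have h2 : (s : ℚ) / (ta p l : ℚ) ≤ Nat.card F := by
      refine (div_le_self (by linarith) h1).trans ?_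
      exact_mod_cast stF_le_card F l
    have h3 : ((s : ℚ) / (ta p l : ℚ)) ^ 2 ≤ (Nat.card F : ℚ) ^ 2 :=
      pow_le_pow_left₀ (by positivity) h2 2
    have h4 := sum_nonneg hn2
    linarith
  · rw [if_neg hl, zero_add]
    have hsB : s < p ^ i := hst hl
    have hsB' : (s : ℚ) ≤ (p : ℚ) ^ i := by exact_mod_cast hsB.le
    obtain ⟨b, hb, hb'⟩ := ta_eq hp hΛ hl
    rw [hb'] at h ⊢
    rcases Nat.eq_zero_or_pos b with rfl | hb0
    · have h1 : l ^ p ^ 1 = 1 := by
        rw [← hb]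
        exact pow_orderOf_eq_one l
      rw [if_pos h1, pow_zero, Nat.cast_one, div_one]
      have h4 := sum_nonneg hn2
      nlinarith
    · have hlt : b < i :=
        (Nat.pow_lt_pow_iff_right hp.one_lt).1 (lt_of_le_of_lt h hsB)
      have h1 : l ^ p ^ (b + 1) = 1 := by
        rw [← hb]
        exact pow_orderOf_eq_one l
      have h2 := single_le_sum (f := fun a => if l ^ p ^ a = 1 then
        3 / 2 * (p : ℚ) ^ i * ((s : ℚ) - 1) / (p : ℚ) ^ (2 * (a - 1)) else 0)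
        hn2 (mem_Icc.2 ⟨by omega, hlt⟩ : b + 1 ∈ Icc 2 i)
      have h3 : ((s : ℚ) / ((p ^ b : ℕ) : ℚ)) ^ 2 ≤
          3 / 2 * (p : ℚ) ^ i * ((s : ℚ) - 1) / (p : ℚ) ^ (2 * (b + 1 - 1)) := by
        rw [Nat.add_sub_cancel, Nat.cast_pow, div_pow, ← pow_mul, mul_comm b 2]
        refine div_le_div_of_nonneg_right ?_ (by positivity)
        have h5 : (3 : ℚ) ≤ s := by
          have h6 : p ^ 1 ≤ p ^ b := Nat.pow_le_pow_right hp.pos hb0
          have h7 : 3 ≤ s := by
            rw [pow_one] at h6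
            exact hp3.trans (h6.trans h)
          exact_mod_cast h7
        nlinarith
      simp only [if_pos h1] at h2
      linarith

open Classical in
/-- **the sum** -/
theorem tsum_le (hp : p.Prime) (hp2 : p ≠ 2) (hΛ : IsPGroup p Λ) (F : Subgroup (MulAut Λ))
    (hpF : ¬ p ∣ Nat.card F) {r : ℕ} (hr : Nat.card {x : Λ // x ^ p = 1} ≤ p ^ r) {i : ℕ}
    (hst : ∀ l : Λ, l ≠ 1 → stF F l < p ^ i) :
    ∑ l ∈ univ.filter (fun l : Λ => ta p l ≤ stF F l), ((stF F l : ℚ) / (ta p l : ℚ)) ^ 2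
      ≤ (Nat.card F : ℚ) ^ 2 + ((p : ℚ) ^ r
        + 2 * (p : ℚ) ^ i * ((Nat.card F : ℚ) * (p : ℚ) ^ (r - 1))
      + ∑ a ∈ Icc 2 i, 3 / 2 * (p : ℚ) ^ i
        * ((Nat.card F : ℚ) * (p : ℚ) ^ ((r - 1) * a)) / (p : ℚ) ^ (2 * (a - 1))) := by
  set B := (p : ℚ) ^ i with hB
  have hB0 : 0 ≤ B := by positivity
  have h0 : ∀ l : Λ, (1 : ℚ) ≤ stF F l := fun l => by exact_mod_cast one_le_stF F l
  refine (sum_le_sum fun l hl => term_le hp hp2 hΛ F (hst l) (mem_filter.1 hl).2).trans ?_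
  refine (sum_le_sum_of_subset_of_nonneg (filter_subset _ univ) fun l _ _ => ?_).trans ?_
  · refine add_nonneg ?_ (add_nonneg ?_ (sum_nonneg fun a _ => ?_))
    · split_ifs <;> positivity
    · split_ifs
      · have : (0 : ℚ) ≤ B * ((stF F l : ℚ) - 1) :=
          mul_nonneg hB0 (by linarith [h0 l])
        linarith
      · exact le_rfl
    · split_ifs
      · refine div_nonneg (mul_nonneg (by positivity) (by linarith [h0 l])) (by positivity)
      · exact le_rfl
  rw [sum_add_distrib, sum_add_distrib]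
  refine add_le_add ?_ (add_le_add ?_ ?_)
  · rw [sum_ite_eq' univ (1 : Λ), if_pos (mem_univ _)]
  · rw [← sum_filter, sum_add_distrib, ← mul_sum, sum_const, nsmul_eq_mul, mul_one]
    refine add_le_add ?_ (mul_le_mul_of_nonneg_left ?_ (by positivity))
    · have h1 : (univ.filter (fun l : Λ => l ^ p ^ 1 = 1)).card ≤ p ^ r := by
        rw [pow_one]
        rw [Nat.card_eq_fintype_card, Fintype.card_subtype] at hr
        exact hr
      exact_mod_cast h1
    · have h2 := sum_fix hp hΛ F hpF hr 1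
      rwa [mul_one] at h2
  · rw [sum_comm]
    refine sum_le_sum fun a _ => ?_
    rw [← sum_filter]
    have h1 : ∀ l : Λ, 3 / 2 * B * ((stF F l : ℚ) - 1) / (p : ℚ) ^ (2 * (a - 1))
        = 3 / 2 * B / (p : ℚ) ^ (2 * (a - 1)) * ((stF F l : ℚ) - 1) := fun l => by ring
    rw [sum_congr rfl fun l _ => h1 l, ← mul_sum]
    refine (mul_le_mul_of_nonneg_left (sum_fix hp hΛ F hpF hr a) (by positivity)).trans
      (le_of_eq ?_)
    ring

end

end Pool.Agent.Lib.P0c8ca5.Ku
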