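import Mathlib
import Pool.Agent.Lib.P0c8ca5Ku.KQ
import Pool.Agent.Lib.P0c8ca5Ex.ZF

/-!
# KR: the number of the invariant rows for an abelian p-group of rank at most `r`

`stl_lt`: the stabilizer of a nontrivial character has order less than `p ^ (r * (r - 1) / 2)`.
`rows_lt`: the number of the invariant rows is less than `p ^ ((r - 2) * i + 4)` if the stabilizers
of the nontrivial characters have order less than `p ^ i` (`i = r * (r - 1) / 2` for example).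
-/

set_option autoImplicit false
set_option linter.unusedSectionVars false

namespace Pool.Agent.Lib.P0c8ca5.Ku

open Finset

theorem tri {r : ℕ} (hr : 1 ≤ r) : r * (r + 1) / 2 = r * (r - 1) / 2 + r := by
  obtain ⟨s, rfl⟩ : ∃ s, r = s + 1 := ⟨r - 1, by omega⟩
  have h1 : (s + 1) * (s + 1 + 1) = (s + 1) * (s + 1 - 1) + (s + 1) * 2 := by
    rw [Nat.add_sub_cancel]
    ring
  rw [h1, Nat.add_mul_div_right _ _ two_pos]

/-- the numerical estimate -/
theorem num_lt {p r i e : ℕ} (hp3 : 3 ≤ p) (hi1 : 1 ≤ i) (he1 : 1 ≤ e)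
    (h : (r = 2 ∧ i = 1 ∧ e ≤ p ^ 3) ∨ (r = 3 ∧ i ≤ 3 ∧ e ≤ p ^ (i + 3)) ∨
      (4 ≤ r ∧ e ≤ p ^ ((r - 2) * i + 2))) :
    (e : ℚ) ^ 2 + ((p : ℚ) ^ r + 2 * (p : ℚ) ^ i * ((e : ℚ) * (p : ℚ) ^ (r - 1))
      + ∑ a ∈ Icc 2 i, 3 / 2 * (p : ℚ) ^ i
        * ((e : ℚ) * (p : ℚ) ^ ((r - 1) * a)) / (p : ℚ) ^ (2 * (a - 1)))
      < (e : ℚ) * (p : ℚ) ^ ((r - 2) * i + 4) := by
  have hp0 : (3 : ℚ) ≤ p := by exact_mod_cast hp3
  have he0 : (1 : ℚ) ≤ e := by exact_mod_cast he1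
  have hpp : (0 : ℚ) < p := by linarith
  have hsq : ∀ {m : ℕ}, e ≤ p ^ m → (e : ℚ) ^ 2 ≤ e * (p : ℚ) ^ m := by
    intro m hm
    have h1 : (e : ℚ) ≤ (p : ℚ) ^ m := by exact_mod_cast hm
    rw [sq]
    exact mul_le_mul_of_nonneg_left h1 (by linarith)
  rcases h with ⟨rfl, rfl, he⟩ | ⟨rfl, hi3, he⟩ | ⟨h4, he⟩
  · -- rank two
    have h1 := hsq he
    rw [Icc_eq_empty (by norm_num), sum_empty]
    norm_num
    have h2 : (p : ℚ) ^ 2 ≤ e * (p : ℚ) ^ 2 := le_mul_of_one_le_left (by positivity) he0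
    have h3 : (p : ℚ) ^ 3 + 3 * (p : ℚ) ^ 2 < (p : ℚ) ^ 4 := by
      have a1 : (p : ℚ) ^ 4 = (p : ℚ) ^ 2 * (p * p) := by ring
      have a2 : (p : ℚ) ^ 3 = (p : ℚ) ^ 2 * p := by ring
      have a3 : (p : ℚ) + 3 < p * p := by nlinarith
      rw [a1, a2]
      have a4 : (0 : ℚ) < (p : ℚ) ^ 2 := by positivity
      nlinarith
    have h4 : (e : ℚ) * ((p : ℚ) ^ 3 + 3 * (p : ℚ) ^ 2) < e * (p : ℚ) ^ 4 :=
      mul_lt_mul_of_pos_left h3 (by linarith)
    nlinarith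
  · -- rank three
    have h1 := hsq he
    have h2 : (p : ℚ) ^ 3 ≤ e * (p : ℚ) ^ 3 := le_mul_of_one_le_left (by positivity) he0
    have a6 : (0 : ℚ) < (p : ℚ) ^ 3 := by positivity
    have b0 : (0 : ℚ) < p * p := by positivity
    interval_cases i
    · rw [Icc_eq_empty (by norm_num), sum_empty]
      norm_num at h1 ⊢
      have h3 : (p : ℚ) ^ 4 + 3 * (p : ℚ) ^ 3 < (p : ℚ) ^ 5 := by
        have a1 : (p : ℚ) ^ 5 = (p : ℚ) ^ 3 * (p * p) := by ring
        have a2 : (p : ℚ) ^ 4 = (p : ℚ) ^ 3 * p := by ring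
        have a3 : (p : ℚ) + 3 < p * p := by nlinarith
        rw [a1, a2]
        nlinarith
      have h4 : (e : ℚ) * ((p : ℚ) ^ 4 + 3 * (p : ℚ) ^ 3) < e * (p : ℚ) ^ 5 :=
        mul_lt_mul_of_pos_left h3 (by linarith)
      nlinarith
    · rw [Icc_self, sum_singleton]
      norm_num at h1 ⊢
      have e2 : 3 / 2 * (p : ℚ) ^ 2 * (e * (p : ℚ) ^ 4) / (p : ℚ) ^ 2 = 3 / 2 * (e * (p : ℚ) ^ 4) := by
        field_simp
      rw [e2]
      have h3 : (p : ℚ) ^ 5 + (p : ℚ) ^ 3 + 7 / 2 * (p : ℚ) ^ 4 < (p : ℚ) ^ 6 := by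
        have a1 : (p : ℚ) ^ 6 = (p : ℚ) ^ 3 * (p * (p * p)) := by ring
        have a2 : (p : ℚ) ^ 5 = (p : ℚ) ^ 3 * (p * p) := by ring
        have a3 : (p : ℚ) ^ 4 = (p : ℚ) ^ 3 * p := by ring
        have b1 : 3 * ((p : ℚ) * p) ≤ p * (p * p) := mul_le_mul_of_nonneg_right hp0 b0.le
        have a5 : (p : ℚ) * p + 1 + 7 / 2 * p < p * (p * p) := by nlinarith
        rw [a1, a2, a3]
        nlinarith
      have h4 : (e : ℚ) * ((p : ℚ) ^ 5 + (p : ℚ) ^ 3 + 7 / 2 * (p : ℚ) ^ 4) < e * (p : ℚ) ^ 6 :=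
        mul_lt_mul_of_pos_left h3 (by linarith)
      nlinarith
    · have hI : Icc 2 3 = ({2, 3} : Finset ℕ) := by decide
      rw [hI, sum_pair (by norm_num)]
      norm_num at h1 ⊢
      have e2 : 3 / 2 * (p : ℚ) ^ 3 * (e * (p : ℚ) ^ 4) / (p : ℚ) ^ 2 = 3 / 2 * (e * (p : ℚ) ^ 5) := by
        field_simp
      have e3 : 3 / 2 * (p : ℚ) ^ 3 * (e * (p : ℚ) ^ 6) / (p : ℚ) ^ 4 = 3 / 2 * (e * (p : ℚ) ^ 5) := by
        field_simp
      rw [e2, e3]
      have h3 : (p : ℚ) ^ 6 + (p : ℚ) ^ 3 + 5 * (p : ℚ) ^ 5 < (p : ℚ) ^ 7 := by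
        have a2 : (p : ℚ) ^ 7 = (p : ℚ) ^ 3 * (p * (p * (p * p))) := by ring
        have a3 : (p : ℚ) ^ 6 = (p : ℚ) ^ 3 * (p * (p * p)) := by ring
        have a4 : (p : ℚ) ^ 5 = (p : ℚ) ^ 3 * (p * p) := by ring
        have b1 : 3 * ((p : ℚ) * p) ≤ p * (p * p) := mul_le_mul_of_nonneg_right hp0 b0.le
        have b2 : 3 * ((p : ℚ) * (p * p)) ≤ p * (p * (p * p)) :=
          mul_le_mul_of_nonneg_right hp0 (by positivity)
        have a5 : (p : ℚ) * (p * p) + 1 + 5 * (p * p) < p * (p * (p * p)) := by nlinarith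
        rw [a2, a3, a4]
        nlinarith
      have h4 : (e : ℚ) * ((p : ℚ) ^ 6 + (p : ℚ) ^ 3 + 5 * (p : ℚ) ^ 5) < e * (p : ℚ) ^ 7 :=
        mul_lt_mul_of_pos_left h3 (by linarith)
      nlinarith
  · -- rank at least four
    set N := (r - 2) * i + 2 with hN
    have hNj : (r - 2) * i = (r - 3) * i + i := by
      have : r - 2 = (r - 3) + 1 := by omega
      rw [this]
      ring
    have hjle : (r - 3) * 1 ≤ (r - 3) * i := Nat.mul_le_mul_left _ hi1
    have hsum : ∑ a ∈ Icc 2 i, 3 / 2 * (p : ℚ) ^ i * ((e : ℚ) * (p : ℚ) ^ ((r - 1) * a))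
        / (p : ℚ) ^ (2 * (a - 1)) ≤ 9 / 4 * (e * (p : ℚ) ^ N) := by
      have h1 : ∀ a ∈ Icc 2 i, 3 / 2 * (p : ℚ) ^ i * ((e : ℚ) * (p : ℚ) ^ ((r - 1) * a))
          / (p : ℚ) ^ (2 * (a - 1))
          = 3 / 2 * (p : ℚ) ^ i * e * (p : ℚ) ^ 2 * ((p : ℚ) ^ (r - 3)) ^ a := by
        intro a ha
        have ha1 := (mem_Icc.1 ha).1
        rw [div_eq_iff (by positivity)]
        have h2 : (r - 1) * a = 2 + (r - 3) * a + 2 * (a - 1) := by
          have h3 : r - 1 = (r - 3) + 2 := by omega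
          rw [h3, add_mul]
          omega
        rw [h2, pow_add, pow_add, ← pow_mul]
        ring
      rw [sum_congr rfl h1, ← mul_sum]
      have h3 : (3 : ℚ) ≤ (p : ℚ) ^ (r - 3) := by
        calc (3 : ℚ) ≤ p := hp0
          _ = (p : ℚ) ^ 1 := (pow_one _).symm
          _ ≤ (p : ℚ) ^ (r - 3) := pow_le_pow_right₀ (by linarith) (by omega)
      refine (mul_le_mul_of_nonneg_left (geo h3 i) (by positivity)).trans (le_of_eq ?_)
      have h5 : (p : ℚ) ^ N = (p : ℚ) ^ i * (p : ℚ) ^ 2 * ((p : ℚ) ^ (r - 3)) ^ i := by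
        rw [← pow_mul, ← pow_add, ← pow_add]
        congr 1
        rw [hN, hNj]
        ring
      rw [h5]
      ring
    have hmono : ∀ {m : ℕ}, m ≤ N → (p : ℚ) ^ m ≤ (p : ℚ) ^ N :=
      fun {m} hm => pow_le_pow_right₀ (by linarith) hm
    have h1 : (e : ℚ) ^ 2 ≤ e * (p : ℚ) ^ N := hsq he
    have h2 : (p : ℚ) ^ r ≤ e * (p : ℚ) ^ N :=
      (hmono (by omega)).trans (le_mul_of_one_le_left (by positivity) he0)
    have h3 : 2 * (p : ℚ) ^ i * ((e : ℚ) * (p : ℚ) ^ (r - 1)) ≤ 2 * (e * (p : ℚ) ^ N) := by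
      have h5 : 2 * (p : ℚ) ^ i * ((e : ℚ) * (p : ℚ) ^ (r - 1))
          = 2 * (e * (p : ℚ) ^ (i + (r - 1))) := by
        rw [pow_add]
        ring
      rw [h5]
      exact mul_le_mul_of_nonneg_left (mul_le_mul_of_nonneg_left (hmono (by omega))
        (by linarith)) (by norm_num)
    have h5 : (e : ℚ) * (p : ℚ) ^ ((r - 2) * i + 4) = (p : ℚ) ^ 2 * (e * (p : ℚ) ^ N) := by
      rw [hN]
      ring
    rw [h5]
    have h6 : (9 : ℚ) ≤ (p : ℚ) ^ 2 := by nlinarith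
    have h7 : (0 : ℚ) < e * (p : ℚ) ^ N := by positivity
    have h8 : 9 * ((e : ℚ) * (p : ℚ) ^ N) ≤ (p : ℚ) ^ 2 * (e * (p : ℚ) ^ N) :=
      mul_le_mul_of_nonneg_right h6 h7.le
    linarith

/-- the parameters: the stabilizers have order less than `p ^ i`, `|E| = e` -/
def Par (p r i e : ℕ) : Prop :=
  (r = 2 ∧ i = 1 ∧ e ≤ p ^ 3) ∨ (r = 3 ∧ i ≤ 3 ∧ e ≤ p ^ (i + 3)) ∨
    (4 ≤ r ∧ e ≤ p ^ ((r - 2) * i + 2))

theorem par_of {p r e : ℕ} (hp : p.Prime) (hr2 : 2 ≤ r) (he : e ≤ p ^ (r * (r + 1) / 2)) :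
    Par p r (r * (r - 1) / 2) e := by
  rcases Nat.lt_or_ge r 4 with h4 | h4
  · interval_cases r
    · exact Or.inl ⟨rfl, rfl, he⟩
    · exact Or.inr (Or.inl ⟨rfl, le_rfl, he⟩)
  · refine Or.inr (Or.inr ⟨h4, he.trans (Nat.pow_le_pow_right hp.pos ?_)⟩)
    set j := r * (r - 1) / 2 with hj
    have hjr : r ≤ j := by
      have h1 : r * 3 ≤ r * (r - 1) := Nat.mul_le_mul_left r (by omega)
      omega
    have htri : r * (r + 1) / 2 = j + r := tri (by omega)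
    have hNj : (r - 2) * j = (r - 3) * j + j := by
      have : r - 2 = (r - 3) + 1 := by omega
      rw [this]
      ring
    have hjle : j ≤ (r - 3) * j := Nat.le_mul_of_pos_left j (by omega)
    omega

open Classical in
theorem tsum_lt {Λ : Type*} [CommGroup Λ] [Fintype Λ] {p : ℕ} (hp : p.Prime) (hp2 : p ≠ 2)
    (hΛ : IsPGroup p Λ) (F : Subgroup (MulAut Λ))
    (hpF : ¬ p ∣ Nat.card F) {r : ℕ} (hr : Nat.card {x : Λ // x ^ p = 1} ≤ p ^ r)
    {i : ℕ} (hi1 : 1 ≤ i) (hst : ∀ l : Λ, l ≠ 1 → stF F l < p ^ i)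
    (hpar : Par p r i (Nat.card F)) :
    ∑ l ∈ univ.filter (fun l : Λ => ta p l ≤ stF F l), ((stF F l : ℚ) / (ta p l : ℚ)) ^ 2
      < (Nat.card F : ℚ) * (p : ℚ) ^ ((r - 2) * i + 4) := by
  have := finF F
  have hp3 : 3 ≤ p := by
    have := hp.two_le
    omega
  exact lt_of_le_of_lt (tsum_le hp hp2 hΛ F hpF hr hst) (num_lt hp3 hi1 Nat.card_pos hpar)

/-! ### the characters -/

open Ex Ex.ZFx Ex.YZx

section
variable {T : Type*} [CommGroup T] {K : Type*} [Field K]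

/-- the action on the characters -/
def dact (T : Type*) [CommGroup T] (K : Type*) [Field K] : MulAut T →* MulAut (T →* Kˣ) where
  toFun α :=
    { toFun := fun l => dl l α⁻¹
      invFun := fun l => dl l α
      left_inv := fun l => by
        change dl (dl l α⁻¹) α = l
        rw [← dl_mul, inv_mul_cancel, dl_one]
      right_inv := fun l => by
        change dl (dl l α) α⁻¹ = l
        rw [← dl_mul, mul_inv_cancel, dl_one]
      map_mul' := fun l m => rfl }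
  map_one' := by
    apply MulEquiv.ext
    intro l
    change dl l (1 : MulAut T)⁻¹ = l
    rw [inv_one, dl_one]
  map_mul' α β := by
    apply MulEquiv.ext
    intro l
    change dl l (α * β)⁻¹ = dl (dl l β⁻¹) α⁻¹
    rw [← dl_mul, mul_inv_rev]

theorem dact_apply (α : MulAut T) (l : T →* Kˣ) : dact T K α l = dl l α⁻¹ := rfl

theorem dact_fix {α : MulAut T} {l : T →* Kˣ} : dact T K α l = l ↔ dl l α = l := by
  rw [dact_apply]
  constructor
  · intro h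
    conv_lhs => rw [← h]
    rw [← dl_mul, inv_mul_cancel, dl_one]
  · intro h
    conv_lhs => rw [← h]
    rw [← dl_mul, mul_inv_cancel, dl_one]

end

section
variable {T : Type*} [CommGroup T] [Fintype T] {K : Type*} [Field K] [CharZero K]
  [HasEnoughRootsOfUnity K (Monoid.exponent T)]

theorem dact_inj : Function.Injective (dact T K) := by
  rw [injective_iff_map_eq_one]
  intro α hα
  apply MulEquiv.ext
  intro u
  by_contra hcon
  have h1 : α u * u⁻¹ ≠ 1 := fun h => hcon (mul_inv_eq_one.1 h)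
  obtain ⟨l, hl⟩ := CommGroup.exists_apply_ne_one_of_hasEnoughRootsOfUnity T K h1
  apply hl
  have h2 : dl l α = l := dact_fix.1 (by rw [hα]; rfl)
  have h3 : l (α u) = l u := DFunLike.congr_fun h2 u
  rw [map_mul, map_inv, h3, mul_inv_cancel]

theorem card_dact (E : Subgroup (MulAut T)) : Nat.card (E.map (dact T K)) = Nat.card E :=
  Nat.card_congr (E.equivMapOfInjective _ dact_inj).symm.toEquiv

theorem stl_eq (E : Subgroup (MulAut T)) (l : T →* Kˣ) : stl E l = stF (E.map (dact T K)) l := by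
  refine Nat.card_congr
    { toFun := fun α => ⟨E.equivMapOfInjective _ dact_inj α.1, dact_fix.2 α.2⟩
      invFun := fun β => ⟨(E.equivMapOfInjective _ dact_inj).symm β.1, ?_⟩
      left_inv := fun α => Subtype.ext (MulEquiv.symm_apply_apply _ _)
      right_inv := fun β => Subtype.ext (MulEquiv.apply_symm_apply _ _) }
  rw [← dact_fix (K := K)]
  have h1 : dact T K (((E.equivMapOfInjective _ dact_inj).symm β.1 : E) : MulAut T)
      = (β.1 : MulAut (T →* Kˣ)) :=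
    congrArg Subtype.val ((E.equivMapOfInjective (dact T K) dact_inj).apply_symm_apply β.1)
  rw [h1]
  exact β.2

theorem pw_pow (l : T →* Kˣ) (n : ℕ) : pw l n = l ^ n := by
  ext u
  rw [pw_apply, map_pow, MonoidHom.pow_apply]

theorem od_eq (l : T →* Kˣ) : od l = orderOf l := by
  refine Nat.dvd_antisymm ?_ ?_
  · have h1 : pw l (orderOf l) = pw l 0 := by
      rw [pw_pow, pw_pow]
      exact (pow_orderOf_eq_one l).trans (pow_zero l).symm
    exact (Nat.modEq_zero_iff_dvd).1 (pw_eq_iff.1 h1)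
  · refine orderOf_dvd_of_pow_eq_one ?_
    have h1 : pw l (od l) = pw l 0 := pw_eq_iff.2 ((Nat.modEq_zero_iff_dvd).2 dvd_rfl)
    rw [pw_pow, pw_pow] at h1
    exact h1.trans (pow_zero l)

theorem tau_eq (p : ℕ) (l : T →* Kˣ) : tau p l = ta p l := by
  rw [tau, ta, od_eq]

theorem dual_pgroup {p : ℕ} (hT : IsPGroup p T) : IsPGroup p (T →* Kˣ) := by
  obtain ⟨e⟩ := CommGroup.monoidHom_mulEquiv_of_hasEnoughRootsOfUnity T K
  exact hT.of_equiv e.symm

theorem dual_rank {p r : ℕ} (hr : Nat.card {x : T // x ^ p = 1} ≤ p ^ r) :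
    Nat.card {l : T →* Kˣ // l ^ p = 1} ≤ p ^ r := by
  obtain ⟨e⟩ := CommGroup.monoidHom_mulEquiv_of_hasEnoughRootsOfUnity T K
  refine le_trans (Nat.card_le_card_of_injective
    (fun l : {l : T →* Kˣ // l ^ p = 1} => (⟨e l.1, by rw [← map_pow, l.2, map_one]⟩ :
      {x : T // x ^ p = 1})) ?_) hr
  intro l m h
  exact Subtype.ext (e.injective (congrArg Subtype.val h))

/-- the stabilizer of a nontrivial character -/
theorem stl_lt {p : ℕ} (hp : p.Prime) (hT : IsPGroup p T) {E : Subgroup (MulAut T)}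
    (hpE : ¬ p ∣ Nat.card E) {r : ℕ} (hr : Nat.card {x : T // x ^ p = 1} ≤ p ^ r) (hr2 : 2 ≤ r)
    {l : T →* Kˣ} (hl : l ≠ 1) : stl E l < p ^ (r * (r - 1) / 2) := by
  rw [stl_eq]
  exact stF_lt hp (dual_pgroup hT) _ (by rw [card_dact]; exact hpE) (dual_rank hr) hr2 hl

/-- **the number of the invariant rows** -/
theorem rows_lt {p : ℕ} (hp : p.Prime) (hp2 : p ≠ 2) (hT : IsPGroup p T)
    {E : Subgroup (MulAut T)} (hpE : ¬ p ∣ Nat.card E) {r : ℕ}
    (hr : Nat.card {x : T // x ^ p = 1} ≤ p ^ r) {i : ℕ} (hi1 : 1 ≤ i)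
    (hst : ∀ l : T →* Kˣ, l ≠ 1 → stl E l < p ^ i) (hpar : Par p r i (Nat.card E))
    {I : Type*} [Fintype I]
    {ψ : I → T → K} (hv : ∀ i, ψ i ∈ vir T K) (hG : ∀ u v, GramR E ⊥ ψ u v) (S : Finset I)
    (hS : ∀ i ∈ S, ∀ u, ψ i (u ^ (1 + p)) = ψ i u) (hne : ∀ i ∈ S, ∃ u, ψ i u ≠ 0) :
    S.card < p ^ ((r - 2) * i + 4) := by
  classical
  have hfin : Finite E := finF E
  have h1 := fix_rows_sum hp hp2 hT hpE hv hG S hS hne
  have h2 := tsum_lt hp hp2 (dual_pgroup (K := K) hT) (E.map (dact T K))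
    (by rw [card_dact]; exact hpE) (dual_rank hr) hi1
    (fun l hl => by rw [← stl_eq]; exact hst l hl) (by rw [card_dact]; exact hpar)
  have h3 : ∑ l ∈ univ.filter (fun l : T →* Kˣ => tau p l ≤ stl E l),
      ((stl E l : ℚ) / (tau p l : ℚ)) ^ 2
      = ∑ l ∈ univ.filter (fun l : T →* Kˣ => ta p l ≤ stF (E.map (dact T K)) l),
        ((stF (E.map (dact T K)) l : ℚ) / (ta p l : ℚ)) ^ 2 := by
    refine Finset.sum_congr ?_ fun l _ => by rw [stl_eq, tau_eq]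
    ext l
    rw [mem_filter, mem_filter, stl_eq, tau_eq]
  rw [card_dact] at h2
  have h4 : (Nat.card E : ℚ) * S.card < (Nat.card E : ℚ) * (p : ℚ) ^ ((r - 2) * i + 4) := by
    exact lt_of_le_of_lt h1 (lt_of_eq_of_lt (by convert h3) h2)
  have h5 : (S.card : ℚ) < (p : ℚ) ^ ((r - 2) * i + 4) :=
    lt_of_mul_lt_mul_left h4 (by positivity)
  exact_mod_cast h5

end

end Pool.Agent.Lib.P0c8ca5.Ku
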