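import Mathlib
import Pool.Agent.Lib.P0c8ca5Ku.KR
import Pool.Agent.Lib.P0c8ca5Ex.ZB

/-!
# KS: many regular characters at the trivial subgroup

`many_bot`: `E ≠ 1` a `p'`-group of automorphisms of the abelian `p`-group `T` of rank at most `r`
which acts faithfully on `T ^ (p ^ m)`, `r * (r + 1) / 2 ≤ m`; then `Many K E ⊥`.
-/

set_option autoImplicit false
set_option linter.unusedSectionVars false

namespace Pool.Agent.Lib.P0c8ca5.Ku

open Finset Ex

section
variable {T : Type*} [CommGroup T] {p : ℕ}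

theorem card_W_pow [Finite T] (m : ℕ) :
    ∀ k ≤ m, Nat.card {x : T // x ^ p = 1 ∧ ∃ z, x = z ^ p ^ m} ^ (k + 1)
      ≤ Nat.card {y : T // y ^ p ^ (k + 1) = 1 ∧ ∃ z, y = z ^ p ^ (m - k)} := by
  intro k
  induction k with
  | zero =>
    intro _
    rw [zero_add, pow_one, pow_one, Nat.sub_zero]
  | succ k ih =>
    intro hk
    refine le_trans (le_of_eq (pow_succ' _ _)) ?_
    refine (Nat.mul_le_mul_left _ (ih (by omega))).trans ?_
    rw [← Nat.card_prod]
    choose z hz using fun y : {y : T // y ^ p ^ (k + 1) = 1 ∧ ∃ z, y = z ^ p ^ (m - k)} => y.2.2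
    have hroot : ∀ y, (z y ^ p ^ (m - (k + 1))) ^ p = y.1 := by
      intro y
      rw [← pow_mul, ← pow_succ]
      have h1 : m - (k + 1) + 1 = m - k := by omega
      rw [h1, ← hz y]
    refine Nat.card_le_card_of_injective (fun x => ⟨x.1.1 * z x.2 ^ p ^ (m - (k + 1)), ?_, ?_⟩) ?_
    · rw [mul_pow, pow_succ' p (k + 1), pow_mul, pow_mul, x.1.2.1, one_pow, one_mul, hroot,
        x.2.2.1]
    · obtain ⟨w, hw⟩ := x.1.2.2
      refine ⟨w ^ p ^ (k + 1) * z x.2, ?_⟩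
      rw [mul_pow, ← pow_mul, ← pow_add, hw]
      congr 3
      omega
    · intro x y hxy
      have h1 : x.1.1 * z x.2 ^ p ^ (m - (k + 1)) = y.1.1 * z y.2 ^ p ^ (m - (k + 1)) :=
        congrArg Subtype.val hxy
      have h2 : x.2 = y.2 := by
        have h3 := congrArg (fun t => t ^ p) h1
        simp only [mul_pow, hroot, x.1.2.1, y.1.2.1, one_mul] at h3
        exact Subtype.ext h3
      rw [h2] at h1
      exact Prod.ext (Subtype.ext (mul_right_cancel h1)) h2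

theorem card_W_le [Finite T] (m : ℕ) :
    Nat.card {x : T // x ^ p = 1 ∧ ∃ z, x = z ^ p ^ m} ^ (m + 1) ≤ Nat.card T :=
  (card_W_pow m m le_rfl).trans (Nat.card_le_card_of_injective _ Subtype.val_injective)

/-- the order of `E` and of `T` -/
theorem exists_s [Finite T] (hp : p.Prime) (hT : IsPGroup p T) (E : Subgroup (MulAut T))
    (hpE : ¬ p ∣ Nat.card E) {m : ℕ}
    (hF : ∀ φ ∈ E, φ ≠ 1 → ∃ u : T, (u⁻¹ * φ u) ^ p ^ m ≠ 1) {r : ℕ}
    (hr : Nat.card {x : T // x ^ p = 1} ≤ p ^ r) :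
    ∃ s ≤ r, Nat.card E ≤ p ^ (s * (s + 1) / 2) ∧ p ^ (s * (m + 1)) ≤ Nat.card T := by
  let S : Subgroup T := (powMonoidHom (p ^ m) : T →* T).range
  have hS : ∀ φ ∈ E, ∀ y ∈ S, φ y ∈ S := by
    rintro φ _ _ ⟨z, rfl⟩
    exact ⟨φ z, by rw [powMonoidHom_apply, powMonoidHom_apply, map_pow]⟩
  have hinj : Function.Injective (resG E S hS) := by
    rw [injective_iff_map_eq_one]
    intro φ hφ
    by_contra hne
    obtain ⟨u, hu⟩ := hF φ φ.2 (fun h => hne (Subtype.ext h))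
    apply hu
    have h0 : resG E S hS φ (⟨u ^ p ^ m, u, rfl⟩ : S) = ⟨u ^ p ^ m, u, rfl⟩ := by
      rw [hφ]
      rfl
    have h1 : (φ : MulAut T) (u ^ p ^ m) = u ^ p ^ m := congrArg Subtype.val h0
    rw [mul_pow, inv_pow, ← map_pow, h1, inv_mul_cancel]
  have hSp : IsPGroup p S := hT.to_subgroup S
  have hpf : Fact p.Prime := ⟨hp⟩
  obtain ⟨s, hs⟩ := IsPGroup.iff_card.1 (hSp.to_subgroup (powMonoidHom p : S →* S).ker)
  have hs1 : Nat.card {y : S // y ^ p = 1} = p ^ s := hs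
  have h3 : Nat.card (resG E S hS).range = Nat.card E :=
    (Nat.card_congr (Equiv.ofInjective _ hinj)).symm
  have h4 := card_le_gl hp hSp (resG E S hS).range (by rw [h3]; exact hpE) hs1.le
  rw [h3] at h4
  have h5 : Nat.card {x : T // x ^ p = 1 ∧ ∃ z, x = z ^ p ^ m} = p ^ s := by
    rw [← hs1]
    refine Nat.card_congr
      { toFun := fun x => ⟨⟨x.1, x.2.2.elim fun z hz => ⟨z, hz.symm⟩⟩, Subtype.ext x.2.1⟩
        invFun := fun y => ⟨y.1.1, congrArg Subtype.val y.2,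
          y.1.2.elim fun z hz => ⟨z, hz.symm⟩⟩
        left_inv := fun x => rfl
        right_inv := fun y => rfl }
  refine ⟨s, ?_, h4, ?_⟩
  · have h6 : p ^ s ≤ p ^ r := by
      rw [← h5]
      refine le_trans (Nat.card_le_card_of_injective
        (fun x : {x : T // x ^ p = 1 ∧ ∃ z, x = z ^ p ^ m} =>
          (⟨x.1, x.2.1⟩ : {x : T // x ^ p = 1})) ?_) hr
      intro x y h
      have h7 := congrArg (Subtype.val : {x : T // x ^ p = 1} → T) h
      exact Subtype.ext h7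
    exact (Nat.pow_le_pow_iff_right hp.one_lt).1 h6
  · have h6 := card_W_le (T := T) (p := p) m
    rwa [h5, ← pow_mul] at h6

theorem card_cm_ge [Finite T] (hp : p.Prime) (hT : IsPGroup p T) {φ : MulAut T} {m : ℕ}
    (hF : ∃ u : T, (u⁻¹ * φ u) ^ p ^ m ≠ 1) : p ^ (m + 1) ≤ Nat.card (cm φ).range := by
  obtain ⟨u, hu⟩ := hF
  have h1 : p ^ (m + 1) ≤ orderOf (u⁻¹ * φ u) := by
    obtain ⟨N, hN⟩ := hT (u⁻¹ * φ u)
    obtain ⟨N, -, hN⟩ := (Nat.dvd_prime_pow hp).1 (orderOf_dvd_of_pow_eq_one hN)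
    have hle : m + 1 ≤ N := by
      by_contra hcon
      apply hu
      refine orderOf_dvd_iff_pow_eq_one.1 ?_
      rw [hN]
      exact pow_dvd_pow p (by omega)
    rw [hN]
    exact Nat.pow_le_pow_right hp.pos hle
  refine h1.trans ?_
  have h2 : Subgroup.zpowers (u⁻¹ * φ u) ≤ (cm φ).range := Subgroup.zpowers_le.2 ⟨u, rfl⟩
  rw [← Nat.card_zpowers]
  exact Nat.card_le_card_of_injective (Subgroup.inclusion h2) (Subgroup.inclusion_injective h2)

theorem num_many {p r s m e t : ℕ} (hp3 : 3 ≤ p) (hr2 : 2 ≤ r) (hs1 : 1 ≤ s) (hsr : s ≤ r)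
    (he : e < p ^ (s * (s + 1) / 2)) (hm : r * (r + 1) / 2 ≤ m)
    (ht : p ^ (s * (m + 1)) ≤ t) :
    p ^ (m + 1) * (e * (e + 3)) + (e - 1) * t < p ^ (m + 1) * t := by
  set X := p ^ (s * (s + 1) / 2) with hX
  have h2s : 2 * (s * (s + 1) / 2) = s * (s + 1) :=
    Nat.mul_div_cancel' (even_iff_two_dvd.1 (Nat.even_mul_succ_self s))
  have hX2 : X * X = p ^ (s * (s + 1)) := by
    rw [hX, ← pow_add]
    congr 1
    omega
  have hXpos : 1 ≤ X := Nat.one_le_pow _ _ (by omega)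
  have hrm : r + 1 ≤ m := by
    refine le_trans ?_ hm
    rw [Nat.le_div_iff_mul_le two_pos]
    calc (r + 1) * 2 ≤ (r + 1) * r := Nat.mul_le_mul_left _ hr2
      _ = r * (r + 1) := mul_comm _ _
  have ht3 : 3 * (X * X) ≤ t := by
    calc 3 * (X * X) ≤ p * p ^ (s * (s + 1)) := by
          rw [hX2]
          exact Nat.mul_le_mul_right _ hp3
      _ = p ^ (s * (s + 1) + 1) := by rw [pow_succ, mul_comm]
      _ ≤ p ^ (s * (m + 1)) := by
          refine Nat.pow_le_pow_right (by omega) ?_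
          have h1 : s * (s + 1 + 1) ≤ s * (m + 1) := Nat.mul_le_mul_left s (by omega)
          have h2 : s * (s + 1 + 1) = s * (s + 1) + s := by ring
          omega
      _ ≤ t := ht
  have hq : 3 * (e - 1) ≤ p ^ (m + 1) := by
    have h1 : s * (s + 1) / 2 ≤ m := by
      refine le_trans (Nat.div_le_div_right ?_) hm
      exact Nat.mul_le_mul hsr (by omega)
    have h2 : X ≤ p ^ m := Nat.pow_le_pow_right (by omega) h1
    calc 3 * (e - 1) ≤ 3 * p ^ m := by omega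
      _ ≤ p * p ^ m := Nat.mul_le_mul_right _ hp3
      _ = p ^ (m + 1) := by rw [pow_succ, mul_comm]
  have hee : 3 * (e * (e + 3)) < 2 * t := by
    have h1 : e * (e + 3) < 2 * (X * X) := by
      have h2 : e + 1 ≤ X := he
      have h3 : (e + 1) * (e + 1) ≤ X * X := Nat.mul_le_mul h2 h2
      have h4 : e + 1 ≤ X * X := h2.trans (Nat.le_mul_of_pos_left X hXpos)
      nlinarith
    omega
  have hq0 : 0 < p ^ (m + 1) := pow_pos (by omega) _
  have h1 : p ^ (m + 1) * (3 * (e * (e + 3))) < p ^ (m + 1) * (2 * t) :=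
    Nat.mul_lt_mul_of_pos_left hee hq0
  have h2 : 3 * (e - 1) * t ≤ p ^ (m + 1) * t := Nat.mul_le_mul_right _ hq
  nlinarith

theorem num_many' {p i m e t : ℕ} (hp3 : 3 ≤ p) (he : e < p ^ i) (hm : 2 * i ≤ m)
    (ht : p ^ (m + 1) ≤ t) :
    p ^ (m + 1) * (e * (e + 3)) + (e - 1) * t < p ^ (m + 1) * t := by
  set X := p ^ i with hX
  have hX2 : X * X ≤ p ^ m := by
    rw [hX, ← pow_add]
    exact Nat.pow_le_pow_right (by omega) (by omega)
  have hXpos : 1 ≤ X := Nat.one_le_pow _ _ (by omega)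
  have hpm : 3 * p ^ m ≤ p ^ (m + 1) := by
    rw [pow_succ, mul_comm]
    exact Nat.mul_le_mul_left _ hp3
  have ht3 : 3 * (X * X) ≤ t := by
    have h1 : 3 * (X * X) ≤ 3 * p ^ m := Nat.mul_le_mul_left 3 hX2
    omega
  have hq : 3 * (e - 1) ≤ p ^ (m + 1) := by
    have h1 : X ≤ X * X := Nat.le_mul_of_pos_left X hXpos
    omega
  have hee : 3 * (e * (e + 3)) < 2 * t := by
    have h1 : e * (e + 3) < 2 * (X * X) := by
      have h2 : e + 1 ≤ X := he
      have h3 : (e + 1) * (e + 1) ≤ X * X := Nat.mul_le_mul h2 h2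
      have h4 : e + 1 ≤ X * X := h2.trans (Nat.le_mul_of_pos_left X hXpos)
      nlinarith
    omega
  have hq0 : 0 < p ^ (m + 1) := pow_pos (by omega) _
  have h1 : p ^ (m + 1) * (3 * (e * (e + 3))) < p ^ (m + 1) * (2 * t) :=
    Nat.mul_lt_mul_of_pos_left hee hq0
  have h2 : 3 * (e - 1) * t ≤ p ^ (m + 1) * t := Nat.mul_le_mul_right _ hq
  nlinarith

end

/-- **many regular characters**, by the order of `E` -/
theorem many_bot' {T : Type*} [CommGroup T] [Fintype T] {K : Type*} [Field K] [CharZero K]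
    [HasEnoughRootsOfUnity K (Monoid.exponent T)] {p : ℕ} (hp : p.Prime) (hp2 : p ≠ 2)
    (hT : IsPGroup p T) {E : Subgroup (MulAut T)} (hpE : ¬ p ∣ Nat.card E)
    (hE : 2 ≤ Nat.card E) {m i : ℕ}
    (hF : ∀ φ ∈ E, φ ≠ 1 → ∃ u : T, (u⁻¹ * φ u) ^ p ^ m ≠ 1)
    (hEi : Nat.card E < p ^ i) (hm : 2 * i ≤ m) : Many K E ⊥ := by
  have hp3 : 3 ≤ p := by
    have := hp.two_le
    omega
  obtain ⟨φ, hφ, hφ1⟩ : ∃ φ ∈ E, φ ≠ 1 := by
    by_contra hcon
    push Not at hcon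
    have h1 : E = ⊥ := (Subgroup.eq_bot_iff_forall E).2 hcon
    rw [h1] at hE
    have h2 : Nat.card (⊥ : Subgroup (MulAut T)) = 1 := Subgroup.card_bot
    omega
  have ht : p ^ (m + 1) ≤ Fintype.card T := by
    rw [← Nat.card_eq_fintype_card]
    exact (card_cm_ge hp hT (hF φ hφ hφ1)).trans
      (Nat.card_le_card_of_injective _ Subtype.val_injective)
  refine many_of hp hT hpE (fun α _ z hz => by rw [Subgroup.mem_bot.1 hz, map_one])
    (q := p ^ (m + 1)) (fun α hα hα1 => card_cm_ge hp hT (hF α hα hα1)) ?_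
  have hb : Nat.card (⊥ : Subgroup T) = 1 := Subgroup.card_bot
  rw [hb, mul_one]
  exact num_many' hp3 hEi hm ht

/-- **many regular characters** -/
theorem many_bot {T : Type*} [CommGroup T] [Fintype T] {K : Type*} [Field K] [CharZero K]
    [HasEnoughRootsOfUnity K (Monoid.exponent T)] {p : ℕ} (hp : p.Prime) (hp2 : p ≠ 2)
    (hT : IsPGroup p T) {E : Subgroup (MulAut T)} (hpE : ¬ p ∣ Nat.card E)
    (hE : 2 ≤ Nat.card E) {m r : ℕ}
    (hF : ∀ φ ∈ E, φ ≠ 1 → ∃ u : T, (u⁻¹ * φ u) ^ p ^ m ≠ 1)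
    (hr : Nat.card {x : T // x ^ p = 1} ≤ p ^ r) (hr2 : 2 ≤ r) (hm : r * (r + 1) / 2 ≤ m) :
    Many K E ⊥ := by
  have hp3 : 3 ≤ p := by
    have := hp.two_le
    omega
  obtain ⟨s, hsr, hs, ht⟩ := exists_s hp hT E hpE hF hr
  have hs1 : 1 ≤ s := by
    by_contra hcon
    have h0 : s = 0 := by omega
    rw [h0] at hs
    norm_num at hs
    omega
  have hlt : Nat.card E < p ^ (s * (s + 1) / 2) := by
    refine lt_of_le_of_ne hs fun h => hpE ?_
    rw [h]
    refine dvd_pow_self p ?_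
    have h1 : 1 * 2 ≤ s * (s + 1) := Nat.mul_le_mul hs1 (by omega)
    omega
  refine many_of hp hT hpE (fun α _ z hz => by rw [Subgroup.mem_bot.1 hz, map_one])
    (q := p ^ (m + 1)) (fun α hα hα1 => card_cm_ge hp hT (hF α hα hα1)) ?_
  rw [Nat.card_eq_fintype_card (α := T)] at ht
  have hb : Nat.card (⊥ : Subgroup T) = 1 := Subgroup.card_bot
  rw [hb, mul_one]
  exact num_many hp3 hr2 hs1 hsr hlt hm ht

end Pool.Agent.Lib.P0c8ca5.Ku
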