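import Mathlib
import Pool.Agent.Lib.P0c8ca5Ex.ZJ
import Pool.Agent.Lib.P0c8ca5Ex.ZG
import Pool.Agent.Lib.P0c8ca5Ku.KN
import Pool.Agent.Lib.P0c8ca5Ku.KS
import Pool.Agent.Lib.P0c8ca5Ex.ZKb
import Pool.Agent.Lib.P0c8ca5Ex.ZMa

/-!
# KT: blocks with abelian defect groups of rank at most `r`

`l_lt_rank`: `l(b) < p ^ ((r - 2) * (r * (r - 1) / 2) + 4)` if the inertial quotient acts faithfully
on the `p ^ ((r - 2) * (r * (r - 1) / 2) + 3)`-th powers of the defect group.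
-/

set_option autoImplicit false
set_option linter.unusedSectionVars false

namespace Pool.Agent.Lib.P0c8ca5.Ku

open MonoidAlgebra Finset Bq Ex Kq Kk QCorAux

universe u v

section
variable {T : Type*} [CommGroup T] [Fintype T] {p : ℕ}

/-- a regular element -/
theorem exists_reg' (hp : p.Prime) (hT : IsPGroup p T) (E : Subgroup (MulAut T))
    (hpE : ¬ p ∣ Nat.card E) {m : ℕ} (hE : Nat.card E ≤ p ^ m)
    (hF : ∀ φ ∈ E, φ ≠ 1 → ∃ u : T, (u⁻¹ * φ u) ^ p ^ m ≠ 1) :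
    ∃ u : T, ∀ φ ∈ E, φ u = u → φ = 1 := by
  classical
  have := finF E
  have := Fintype.ofFinite E
  have h1 := card_RegM' hp hT E hpE hF
  rw [Nat.card_eq_fintype_card] at hE
  have hT0 : 0 < Fintype.card T := Fintype.card_pos
  have hE0 : 0 < Fintype.card E := Fintype.card_pos
  have h2 : 0 < (univ.filter fun u => RegM E (powMonoidHom (p ^ m) : T →* T).range u).card := by
    by_contra hcon
    have h3 : (univ.filter fun u => RegM E (powMonoidHom (p ^ m) : T →* T).range u).card = 0 := by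
      omega
    rw [h3, mul_zero, zero_add] at h1
    have h4 : p ^ m ≤ Fintype.card E - 1 := Nat.le_of_mul_le_mul_right h1 hT0
    omega
  obtain ⟨u, hu⟩ := card_pos.1 h2
  have hu := (mem_filter.1 hu).2
  refine ⟨u, fun φ hφ h => hu φ hφ ?_⟩
  rw [h, inv_mul_cancel]
  exact Subgroup.one_mem _

end

section
variable {p : ℕ} [Fact p.Prime] {k : Type*} [Field k] [IsAlgClosed k] [CharP k p]
  {A : Type*} [Group A] [Fintype A] {b f i : MonoidAlgebra k A} {D : Subgroup A}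

theorem l_lt_rankT (hp2 : p ≠ 2) (h : Src p b D f i) (hpE : ¬ p ∣ eN D f) {T : Type*}
    [CommGroup T] [Fintype T] {φ : T →* A} (hφ : Function.Injective φ)
    (hr : ∀ x, x ∈ D ↔ ∃ t, φ t = x) (hE : 2 ≤ eN D f) {r j m : ℕ}
    (hrk : Nat.card {x : T // x ^ p = 1} ≤ p ^ r) (hj1 : 1 ≤ j) (hEm : eN D f ≤ p ^ m)
    (hst : ∀ l : T →* (KW p k)ˣ, l ≠ 1 → ZFx.stl (EG φ D f) l < p ^ j)
    (hpar : Par p r j (eN D f))
    (hF : ∀ ψ ∈ EG φ D f, ψ ≠ 1 → ∃ u : T, (u⁻¹ * ψ u) ^ p ^ m ≠ 1)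
    (hM : Many (KW p k) (EG φ D f) ⊥)
    (hbig : ∀ Q : Subgroup T, Q ≠ ⊥ → Q ≠ ⊤ → BigX (KW p k) p (p ^ (m + 1)) (EG φ D f) Q) :
    Nat.card (Quotient (irrInvSetoid (⊤ : Subgroup A) ⊤ b)) < p ^ ((r - 2) * j + 4) := by
  have hp : p.Prime := Fact.out
  obtain ⟨M, hM'⟩ := pow_one_of h
  have hT : IsPGroup p T := by
    intro u
    refine ⟨M, hφ ?_⟩
    rw [map_pow, map_one]
    exact hM' (φ u) ((hr _).2 ⟨u, rfl⟩)
  have hcard : Nat.card (EG φ D f) = eN D f := card_EG hφ hr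
  have hpG : ¬ p ∣ Nat.card (EG φ D f) := by rwa [hcard]
  obtain ⟨B, hB⟩ := exists_cenL (p := p) h.root.blk.idem
    (fun g => invBy_iff_cj.1 h.root.blk.invBy g (Subgroup.mem_top g))
  obtain ⟨u, hu⟩ := exists_reg' hp hT (EG φ D f) hpG (by rwa [hcard]) hF
  have hreg : ∃ u : T, u ≠ 1 ∧ Ex.st (EG φ D f) u = 1 := by
    refine ⟨u, ?_, ?_⟩
    · rintro rfl
      have h1 : Nat.card (EG φ D f) = 1 := by
        rw [Nat.card_eq_one_iff_unique]
        exact ⟨⟨fun x y => Subtype.ext ((hu x x.2 (map_one _)).trans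
          (hu y y.2 (map_one _)).symm)⟩, ⟨1⟩⟩
      omega
    · rw [Ex.st, Nat.card_eq_one_iff_unique]
      exact ⟨⟨fun y z => Subtype.ext (Subtype.ext
        ((hu y.1 y.1.2 y.2).trans (hu z.1 z.1.2 z.2).symm))⟩, ⟨⟨1, rfl⟩⟩⟩
  obtain ⟨G, ψ, hS, hψ⟩ := exists_rows_bot hp2 (dvd_pow_self p (Nat.succ_ne_zero m)) h hφ hr hpE
    hbig (Or.inl hM) hB
  obtain ⟨S, hS1, hS2, -, hS4⟩ := fixed_rows hp2 hS hpE hB hψ hreg
  exact lt_of_le_of_lt hS4 (rows_lt hp hp2 hT hpG hrk hj1 hst (by rwa [hcard]) hψ.vir hψ.gram S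
    hS1 hS2)

/-- the inertial index one -/
theorem faith_one (hE : eN D f ≤ 1) (n : ℕ) : Faith p n D f := by
  intro g hg _
  have h1 : (CD D).relIndex (St D f) = 1 := le_antisymm hE (eN_pos D f)
  exact Subgroup.relIndex_eq_one.1 h1 hg

theorem num_m {r : ℕ} (hr2 : 2 ≤ r) : r * (r + 1) / 2 ≤ (r - 2) * (r * (r - 1) / 2) + 3 ∧
    r * (r - 1) ≤ (r - 2) * (r * (r - 1) / 2) + 3 ∧ 1 ≤ r * (r - 1) / 2 := by
  have h2 : 2 * (r * (r - 1) / 2) = r * (r - 1) := by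
    obtain ⟨s, rfl⟩ : ∃ s, r = s + 1 := ⟨r - 1, by omega⟩
    rw [Nat.add_sub_cancel, mul_comm (s + 1) s]
    exact Nat.mul_div_cancel' (even_iff_two_dvd.1 (Nat.even_mul_succ_self s))
  have h3 := tri (r := r) (by omega)
  rw [h3]
  rcases Nat.lt_or_ge r 4 with h4 | h4
  · interval_cases r <;> norm_num
  · have hjr : r ≤ r * (r - 1) / 2 := by
      have h1 : r * 3 ≤ r * (r - 1) := Nat.mul_le_mul_left r (by omega)
      omega
    have h5 : 2 * (r * (r - 1) / 2) ≤ (r - 2) * (r * (r - 1) / 2) :=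
      Nat.mul_le_mul_right _ (by omega)
    generalize (r - 2) * (r * (r - 1) / 2) = w at h5 ⊢
    generalize r * (r - 1) / 2 = j at h2 hjr h5 ⊢
    omega

/-- **the weight conjecture for blocks with abelian defect groups of rank at most `r` on which the
inertial quotient acts faithfully modulo small elements** -/
theorem large_rank (hp2 : p ≠ 2) (h : Root p b D f) {r : ℕ}
    (hr : Nat.card {x : A // x ∈ D ∧ x ^ p = 1} ≤ p ^ r)
    (hF : Faith p ((r - 2) * (r * (r - 1) / 2) + 3) D f) :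
    gap p (⊤ : Subgroup A) ⊤ b = 0 ∧
      Nat.card (Quotient (irrInvSetoid (⊤ : Subgroup A) ⊤ b)) ≤ eN D f := by
  have hp : p.Prime := Fact.out
  rcases Nat.lt_or_ge (eN D f) 2 with hE | hE
  · exact large' hp2 h (i := 0) hr (by rw [pow_zero]; omega) (faith_one (by omega) _)
  -- the rank is at least two
  obtain ⟨s, hs2, hs, hsF⟩ : ∃ s, 2 ≤ s ∧ Nat.card {x : A // x ∈ D ∧ x ^ p = 1} ≤ p ^ s ∧
      Faith p ((s - 2) * (s * (s - 1) / 2) + 3) D f := by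
    rcases Nat.lt_or_ge r 2 with h1 | h1
    · refine ⟨2, le_rfl, hr.trans (Nat.pow_le_pow_right hp.pos h1.le), ?_⟩
      have h2 : r - 2 = 0 := by omega
      rw [h2, zero_mul] at hF
      exact hF
    · exact ⟨r, h1, hr, hF⟩
  obtain ⟨hm1, hm2, hm3⟩ := num_m hs2
  set m := (s - 2) * (s * (s - 1) / 2) + 3 with hm
  have hpE : ¬ p ∣ eN D f := ndvd h
  obtain ⟨i₀, hi⟩ := exists_src h
  let _ : CommGroup ↥D := cgrp D h.com
  let _ : Fintype ↥D := Fintype.ofFinite _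
  have hφ : Function.Injective (D.subtype : ↥D →* A) := Subtype.val_injective
  have hrD : ∀ x, x ∈ D ↔ ∃ t, (D.subtype : ↥D →* A) t = x :=
    fun x => ⟨fun hx => ⟨⟨x, hx⟩, rfl⟩, by rintro ⟨t, rfl⟩; exact t.2⟩
  have hcard : Nat.card (EG D.subtype D f) = eN D f := card_EG hφ hrD
  have hpG : ¬ p ∣ Nat.card (EG D.subtype D f) := by rwa [hcard]
  obtain ⟨M, hM⟩ := pow_one_of hi
  have hT : IsPGroup p ↥D := fun u => ⟨M, Subtype.ext (hM u u.2)⟩
  have hrT : Nat.card {x : ↥D // x ^ p = 1} ≤ p ^ s := by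
    refine le_trans (le_of_eq (Nat.card_congr ?_)) hs
    exact
      { toFun := fun x => ⟨x.1, x.1.2, congrArg Subtype.val x.2⟩
        invFun := fun x => ⟨⟨x.1, x.2.1⟩, Subtype.ext x.2.2⟩
        left_inv := fun x => rfl
        right_inv := fun x => rfl }
  have hFT := ZMAux.faith_T (D := D) (f := f) hφ hrD hsF
  have hEs : eN D f ≤ p ^ (s * (s + 1) / 2) := by
    rw [← hcard]
    exact card_le_gl hp hT _ hpG hrT
  have hEm : eN D f ≤ p ^ m := hEs.trans (Nat.pow_le_pow_right hp.pos hm1)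
  have h1 := l_lt_rankT hp2 hi hpE (T := ↥D) (φ := D.subtype) hφ hrD hE hrT hm3 hEm
    (fun l hl => stl_lt hp hT hpG hrT hs2 hl) (par_of hp hs2 hEs) hFT
    (many_bot hp hp2 hT hpG (by rw [hcard]; exact hE) hFT hrT hs2 hm1)
    (fun Q hQ hQ' => (ZKb.big_all hp hp2 hT hpG hrT (m := m + 1)
      (by rw [Nat.add_sub_cancel]; exact hFT) (by omega) hQ hQ').toX)
  exact l_eq_of hp2 h hsF h1.le (hEm.trans (Nat.pow_le_pow_right hp.pos (by omega)))

end

end Pool.Agent.Lib.P0c8ca5.Ku
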