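import Mathlib
import Pool.Agent.Lib.P0c8ca5Ku.KT
import Pool.Agent.Lib.P0c8ca5Ex.ZM

/-!
# KU: blocks with abelian defect groups of rank at most `r` and `|E| ≤ p ^ i`

`large_small`: the weight conjecture if the inertial quotient acts faithfully on the
`p ^ ((r - 2) * i + 3)`-th powers of the defect group.
-/

set_option autoImplicit false
set_option linter.unusedSectionVars false

namespace Pool.Agent.Lib.P0c8ca5.Ku

open MonoidAlgebra Finset Bq Ex Kq Kk QCorAux

universe u v

section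
variable {p : ℕ} [Fact p.Prime] {k : Type*} [Field k] [IsAlgClosed k] [CharP k p]
  {A : Type*} [Group A] [Fintype A] {b f i : MonoidAlgebra k A} {D : Subgroup A}

/-- **the weight conjecture, rank at most `r` and `|E| ≤ p ^ j`** -/
theorem large_small (hp2 : p ≠ 2) (h : Root p b D f) {r j : ℕ}
    (hr : Nat.card {x : A // x ∈ D ∧ x ^ p = 1} ≤ p ^ r) (hEj : eN D f ≤ p ^ j)
    (hF : Faith p ((r - 2) * j + 3) D f) :
    gap p (⊤ : Subgroup A) ⊤ b = 0 ∧
      Nat.card (Quotient (irrInvSetoid (⊤ : Subgroup A) ⊤ b)) ≤ eN D f := by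
  have hp : p.Prime := Fact.out
  rcases Nat.lt_or_ge (eN D f) 2 with hE | hE
  · exact large' hp2 h (i := 0) hr (by rw [pow_zero]; omega) (faith_one (by omega) _)
  -- rank at most two
  rcases Nat.lt_or_ge r 3 with hr3 | hr3
  · exact k2_two hp2 h (hr.trans (Nat.pow_le_pow_right hp.pos (by omega)))
      (hF.mono (by omega))
  have hj1 : 1 ≤ j := by
    by_contra hcon
    have h0 : j = 0 := by omega
    rw [h0, pow_zero] at hEj
    omega
  have hpE : ¬ p ∣ eN D f := ndvd h
  have hElt : eN D f < p ^ j := by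
    refine lt_of_le_of_ne hEj fun h1 => hpE ?_
    rw [h1]
    exact dvd_pow_self p (by omega)
  by_cases hbig : r = 3 ∧ 3 < j
  · obtain ⟨rfl, hj3⟩ := hbig
    exact large_rank hp2 h hr (hF.mono (by omega))
  have hcases : (r = 3 ∧ j ≤ 3) ∨ 4 ≤ r := by omega
  set m := (r - 2) * j + 3 with hm
  have hm2 : 2 * j ≤ m := by
    rcases hcases with ⟨rfl, hj3⟩ | h4
    · omega
    · have h5 : 2 * j ≤ (r - 2) * j := Nat.mul_le_mul_right _ (by omega)
      omega
  have hpar : Par p r j (eN D f) := by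
    rcases hcases with ⟨rfl, hj3⟩ | h4
    · exact Or.inr (Or.inl ⟨rfl, hj3, hEj.trans (Nat.pow_le_pow_right hp.pos (by omega))⟩)
    · refine Or.inr (Or.inr ⟨h4, hEj.trans (Nat.pow_le_pow_right hp.pos ?_)⟩)
      have h5 : 2 * j ≤ (r - 2) * j := Nat.mul_le_mul_right _ (by omega)
      omega
  obtain ⟨i₀, hi⟩ := exists_src h
  let _ : CommGroup ↥D := cgrp D h.com
  let _ : Fintype ↥D := Fintype.ofFinite _
  have hφ : Function.Injective (D.subtype : ↥D →* A) := Subtype.val_injective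
  have hrD : ∀ x, x ∈ D ↔ ∃ t, (D.subtype : ↥D →* A) t = x :=
    fun x => ⟨fun hx => ⟨⟨x, hx⟩, rfl⟩, by rintro ⟨t, rfl⟩; exact t.2⟩
  have hcard : Nat.card (EG D.subtype D f) = eN D f := card_EG hφ hrD
  have hpG : ¬ p ∣ Nat.card (EG D.subtype D f) := by rwa [hcard]
  have hfin : Finite (EG D.subtype D f) := finF _
  obtain ⟨M, hM⟩ := pow_one_of hi
  have hT : IsPGroup p ↥D := fun u => ⟨M, Subtype.ext (hM u u.2)⟩
  have hrT : Nat.card {x : ↥D // x ^ p = 1} ≤ p ^ r := by
    refine le_trans (le_of_eq (Nat.card_congr ?_)) hr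
    exact
      { toFun := fun x => ⟨x.1, x.1.2, congrArg Subtype.val x.2⟩
        invFun := fun x => ⟨⟨x.1, x.2.1⟩, Subtype.ext x.2.2⟩
        left_inv := fun x => rfl
        right_inv := fun x => rfl }
  have hFT := ZMAux.faith_T (D := D) (f := f) hφ hrD hF
  have hEm : eN D f ≤ p ^ m := hEj.trans (Nat.pow_le_pow_right hp.pos (by omega))
  have h1 := l_lt_rankT hp2 hi hpE (T := ↥D) (φ := D.subtype) hφ hrD hE hrT hj1 hEm
    (fun l _ => by
      refine lt_of_le_of_lt ?_ hElt
      rw [← hcard]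
      exact Nat.card_le_card_of_injective _ Subtype.val_injective) hpar hFT
    (many_bot' hp hp2 hT hpG (by rw [hcard]; exact hE) hFT (by rw [hcard]; exact hElt) hm2)
    (fun Q hQ hQ' => (ZKb.big_of_st hp hp2 hT hpG (fun Q _ => by
      refine le_trans ?_ hEj
      rw [← hcard]
      exact Nat.card_le_card_of_injective _
        (Subgroup.inclusion_injective (ZKb.Fx_le _ Q))) hFT hm2 hQ hQ').toX)
  exact l_eq_of hp2 h hF h1.le (hEm.trans (Nat.pow_le_pow_right hp.pos (by omega)))

end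

end Pool.Agent.Lib.P0c8ca5.Ku
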