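import Mathlib
import Pool.Agent.Lib.P0c8ca5Ex.V1a
import Pool.Agent.Lib.P0c8ca5Ex.ZFc

/-!
# Lh: the rows which are invariant under a generator of the units, small normalizers of lines

* `exists_eigen`: a group of automorphisms of order prime to `p` which maps a nontrivial character to
  its powers normalizes a subgroup of order `p`.
* `orb_big`: the orbit of `l ≠ 1` under `E` and the generator `t` of the units has more than `|E|`
  elements, if the normalizers in `E` of the subgroups of order `p` have order less than `p - 1`.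
* `rows_line`: then the number of the invariant rows is at most `|E|`.
-/

set_option autoImplicit false
set_option linter.unusedSectionVars false

namespace Pool.Agent.Lib.P0c8ca5.Ku

open Finset Ex Ex.YLx Ex.YZx Ex.ZFx Ex.V1x

namespace LhAux

theorem finAut {T : Type*} [CommGroup T] [Finite T] : Finite (MulAut T) :=
  Finite.of_injective (fun φ : MulAut T => (φ : T → T))
    (fun a b h => MulEquiv.ext fun x => congrFun h x)

/-- the powers with exponents congruent modulo the exponent -/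
theorem pow_modEq {T : Type*} [Monoid T] {u : T} {q a b : ℕ} (hu : u ^ q = 1)
    (h : a ≡ b [MOD q]) : u ^ a = u ^ b := by
  rw [← Nat.mod_add_div a q, ← Nat.mod_add_div b q, pow_add, pow_add, pow_mul, pow_mul, hu,
    one_pow, one_pow, mul_one, mul_one, h]

theorem lift_modEq {p a b : ℕ} (h : a ≡ b [MOD p]) (m : ℕ) :
    a ^ p ^ m ≡ b ^ p ^ m [MOD p ^ m] := by
  have h1 : (p : ℤ) ∣ (b : ℤ) - a := (Nat.modEq_iff_dvd).1 h
  have h2 := dvd_sub_pow_of_dvd_sub h1 m
  rw [Nat.modEq_iff_dvd]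
  push_cast
  exact (pow_dvd_pow (p : ℤ) (Nat.le_succ m)).trans h2

section
variable {T : Type*} [CommGroup T] [Fintype T] {K : Type*} [Field K] [CharZero K]
  [HasEnoughRootsOfUnity K (Monoid.exponent T)]

/-- **a common eigenvector** -/
theorem exists_eigen {p : ℕ} (hp : p.Prime) (hT : IsPGroup p T) {N : Subgroup (MulAut T)}
    (hN : ¬ p ∣ Nat.card N) {l : T →* Kˣ} (hl : l ≠ 1) (a : MulAut T → ℕ)
    (ha : ∀ α ∈ N, dl l α = pw l (a α)) :
    ∃ x : T, x ^ p = 1 ∧ x ≠ 1 ∧ ∀ α ∈ N, ∃ j : ℕ, α x = x ^ j := by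
  classical
  have : Finite (MulAut T) := finAut
  have := Fintype.ofFinite N
  have hF : Fact p.Prime := ⟨hp⟩
  -- the exponent of `T`
  obtain ⟨m, hm⟩ := IsPGroup.iff_card.1 hT
  have hTm : ∀ u : T, u ^ p ^ m = 1 := fun u => by
    rw [← hm, Nat.card_eq_fintype_card]
    exact pow_card_eq_one
  -- an element with a value of order `p`
  obtain ⟨u, hu, hup⟩ : ∃ u, l u ≠ 1 ∧ l u ^ p = 1 := by
    obtain ⟨u₀, hu₀⟩ : ∃ u, l u ≠ 1 := by
      by_contra h
      push Not at h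
      exact hl (MonoidHom.ext h)
    have h1 : ∃ j, l u₀ ^ p ^ j = 1 := ⟨m, by rw [← map_pow, hTm, map_one]⟩
    have h2 := Nat.find_spec h1
    have h3 : Nat.find h1 ≠ 0 := by
      intro h4
      rw [h4, pow_zero, pow_one] at h2
      exact hu₀ h2
    obtain ⟨j, hj⟩ := Nat.exists_eq_succ_of_ne_zero h3
    refine ⟨u₀ ^ p ^ j, ?_, ?_⟩
    · rw [map_pow]
      exact Nat.find_min h1 (by rw [hj]; exact Nat.lt_succ_self j)
    · rw [map_pow, ← pow_mul, ← pow_succ]
      have h5 : j + 1 = Nat.find h1 := hj.symm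
      rw [h5]
      exact h2
  have hord : orderOf (l u) = p := orderOf_eq_prime hup hu
  -- multiplicativity modulo `p`
  have hval : ∀ α ∈ N, l (α u) = l u ^ a α := fun α hα => by
    have h1 := DFunLike.congr_fun (ha α hα) u
    rw [pw_apply, map_pow] at h1
    exact h1
  have hmul : ∀ α ∈ N, ∀ β ∈ N, a (α * β) ≡ a α * a β [MOD p] := by
    intro α hα β hβ
    have h1 : l u ^ a (α * β) = l u ^ (a α * a β) := by
      rw [← hval _ (N.mul_mem hα hβ), MulAut.mul_apply]
      have h2 := DFunLike.congr_fun (ha α hα) (β u)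
      rw [pw_apply, map_pow, hval β hβ, ← pow_mul, mul_comm] at h2
      exact h2
    rw [← hord]
    exact pow_eq_pow_iff_modEq.1 h1
  have hone : a 1 ≡ 1 [MOD p] := by
    have h1 : l u ^ a 1 = l u ^ 1 := by
      rw [← hval 1 N.one_mem, pow_one]
      rfl
    rw [← hord]
    exact pow_eq_pow_iff_modEq.1 h1
  let b : MulAut T → ℕ := fun α => a α ^ p ^ m
  have hb : ∀ α ∈ N, ∀ β ∈ N, b (α * β) ≡ b α * b β [MOD p ^ m] := by
    intro α hα β hβ
    have h1 := lift_modEq (hmul α hα β hβ) m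
    rwa [mul_pow] at h1
  have hba : ∀ α, b α ≡ a α [MOD p] := by
    intro α
    have h1 : ∀ i : ℕ, a α ^ p ^ i ≡ a α [MOD p] := by
      intro i
      induction i with
      | zero => rw [pow_zero, pow_one]
      | succ i ih =>
        rw [pow_succ, pow_mul]
        exact (ih.pow p).trans (ZMod.natCast_eq_natCast_iff _ _ _ |>.1 (by
          push_cast
          exact ZMod.pow_card _))
    exact h1 m
  set x : T := ∏ α : N, ((α : MulAut T) u) ^ b ((α : MulAut T)⁻¹) with hx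
  have hxβ : ∀ β ∈ N, β x = x ^ b β := by
    intro β hβ
    rw [hx, map_prod, ← Finset.prod_pow]
    refine Fintype.prod_equiv (Equiv.mulLeft (⟨β, hβ⟩ : N)) _ _ fun α => ?_
    change β (((α : MulAut T) u) ^ b ((α : MulAut T)⁻¹))
      = (((β * (α : MulAut T)) u) ^ b ((β * (α : MulAut T))⁻¹)) ^ b β
    rw [map_pow, MulAut.mul_apply, ← pow_mul]
    refine pow_modEq (q := p ^ m) (hTm _) ?_
    have h1 := hb _ (N.inv_mem (N.mul_mem hβ α.2)) β hβ
    have h2 : (β * (α : MulAut T))⁻¹ * β = (α : MulAut T)⁻¹ := by group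
    rwa [h2] at h1
  have hlx : l x ≠ 1 := by
    have h1 : l x = l u ^ Nat.card N := by
      rw [hx, map_prod, Nat.card_eq_fintype_card, ← card_univ, ← prod_const]
      refine prod_congr rfl fun α _ => ?_
      rw [map_pow, hval _ α.2, ← pow_mul]
      conv_rhs => rw [← pow_one (l u)]
      refine pow_modEq (q := p) hup ?_
      have h2 := (hmul _ α.2 _ (N.inv_mem α.2)).symm
      rw [mul_inv_cancel] at h2
      exact ((Nat.ModEq.rfl.mul (hba _)).trans h2).trans hone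
    rw [h1]
    intro h
    apply hN
    rw [← hord]
    exact orderOf_dvd_of_pow_eq_one h
  -- a power of order `p`
  have hx1 : x ≠ 1 := fun h => hlx (by rw [h, map_one])
  have h1 : ∃ j, x ^ p ^ j = 1 := ⟨m, hTm x⟩
  have h2 := Nat.find_spec h1
  have h3 : Nat.find h1 ≠ 0 := by
    intro h4
    rw [h4, pow_zero, pow_one] at h2
    exact hx1 h2
  obtain ⟨j, hj⟩ := Nat.exists_eq_succ_of_ne_zero h3
  refine ⟨x ^ p ^ j, ?_, Nat.find_min h1 (by rw [hj]; exact Nat.lt_succ_self j), fun β hβ =>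
    ⟨b β, ?_⟩⟩
  · rw [← pow_mul, ← pow_succ]
    have h5 : j + 1 = Nat.find h1 := hj.symm
    rw [h5]
    exact h2
  · rw [map_pow, hxβ β hβ, ← pow_mul, ← pow_mul, mul_comm]

/-- inverses modulo `p ^ m` -/
theorem exists_inv {p : ℕ} (hp : p.Prime) {a : ℕ} (ha : a.Coprime p) (m : ℕ) :
    ∃ c : ℕ, c.Coprime p ∧ a * c ≡ 1 [MOD p ^ m] := by
  refine ⟨a ^ (Nat.totient (p ^ m) - 1), Nat.Coprime.pow_left _ ha, ?_⟩
  rw [← pow_succ']
  have h1 : Nat.totient (p ^ m) - 1 + 1 = Nat.totient (p ^ m) :=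
    Nat.sub_add_cancel (Nat.totient_pos.2 (pow_pos hp.pos m))
  rw [h1]
  exact Nat.ModEq.pow_totient (Nat.Coprime.pow_right m ha)

theorem pw_modEq {q a c : ℕ} (hT : ∀ u : T, u ^ q = 1) (h : a ≡ c [MOD q]) (l : T →* Kˣ) :
    pw l a = pw l c := by
  ext u
  rw [pw_apply, pw_apply, pow_modEq (hT u) h]

theorem exists_exp {p : ℕ} (hp : p.Prime) (hT : IsPGroup p T) : ∃ m, ∀ u : T, u ^ p ^ m = 1 := by
  have hF : Fact p.Prime := ⟨hp⟩
  obtain ⟨m, hm⟩ := IsPGroup.iff_card.1 hT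
  exact ⟨m, fun u => by
    rw [← hm, Nat.card_eq_fintype_card]
    exact pow_card_eq_one⟩

/-- the elements of `E` which map `l` to its powers -/
def nrm {p : ℕ} (hp : p.Prime) (hT : IsPGroup p T) (E : Subgroup (MulAut T)) (l : T →* Kˣ) :
    Subgroup (MulAut T) where
  carrier := {α | α ∈ E ∧ ∃ a : ℕ, a.Coprime p ∧ dl l α = pw l a}
  mul_mem' := by
    rintro α β ⟨hα, a, ha, ha'⟩ ⟨hβ, b, hb, hb'⟩
    refine ⟨E.mul_mem hα hβ, b * a, Nat.Coprime.mul_left hb ha, ?_⟩
    rw [dl_mul, ha', dl_pw, hb', pw_mul]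
  one_mem' := ⟨E.one_mem, 1, Nat.coprime_one_left p, by rw [dl_one, pw_one]⟩
  inv_mem' := by
    rintro α ⟨hα, a, ha, ha'⟩
    obtain ⟨m, hTm⟩ := exists_exp hp hT
    obtain ⟨c, hc, hac⟩ := exists_inv hp ha m
    refine ⟨E.inv_mem hα, c, hc, ?_⟩
    have h1 : pw (dl l α⁻¹) a = l := by
      rw [← dl_pw, ← ha', ← dl_mul, mul_inv_cancel, dl_one]
    conv_rhs => rw [← h1]
    rw [← pw_mul, pw_modEq hTm hac, pw_one]

theorem nrm_le {p : ℕ} (hp : p.Prime) (hT : IsPGroup p T) {E : Subgroup (MulAut T)}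
    (hpE : ¬ p ∣ Nat.card E) {l : T →* Kˣ} (hl : l ≠ 1) {n : ℕ}
    (hline : ∀ x : T, x ^ p = 1 → x ≠ 1 →
      Nat.card {α : E // (α : MulAut T) x ∈ Subgroup.zpowers x} ≤ n) :
    Nat.card (nrm hp hT E l) ≤ n := by
  classical
  have : Finite (MulAut T) := finAut
  have hle : nrm hp hT E l ≤ E := fun α hα => hα.1
  have hex : ∀ α : MulAut T, ∃ a : ℕ, α ∈ nrm hp hT E l → dl l α = pw l a := by
    intro α
    by_cases h : α ∈ nrm hp hT E l
    · obtain ⟨-, a, -, ha⟩ := h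
      exact ⟨a, fun _ => ha⟩
    · exact ⟨0, fun h' => absurd h' h⟩
  choose a ha using hex
  obtain ⟨x, hxp, hx1, hx⟩ := exists_eigen hp hT
    (fun h => hpE (h.trans (Subgroup.card_dvd_of_le hle))) hl a ha
  refine le_trans ?_ (hline x hxp hx1)
  refine Nat.card_le_card_of_injective (fun α : nrm hp hT E l =>
    (⟨⟨α.1, hle α.2⟩, by
      obtain ⟨j, hj⟩ := hx α.1 α.2
      rw [hj]
      exact Subgroup.npow_mem_zpowers x j⟩ :
        {α : E // (α : MulAut T) x ∈ Subgroup.zpowers x})) ?_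
  intro α β h
  exact Subtype.ext (congrArg (fun z : {α : E // (α : MulAut T) x ∈ Subgroup.zpowers x} =>
    ((z : E) : MulAut T)) h)

open Classical in
/-- **the orbits are large** -/
theorem orb_big {p : ℕ} (hp : p.Prime) (hT : IsPGroup p T) {E : Subgroup (MulAut T)}
    (hpE : ¬ p ∣ Nat.card E) {m t : ℕ} (hTm : ∀ u : T, u ^ p ^ m = 1) (htp : t.Coprime p)
    (ht : ∀ n : ℕ, 0 < n → p ∣ t ^ n - 1 → p - 1 ≤ n)
    (hline : ∀ x : T, x ^ p = 1 → x ≠ 1 →
      Nat.card {α : E // (α : MulAut T) x ∈ Subgroup.zpowers x} + 1 < p)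
    {l : T →* Kˣ} (hl : l ≠ 1) : Nat.card E < (univ.filter (Orb E t l)).card := by
  have : Finite (MulAut T) := finAut
  have := Fintype.ofFinite E
  have hN : Nat.card (nrm hp hT E l) ≤ p - 2 := nrm_le hp hT hpE hl fun x hx hx1 => by
    have := hline x hx hx1
    omega
  have hN0 : 0 < Nat.card (nrm hp hT E l) := Nat.card_pos
  let f : E × Fin (p - 1) → (T →* Kˣ) := fun q => pw (dl l (q.1 : MulAut T)) (t ^ (q.2 : ℕ))
  have hfib : ∀ y ∈ (univ : Finset (E × Fin (p - 1))).image f,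
      ((univ : Finset (E × Fin (p - 1))).filter fun q => f q = y).card
        ≤ Nat.card (nrm hp hT E l) := by
    intro y hy
    obtain ⟨q₀, -, rfl⟩ := mem_image.1 hy
    have hmem : ∀ q : {q : E × Fin (p - 1) // f q = f q₀},
        ((q.1.1 : MulAut T) * (q₀.1 : MulAut T)⁻¹) ∈ nrm hp hT E l := by
      rintro ⟨q, hq⟩
      refine ⟨E.mul_mem q.1.2 (E.inv_mem q₀.1.2), ?_⟩
      obtain ⟨c, hc, htc⟩ := exists_inv hp (Nat.Coprime.pow_left (q.2 : ℕ) htp) m
      refine ⟨t ^ (q₀.2 : ℕ) * c, Nat.Coprime.mul_left (Nat.Coprime.pow_left _ htp) hc, ?_⟩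
      have h1 : dl l (q.1 : MulAut T) = pw (dl l (q₀.1 : MulAut T)) (t ^ (q₀.2 : ℕ) * c) := by
        have h2 : pw (dl l (q.1 : MulAut T)) (t ^ (q.2 : ℕ))
          = pw (dl l (q₀.1 : MulAut T)) (t ^ (q₀.2 : ℕ)) := hq
        rw [pw_mul, ← h2, ← pw_mul, pw_modEq hTm htc, pw_one]
      rw [dl_mul, h1, dl_pw, ← dl_mul, mul_inv_cancel, dl_one]
    rw [← Fintype.card_subtype, ← Nat.card_eq_fintype_card]
    refine Nat.card_le_card_of_injective (fun q : {q : E × Fin (p - 1) // f q = f q₀} =>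
      (⟨(q.1.1 : MulAut T) * (q₀.1 : MulAut T)⁻¹, hmem q⟩ : nrm hp hT E l)) ?_
    rintro ⟨⟨α, j⟩, hq⟩ ⟨⟨β, j'⟩, hq'⟩ h
    have h1 : (α : MulAut T) = β := mul_right_cancel (congrArg Subtype.val h)
    have h2 : α = β := Subtype.ext h1
    subst h2
    have h3 : pw (dl l (α : MulAut T)) (t ^ (j : ℕ)) = pw (dl l (α : MulAut T)) (t ^ (j' : ℕ)) :=
      hq.trans hq'.symm
    have h4 := pow_inj hp hTm htp ht (dl_ne l (α : MulAut T) hl) j.2 j'.2 h3
    have h5 : j = j' := Fin.ext h4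
    subst h5
    rfl
  have h1 := Finset.card_le_mul_card_image (s := (univ : Finset (E × Fin (p - 1)))) (f := f)
    (Nat.card (nrm hp hT E l)) hfib
  have h2 : ((univ : Finset (E × Fin (p - 1))).image f).card
      ≤ (univ.filter (Orb E t l)).card := by
    refine card_le_card fun y hy => ?_
    obtain ⟨q, -, rfl⟩ := mem_image.1 hy
    exact mem_filter.2 ⟨mem_univ _, (q.1 : MulAut T), q.1.2, (q.2 : ℕ), rfl⟩
  rw [card_univ, Fintype.card_prod, Fintype.card_fin, ← Nat.card_eq_fintype_card] at h1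
  have h3 : Nat.card E * (p - 1) ≤ (p - 2) * (univ.filter (Orb E t l)).card :=
    h1.trans (Nat.mul_le_mul hN h2)
  have hE0 : 0 < Nat.card E := Nat.card_pos
  by_contra hcon
  push Not at hcon
  have h4 : (p - 2) * (univ.filter (Orb E t l)).card ≤ (p - 2) * Nat.card E :=
    Nat.mul_le_mul_left _ hcon
  have h5 : p - 1 = (p - 2) + 1 := by omega
  rw [h5, mul_add, mul_one, mul_comm] at h3
  omega

/-- **the number of the invariant rows** -/
theorem rows_line {p : ℕ} (hp : p.Prime) (hT : IsPGroup p T) {E : Subgroup (MulAut T)}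
    (hpE : ¬ p ∣ Nat.card E) {m t : ℕ} (hTm : ∀ u : T, u ^ p ^ m = 1) (htp : t.Coprime p)
    (ht : ∀ n : ℕ, 0 < n → p ∣ t ^ n - 1 → p - 1 ≤ n)
    (hline : ∀ x : T, x ^ p = 1 → x ≠ 1 →
      Nat.card {α : E // (α : MulAut T) x ∈ Subgroup.zpowers x} + 1 < p)
    {I : Type*} [Fintype I] {ψ : I → T → K} (hv : ∀ i, ψ i ∈ vir T K)
    (hG : ∀ u v, GramR E ⊥ ψ u v) (S : Finset I) (hS : ∀ i ∈ S, ∀ u, ψ i (u ^ t) = ψ i u)
    (hne : ∀ i ∈ S, ∃ u, ψ i u ≠ 0) : S.card ≤ Nat.card E := by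
  classical
  have : Finite (MulAut T) := finAut
  have := Fintype.ofFinite E
  have hcE : Nat.card E = Fintype.card E := Nat.card_eq_fintype_card
  obtain ⟨M, hM⟩ := int_mlt hv
  have hgram : ∀ a c : T →* Kˣ, ∑ i, M i a * M i c = (cn E a c : ℤ) := by
    intro a c
    have h1 := gram_bot hG a c
    simp only [hM] at h1
    exact_mod_cast h1
  have hcop : (Nat.card T).Coprime t := by
    have hF : Fact p.Prime := ⟨hp⟩
    obtain ⟨n, hn⟩ := IsPGroup.iff_card.1 hT
    rw [hn]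
    exact Nat.Coprime.pow_left n htp.symm
  -- no nontrivial character in the invariant rows
  have hzero : ∀ i ∈ S, ∀ l : T →* Kˣ, l ≠ 1 → M i l = 0 := by
    intro i hi l hl
    have hMS : ∀ j ∈ S, ∀ l', Orb E t l l' → M j l' = M j l := by
      rintro j hj _ ⟨α, hα, n, rfl⟩
      have h4 := mlt_pow_pow hcop (hS j hj) (dl l α) n
      rw [hM, hM] at h4
      have h5 : M j (pw (dl l α) (t ^ n)) = M j (dl l α) := by exact_mod_cast h4
      rw [h5, M_dl hgram hα]
    set O : Finset (T →* Kˣ) := univ.filter (Orb E t l) with hO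
    have hmO : ∀ {l'}, l' ∈ O ↔ Orb E t l l' := fun {l'} => by
      rw [hO, mem_filter]
      exact ⟨fun h => h.2, fun h => ⟨mem_univ _, h⟩⟩
    set Y : I → ℤ := fun j => ∑ μ ∈ O, M j μ with hY
    have hYl : ∀ l', ∑ j, Y j * M j l' = if Orb E t l l' then (Fintype.card E : ℤ) else 0 := by
      intro l'
      have h1 : ∀ j, Y j * M j l' = ∑ μ ∈ O, M j μ * M j l' := fun j => by rw [hY, sum_mul]
      rw [sum_congr rfl fun j _ => h1 j, sum_comm, sum_congr rfl fun μ _ => hgram μ l']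
      have h2 := sum_cn (E := E) (t := t) (l := l) (l' := l')
      rw [← Nat.cast_sum, h2]
      split_ifs <;> simp
    have hYY : ∑ j, Y j ^ 2 = (O.card : ℤ) * Fintype.card E := by
      have h1 : ∀ j, Y j ^ 2 = ∑ μ ∈ O, Y j * M j μ := fun j => by
        rw [sq, ← mul_sum]
      rw [sum_congr rfl fun j _ => h1 j, sum_comm, sum_congr rfl fun μ hμ => by
        rw [hYl μ, if_pos (hmO.1 hμ)]]
      rw [sum_const, nsmul_eq_mul]
    have hYi : Y i = (O.card : ℤ) * M i l := by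
      rw [hY]
      simp only
      rw [sum_congr rfl fun μ hμ => hMS i hi μ (hmO.1 hμ), sum_const, nsmul_eq_mul]
    have hbig : Nat.card E < O.card := orb_big hp hT hpE hTm htp ht hline hl
    have h1 : Y i ^ 2 ≤ (O.card : ℤ) * Fintype.card E := by
      rw [← hYY]
      exact single_le_sum (f := fun j => Y j ^ 2) (fun j _ => sq_nonneg _) (mem_univ i)
    rw [hYi] at h1
    by_contra hM0
    have h2 : 1 ≤ M i l ^ 2 := by
      have := sq_pos_of_ne_zero hM0
      omega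
    have h3 : (Fintype.card E : ℤ) < O.card := by
      rw [← hcE]
      exact_mod_cast hbig
    have h4 : (0 : ℤ) ≤ Fintype.card E := by positivity
    have h5 : (0 : ℤ) < O.card := lt_of_le_of_lt h4 h3
    have h6 := mul_le_mul_of_nonneg_left h2 (sq_nonneg (O.card : ℤ))
    have h7 := mul_lt_mul_of_pos_left h3 h5
    rw [mul_one, ← mul_pow, sq] at h6
    exact absurd (h6.trans h1) (not_le.2 h7)
  have hone : ∀ i ∈ S, 1 ≤ M i 1 * M i 1 := by
    intro i hi
    obtain ⟨u, hu⟩ := hne i hi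
    have h1 : M i 1 ≠ 0 := by
      intro h2
      apply hu
      rw [eq_sum_mlt (ψ i) u]
      refine sum_eq_zero fun l _ => ?_
      rw [hM]
      by_cases hl : l = 1
      · rw [hl, h2, Int.cast_zero, zero_mul]
      · rw [hzero i hi l hl, Int.cast_zero, zero_mul]
    have h2 : 0 < M i 1 * M i 1 := mul_self_pos.2 h1
    omega
  have h1 : ((S.card : ℕ) : ℤ) ≤ (Nat.card E : ℤ) := by
    calc ((S.card : ℕ) : ℤ) = ∑ _i ∈ S, (1 : ℤ) := by simp
      _ ≤ ∑ i ∈ S, M i 1 * M i 1 := sum_le_sum hone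
      _ ≤ ∑ i, M i 1 * M i 1 := sum_le_sum_of_subset_of_nonneg (subset_univ S)
        fun j _ _ => mul_self_nonneg _
      _ = (cn E 1 1 : ℤ) := hgram 1 1
      _ ≤ (Nat.card E : ℤ) := by
        rw [hcE]
        exact_mod_cast card_le_univ _
  exact_mod_cast h1

end

end LhAux

end Pool.Agent.Lib.P0c8ca5.Ku
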