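import Mathlib
import Pool.Agent.Lib.P0c8ca5Ku.Lh
import Pool.Agent.Lib.P0c8ca5Ex.UG
import Pool.Agent.Lib.P0c8ca5Ex.V1e

/-!
# Li: abelian defect groups of any rank with small normalizers of lines

`E` is faithful on the `p ^ n`-th powers of `D`, `n ≥ 1`, `|E| < p ^ (n + 1)`, and the normalizer in
`E` of each subgroup of order `p` of `D` has order less than `p - 1`. Then `l(b)` is the number of
weights and at most `|E|`. There is no condition on the structure of the stabilizers.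
* `no_gal_gen`: no pair `(v, c)` with `v ≠ 1` is conjugate to `(v ^ t, c)`.
* `k2_line`: the theorem.
-/

set_option autoImplicit false
set_option linter.unusedSectionVars false

namespace Pool.Agent.Lib.P0c8ca5.Ku

open MonoidAlgebra Kq Kk Ex Ex.ZMAux Ex.YZx Ex.ZFx Ex.ZFc Ex.ZQx Ex.YLx LhAux

universe u v

section
variable {p : ℕ} [Fact p.Prime] {k : Type v} [Field k] [IsAlgClosed k] [CharP k p]
  {A : Type u} [Group A] [Finite A] {b f i : MonoidAlgebra k A} {D : Subgroup A}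

theorem no_gal_gen (h : Src p b D f i) (hpE : ¬ p ∣ eN D f) {t : ℕ}
    (hno : ∀ u ∈ D, u ≠ 1 → ∀ w ∈ St D f, u ^ t * w ≠ w * u)
    {v g : A} {M : ℕ} (hv : v ^ p ^ M = 1) (hv1 : v ^ t ≠ v) {c : MonoidAlgebra k A}
    (hc : IsBlock (C1 v) c) (hbc : resS (C1 v : Set A) b * c = c) (hg : v ^ t * g = g * v) :
    cj g c ≠ c := by
  intro hgc
  have hp : p.Prime := Fact.out
  have hQ : IsPGroup p (Subgroup.zpowers v) := by
    intro x
    obtain ⟨n, hn⟩ := x.2
    refine ⟨M, ?_⟩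
    ext
    rw [Subgroup.coe_pow, ← hn, Subgroup.coe_one]
    change (v ^ n) ^ p ^ M = 1
    rw [← zpow_natCast, ← zpow_mul, mul_comm, zpow_mul, zpow_natCast, hv, one_zpow]
  have := Fintype.ofFinite A
  obtain ⟨x, R, hR, hQR, d, hd, hcd⟩ := lb_all h hpE hQ (c := c)
    (by rw [CD_zpowers]; exact hc) (by rw [CD_zpowers]; exact hbc)
  set u : A := x⁻¹ * v * x with hu
  have huR : u ∈ R := by
    have h1 : v ∈ cg x R := by
      rw [← hQR]
      exact Subgroup.mem_zpowers v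
    exact mem_cg.1 h1
  have hvx : v * x = x * u := by rw [hu]; group
  have hRu : R = Subgroup.zpowers u := by
    have h1 : cg x (Subgroup.zpowers u) = Subgroup.zpowers v := cg_zp hvx
    rw [hQR] at h1
    have h2 : cg x⁻¹ (cg x (Subgroup.zpowers u)) = cg x⁻¹ (cg x R) := by rw [h1]
    rw [cg_cg, cg_cg, inv_mul_cancel, cg_one, cg_one] at h2
    exact h2.symm
  subst hRu
  have huD : u ∈ D := hR (Subgroup.mem_zpowers u)
  have hdH : LbH (C1 u) i d := hd.toH (CD_zpowers u)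
  have hut : u ^ t = x⁻¹ * v ^ t * x := by
    rw [hu]
    have h2 := conj_pow (a := x⁻¹) (b := v) (i := t)
    rw [inv_inv] at h2
    exact h2
  have hy : u ^ t * (x⁻¹ * g * x) = (x⁻¹ * g * x) * u := by
    calc u ^ t * (x⁻¹ * g * x) = x⁻¹ * (v ^ t * g) * x := by rw [hut]; group
      _ = x⁻¹ * (g * v) * x := by rw [hg]
      _ = _ := by rw [hu]; group
  have hyd : cj (x⁻¹ * g * x) d = d := by
    rw [hcd, cj_cj] at hgc
    rw [mul_assoc, ← cj_cj, hgc, cj_cj, inv_mul_cancel, cj_one_left]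
  have hC := C1_conj_pow hy
  have hutD : u ^ t ∈ D := D.pow_mem huD t
  have hdt : LbH (C1 (u ^ t)) i d := by
    rw [hC]
    exact hdH
  obtain ⟨e, he, hue⟩ := fus_elt h hutD huD hy hdt hdH hyd
  refine hno u huD (fun h1 => hv1 ?_) e he hue
  have h2 : v = 1 := by
    have h3 : v = x * u * x⁻¹ := by rw [hu]; group
    rw [h3, h1]
    group
  rw [h2, one_pow]

end

namespace LhAux

section
variable {T : Type*} [CommGroup T] [Fintype T]

/-- no element `≠ 1` is mapped to its `t`-th power -/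
theorem no_t {p : ℕ} (hp : p.Prime) {E : Subgroup (MulAut T)} {m t : ℕ}
    (hTm : ∀ u : T, u ^ p ^ m = 1) (htp : t.Coprime p)
    (ht : ∀ n : ℕ, 0 < n → p ∣ t ^ n - 1 → p - 1 ≤ n)
    (hline : ∀ x : T, x ^ p = 1 → x ≠ 1 →
      Nat.card {α : E // (α : MulAut T) x ∈ Subgroup.zpowers x} + 1 < p)
    {u : T} (hu : u ≠ 1) {α : MulAut T} (hα : α ∈ E) : α u ≠ u ^ t := by
  classical
  intro hαu
  have : Finite (MulAut T) := finAut
  -- a power of order `p`
  have h1 : ∃ j, u ^ p ^ j = 1 := ⟨m, hTm u⟩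
  have h2 := Nat.find_spec h1
  have h3 : Nat.find h1 ≠ 0 := by
    intro h4
    rw [h4, pow_zero, pow_one] at h2
    exact hu h2
  obtain ⟨j, hj⟩ := Nat.exists_eq_succ_of_ne_zero h3
  set x : T := u ^ p ^ j with hx
  have hx1 : x ≠ 1 := Nat.find_min h1 (by rw [hj]; exact Nat.lt_succ_self j)
  have hxp : x ^ p = 1 := by
    rw [hx, ← pow_mul, ← pow_succ]
    have h5 : j + 1 = Nat.find h1 := hj.symm
    rw [h5]
    exact h2
  have hαx : α x = x ^ t := by
    rw [hx, map_pow, hαu, ← pow_mul, ← pow_mul, mul_comm]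
  have hit : ∀ j : ℕ, (α ^ j) x = x ^ t ^ j := by
    intro j
    induction j with
    | zero => rw [pow_zero, pow_zero, pow_one]; rfl
    | succ j ih =>
      rw [pow_succ', MulAut.mul_apply, ih, map_pow, hαx, ← pow_mul, pow_succ, mul_comm]
  have h4 := hline x hxp hx1
  have h5 : Nat.card (Fin (p - 1)) ≤ Nat.card {α : E // (α : MulAut T) x ∈ Subgroup.zpowers x} := by
    refine Nat.card_le_card_of_injective (fun j : Fin (p - 1) =>
      (⟨⟨α ^ (j : ℕ), E.pow_mem hα _⟩, by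
        change (α ^ (j : ℕ)) x ∈ _
        rw [hit]
        exact Subgroup.npow_mem_zpowers _ _⟩ :
          {α : E // (α : MulAut T) x ∈ Subgroup.zpowers x})) ?_
    intro j j' hjj
    have h6 : α ^ (j : ℕ) = α ^ (j' : ℕ) :=
      congrArg (fun z : {α : E // (α : MulAut T) x ∈ Subgroup.zpowers x} =>
        ((z : E) : MulAut T)) hjj
    refine Fin.ext (V1dx.elt_inj hp hTm htp ht hx1 j.2 j'.2 ?_)
    rw [← hit, ← hit, h6]
  rw [Nat.card_eq_fintype_card, Fintype.card_fin] at h5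
  omega

end

end LhAux

section
variable {p : ℕ} [Fact p.Prime] {k : Type v} [Field k] [IsAlgClosed k] [CharP k p]
  {A : Type u} [Group A] [Fintype A] {T : Type*} [CommGroup T] [Fintype T]
  {φ : T →* A} {b f i : MonoidAlgebra k A} {D : Subgroup A}

theorem l_le_line_src (hp2 : p ≠ 2) (h : Src p b D f i)
    (hφ : Function.Injective φ) (hr : ∀ x, x ∈ D ↔ ∃ t, φ t = x) (hpE : ¬ p ∣ eN D f)
    (hnt : Nontrivial T) {n : ℕ} (hn : 1 ≤ n) (hF : Ku.Faith p n D f)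
    (hE : eN D f < p ^ (n + 1))
    (hline : ∀ x : T, x ^ p = 1 → x ≠ 1 →
      Nat.card {α : EG φ D f // (α : MulAut T) x ∈ Subgroup.zpowers x} + 1 < p) :
    Nat.card (Quotient (irrInvSetoid (⊤ : Subgroup A) ⊤ b)) ≤ eN D f := by
  classical
  have hp : p.Prime := Fact.out
  have hb := h.root.blk
  obtain ⟨M, hM⟩ := pow_one_of h
  have hT : IsPGroup p T := fun u => ⟨M, hφ (by
    rw [map_pow, map_one]
    exact hM (φ u) ((hr _).2 ⟨u, rfl⟩))⟩
  have hTm : ∀ u : T, u ^ p ^ Nat.card A = 1 := by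
    intro u
    apply hφ
    rw [map_pow, map_one]
    exact pel_card (hM (φ u) ((hr _).2 ⟨u, rfl⟩))
  have hcard : Nat.card (EG φ D f) = eN D f := card_EG hφ hr
  have hpE' : ¬ p ∣ Nat.card (EG φ D f) := by rwa [hcard]
  have hf := faith_T hφ hr hF
  obtain ⟨B, hB⟩ := exists_cenL (p := p) hb.idem
    (fun g => invBy_iff_cj.1 hb.invBy g (Subgroup.mem_top g))
  obtain ⟨G, ψ, hS, hψ⟩ := rows_e hp2 h hφ hr hpE hnt hn hF hE hB
  obtain ⟨u₀, hu₀, hst₀⟩ := exists_reg_of (EG φ D f) (q := p ^ (n + 1))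
      (fun φ hφE hφ1 => range_ge hp hT (hf φ hφE hφ1)) (by rw [hcard]; exact hE.le)
      Finite.one_lt_card
  obtain ⟨t, ht1, ht2, ht3⟩ := exists_gen hp hp2 (Nat.card A)
  obtain ⟨s, hs⟩ := exists_galB (p := p) (k := k) B ht1
  have hK : ∀ χ : Ir (KW p k) A, Ker φ ⊥ χ := fun χ z hz x => by
    rw [Subgroup.mem_bot.1 hz, map_one, one_mul]
  set S : Finset (IR φ ⊥ B) :=
    Finset.univ.filter fun χ => s ⟨χ.1, χ.2.2⟩ = ⟨χ.1, χ.2.2⟩ with hSd
  have hSc : Nat.card {χ : IrB B // s χ = χ} = S.card := by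
    rw [hSd, ← Fintype.card_subtype, ← Nat.card_eq_fintype_card]
    exact Nat.card_congr ⟨fun χ => ⟨⟨χ.1.1, hK _, χ.1.2⟩, χ.2⟩, fun χ => ⟨⟨χ.1.1, χ.1.2.2⟩, χ.2⟩,
      fun _ => rfl, fun _ => rfl⟩
  have hno : ∀ u ∈ D, u ≠ 1 → ∀ w ∈ St D f, u ^ t * w ≠ w * u := by
    intro u hu hu1 w hw heq
    obtain ⟨x, rfl⟩ := (hr u).1 hu
    obtain ⟨α, hα, hα'⟩ := exists_EG (f := f) hφ hr hw
    refine no_t (u := x) hp hTm ht1 ht3 hline (fun h1 => hu1 (by rw [h1, map_one])) hα (hφ ?_)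
    rw [hα', map_pow, ← heq, mul_inv_cancel_right]
  have h1 := fix_ge' hb hB s ht1 hs fun v g M' c' hv hvt hc' hbc' hg =>
    no_gal_gen h hpE hno hv hvt hc' hbc' hg
  rw [hSc] at h1
  refine h1.trans ?_
  rw [← hcard]
  refine rows_line hp hT hpE' hTm ht1 ht3 hline (fun χ => hψ.vir χ) (fun u v => hψ.gram u v) S
    (fun χ hχ u => ?_) fun χ _ => ?_
  · by_cases hu : u = 1
    · rw [hu, one_pow]
    have hχ' : s ⟨χ.1, χ.2.2⟩ = ⟨χ.1, χ.2.2⟩ := (Finset.mem_filter.1 hχ).2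
    have hz := zpowers_pow ht1 (hTm u)
    have hu' : u ^ t ≠ 1 := by
      intro h1
      rw [h1, Subgroup.zpowers_one_eq_bot] at hz
      exact hu (Subgroup.zpowers_eq_bot.1 hz.symm)
    have hlt : (⊥ : Subgroup T) < ⊥ ⊔ Subgroup.zpowers u := by
      rw [bot_sup_eq, bot_lt_iff_ne_bot]
      exact fun h1 => hu (Subgroup.zpowers_eq_bot.1 h1)
    have h2 := gal_row (t := t) (χ := χ.1) (χ' := χ.1) (u := u) (hS.ok _ hlt)
      (hM _ ((hr _).2 ⟨u, rfl⟩)) hz (fun F hF hF' => by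
        have h3 := hs ⟨χ.1, χ.2.2⟩ (φ u) M (hM _ ((hr _).2 ⟨u, rfl⟩)) F hF hF'
        rwa [hχ'] at h3)
    rw [hψ.out χ _ (fun h3 => hu' (Subgroup.mem_bot.1 h3)),
      hψ.out χ _ (fun h3 => hu (Subgroup.mem_bot.1 h3))]
    exact h2.symm
  · refine ⟨u₀, ?_⟩
    have h1 : u₀ ∉ (⊥ : Subgroup T) := fun h2 => hu₀ (Subgroup.mem_bot.1 h2)
    rw [hψ.out χ _ h1]
    exact rwv_ne hp2 hS hpE hB χ.2.2 h1 ((st_EG hφ hr u₀).1 hst₀)

/-- the normalizers of the lines in `EG` -/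
theorem card_line (hφ : Function.Injective φ) (hr : ∀ x, x ∈ D ↔ ∃ t, φ t = x) (x : T) :
    Nat.card {α : EG φ D f // (α : MulAut T) x ∈ Subgroup.zpowers x}
      ≤ (CD D).relIndex (St D f ⊓ Subgroup.normalizer (Subgroup.zpowers (φ x) : Set A)) := by
  classical
  set S := St D f ⊓ Subgroup.normalizer (Subgroup.zpowers (φ x) : Set A) with hS
  have hex : ∀ α : {α : EG φ D f // (α : MulAut T) x ∈ Subgroup.zpowers x},
      ∃ g : ↥S, ∀ t, φ ((α.1 : MulAut T) t) = (g : A) * φ t * (g : A)⁻¹ := by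
    rintro ⟨⟨α, g, hg, hgα⟩, hα⟩
    refine ⟨⟨g, hg, ?_⟩, hgα⟩
    have h1 : g * φ x * g⁻¹ ∈ Subgroup.zpowers (φ x) := by
      rw [← hgα x]
      obtain ⟨j, hj⟩ := Subgroup.mem_zpowers_iff.1 hα
      change φ (α x) ∈ _
      have hj' : x ^ j = α x := hj
      rw [← hj', map_zpow]
      exact Subgroup.zpow_mem_zpowers _ _
    have h2 : (Subgroup.zpowers (φ x)).map (MulAut.conj g).toMonoidHom
        ≤ Subgroup.zpowers (φ x) := by
      rw [MonoidHom.map_zpowers, Subgroup.zpowers_le]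
      exact h1
    have h3 : (Subgroup.zpowers (φ x)).map (MulAut.conj g).toMonoidHom
        = Subgroup.zpowers (φ x) := by
      apply Subgroup.eq_of_le_of_card_ge h2
      exact (Subgroup.card_map_of_injective (MulAut.conj g).injective).ge
    refine Subgroup.mem_normalizer_iff.2 fun y => ?_
    constructor
    · intro hy
      have h4 : g * y * g⁻¹ ∈ (Subgroup.zpowers (φ x)).map (MulAut.conj g).toMonoidHom :=
        ⟨y, hy, rfl⟩
      exact h2 h4
    · intro hy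
      have hy' : g * y * g⁻¹ ∈ Subgroup.zpowers (φ x) := hy
      rw [← h3] at hy'
      obtain ⟨z, hz, hzy⟩ := hy'
      have h5 : g * z * g⁻¹ = g * y * g⁻¹ := hzy
      have h6 : z = y := mul_left_cancel (mul_right_cancel h5)
      rw [← h6]
      exact hz
  choose F hF using hex
  rw [Subgroup.relIndex, Subgroup.index]
  refine Nat.card_le_card_of_injective (fun α => (QuotientGroup.mk (F α) :
    ↥S ⧸ (CD D).subgroupOf S)) ?_
  intro α β hαβ
  have h1 : (F α)⁻¹ * F β ∈ (CD D).subgroupOf S := QuotientGroup.eq.1 hαβ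
  rw [Subgroup.mem_subgroupOf, Subgroup.mem_centralizer_iff] at h1
  refine Subtype.ext (Subtype.ext (MulEquiv.ext fun t => hφ ?_))
  have h2 := h1 (φ t) ((hr _).2 ⟨t, rfl⟩)
  rw [hF α t, hF β t]
  have h3 : φ t * ((F α : A)⁻¹ * F β) = (F α : A)⁻¹ * F β * φ t := h2
  have h4 : (F α : A) * (φ t * ((F α : A)⁻¹ * F β)) = F β * φ t := by
    rw [h3]
    group
  calc (F α : A) * φ t * (F α : A)⁻¹
      = (F α : A) * (φ t * ((F α : A)⁻¹ * F β)) * (F β : A)⁻¹ := by group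
    _ = F β * φ t * (F β : A)⁻¹ := by rw [h4]

end

section
variable {p : ℕ} [Fact p.Prime] {k : Type v} [Field k] [IsAlgClosed k] [CharP k p]
  {A : Type u} [Group A] [Fintype A] {b f i : MonoidAlgebra k A} {D : Subgroup A}

/-- **small normalizers of lines**: `|E| < p ^ (n + 1)`, `E` faithful on the `p ^ n`-th powers,
`n ≥ 1`, `|N_E(L)| < p - 1` for the subgroups `L` of order `p` -/
theorem k2_line (hp2 : p ≠ 2) (h : Root p b D f) {n : ℕ} (hn : 1 ≤ n) (hF : Ku.Faith p n D f)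
    (hE : eN D f < p ^ (n + 1))
    (hline : ∀ x ∈ D, x ^ p = 1 → x ≠ 1 →
      (CD D).relIndex (St D f ⊓ Subgroup.normalizer (Subgroup.zpowers x : Set A)) + 1 < p) :
    gap p (⊤ : Subgroup A) ⊤ b = 0 ∧
      Nat.card (Quotient (irrInvSetoid (⊤ : Subgroup A) ⊤ b)) ≤ eN D f := by
  have hp : p.Prime := Fact.out
  have hpE : ¬ p ∣ eN D f := Ku.ndvd h
  suffices hl : Nat.card (Quotient (irrInvSetoid (⊤ : Subgroup A) ⊤ b)) ≤ eN D f from
    l_eq_of hp2 h hF (hl.trans hE.le) hE.le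
  by_cases hD : D = ⊥
  · refine l_le hp2 h fun g _ u hu hu1 _ => ?_
    rw [hD, Subgroup.mem_bot] at hu
    exact absurd hu hu1
  obtain ⟨i, hi⟩ := exists_src h
  let _ : CommGroup ↥D := cgrp D h.com
  let _ : Fintype ↥D := Fintype.ofFinite _
  obtain ⟨x, hx, hx1⟩ := (Subgroup.bot_or_exists_ne_one D).resolve_left hD
  have hnt : Nontrivial ↥D := ⟨⟨⟨x, hx⟩, 1, fun h1 => hx1 (congrArg Subtype.val h1)⟩⟩
  have hφ : Function.Injective (D.subtype : ↥D →* A) := Subtype.val_injective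
  have hrD : ∀ x, x ∈ D ↔ ∃ t, (D.subtype : ↥D →* A) t = x :=
    fun x => ⟨fun hx => ⟨⟨x, hx⟩, rfl⟩, by rintro ⟨t, rfl⟩; exact t.2⟩
  refine l_le_line_src hp2 hi hφ hrD hpE hnt hn hF hE fun y hy hy1 => ?_
  refine lt_of_le_of_lt (Nat.add_le_add_right (card_line hφ hrD y) 1) ?_
  exact hline y y.2 (congrArg Subtype.val hy) fun h1 => hy1 (Subtype.ext h1)

end

end Pool.Agent.Lib.P0c8ca5.Ku
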