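import Mathlib
import Pool.Agent.Lib.P0c8ca5Ku.KT
import Pool.Agent.Lib.P0c8ca5Ex.ZFc
import Pool.Agent.Lib.P0c8ca5Ex.ZN

/-!
# KV: blocks with abelian defect groups of rank at most `r` and small stabilizers

`large_stab`: the weight conjecture if the inertial quotient `E` acts faithfully on the
`p ^ n`-th powers of the defect group, `|E| ≤ p ^ n`, the stabilizers in `E` of the elements `≠ 1`
have order at most `p ^ j` and `(r - 2) * j + 3 ≤ n`.
-/

set_option autoImplicit false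
set_option linter.unusedSectionVars false

namespace Pool.Agent.Lib.P0c8ca5.Ku

open Finset

/-- the numerical estimate without the identity -/
theorem part_le {p r i e : ℕ} (hp3 : 3 ≤ p) (hi1 : 1 ≤ i) (he1 : 1 ≤ e)
    (h : (r = 3 ∧ i ≤ 3) ∨ 4 ≤ r) :
    ((p : ℚ) ^ r + 2 * (p : ℚ) ^ i * ((e : ℚ) * (p : ℚ) ^ (r - 1))
      + ∑ a ∈ Icc 2 i, 3 / 2 * (p : ℚ) ^ i
        * ((e : ℚ) * (p : ℚ) ^ ((r - 1) * a)) / (p : ℚ) ^ (2 * (a - 1)))
      ≤ 21 / 4 * ((e : ℚ) * (p : ℚ) ^ ((r - 2) * i + 2)) := by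
  have hp0 : (3 : ℚ) ≤ p := by exact_mod_cast hp3
  have he0 : (1 : ℚ) ≤ e := by exact_mod_cast he1
  have hpp : (0 : ℚ) < p := by linarith
  rcases h with ⟨rfl, hi3⟩ | h4
  · -- rank three
    have h2 : (p : ℚ) ^ 3 ≤ e * (p : ℚ) ^ 3 := le_mul_of_one_le_left (by positivity) he0
    have b3 : (0 : ℚ) < e * (p : ℚ) ^ 3 := by positivity
    have b4 : 3 * (e * (p : ℚ) ^ 3) ≤ e * (p : ℚ) ^ 4 := by
      have : e * (p : ℚ) ^ 4 = p * (e * (p : ℚ) ^ 3) := by ring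
      rw [this]
      exact mul_le_mul_of_nonneg_right hp0 b3.le
    have b5 : 3 * (e * (p : ℚ) ^ 4) ≤ e * (p : ℚ) ^ 5 := by
      have : e * (p : ℚ) ^ 5 = p * (e * (p : ℚ) ^ 4) := by ring
      rw [this]
      exact mul_le_mul_of_nonneg_right hp0 (by positivity)
    interval_cases i
    · rw [Icc_eq_empty (by norm_num), sum_empty]
      norm_num
      have e1 : 2 * (p : ℚ) * (e * (p : ℚ) ^ 2) = 2 * (e * (p : ℚ) ^ 3) := by ring
      rw [e1]
      linarith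
    · rw [Icc_self, sum_singleton]
      norm_num
      have e2 : 3 / 2 * (p : ℚ) ^ 2 * (e * (p : ℚ) ^ 4) / (p : ℚ) ^ 2
          = 3 / 2 * (e * (p : ℚ) ^ 4) := by
        field_simp
      have e1 : 2 * (p : ℚ) ^ 2 * (e * (p : ℚ) ^ 2) = 2 * (e * (p : ℚ) ^ 4) := by ring
      rw [e2, e1]
      linarith
    · have hI : Icc 2 3 = ({2, 3} : Finset ℕ) := by decide
      rw [hI, sum_pair (by norm_num)]
      norm_num
      have e2 : 3 / 2 * (p : ℚ) ^ 3 * (e * (p : ℚ) ^ 4) / (p : ℚ) ^ 2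
          = 3 / 2 * (e * (p : ℚ) ^ 5) := by
        field_simp
      have e3 : 3 / 2 * (p : ℚ) ^ 3 * (e * (p : ℚ) ^ 6) / (p : ℚ) ^ 4
          = 3 / 2 * (e * (p : ℚ) ^ 5) := by
        field_simp
      have e1 : 2 * (p : ℚ) ^ 3 * (e * (p : ℚ) ^ 2) = 2 * (e * (p : ℚ) ^ 5) := by ring
      rw [e2, e3, e1]
      linarith
  · -- rank at least four
    set N := (r - 2) * i + 2 with hN
    have hNj : (r - 2) * i = (r - 3) * i + i := by
      have : r - 2 = (r - 3) + 1 := by omega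
      rw [this]
      ring
    have hjle : (r - 3) * 1 ≤ (r - 3) * i := Nat.mul_le_mul_left _ hi1
    have hsum : ∑ a ∈ Icc 2 i, 3 / 2 * (p : ℚ) ^ i * ((e : ℚ) * (p : ℚ) ^ ((r - 1) * a))
        / (p : ℚ) ^ (2 * (a - 1)) ≤ 9 / 4 * (e * (p : ℚ) ^ N) := by
      have h1 : ∀ a ∈ Icc 2 i, 3 / 2 * (p : ℚ) ^ i * ((e : ℚ) * (p : ℚ) ^ ((r - 1) * a))
          / (p : ℚ) ^ (2 * (a - 1))
          = 3 / 2 * (p : ℚ) ^ i * e * (p : ℚ) ^ 2 * ((p : ℚ) ^ (r - 3)) ^ a := by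
        intro a ha
        have ha1 := (mem_Icc.1 ha).1
        rw [div_eq_iff (by positivity)]
        have h2 : (r - 1) * a = 2 + (r - 3) * a + 2 * (a - 1) := by
          have h3 : r - 1 = (r - 3) + 2 := by omega
          rw [h3, add_mul]
          omega
        rw [h2, pow_add, pow_add, ← pow_mul]
        ring
      rw [sum_congr rfl h1, ← mul_sum]
      have h3 : (3 : ℚ) ≤ (p : ℚ) ^ (r - 3) := by
        calc (3 : ℚ) ≤ p := hp0
          _ = (p : ℚ) ^ 1 := (pow_one _).symm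
          _ ≤ (p : ℚ) ^ (r - 3) := pow_le_pow_right₀ (by linarith) (by omega)
      refine (mul_le_mul_of_nonneg_left (geo h3 i) (by positivity)).trans (le_of_eq ?_)
      have h5 : (p : ℚ) ^ N = (p : ℚ) ^ i * (p : ℚ) ^ 2 * ((p : ℚ) ^ (r - 3)) ^ i := by
        rw [← pow_mul, ← pow_add, ← pow_add]
        congr 1
        rw [hN, hNj]
        ring
      rw [h5]
      ring
    have hmono : ∀ {m : ℕ}, m ≤ N → (p : ℚ) ^ m ≤ (p : ℚ) ^ N :=
      fun {m} hm => pow_le_pow_right₀ (by linarith) hm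
    have h2 : (p : ℚ) ^ r ≤ e * (p : ℚ) ^ N :=
      (hmono (by omega)).trans (le_mul_of_one_le_left (by positivity) he0)
    have h3 : 2 * (p : ℚ) ^ i * ((e : ℚ) * (p : ℚ) ^ (r - 1)) ≤ 2 * (e * (p : ℚ) ^ N) := by
      have h5 : 2 * (p : ℚ) ^ i * ((e : ℚ) * (p : ℚ) ^ (r - 1))
          = 2 * (e * (p : ℚ) ^ (i + (r - 1))) := by
        rw [pow_add]
        ring
      rw [h5]
      exact mul_le_mul_of_nonneg_left (mul_le_mul_of_nonneg_left (hmono (by omega))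
        (by linarith)) (by norm_num)
    linarith

open Classical in
theorem tsum_lt_st {Λ : Type*} [CommGroup Λ] [Fintype Λ] {p : ℕ} (hp : p.Prime) (hp2 : p ≠ 2)
    (hΛ : IsPGroup p Λ) (F : Subgroup (MulAut Λ))
    (hpF : ¬ p ∣ Nat.card F) {r : ℕ} (hr : Nat.card {x : Λ // x ^ p = 1} ≤ p ^ r)
    {i m : ℕ} (hi1 : 1 ≤ i) (hst : ∀ l : Λ, l ≠ 1 → stF F l < p ^ i)
    (hr3 : (r = 3 ∧ i ≤ 3) ∨ 4 ≤ r) (hm : (r - 2) * i + 3 ≤ m) (hFm : Nat.card F ≤ p ^ m) :
    ∑ l ∈ univ.filter (fun l : Λ => ta p l ≤ stF F l), ((stF F l : ℚ) / (ta p l : ℚ)) ^ 2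
      < (Nat.card F : ℚ) * (p : ℚ) ^ (m + 1) := by
  have := finF F
  have hp3 : 3 ≤ p := by
    have := hp.two_le
    omega
  have hp0 : (3 : ℚ) ≤ p := by exact_mod_cast hp3
  have hF1 : 1 ≤ Nat.card F := Nat.card_pos
  have he0 : (1 : ℚ) ≤ Nat.card F := by exact_mod_cast hF1
  have h1 := tsum_le hp hp2 hΛ F hpF hr hst
  have h2 := part_le hp3 hi1 hF1 hr3
  have h3 : (Nat.card F : ℚ) ^ 2 ≤ Nat.card F * (p : ℚ) ^ m := by
    have h4 : (Nat.card F : ℚ) ≤ (p : ℚ) ^ m := by exact_mod_cast hFm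
    rw [sq]
    exact mul_le_mul_of_nonneg_left h4 (by linarith)
  have h4 : 3 * ((Nat.card F : ℚ) * (p : ℚ) ^ ((r - 2) * i + 2)) ≤ Nat.card F * (p : ℚ) ^ m := by
    have h5 : (p : ℚ) * (p : ℚ) ^ ((r - 2) * i + 2) ≤ (p : ℚ) ^ m := by
      rw [← pow_succ']
      exact pow_le_pow_right₀ (by linarith) (by omega)
    have h6 : 3 * (p : ℚ) ^ ((r - 2) * i + 2) ≤ (p : ℚ) ^ m :=
      (mul_le_mul_of_nonneg_right hp0 (by positivity)).trans h5
    have h7 := mul_le_mul_of_nonneg_left h6 (by linarith : (0 : ℚ) ≤ Nat.card F)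
    linarith
  have h5 : (Nat.card F : ℚ) * (p : ℚ) ^ (m + 1) = p * (Nat.card F * (p : ℚ) ^ m) := by
    rw [pow_succ]
    ring
  have h6 : (0 : ℚ) < Nat.card F * (p : ℚ) ^ m := by positivity
  have h7 : 3 * ((Nat.card F : ℚ) * (p : ℚ) ^ m) ≤ p * (Nat.card F * (p : ℚ) ^ m) :=
    mul_le_mul_of_nonneg_right hp0 h6.le
  rw [h5]
  linarith


open Ex Ex.ZFx Ex.YZx

section
variable {T : Type*} [CommGroup T] [Fintype T] {K : Type*} [Field K] [CharZero K]
  [HasEnoughRootsOfUnity K (Monoid.exponent T)]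

/-- **the number of the invariant rows** -/
theorem rows_lt_st {p : ℕ} (hp : p.Prime) (hp2 : p ≠ 2) (hT : IsPGroup p T)
    {E : Subgroup (MulAut T)} (hpE : ¬ p ∣ Nat.card E) {r : ℕ}
    (hr : Nat.card {x : T // x ^ p = 1} ≤ p ^ r) {i m : ℕ} (hi1 : 1 ≤ i)
    (hst : ∀ l : T →* Kˣ, l ≠ 1 → stl E l < p ^ i)
    (hr3 : (r = 3 ∧ i ≤ 3) ∨ 4 ≤ r) (hm : (r - 2) * i + 3 ≤ m) (hEm : Nat.card E ≤ p ^ m)
    {I : Type*} [Fintype I]
    {ψ : I → T → K} (hv : ∀ i, ψ i ∈ vir T K) (hG : ∀ u v, GramR E ⊥ ψ u v) (S : Finset I)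
    (hS : ∀ i ∈ S, ∀ u, ψ i (u ^ (1 + p)) = ψ i u) (hne : ∀ i ∈ S, ∃ u, ψ i u ≠ 0) :
    S.card < p ^ (m + 1) := by
  classical
  have hfin : Finite E := finF E
  have h1 := fix_rows_sum hp hp2 hT hpE hv hG S hS hne
  have h2 := tsum_lt_st hp hp2 (dual_pgroup (K := K) hT) (E.map (dact T K))
    (by rw [card_dact]; exact hpE) (dual_rank hr) hi1
    (fun l hl => by rw [← stl_eq]; exact hst l hl) hr3 hm (by rw [card_dact]; exact hEm)
  have h3 : ∑ l ∈ univ.filter (fun l : T →* Kˣ => tau p l ≤ stl E l),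
      ((stl E l : ℚ) / (tau p l : ℚ)) ^ 2
      = ∑ l ∈ univ.filter (fun l : T →* Kˣ => ta p l ≤ stF (E.map (dact T K)) l),
        ((stF (E.map (dact T K)) l : ℚ) / (ta p l : ℚ)) ^ 2 := by
    refine Finset.sum_congr ?_ fun l _ => by rw [stl_eq, tau_eq]
    ext l
    rw [mem_filter, mem_filter, stl_eq, tau_eq]
  rw [card_dact] at h2
  have h4 : (Nat.card E : ℚ) * S.card < (Nat.card E : ℚ) * (p : ℚ) ^ (m + 1) := by
    exact lt_of_le_of_lt h1 (lt_of_eq_of_lt (by convert h3) h2)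
  have h5 : (S.card : ℚ) < (p : ℚ) ^ (m + 1) :=
    lt_of_mul_lt_mul_left h4 (by positivity)
  exact_mod_cast h5

theorem num_many_st {p s m e t : ℕ} (hp3 : 3 ≤ p) (he2 : 2 ≤ e) (hm : 2 ≤ m)
    (hem : e < p ^ m) (hs : e < p ^ (s * (s + 1) / 2)) (ht : p ^ (s * (m + 1)) ≤ t) :
    p ^ (m + 1) * (e * (e + 3)) + (e - 1) * t < p ^ (m + 1) * t := by
  have hpm : 3 * p ^ m ≤ p ^ (m + 1) := by
    rw [pow_succ, mul_comm]
    exact Nat.mul_le_mul_left _ hp3
  have hq : 3 * (e - 1) ≤ p ^ (m + 1) := by omega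
  have hee : 3 * (e * (e + 3)) < 2 * t := by
    rcases Nat.lt_or_ge s 2 with h2 | h2
    · interval_cases s
      · norm_num at hs
        omega
      · norm_num at hs ht
        have h1 : p ^ 3 ≤ t := (Nat.pow_le_pow_right (by omega) (by omega)).trans ht
        have h3 : e + 1 ≤ p := hs
        have h4 : 3 * (p * p) ≤ p ^ 3 := by
          have : p ^ 3 = p * (p * p) := by ring
          rw [this]
          exact Nat.mul_le_mul_right _ hp3
        have h5 : e * (e + 3) < 2 * (p * p) := by nlinarith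
        omega
    · have h1 : p ^ (2 * (m + 1)) ≤ t :=
        (Nat.pow_le_pow_right (by omega) (Nat.mul_le_mul_right _ h2)).trans ht
      have h3 : p ^ (2 * (m + 1)) = p ^ (m + 1) * p ^ (m + 1) := by
        rw [← pow_add]
        congr 1
        omega
      rw [h3] at h1
      have h4 : 3 * e ≤ p ^ (m + 1) := by omega
      have h5 : (3 * e) * (3 * e) ≤ t := (Nat.mul_le_mul h4 h4).trans h1
      nlinarith
  have hq0 : 0 < p ^ (m + 1) := pow_pos (by omega) _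
  have h1 : p ^ (m + 1) * (3 * (e * (e + 3))) < p ^ (m + 1) * (2 * t) :=
    Nat.mul_lt_mul_of_pos_left hee hq0
  have h2 : 3 * (e - 1) * t ≤ p ^ (m + 1) * t := Nat.mul_le_mul_right _ hq
  nlinarith

/-- **many regular characters**, `|E| ≤ p ^ m` -/
theorem many_bot_st {p : ℕ} (hp : p.Prime) (hp2 : p ≠ 2)
    (hT : IsPGroup p T) {E : Subgroup (MulAut T)} (hpE : ¬ p ∣ Nat.card E)
    (hE : 2 ≤ Nat.card E) {m r : ℕ}
    (hF : ∀ φ ∈ E, φ ≠ 1 → ∃ u : T, (u⁻¹ * φ u) ^ p ^ m ≠ 1)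
    (hr : Nat.card {x : T // x ^ p = 1} ≤ p ^ r) (hEm : Nat.card E ≤ p ^ m) (hm : 2 ≤ m) :
    Many K E ⊥ := by
  have hp3 : 3 ≤ p := by
    have := hp.two_le
    omega
  obtain ⟨s, hsr, hs, ht⟩ := exists_s hp hT E hpE hF hr
  have hs1 : 1 ≤ s := by
    by_contra hcon
    have h0 : s = 0 := by omega
    rw [h0] at hs
    norm_num at hs
    omega
  have hlt : Nat.card E < p ^ (s * (s + 1) / 2) := by
    refine lt_of_le_of_ne hs fun h => hpE ?_
    rw [h]
    refine dvd_pow_self p ?_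
    have h1 : 1 * 2 ≤ s * (s + 1) := Nat.mul_le_mul hs1 (by omega)
    omega
  have hlt' : Nat.card E < p ^ m := by
    refine lt_of_le_of_ne hEm fun h => hpE ?_
    rw [h]
    exact dvd_pow_self p (by omega)
  refine many_of hp hT hpE (fun α _ z hz => by rw [Subgroup.mem_bot.1 hz, map_one])
    (q := p ^ (m + 1)) (fun α hα hα1 => card_cm_ge hp hT (hF α hα hα1)) ?_
  rw [Nat.card_eq_fintype_card (α := T)] at ht
  have hb : Nat.card (⊥ : Subgroup T) = 1 := Subgroup.card_bot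
  rw [hb, mul_one]
  exact num_many_st hp3 hE hm hlt' hlt ht

/-- the stabilizers of the characters from the stabilizers of the elements -/
theorem stl_of_st {p : ℕ} (hp : p.Prime) (hT : IsPGroup p T) {E : Subgroup (MulAut T)}
    (hpE : ¬ p ∣ Nat.card E) {N : ℕ}
    (hst : ∀ x : T, x ≠ 1 → Nat.card {α : E // (α : MulAut T) x = x} < N)
    {l : T →* Kˣ} (hl : l ≠ 1) : stl E l < N := by
  obtain ⟨x, hx, -, hfix⟩ := ZFc.exists_fix hp hT hpE hl
  have hfin : Finite E := finF E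
  rw [ZFc.stl_card]
  refine lt_of_le_of_lt ?_ (hst x hx)
  refine Nat.card_le_card_of_injective (fun φ : ZFc.stG E l =>
    (⟨⟨φ.1, ZFc.stG_le E l φ.2⟩, hfix φ.1 φ.2⟩ : {α : E // (α : MulAut T) x = x})) ?_
  intro φ ψ h
  have h1 := congrArg (fun z : {α : E // (α : MulAut T) x = x} => ((z : E) : MulAut T)) h
  exact Subtype.ext h1

/-- the stabilizers of the subgroups -/
theorem fx_of_st {E : Subgroup (MulAut T)} {N : ℕ}
    (hst : ∀ x : T, x ≠ 1 → Nat.card {α : E // (α : MulAut T) x = x} < N)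
    {Q : Subgroup T} (hQ : Q ≠ ⊥) : Nat.card (Fx E Q) < N := by
  obtain ⟨a, ha⟩ := (Subgroup.ne_bot_iff_exists_ne_one).1 hQ
  have hfin : Finite E := finF E
  refine lt_of_le_of_lt ?_ (hst a.1 fun h => ha (Subtype.ext h))
  refine Nat.card_le_card_of_injective (fun φ : Fx E Q =>
    (⟨⟨φ.1, ZKb.Fx_le E Q φ.2⟩, φ.2.2 a.1 a.2⟩ : {α : E // (α : MulAut T) a.1 = a.1})) ?_
  intro φ ψ h
  have h1 := congrArg (fun z : {α : E // (α : MulAut T) a.1 = a.1} => ((z : E) : MulAut T)) h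
  exact Subtype.ext h1

end


open MonoidAlgebra Bq Kq Kk QCorAux

section
variable {p : ℕ} [Fact p.Prime] {k : Type*} [Field k] [IsAlgClosed k] [CharP k p]
  {A : Type*} [Group A] [Fintype A] {b f i : MonoidAlgebra k A} {D : Subgroup A}

theorem l_lt_st (hp2 : p ≠ 2) (h : Src p b D f i) (hpE : ¬ p ∣ eN D f) {T : Type*}
    [CommGroup T] [Fintype T] {φ : T →* A} (hφ : Function.Injective φ)
    (hr : ∀ x, x ∈ D ↔ ∃ t, φ t = x) (hE : 2 ≤ eN D f) {r j m : ℕ}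
    (hrk : Nat.card {x : T // x ^ p = 1} ≤ p ^ r) (hj1 : 1 ≤ j) (hEm : eN D f ≤ p ^ m)
    (hst : ∀ l : T →* (KW p k)ˣ, l ≠ 1 → ZFx.stl (EG φ D f) l < p ^ j)
    (hr3 : (r = 3 ∧ j ≤ 3) ∨ 4 ≤ r) (hm : (r - 2) * j + 3 ≤ m)
    (hF : ∀ ψ ∈ EG φ D f, ψ ≠ 1 → ∃ u : T, (u⁻¹ * ψ u) ^ p ^ m ≠ 1)
    (hM : Many (KW p k) (EG φ D f) ⊥)
    (hbig : ∀ Q : Subgroup T, Q ≠ ⊥ → Q ≠ ⊤ → BigX (KW p k) p (p ^ (m + 1)) (EG φ D f) Q) :
    Nat.card (Quotient (irrInvSetoid (⊤ : Subgroup A) ⊤ b)) < p ^ (m + 1) := by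
  have hp : p.Prime := Fact.out
  obtain ⟨M, hM'⟩ := pow_one_of h
  have hT : IsPGroup p T := by
    intro u
    refine ⟨M, hφ ?_⟩
    rw [map_pow, map_one]
    exact hM' (φ u) ((hr _).2 ⟨u, rfl⟩)
  have hcard : Nat.card (EG φ D f) = eN D f := card_EG hφ hr
  have hpG : ¬ p ∣ Nat.card (EG φ D f) := by rwa [hcard]
  obtain ⟨B, hB⟩ := exists_cenL (p := p) h.root.blk.idem
    (fun g => invBy_iff_cj.1 h.root.blk.invBy g (Subgroup.mem_top g))
  obtain ⟨u, hu⟩ := exists_reg' hp hT (EG φ D f) hpG (by rwa [hcard]) hF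
  have hreg : ∃ u : T, u ≠ 1 ∧ Ex.st (EG φ D f) u = 1 := by
    refine ⟨u, ?_, ?_⟩
    · rintro rfl
      have h1 : Nat.card (EG φ D f) = 1 := by
        rw [Nat.card_eq_one_iff_unique]
        exact ⟨⟨fun x y => Subtype.ext ((hu x x.2 (map_one _)).trans
          (hu y y.2 (map_one _)).symm)⟩, ⟨1⟩⟩
      omega
    · rw [Ex.st, Nat.card_eq_one_iff_unique]
      exact ⟨⟨fun y z => Subtype.ext (Subtype.ext
        ((hu y.1 y.1.2 y.2).trans (hu z.1 z.1.2 z.2).symm))⟩, ⟨⟨1, rfl⟩⟩⟩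
  obtain ⟨G, ψ, hS, hψ⟩ := exists_rows_bot hp2 (dvd_pow_self p (Nat.succ_ne_zero m)) h hφ hr hpE
    hbig (Or.inl hM) hB
  obtain ⟨S, hS1, hS2, -, hS4⟩ := fixed_rows hp2 hS hpE hB hψ hreg
  exact lt_of_le_of_lt hS4 (rows_lt_st hp hp2 hT hpG hrk hj1 hst hr3 hm (by rwa [hcard])
    hψ.vir hψ.gram S hS1 hS2)

/-- the stabilizers in `EG` -/
theorem card_stab {T : Type*} [CommGroup T] [Fintype T] {φ : T →* A}
    (hφ : Function.Injective φ) (hr : ∀ x, x ∈ D ↔ ∃ t, φ t = x) (x : T) :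
    Nat.card {α : EG φ D f // (α : MulAut T) x = x}
      = (CD D).relIndex (St D f ⊓ C1 (φ x)) := by
  classical
  let S := St D f ⊓ C1 (φ x)
  choose ψ hψ hψ' using fun g : ↥S => exists_EG (f := f) hφ hr g.2.1
  let F : ↥S →* ↥(EG φ D f) :=
    { toFun := fun g => ⟨ψ g, hψ g⟩
      map_one' := by
        apply Subtype.ext
        ext t
        apply hφ
        rw [hψ']
        simp
      map_mul' := fun g g' => by
        apply Subtype.ext
        ext t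
        apply hφ
        rw [hψ']
        change _ = φ ((ψ g * ψ g') t)
        rw [MulAut.mul_apply, hψ', hψ', Subgroup.coe_mul]
        group }
  have hfx : ∀ g : A, g * φ x * g⁻¹ = φ x ↔ g ∈ C1 (φ x) := by
    intro g
    rw [Subgroup.mem_centralizer_singleton_iff, mul_inv_eq_iff_eq_mul]
  have hran : ∀ α : EG φ D f, α ∈ F.range ↔ (α : MulAut T) x = x := by
    intro α
    constructor
    · rintro ⟨g, rfl⟩
      apply hφ
      change φ (ψ g x) = φ x
      rw [hψ']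
      exact (hfx g).2 g.2.2
    · intro hα
      obtain ⟨g, hg, h⟩ := α.2
      have hgx : g * φ x * g⁻¹ = φ x := by rw [← h x, hα]
      refine ⟨⟨g, hg, (hfx g).1 hgx⟩, ?_⟩
      apply Subtype.ext
      ext t
      apply hφ
      change φ (ψ _ t) = _
      rw [hψ', h]
  have hker : F.ker = (CD D).subgroupOf S := by
    ext g
    rw [MonoidHom.mem_ker, Subgroup.mem_subgroupOf, Subgroup.mem_centralizer_iff]
    constructor
    · intro h x hx
      obtain ⟨t, rfl⟩ := (hr x).1 hx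
      have h1 : ψ g = 1 := congrArg Subtype.val h
      have h2 := hψ' g t
      rw [h1, MulAut.one_apply, eq_mul_inv_iff_mul_eq] at h2
      exact h2
    · intro h
      apply Subtype.ext
      ext t
      apply hφ
      change φ (ψ g t) = φ t
      rw [hψ', mul_inv_eq_iff_eq_mul]
      exact (h _ ((hr _).2 ⟨t, rfl⟩)).symm
  rw [Subgroup.relIndex, ← hker, Subgroup.index_ker]
  exact (Nat.card_congr (Equiv.subtypeEquivRight hran)).symm

/-- **the weight conjecture, rank at most `r`, `|E| ≤ p ^ n` and stabilizers of order at most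
`p ^ j`** -/
theorem large_stab (hp2 : p ≠ 2) (h : Root p b D f) {r j n : ℕ}
    (hr : Nat.card {x : A // x ∈ D ∧ x ^ p = 1} ≤ p ^ r) (hE0 : eN D f ≤ p ^ n)
    (hst : ∀ x ∈ D, x ≠ 1 → (CD D).relIndex (St D f ⊓ C1 x) ≤ p ^ j)
    (hn : (r - 2) * j + 3 ≤ n) (hF : Faith p n D f) :
    gap p (⊤ : Subgroup A) ⊤ b = 0 ∧
      Nat.card (Quotient (irrInvSetoid (⊤ : Subgroup A) ⊤ b)) ≤ eN D f := by
  have hp : p.Prime := Fact.out
  rcases Nat.lt_or_ge (eN D f) 2 with hE | hE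
  · exact large' hp2 h (i := 0) hr (by rw [pow_zero]; omega) (faith_one (by omega) _)
  -- rank at most two
  rcases Nat.lt_or_ge r 3 with hr3 | hr3
  · exact k2_two hp2 h (hr.trans (Nat.pow_le_pow_right hp.pos (by omega)))
      (hF.mono (by omega))
  -- free action
  rcases Nat.eq_zero_or_pos j with hj0 | hj1
  · rw [hj0, pow_zero] at hst
    have hfree : Free D f := by
      intro g hg u hu hu1 hgu
      have h1 : (CD D).relIndex (St D f ⊓ C1 u) = 1 := by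
        have h2 := hst u hu hu1
        have h3 : (CD D).relIndex (St D f ⊓ C1 u) ≠ 0 := Subgroup.index_ne_zero_of_finite
        omega
      exact Subgroup.relIndex_eq_one.1 h1
        ⟨hg, Subgroup.mem_centralizer_singleton_iff.2 hgu⟩
    obtain ⟨g, hg, y, hy, hgy⟩ : ∃ g ∈ St D f, ∃ y ∈ D, g * y ^ p ^ n ≠ y ^ p ^ n * g := by
      by_contra hcon
      push Not at hcon
      have h1 : (CD D).relIndex (St D f) = 1 :=
        Subgroup.relIndex_eq_one.2 fun g hg => hF g hg (hcon g hg)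
      have h2 : eN D f = 1 := h1
      omega
    have hy1 : y ^ p ^ n ≠ 1 := by
      intro h1
      apply hgy
      rw [h1, mul_one, one_mul]
    exact ⟨gap_zero_exp hp2 h hfree hy hy1
      (lt_of_le_of_lt hE0 (Nat.pow_lt_pow_right hp.one_lt (Nat.lt_succ_self n))),
      Ex.l_le hp2 h hfree⟩
  by_cases hbig : r = 3 ∧ 3 < j
  · obtain ⟨rfl, hj3⟩ := hbig
    exact large_rank hp2 h hr (hF.mono (by omega))
  have hcases : (r = 3 ∧ j ≤ 3) ∨ 4 ≤ r := by omega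
  have hpE : ¬ p ∣ eN D f := ndvd h
  obtain ⟨i₀, hi⟩ := exists_src h
  let _ : CommGroup ↥D := cgrp D h.com
  let _ : Fintype ↥D := Fintype.ofFinite _
  have hφ : Function.Injective (D.subtype : ↥D →* A) := Subtype.val_injective
  have hrD : ∀ x, x ∈ D ↔ ∃ t, (D.subtype : ↥D →* A) t = x :=
    fun x => ⟨fun hx => ⟨⟨x, hx⟩, rfl⟩, by rintro ⟨t, rfl⟩; exact t.2⟩
  have hcard : Nat.card (EG D.subtype D f) = eN D f := card_EG hφ hrD
  have hpG : ¬ p ∣ Nat.card (EG D.subtype D f) := by rwa [hcard]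
  have hfin : Finite (EG D.subtype D f) := finF _
  obtain ⟨M, hM⟩ := pow_one_of hi
  have hT : IsPGroup p ↥D := fun u => ⟨M, Subtype.ext (hM u u.2)⟩
  have hrT : Nat.card {x : ↥D // x ^ p = 1} ≤ p ^ r := by
    refine le_trans (le_of_eq (Nat.card_congr ?_)) hr
    exact
      { toFun := fun x => ⟨x.1, x.1.2, congrArg Subtype.val x.2⟩
        invFun := fun x => ⟨⟨x.1, x.2.1⟩, Subtype.ext x.2.2⟩
        left_inv := fun x => rfl
        right_inv := fun x => rfl }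
  have hFT := ZMAux.faith_T (D := D) (f := f) hφ hrD hF
  -- the stabilizers
  have hstT : ∀ x : ↥D, x ≠ 1 →
      Nat.card {α : EG D.subtype D f // (α : MulAut ↥D) x = x} ≤ p ^ j := by
    intro x hx
    rw [card_stab hφ hrD x]
    exact hst x x.2 fun h => hx (Subtype.ext h)
  have hstT' : ∀ x : ↥D, x ≠ 1 →
      Nat.card {α : EG D.subtype D f // (α : MulAut ↥D) x = x} < p ^ j := by
    intro x hx
    refine lt_of_le_of_ne (hstT x hx) fun h1 => hpG ?_
    have h2 : Nat.card {α : EG D.subtype D f // (α : MulAut ↥D) x = x}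
        = Nat.card (Fx (EG D.subtype D f) (Subgroup.zpowers x)) := by
      refine Nat.card_congr
        { toFun := fun α => ⟨α.1, α.1.2, YmAux.fix_zp.2 α.2⟩
          invFun := fun α => ⟨⟨α.1, α.2.1⟩, YmAux.fix_zp.1 α.2.2⟩
          left_inv := fun α => rfl
          right_inv := fun α => rfl }
    have h3 : p ∣ Nat.card (Fx (EG D.subtype D f) (Subgroup.zpowers x)) := by
      rw [← h2, h1]
      exact dvd_pow_self p (by omega)
    exact h3.trans (Subgroup.card_dvd_of_le (ZKb.Fx_le _ _))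
  have h2j : 2 * j ≤ n := by
    rcases hcases with ⟨rfl, hj3⟩ | h4
    · omega
    · have h5 : 2 * j ≤ (r - 2) * j := Nat.mul_le_mul_right _ (by omega)
      omega
  have h1 := l_lt_st hp2 hi hpE (T := ↥D) (φ := D.subtype) hφ hrD hE hrT hj1 hE0
    (fun l hl => stl_of_st hp hT hpG hstT' hl) hcases hn hFT
    (many_bot_st hp hp2 hT hpG (by rw [hcard]; exact hE) hFT hrT (by rw [hcard]; exact hE0)
      (by omega))
    (fun Q hQ hQ' => (ZKb.big_of_st hp hp2 hT hpG (fun Q hQ => (fx_of_st hstT' hQ).le) hFT h2j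
      hQ hQ').toX)
  exact l_eq_of hp2 h hF h1.le (hE0.trans (Nat.pow_le_pow_right hp.pos (by omega)))

end

end Pool.Agent.Lib.P0c8ca5.Ku
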