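import Mathlib
import Pool.Agent.Lib.P0c8ca5Kk.Kxb

/-!
# KW: the local blocks for Navarro's equality and the centre of the defect group

`G` is normal in `A`, `A / G` a p-group, `e` a block of `G` which is invariant under `A`, `P` a defect group of `e`
as a block of `A` and `P ∩ G` is abelian. `σ` is a chain of p-subgroups `Q` of `A` with `G Q = A`, with smallest member
`Q₁` and largest member `S`, and `b` is a block of `H = N_G(σ)` with `b Br_S(e) ≠ 0`. `chain_z`: `b` has a defect group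
`D` such that `D S` is contained in a conjugate `P₂` of `P` and the centralizer of `Q₁` in `D` is `Z(P₂) ∩ G`.
-/

set_option autoImplicit false
set_option linter.unusedSectionVars false

namespace Pool.Agent.Lib.P0c8ca5.Ku

open MonoidAlgebra Ex Rk Kk Kk.KgAux Kk.KxAux Kk.KxaAux Kk.KxbAux

section
variable {p : ℕ} {k : Type*} [Field k] {A : Type*} [Group A] [Fintype A]
variable [Fact p.Prime] [CharP k p] [IsAlgClosed k]
variable {b c e : MonoidAlgebra k A} {G H S : Subgroup A} {σ : Finset (Subgroup A)}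

theorem invBy_sup {D : Subgroup A} (hD : InvBy D b) (hS : InvBy S b) : InvBy (D ⊔ S) b := by
  let I : Subgroup A :=
    { carrier := {g | ∀ x, b.coeff (g * x * g⁻¹) = b.coeff x}
      mul_mem' := by
        intro g h hg hh x
        rw [← hh x, ← hg (h * x * h⁻¹)]
        congr 1
        group
      one_mem' := fun x => by simp
      inv_mem' := by
        intro g hg x
        rw [← hg (g⁻¹ * x * g⁻¹⁻¹)]
        congr 1
        group }
  have h1 : D ⊔ S ≤ I := sup_le (fun g hg x => hD g hg x) fun g hg x => hS g hg x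
  exact fun g hg x => h1 hg x

/-- the Brauer map at `D S` -/
theorem sup_br {D : Subgroup A} (hP : IsPGroup p (D ⊔ S : Subgroup A)) (hbs : SuppIn (CD S) b)
    (hmul : resS (CD S : Set A) e * b = b) (hDb : InvBy D b)
    (hDN : D ≤ Subgroup.normalizer (S : Set A)) (heinv : InvBy ⊤ e) (hbr : HasBr D b) :
    HasBr (D ⊔ S) e := by
  have hRN : D ⊔ S ≤ Subgroup.normalizer (S : Set A) := sup_le hDN Subgroup.le_normalizer
  have h1 : InvBy (D ⊔ S) (resS (CD S : Set A) e) := invBy_res (heinv.mono le_top) hRN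
  have h2 : InvBy (D ⊔ S) b := invBy_sup hDb (invBy_of_supp hbs)
  have h3 := resS_mul hP h1 h2
  rw [hmul] at h3
  have h4 := resS_resS_le (A := A) (Q := D ⊔ S) (Q' := S) le_sup_right e
  have h5 : resS (CD (D ⊔ S) : Set A) b
      = resS (CD (D ⊔ S) : Set A) e * resS (CD (D ⊔ S) : Set A) b := by
    rw [← h4]
    exact h3
  obtain ⟨x, hx, hxb⟩ := hbr
  have hxS := hbs x hxb
  have hxR : x ∈ CD (D ⊔ S) := by
    have h6 : D ⊔ S ≤ Subgroup.centralizer ({x} : Set A) := by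
      refine sup_le (fun g hg => ?_) fun g hg => ?_
      · rw [Subgroup.mem_centralizer_singleton_iff]
        exact Subgroup.mem_centralizer_iff.1 hx g hg
      · rw [Subgroup.mem_centralizer_singleton_iff]
        exact Subgroup.mem_centralizer_iff.1 hxS g hg
    rw [Subgroup.mem_centralizer_iff]
    intro g hg
    exact Subgroup.mem_centralizer_singleton_iff.1 (h6 hg)
  have h6 : resS (CD (D ⊔ S) : Set A) b ≠ 0 := ne_of_hasBr ⟨x, hxR, hxb⟩
  apply hasBr_of_ne
  intro h0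
  apply h6
  rw [h5, h0, zero_mul]

/-- **the defect groups of the local blocks and the centre** -/
theorem chain_z (hG : G.Normal) (hp : ∀ x : A, ∃ n : ℕ, x ^ p ^ n ∈ G) (he : IsBlock G e)
    (hinv : InvBy ⊤ e) {P : Subgroup A} (hP : IsDefectGroup p (⊤ : Subgroup A) e P)
    (hcom : ∀ x ∈ P ⊓ G, ∀ y ∈ P ⊓ G, x * y = y * x)
    (hne : σ.Nonempty) (hσ : IsChain (· ≤ ·) (σ : Set (Subgroup A)))
    (hσS : ∀ Q ∈ σ, Q ∈ Supp p G ⊤)
    (hb : IsBlock (G ⊓ stab ⊤ σ) b) (hbe : b * cS (σ.sup id) e ≠ 0) :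
    ∃ (D : Subgroup A) (g : A), IsDefectGroup p (G ⊓ stab ⊤ σ) b D ∧
      D ⊔ σ.sup id ≤ cg g P ∧ cg g P ⊓ G ⊓ CD (cg g P) ≤ D ∧
      (∀ Q ∈ σ, ∀ x ∈ D, (∀ q ∈ Q, q * x = x * q) → x ∈ cg g P ⊓ G ⊓ CD (cg g P)) := by
  classical
  have heT : IsBlock (⊤ : Subgroup A) e := isBlock_up' le_top
    (by rw [Subgroup.normalizer_eq_top]) (fun x _ => hp x) he hinv
  have hGc : ∀ g : A, cg g G = G := fun g => cg_eq_self_iff.2 (by
    rw [Subgroup.normalizer_eq_top]
    exact Subgroup.mem_top g)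
  have hmem : ∀ g x : A, x ∈ cg g P ⊓ G ↔ g⁻¹ * x * g ∈ P ⊓ G := by
    intro g x
    conv_lhs => rw [← hGc g]
    rw [Subgroup.mem_inf, mem_cg, mem_cg, Subgroup.mem_inf]
  have hcomc : ∀ g : A, ∀ x ∈ cg g P ⊓ G, ∀ y ∈ cg g P ⊓ G, x * y = y * x := by
    intro g x hx y hy
    have h1 := hcom _ ((hmem g x).1 hx) _ ((hmem g y).1 hy)
    calc x * y = g * ((g⁻¹ * x * g) * (g⁻¹ * y * g)) * g⁻¹ := by group
      _ = g * ((g⁻¹ * y * g) * (g⁻¹ * x * g)) * g⁻¹ := by rw [h1]
      _ = y * x := by group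
  -- the largest member of the chain
  have hSσ : σ.sup id ∈ σ := sup_mem_chain hne hσ
  have hSe : HasBr (σ.sup id) e := by
    apply hasBr_of_ne
    intro h0
    apply hbe
    have h1 : cS (σ.sup id) e = 0 := h0
    rw [h1, mul_zero]
  have hcomS : ∀ s ∈ σ.sup id ⊓ G, ∀ t ∈ σ.sup id ⊓ G, s * t = t * s := by
    obtain ⟨P₁, hP₁, hSP₁⟩ := exists_defect (p := p) (N := ⊤) le_top (hσS _ hSσ).2.1 hSe
    obtain ⟨g, rfl⟩ := defect_conj heT hP hP₁
    intro s hs t ht
    exact hcomc g s ((inf_le_inf_right G hSP₁) hs) t ((inf_le_inf_right G hSP₁) ht)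
  obtain ⟨P', hP', hSP', hZ⟩ := chain_top hG hp he hinv hne hσ hσS hcomS hb hbe
  obtain ⟨g, rfl⟩ := defect_conj heT hP hP'
  set S := σ.sup id with hSdef
  have hSp : IsPGroup p S := (hσS S hSσ).2.1
  -- the centre of `P'`, intersected with `G`
  set Z : Subgroup A := cg g P ⊓ G ⊓ CD (cg g P) with hZdef
  have hZP : Z ≤ cg g P := inf_le_left.trans inf_le_left
  have hZC : Z ≤ CD (cg g P) := inf_le_right
  have hZG : Z ≤ G := inf_le_left.trans inf_le_right
  have hZH : Z ≤ G ⊓ stab ⊤ σ := by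
    intro x hx
    refine mem_H' (hZG hx) fun Q hQ => ?_
    apply Subgroup.centralizer_le_normalizer
    exact Subgroup.centralizer_le ((Finset.le_sup (f := id) hQ).trans hSP') (hZC hx)
  have hZp : IsPGroup p Z := hP'.isPGroup.to_le hZP
  obtain ⟨D, hD, hZD⟩ := exists_defect (p := p) hZH hZp (hZ Z hZP hZC)
  have hDG : D ≤ G := hD.le.trans inf_le_left
  have hDN : D ≤ Subgroup.normalizer (S : Set A) := fun x hx => (mem_H (hD.le hx)).2 S hSσ
  have hbs := chain_supp hG hne hσ hσS hcomS hb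
  -- `Br_S(e) b = b`
  have hctx : Ctx p ⊤ (stab ⊤ σ) S e :=
    { hHX := inf_le_left
      hS := hSp
      hHS := fun x hx => (mem_stab.1 hx).2 S hSσ
      hCS := by
        intro x hx
        rw [mem_stab]
        refine ⟨hx.1, fun Q hQ => ?_⟩
        have hQS : Q ≤ S := Finset.le_sup (f := id) hQ
        exact Subgroup.centralizer_le_normalizer _ (Subgroup.centralizer_le hQS hx.2)
      supp := he.suppIn.mono le_top
      inv := hinv }
  have hcH : SuppIn (stab ⊤ σ) (cS S e) := hctx.cS_supp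
  have hcK : SuppIn (G ⊓ stab ⊤ σ) (cS S e) := by
    intro x hx
    refine Subgroup.mem_inf.2 ⟨?_, hcH x hx⟩
    apply he.suppIn
    intro h0
    apply hx
    rw [coeff_resS]
    split_ifs
    · exact h0
    · rfl
  have hcinvK : InvBy (G ⊓ stab ⊤ σ) (cS S e) := hctx.cS_inv.mono inf_le_right
  have hcc : cS S e * cS S e = cS S e := hctx.cS_idem le_top he.idem
  have hcmem : cS S e ∈ fixAlg k (G ⊓ stab ⊤ σ) (G ⊓ stab ⊤ σ) := mem_fixAlg.2 ⟨hcK, hcinvK⟩
  have hcomm : cS S e * b = b * cS S e := (commute_of hcK hb.invBy)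
  have hmul : cS S e * b = b := by
    rcases hb.mul_eq hcmem hcc with h | h
    · rw [hcomm] at h; exact absurd h hbe
    · exact h
  -- the conjugate above `D S`
  have hDSp : IsPGroup p (D ⊔ S : Subgroup A) := hD.isPGroup.to_sup_of_normal_right' hSp hDN
  have hbr := sup_br hDSp hbs hmul (hb.invBy.mono hD.le) hDN hinv hD.br
  obtain ⟨P₂, hP₂, hDP₂⟩ := exists_defect (p := p) (N := ⊤) le_top hDSp hbr
  obtain ⟨g', rfl⟩ := defect_conj heT hP hP₂
  have hDP : D ≤ cg g' P ⊓ G := le_inf (le_sup_left.trans hDP₂) hDG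
  -- elements of `D` which commute with a member of the chain
  have key : ∀ Q ∈ σ, ∀ x ∈ D, (∀ q ∈ Q, q * x = x * q) →
      x ∈ cg g' P ⊓ G ⊓ CD (cg g' P) := by
    intro Q hQ x hx hxQ
    refine Subgroup.mem_inf.2 ⟨hDP hx, ?_⟩
    rw [Subgroup.mem_centralizer_iff]
    intro y hy
    have hQS : Q ≤ cg g' P := ((Finset.le_sup (f := id) hQ).trans le_sup_right).trans hDP₂
    have h1 : y ∈ G ⊔ Q := by
      rw [(hσS Q hQ).2.2]
      exact Subgroup.mem_top y
    obtain ⟨t, ht, q, hq, rfl⟩ := Subgroup.mem_sup_of_normal_left.1 h1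
    have htP : t ∈ cg g' P := by
      have h2 := (cg g' P).mul_mem hy ((cg g' P).inv_mem (hQS hq))
      rwa [mul_inv_cancel_right] at h2
    have h2 := hcomc g' t (Subgroup.mem_inf.2 ⟨htP, ht⟩) x (hDP hx)
    calc t * q * x = t * (q * x) := mul_assoc _ _ _
      _ = t * (x * q) := by rw [hxQ q hq]
      _ = (t * x) * q := (mul_assoc _ _ _).symm
      _ = x * t * q := by rw [h2]
      _ = x * (t * q) := mul_assoc _ _ _
  -- comparison of the orders
  have hZle : Z ≤ cg g' P ⊓ G ⊓ CD (cg g' P) := by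
    intro z hz
    refine key S hSσ z (hZD hz) fun q hq => ?_
    exact Subgroup.mem_centralizer_iff.1 (hZC hz) q (hSP' hq)
  have hZc : ∀ h : A, (cg h P ⊓ G ⊓ CD (cg h P) : Subgroup A) = cg h (P ⊓ G ⊓ CD P) := by
    intro h
    ext x
    rw [mem_cg]
    change (x ∈ cg h P ⊓ G ∧ x ∈ CD (cg h P)) ↔ (h⁻¹ * x * h ∈ P ⊓ G ∧ h⁻¹ * x * h ∈ CD P)
    rw [hmem]
    refine and_congr_right fun _ => ?_
    rw [Subgroup.mem_centralizer_iff, Subgroup.mem_centralizer_iff]
    constructor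
    · intro h1 y hy
      have h2 := h1 (h * y * h⁻¹) (mem_cg.2 (by
        have h3 : h⁻¹ * (h * y * h⁻¹) * h = y := by group
        rw [h3]
        exact hy))
      calc y * (h⁻¹ * x * h) = h⁻¹ * ((h * y * h⁻¹) * x) * h := by group
        _ = h⁻¹ * (x * (h * y * h⁻¹)) * h := by rw [h2]
        _ = h⁻¹ * x * h * y := by group
    · intro h1 y hy
      have h2 := h1 (h⁻¹ * y * h) (mem_cg.1 hy)
      calc y * x = h * ((h⁻¹ * y * h) * (h⁻¹ * x * h)) * h⁻¹ := by group
        _ = h * ((h⁻¹ * x * h) * (h⁻¹ * y * h)) * h⁻¹ := by rw [h2]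
        _ = x * y := by group
  have hcard : Nat.card (cg g' P ⊓ G ⊓ CD (cg g' P) : Subgroup A) = Nat.card Z := by
    rw [hZdef, hZc, hZc, card_cg, card_cg]
  have hZeq : Z = cg g' P ⊓ G ⊓ CD (cg g' P) :=
    Subgroup.eq_of_le_of_card_ge hZle hcard.le
  exact ⟨D, g', hD, hDP₂, hZeq ▸ hZD, key⟩

end

end Pool.Agent.Lib.P0c8ca5.Ku
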