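import Mathlib
import Pool.Agent.Lib.P0c8ca5Ku.KW

/-!
# KX: two commuting actions on the defect group of a local block

`H` and `Q₁` are subgroups, `D ≤ H` is an abelian p-group and contains the commutators of `H` and `Q₁`. So the actions of
`N_H(D)` and of `Q₁` on `D` commute. `exists_z`: a subgroup of `N_H(D)` which fixes an element `x ≠ 1` of `D` fixes an
element `z` of order `p` of `D` which commutes with `Q₁`. `faith_z`: a p-regular element of `N_H(D)` which fixes all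
these elements `z` centralizes `D`.
-/

set_option autoImplicit false
set_option linter.unusedSectionVars false

namespace Pool.Agent.Lib.P0c8ca5.Ku

open MonoidAlgebra Ex Rk Kk Kk.KgAux Kk.KxAux Kk.KxaAux Kk.KxbAux

section
variable {p : ℕ} {A : Type*} [Group A] [Finite A] [Fact p.Prime] {H Q₁ D : Subgroup A}

/-- the commutators of `H` and `Q₁` are in `D` -/
structure Loc (H Q₁ D : Subgroup A) : Prop where
  le : D ≤ H
  com : ∀ x ∈ D, ∀ y ∈ D, x * y = y * x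
  act : ∀ h ∈ H, ∀ q ∈ Q₁, h * q * h⁻¹ * q⁻¹ ∈ D

theorem Loc.norm (h : Loc H Q₁ D) {q t : A} (hq : q ∈ Q₁) (ht : t ∈ D) : q * t * q⁻¹ ∈ D := by
  have h1 := D.mul_mem (D.inv_mem (h.act t (h.le ht) q hq)) ht
  have h2 : (t * q * t⁻¹ * q⁻¹)⁻¹ * t = q * t * q⁻¹ := by group
  rwa [h2] at h1

theorem Loc.comm (h : Loc H Q₁ D) {g q t : A} (hg : g ∈ H) (hq : q ∈ Q₁)
    (ht : g * t * g⁻¹ ∈ D) : g * (q * t * q⁻¹) * g⁻¹ = q * (g * t * g⁻¹) * q⁻¹ := by
  have h1 := h.com _ (h.act g hg q hq) _ (h.norm hq ht)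
  have e1 : g * (q * t * q⁻¹) * g⁻¹
      = (g * q * g⁻¹ * q⁻¹) * (q * (g * t * g⁻¹) * q⁻¹) * (g * q * g⁻¹ * q⁻¹)⁻¹ := by group
  rw [e1, h1, mul_inv_cancel_right]

theorem exists_pow_p {v : A} (hv : v ≠ 1) (hvp : ∃ m : ℕ, v ^ p ^ m = 1) :
    ∃ m : ℕ, v ^ p ^ m ≠ 1 ∧ (v ^ p ^ m) ^ p = 1 := by
  classical
  have h0 : Nat.find hvp ≠ 0 := by
    intro h
    have h1 := Nat.find_spec hvp
    rw [h, pow_zero, pow_one] at h1
    exact hv h1
  obtain ⟨m, hm⟩ := Nat.exists_eq_succ_of_ne_zero h0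
  refine ⟨m, Nat.find_min hvp (by omega), ?_⟩
  rw [← pow_mul, ← pow_succ, ← Nat.succ_eq_add_one, ← hm]
  exact Nat.find_spec hvp

theorem exists_z (h : Loc H Q₁ D) (hD : IsPGroup p D) (hQ : IsPGroup p Q₁) {M : Subgroup A}
    (hM : M ≤ H) {x : A} (hx : x ∈ D) (hx1 : x ≠ 1) (hMx : ∀ g ∈ M, g * x = x * g) :
    ∃ z ∈ D, z ≠ 1 ∧ z ^ p = 1 ∧ (∀ q ∈ Q₁, q * z = z * q) ∧ ∀ g ∈ M, g * z = z * g := by
  let V : Subgroup A :=
    { carrier := {t | t ∈ D ∧ ∀ g ∈ M, g * t = t * g}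
      mul_mem' := by
        rintro a b ⟨ha, ha'⟩ ⟨hb, hb'⟩
        refine ⟨D.mul_mem ha hb, fun g hg => ?_⟩
        rw [← mul_assoc, ha' g hg, mul_assoc, hb' g hg, mul_assoc]
      one_mem' := ⟨D.one_mem, fun g _ => by rw [mul_one, one_mul]⟩
      inv_mem' := by
        rintro a ⟨ha, ha'⟩
        refine ⟨D.inv_mem ha, fun g hg => ?_⟩
        have h1 : Commute g a := ha' g hg
        exact h1.inv_right.eq }
  have hVD : V ≤ D := fun t ht => ht.1
  have key : ∀ q ∈ Q₁, ∀ v ∈ V, q * v * q⁻¹ ∈ V := by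
    rintro q hq v ⟨hv, hv'⟩
    refine ⟨h.norm hq hv, fun g hg => ?_⟩
    have h1 : g * v * g⁻¹ = v := by rw [hv' g hg, mul_inv_cancel_right]
    have h2 := h.comm (hM hg) hq (t := v) (by rw [h1]; exact hv)
    rw [h1] at h2
    calc g * (q * v * q⁻¹) = g * (q * v * q⁻¹) * g⁻¹ * g := by group
      _ = q * v * q⁻¹ * g := by rw [h2]
  have hQV : Q₁ ≤ Subgroup.normalizer (V : Set A) := by
    intro q hq
    rw [Subgroup.mem_normalizer_iff]
    intro v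
    refine ⟨key q hq v, fun h => ?_⟩
    have h1 := key q⁻¹ (Q₁.inv_mem hq) _ h
    have h2 : q⁻¹ * (q * v * q⁻¹) * q⁻¹⁻¹ = v := by group
    rwa [h2] at h1
  have hV1 : V ≠ ⊥ := by
    intro h0
    have h1 : x ∈ V := ⟨hx, hMx⟩
    rw [h0] at h1
    exact hx1 (Subgroup.mem_bot.1 h1)
  obtain ⟨v, hv, hv1, hvq⟩ := exists_comm (hD.to_le hVD) hQ hQV hV1
  have hvp : ∃ m : ℕ, v ^ p ^ m = 1 := by
    obtain ⟨m, hm⟩ := hD ⟨v, hVD hv⟩
    exact ⟨m, congrArg Subtype.val hm⟩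
  obtain ⟨m, hm, hm'⟩ := exists_pow_p hv1 hvp
  have hz := V.pow_mem hv (p ^ m)
  refine ⟨v ^ p ^ m, hz.1, hm, hm', fun q hq => ?_, hz.2⟩
  have h1 : Commute q v := hvq q hq
  exact (h1.pow_right _).eq

theorem faith_z (h : Loc H Q₁ D) (hD : IsPGroup p D) (hQ : IsPGroup p Q₁) {y : A} (hy : y ∈ H)
    (hyD : ∀ t ∈ D, y * t * y⁻¹ ∈ D) (hyr : Preg p y)
    (hz : ∀ z ∈ D, z ^ p = 1 → (∀ q ∈ Q₁, q * z = z * q) → y * z = z * y) :
    ∀ t ∈ D, y * t = t * y := by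
  let V : Subgroup A :=
    { carrier := {v | ∃ t ∈ D, v = y * t * y⁻¹ * t⁻¹}
      mul_mem' := by
        rintro _ _ ⟨s, hs, rfl⟩ ⟨t, ht, rfl⟩
        refine ⟨s * t, D.mul_mem hs ht, ?_⟩
        have h1 := h.com _ (D.inv_mem hs) _ (D.mul_mem (hyD t ht) (D.inv_mem ht))
        calc y * s * y⁻¹ * s⁻¹ * (y * t * y⁻¹ * t⁻¹)
            = y * s * y⁻¹ * (s⁻¹ * (y * t * y⁻¹ * t⁻¹)) := by group
          _ = y * s * y⁻¹ * ((y * t * y⁻¹ * t⁻¹) * s⁻¹) := by rw [h1]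
          _ = y * (s * t) * y⁻¹ * (s * t)⁻¹ := by group
      one_mem' := ⟨1, D.one_mem, by group⟩
      inv_mem' := by
        rintro _ ⟨s, hs, rfl⟩
        refine ⟨s⁻¹, D.inv_mem hs, ?_⟩
        have h1 := h.com _ hs _ (D.inv_mem (hyD s hs))
        calc (y * s * y⁻¹ * s⁻¹)⁻¹ = s * (y * s * y⁻¹)⁻¹ := by group
          _ = (y * s * y⁻¹)⁻¹ * s := h1
          _ = y * s⁻¹ * y⁻¹ * s⁻¹⁻¹ := by group }
  have hVD : V ≤ D := by
    rintro _ ⟨t, ht, rfl⟩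
    exact D.mul_mem (hyD t ht) (D.inv_mem ht)
  have key : ∀ q ∈ Q₁, ∀ v ∈ V, q * v * q⁻¹ ∈ V := by
    rintro q hq _ ⟨t, ht, rfl⟩
    refine ⟨q * t * q⁻¹, h.norm hq ht, ?_⟩
    rw [h.comm hy hq (hyD t ht)]
    group
  have hQV : Q₁ ≤ Subgroup.normalizer (V : Set A) := by
    intro q hq
    rw [Subgroup.mem_normalizer_iff]
    intro v
    refine ⟨key q hq v, fun h => ?_⟩
    have h1 := key q⁻¹ (Q₁.inv_mem hq) _ h
    have h2 : q⁻¹ * (q * v * q⁻¹) * q⁻¹⁻¹ = v := by group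
    rwa [h2] at h1
  have hV1 : V = ⊥ := by
    by_contra hne
    obtain ⟨v, hv, hv1, hvq⟩ := exists_comm (hD.to_le hVD) hQ hQV hne
    have hvp : ∃ m : ℕ, v ^ p ^ m = 1 := by
      obtain ⟨m, hm⟩ := hD ⟨v, hVD hv⟩
      exact ⟨m, congrArg Subtype.val hm⟩
    obtain ⟨m, hm, hm'⟩ := exists_pow_p hv1 hvp
    have hzV := V.pow_mem hv (p ^ m)
    have h1 : y * v ^ p ^ m = v ^ p ^ m * y := hz _ (hVD hzV) hm' fun q hq => by
      have h1 : Commute q v := hvq q hq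
      exact (h1.pow_right _).eq
    obtain ⟨t, ht, hvt⟩ := hzV
    refine hm (triv hyr (q := t) (v := v ^ p ^ m) ?_ h1 (m := 1) (by rw [pow_one]; exact hm'))
    rw [hvt]
    group
  intro t ht
  have h1 : y * t * y⁻¹ * t⁻¹ ∈ V := ⟨t, ht, rfl⟩
  rw [hV1, Subgroup.mem_bot] at h1
  calc y * t = y * t * y⁻¹ * t⁻¹ * (t * y) := by group
    _ = t * y := by rw [h1, one_mul]

end

section
variable {p : ℕ} {k : Type*} [Field k] {A : Type*} [Group A] [Fintype A]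
variable [Fact p.Prime] [CharP k p] [IsAlgClosed k]
variable {b : MonoidAlgebra k A} {H M D : Subgroup A}

/-- normal p-subgroups are contained in the defect groups -/
theorem core_le (hb : IsBlock H b) (hD : IsDefectGroup p H b D) (hM : IsPGroup p M)
    (hMH : M ≤ H) (hN : H ≤ Subgroup.normalizer (M : Set A)) : M ≤ D := by
  have hs := supp_CD hM hMH hN hb.mem hb.idem
  obtain ⟨x, hx, hxb⟩ := hD.br
  have hxM : x ∈ CD M := by
    by_contra h
    apply hxb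
    rw [← hs]
    exact coeff_resS_of_notMem _ h
  have hxR : x ∈ Subgroup.centralizer ((D ⊔ M : Subgroup A) : Set A) := by
    have h6 : D ⊔ M ≤ Subgroup.centralizer ({x} : Set A) := by
      refine sup_le (fun g hg => ?_) fun g hg => ?_
      · rw [Subgroup.mem_centralizer_singleton_iff]
        exact Subgroup.mem_centralizer_iff.1 hx g hg
      · rw [Subgroup.mem_centralizer_singleton_iff]
        exact Subgroup.mem_centralizer_iff.1 hxM g hg
    rw [Subgroup.mem_centralizer_iff]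
    intro g hg
    exact Subgroup.mem_centralizer_singleton_iff.1 (h6 hg)
  have h1 := hD.max (D ⊔ M) (sup_le hD.le hMH)
    (hD.isPGroup.to_sup_of_normal_right' hM (hD.le.trans hN)) ⟨x, hxR, hxb⟩ le_sup_left
  rw [← h1]
  exact le_sup_right

end

end Pool.Agent.Lib.P0c8ca5.Ku
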