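import Mathlib
import Pool.Agent.Lib.P0c8ca5Ku.KV
import Pool.Agent.Lib.P0c8ca5Ku.KX
import Pool.Agent.Lib.P0c8ca5Kk.Kxd

/-!
# KY: the weight conjecture for the local blocks

`D` is the abelian defect group of a block with inertial quotient `E`, `Z ≤ D` is an `E`-invariant subgroup of rank at
most `s` such that `E` acts faithfully on the elements of order `p` of `Z` and each stabilizer of an element `≠ 1` of
`D` fixes an element of order `p` of `Z`. Then `|E| ≤ p ^ (s * (s + 1) / 2)` and the stabilizers have order at most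
`p ^ (s * (s - 1) / 2)` (`card_E_le`, `card_st_le`).
-/

set_option autoImplicit false
set_option linter.unusedSectionVars false

namespace Pool.Agent.Lib.P0c8ca5.Ku

open MonoidAlgebra Finset Bq Ex Kq Kk QCorAux

section
variable {p : ℕ} [Fact p.Prime] {k : Type*} [Field k] [IsAlgClosed k] [CharP k p]
  {A : Type*} [Group A] [Fintype A] {b f : MonoidAlgebra k A} {D Z : Subgroup A} {s : ℕ}

/-- elements of the inertial group with a p-power in `C(D)` -/
theorem mem_CD_of_pow (h : Root p b D f) {g : A} (hg : g ∈ St D f) {m : ℕ}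
    (hm : g ^ p ^ m ∈ CD D) : g ∈ CD D := by
  classical
  have hp : p.Prime := Fact.out
  have hN : ((CD D).subgroupOf (St D f)).Normal := by
    refine ⟨fun x hx y => ?_⟩
    rw [Subgroup.mem_subgroupOf] at hx ⊢
    exact (NDAux.conj_CD_iff y.2.1).1 hx
  let q : ↥(St D f) ⧸ (CD D).subgroupOf (St D f) := QuotientGroup.mk ⟨g, hg⟩
  have h1 : q ^ p ^ m = 1 := by
    change (QuotientGroup.mk ⟨g, hg⟩ : ↥(St D f) ⧸ (CD D).subgroupOf (St D f)) ^ p ^ m = 1
    rw [← QuotientGroup.mk_pow, QuotientGroup.eq_one_iff, Subgroup.mem_subgroupOf]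
    exact hm
  have h2 : orderOf q ∣ p ^ m := orderOf_dvd_of_pow_eq_one h1
  have h3 : orderOf q ∣ eN D f := orderOf_dvd_natCard q
  have h4 : Nat.Coprime (p ^ m) (eN D f) :=
    Nat.Coprime.pow_left m ((hp.coprime_iff_not_dvd).2 (ndvd h))
  have h5 : orderOf q = 1 := Nat.eq_one_of_dvd_coprimes h4 h2 h3
  have h6 : q = 1 := orderOf_eq_one_iff.1 h5
  have h7 : (QuotientGroup.mk ⟨g, hg⟩ : ↥(St D f) ⧸ (CD D).subgroupOf (St D f)) = 1 := h6
  rw [QuotientGroup.eq_one_iff, Subgroup.mem_subgroupOf] at h7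
  exact h7

/-- **the order of `E` and of the stabilizers** -/
theorem card_E_st (h : Root p b D f) (hZD : Z ≤ D)
    (hZn : ∀ g ∈ St D f, ∀ z ∈ Z, g * z * g⁻¹ ∈ Z)
    (hs : Nat.card {x : A // x ∈ Z ∧ x ^ p = 1} ≤ p ^ s)
    (hfaith : ∀ g ∈ St D f, (∀ z ∈ Z, z ^ p = 1 → g * z = z * g) → g ∈ CD D)
    (hstab : ∀ x ∈ D, x ≠ 1 → ∃ z ∈ Z, z ≠ 1 ∧ ∀ g ∈ St D f, g * x = x * g → g * z = z * g) :
    eN D f ≤ p ^ (s * (s + 1) / 2) ∧
      ∀ x ∈ D, x ≠ 1 → (CD D).relIndex (St D f ⊓ C1 x) ≤ p ^ (s * (s - 1) / 2) := by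
  classical
  have hp : p.Prime := Fact.out
  let _ : CommGroup ↥D := cgrp D h.com
  let _ : Fintype ↥D := Fintype.ofFinite _
  have hφ : Function.Injective (D.subtype : ↥D →* A) := Subtype.val_injective
  have hrD : ∀ x, x ∈ D ↔ ∃ t, (D.subtype : ↥D →* A) t = x :=
    fun x => ⟨fun hx => ⟨⟨x, hx⟩, rfl⟩, by rintro ⟨t, rfl⟩; exact t.2⟩
  have hcard : Nat.card (EG D.subtype D f) = eN D f := card_EG hφ hrD
  have hpG : ¬ p ∣ Nat.card (EG D.subtype D f) := by rw [hcard]; exact ndvd h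
  have hfin : Finite (EG D.subtype D f) := finF _
  have hT : IsPGroup p ↥D := h.dfg.isPGroup
  let S : Subgroup ↥D := Z.subgroupOf D
  have hS : ∀ φ ∈ EG D.subtype D f, ∀ y ∈ S, φ y ∈ S := by
    rintro φ ⟨g, hg, hgφ⟩ y hy
    rw [Subgroup.mem_subgroupOf] at hy ⊢
    have h1 := hgφ y
    change ((φ y : ↥D) : A) = g * (y : A) * g⁻¹ at h1
    rw [h1]
    exact hZn g hg _ hy
  have hSp : IsPGroup p S := hT.to_subgroup S
  have hrS : Nat.card {y : S // y ^ p = 1} ≤ p ^ s := by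
    refine le_trans (Nat.card_le_card_of_injective (fun y : {y : S // y ^ p = 1} =>
      (⟨((y.1 : ↥D) : A), Subgroup.mem_subgroupOf.1 y.1.2,
        congrArg (fun w : S => ((w : ↥D) : A)) y.2⟩ : {x : A // x ∈ Z ∧ x ^ p = 1})) ?_) hs
    intro x y hxy
    have h1 : (((x.1 : S) : ↥D) : A) = (((y.1 : S) : ↥D) : A) :=
      congrArg (fun z : {x : A // x ∈ Z ∧ x ^ p = 1} => (z : A)) hxy
    exact Subtype.ext (Subtype.ext (Subtype.ext h1))
  have hinj : Function.Injective (resG (EG D.subtype D f) S hS) := by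
    rw [injective_iff_map_eq_one]
    intro φ hφ1
    obtain ⟨g, hg, hgφ⟩ := φ.2
    have h1 : g ∈ CD D := by
      refine hfaith g hg fun z hz _ => ?_
      have h2 : resG (EG D.subtype D f) S hS φ (⟨⟨z, hZD hz⟩, Subgroup.mem_subgroupOf.2 hz⟩ : S)
          = ⟨⟨z, hZD hz⟩, Subgroup.mem_subgroupOf.2 hz⟩ := by
        rw [hφ1]
        rfl
      have h3 : (φ : MulAut ↥D) ⟨z, hZD hz⟩ = ⟨z, hZD hz⟩ := congrArg Subtype.val h2
      have h4 := hgφ ⟨z, hZD hz⟩
      rw [h3] at h4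
      change z = g * z * g⁻¹ at h4
      exact (eq_mul_inv_iff_mul_eq.1 h4).symm
    apply Subtype.ext
    apply MulEquiv.ext
    intro t
    apply hφ
    change ((φ : MulAut ↥D) t : A) = t
    have h4 := hgφ t
    change (((φ : MulAut ↥D) t : ↥D) : A) = g * (t : A) * g⁻¹ at h4
    rw [h4, mul_inv_eq_iff_eq_mul]
    exact (Subgroup.mem_centralizer_iff.1 h1 t t.2).symm
  have hE1 : Nat.card (resG (EG D.subtype D f) S hS).range = Nat.card (EG D.subtype D f) :=
    (Nat.card_congr (Equiv.ofInjective _ hinj)).symm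
  refine ⟨?_, fun x hx hx1 => ?_⟩
  · have h1 := card_le_gl hp hSp (resG (EG D.subtype D f) S hS).range
      (by rw [hE1]; exact hpG) hrS
    rwa [hE1, hcard] at h1
  · obtain ⟨z, hz, hz1, hzx⟩ := hstab x hx hx1
    have hst := card_stab (D := D) (f := f) (φ := D.subtype) hφ hrD ⟨x, hx⟩
    change _ = (CD D).relIndex (St D f ⊓ C1 x) at hst
    rw [← hst]
    let F : Subgroup (EG D.subtype D f) :=
      { carrier := {α | (α : MulAut ↥D) ⟨x, hx⟩ = ⟨x, hx⟩}
        mul_mem' := by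
          intro a b ha hb
          change ((a : MulAut ↥D) * (b : MulAut ↥D)) ⟨x, hx⟩ = ⟨x, hx⟩
          have ha' : (a : MulAut ↥D) ⟨x, hx⟩ = ⟨x, hx⟩ := ha
          have hb' : (b : MulAut ↥D) ⟨x, hx⟩ = ⟨x, hx⟩ := hb
          rw [MulAut.mul_apply, hb', ha']
        one_mem' := rfl
        inv_mem' := by
          intro a ha
          have ha' : (a : MulAut ↥D) ⟨x, hx⟩ = ⟨x, hx⟩ := ha
          change (a : MulAut ↥D)⁻¹ ⟨x, hx⟩ = ⟨x, hx⟩
          conv_lhs => rw [← ha']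
          rw [MulAut.inv_apply_self] }
    have hF : Nat.card {α : EG D.subtype D f // (α : MulAut ↥D) ⟨x, hx⟩ = ⟨x, hx⟩}
        = Nat.card (F.map (resG (EG D.subtype D f) S hS)) :=
      Nat.card_congr (F.equivMapOfInjective _ hinj).toEquiv
    rw [hF]
    have hFp : ¬ p ∣ Nat.card (F.map (resG (EG D.subtype D f) S hS)) := by
      intro hd
      apply hpG
      rw [← hE1]
      refine hd.trans (Subgroup.card_dvd_of_le ?_)
      rintro _ ⟨a, -, rfl⟩
      exact ⟨a, rfl⟩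
    refine fix_le hp hSp _ hFp hrS (x := ⟨⟨z, hZD hz⟩, Subgroup.mem_subgroupOf.2 hz⟩) ?_ ?_
    · intro h1
      exact hz1 (congrArg (fun w : S => ((w : ↥D) : A)) h1)
    · rintro _ ⟨a, ha, rfl⟩
      obtain ⟨g, hg, hgφ⟩ := a.2
      have ha' : (a : MulAut ↥D) ⟨x, hx⟩ = ⟨x, hx⟩ := ha
      have h1 : g * x = x * g := by
        have h2 := hgφ ⟨x, hx⟩
        rw [ha'] at h2
        change x = g * x * g⁻¹ at h2
        exact (eq_mul_inv_iff_mul_eq.1 h2).symm
      have h3 := hzx g hg h1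
      apply Subtype.ext
      apply Subtype.ext
      change (((a : MulAut ↥D) ⟨z, hZD hz⟩ : ↥D) : A) = z
      have h4 := hgφ ⟨z, hZD hz⟩
      change (((a : MulAut ↥D) ⟨z, hZD hz⟩ : ↥D) : A) = g * z * g⁻¹ at h4
      rw [h4, mul_inv_eq_iff_eq_mul]
      exact h3

end

end Pool.Agent.Lib.P0c8ca5.Ku
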