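import Mathlib
import Pool.Agent.Lib.P0c8ca5Ku.KY

/-!
# KZ: the weight conjecture for the local blocks (conclusions)

The situation of KY. `gap_cyc`: `Z` has rank at most one. `gap_cen`: `Z` has rank at most `s` and its elements of order
`p` are `p ^ n`-th powers in `Z`, `n` large.
-/

set_option autoImplicit false
set_option linter.unusedSectionVars false

namespace Pool.Agent.Lib.P0c8ca5.Ku

open MonoidAlgebra Finset Bq Ex Kq Kk QCorAux

universe u v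

section
variable {p : ℕ} [Fact p.Prime] {k : Type v} [Field k] [IsAlgClosed k] [CharP k p]
  {A : Type u} [Group A] [Fintype A] {b f : MonoidAlgebra k A} {D Z : Subgroup A} {s : ℕ}

/-- inertial index at most one -/
theorem gap_one (hp2 : p ≠ 2) (h : Root p b D f) (hE : eN D f ≤ 1) :
    gap p (⊤ : Subgroup A) ⊤ b = 0 := by
  have hp : p.Prime := Fact.out
  refine (large' hp2 h (r := Nat.card {x : A // x ∈ D ∧ x ^ p = 1}) (i := 0)
    (Nat.lt_pow_self hp.one_lt).le (by rw [pow_zero]; exact hE) (faith_one hE _)).1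

/-- **the centre is cyclic** -/
theorem gap_cyc (hp2 : p ≠ 2) (h : Root p b D f) (hZD : Z ≤ D)
    (hZn : ∀ g ∈ St D f, ∀ z ∈ Z, g * z * g⁻¹ ∈ Z)
    (hs : Nat.card {x : A // x ∈ Z ∧ x ^ p = 1} ≤ p)
    (hfaith : ∀ g ∈ St D f, (∀ z ∈ Z, z ^ p = 1 → g * z = z * g) → g ∈ CD D)
    (hstab : ∀ x ∈ D, x ≠ 1 → ∃ z ∈ Z, z ≠ 1 ∧ ∀ g ∈ St D f, g * x = x * g → g * z = z * g) :
    gap p (⊤ : Subgroup A) ⊤ b = 0 := by
  have hp : p.Prime := Fact.out
  obtain ⟨h1, h2⟩ := card_E_st h hZD hZn (s := 1) (by rw [pow_one]; exact hs) hfaith hstab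
  norm_num at h1 h2
  rcases Nat.lt_or_ge (eN D f) 2 with hE | hE
  · exact gap_one hp2 h (by omega)
  have hfree : Free D f := by
    intro g hg u hu hu1 hgu
    have h4 : (CD D).relIndex (St D f ⊓ C1 u) = 1 := by
      have h5 := h2 u hu hu1
      have h6 : (CD D).relIndex (St D f ⊓ C1 u) ≠ 0 := Subgroup.index_ne_zero_of_finite
      omega
    exact Subgroup.relIndex_eq_one.1 h4 ⟨hg, Subgroup.mem_centralizer_singleton_iff.2 hgu⟩
  obtain ⟨x, hx, hx1⟩ : ∃ x ∈ D, x ≠ 1 := by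
    by_contra hcon
    push Not at hcon
    have h4 : (CD D).relIndex (St D f) = 1 := by
      refine Subgroup.relIndex_eq_one.2 fun g _ => ?_
      rw [Subgroup.mem_centralizer_iff]
      intro y hy
      rw [hcon y hy, one_mul, mul_one]
    have h5 : eN D f = 1 := h4
    omega
  have hlt : eN D f < p ^ (0 + 1) := by
    rw [zero_add, pow_one]
    refine lt_of_le_of_ne h1 fun h3 => ndvd h ?_
    rw [h3]
  exact gap_zero_exp hp2 h hfree hx (s := 0) (by rw [pow_zero, pow_one]; exact hx1) hlt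

/-- **the centre is large** -/
theorem gap_cen (hp2 : p ≠ 2) (h : Root p b D f) {r n : ℕ} (hZD : Z ≤ D)
    (hZn : ∀ g ∈ St D f, ∀ z ∈ Z, g * z * g⁻¹ ∈ Z)
    (hr : Nat.card {x : A // x ∈ D ∧ x ^ p = 1} ≤ p ^ r)
    (hs : Nat.card {x : A // x ∈ Z ∧ x ^ p = 1} ≤ p ^ s)
    (hbig : ∀ z ∈ Z, z ^ p = 1 → ∃ y ∈ Z, y ^ p ^ n = z)
    (hn : (r - 2) * (s * (s - 1) / 2) + 3 ≤ n) (hn' : s * (s + 1) / 2 ≤ n)
    (hfaith : ∀ g ∈ St D f, (∀ z ∈ Z, z ^ p = 1 → g * z = z * g) → g ∈ CD D)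
    (hstab : ∀ x ∈ D, x ≠ 1 → ∃ z ∈ Z, z ≠ 1 ∧ ∀ g ∈ St D f, g * x = x * g → g * z = z * g) :
    gap p (⊤ : Subgroup A) ⊤ b = 0 := by
  have hp : p.Prime := Fact.out
  obtain ⟨h1, h2⟩ := card_E_st h hZD hZn hs hfaith hstab
  refine (large_stab hp2 h hr (h1.trans (Nat.pow_le_pow_right hp.pos hn')) h2 hn ?_).1
  intro g hg hgy
  refine hfaith g hg fun z hz hzp => ?_
  obtain ⟨y, hy, rfl⟩ := hbig z hz hzp
  exact hgy y (hZD hy)

end

end Pool.Agent.Lib.P0c8ca5.Ku
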