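import Mathlib
import Pool.Agent.Lib.P0c8ca5Ku.KZ
import Pool.Agent.Lib.P0c8ca5Ex.ZVd
import Pool.Agent.Lib.P0c8ca5Ex.Fu

/-!
# La: Navarro's equality and the elements of order `p` of the centre of the defect group

`G` is normal in `A`, `A / G` a p-group, `e` a block of `G` which is invariant under `A`, `P` a defect group of `e`
as a block of `A`, `P ∩ G` is abelian and `W` is the group of the elements `x` of `Z(P) ∩ G` with `x ^ p = 1`.
`nav_w`: Navarro's equality if each divisor of `|N_G(W) : C_G(W)|` which is prime to `p` is less than `p`.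
-/

set_option autoImplicit false
set_option linter.unusedSectionVars false

namespace Pool.Agent.Lib.P0c8ca5.Ku

open MonoidAlgebra Ex Rk Kk Kk.KgAux Kk.KxAux Kk.KxaAux Kk.KxbAux

section
variable {A : Type*} [Group A]

theorem relIndex_dvd_of_le_right {C M N : Subgroup A} (hMN : M ≤ N)
    (hN : N ≤ Subgroup.normalizer (C : Set A)) : C.relIndex M ∣ C.relIndex N := by
  have h1 : (C.subgroupOf N).Normal := by
    refine ⟨fun x hx y => ?_⟩
    rw [Subgroup.mem_subgroupOf] at hx ⊢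
    exact (Subgroup.mem_normalizer_iff.1 (hN y.2) x).1 hx
  have h2 := Subgroup.relIndex_dvd_index_of_normal (H := C.subgroupOf N) (K := M.subgroupOf N)
  rw [Subgroup.relIndex_subgroupOf hMN] at h2
  exact h2

end

section
variable {p : ℕ} {k : Type*} [Field k] {A : Type*} [Group A] [Fintype A]
variable [Fact p.Prime] [CharP k p] [IsAlgClosed k]
variable {b c e : MonoidAlgebra k A} {G H S : Subgroup A} {σ : Finset (Subgroup A)}

/-- **the reduction to local blocks** -/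
theorem nav_frame (hG : G.Normal) (hp : ∀ x : A, ∃ n : ℕ, x ^ p ^ n ∈ G) (he : IsBlock G e)
    (hinv : InvBy ⊤ e) {P : Subgroup A} (hP : IsDefectGroup p (⊤ : Subgroup A) e P)
    (hcom : ∀ x ∈ P ⊓ G, ∀ y ∈ P ⊓ G, x * y = y * x)
    (hK : ∀ (H D Q : Subgroup A) (g : A) (b : MonoidAlgebra k A), H ≤ G → IsBlock H b →
      IsDefectGroup p H b D → D ≤ cg g P ⊓ G → Loc H Q D → IsPGroup p Q →
      cg g P ⊓ G ⊓ CD (cg g P) ≤ D →
      (∀ x ∈ D, (∀ q ∈ Q, q * x = x * q) → x ∈ cg g P ⊓ G ⊓ CD (cg g P)) →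
      (∀ x ∈ cg g P ⊓ G ⊓ CD (cg g P), ∀ q ∈ Q, q * x = x * q) → NavarroEq p H H b) :
    NavarroEq p G ⊤ e := by
  refine navarro_of_baw le_top (by rw [Subgroup.normalizer_eq_top]) (fun x _ => hp x) he hinv ?_
  intro σ hne hσ hσS b hb hbe
  obtain ⟨D, g, hD, hDP, hZD, hZ⟩ := chain_z hG hp he hinv hP hcom hne hσ hσS hb hbe
  obtain ⟨Q₁, hQ₁, hmin⟩ := exists_least hne hσ
  have hSσ : σ.sup id ∈ σ := sup_mem_chain hne hσ
  have hQS : Q₁ ≤ σ.sup id := hmin _ hSσ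
  have hQp : IsPGroup p Q₁ := (hσS Q₁ hQ₁).2.1
  have hDG : D ≤ cg g P ⊓ G := le_inf (le_sup_left.trans hDP) (hD.le.trans inf_le_left)
  have hcomD : ∀ x ∈ D, ∀ y ∈ D, x * y = y * x := by
    have hGc : cg g G = G := cg_eq_self_iff.2 (by
      rw [Subgroup.normalizer_eq_top]
      exact Subgroup.mem_top g)
    have hm : ∀ x ∈ D, g⁻¹ * x * g ∈ P ⊓ G := fun x hx => Subgroup.mem_inf.2
      ⟨mem_cg.1 (Subgroup.mem_inf.1 (hDG hx)).1, mem_cg.1 (by
        rw [hGc]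
        exact (Subgroup.mem_inf.1 (hDG hx)).2)⟩
    intro x hx y hy
    have h1 := hcom _ (hm x hx) _ (hm y hy)
    calc x * y = g * ((g⁻¹ * x * g) * (g⁻¹ * y * g)) * g⁻¹ := by group
      _ = g * ((g⁻¹ * y * g) * (g⁻¹ * x * g)) * g⁻¹ := by rw [h1]
      _ = y * x := by group
  have hcomm : ∀ h ∈ G ⊓ stab ⊤ σ, ∀ q ∈ Q₁, h * q * h⁻¹ * q⁻¹ ∈ Q₁ ⊓ G := by
    intro h hh q hq
    refine Subgroup.mem_inf.2 ⟨?_, ?_⟩
    · have h1 := (mem_H hh).2 Q₁ hQ₁
      exact Q₁.mul_mem ((Subgroup.mem_normalizer_iff.1 h1 q).1 hq) (Q₁.inv_mem hq)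
    · have h1 := G.mul_mem (mem_H hh).1 (hG.conj_mem _ (G.inv_mem (mem_H hh).1) q)
      have h2 : h * (q * h⁻¹ * q⁻¹) = h * q * h⁻¹ * q⁻¹ := by group
      rwa [h2] at h1
  have hR : Q₁ ⊓ G ≤ D := by
    refine core_le hb hD (hQp.to_le inf_le_left) (fun x hx => ?_) fun x hx => ?_
    · exact mem_H' (Subgroup.mem_inf.1 hx).2 fun Q hQ =>
        Subgroup.le_normalizer (hmin Q hQ (Subgroup.mem_inf.1 hx).1)
    · have h1 := Subgroup.mem_normalizer_iff.1 ((mem_H hx).2 Q₁ hQ₁)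
      rw [Subgroup.mem_normalizer_iff]
      intro y
      change (y ∈ Q₁ ∧ y ∈ G) ↔ (x * y * x⁻¹ ∈ Q₁ ∧ x * y * x⁻¹ ∈ G)
      rw [← h1 y]
      refine and_congr_right fun _ => ⟨fun h => hG.conj_mem y h x, fun h => ?_⟩
      have h2 := hG.conj_mem _ h x⁻¹
      have h3 : x⁻¹ * (x * y * x⁻¹) * x⁻¹⁻¹ = y := by group
      rwa [h3] at h2
  refine hK _ D Q₁ g b inf_le_left hb hD hDG
    ⟨hD.le, hcomD, fun h hh q hq => hR (hcomm h hh q hq)⟩ hQp hZD (hZ Q₁ hQ₁) ?_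
  intro x hx q hq
  exact Subgroup.mem_centralizer_iff.1 (Subgroup.mem_inf.1 hx).2 q
    (hDP (le_sup_right (a := D) (hQS hq)))

/-- **faithful action on the elements of order `p` of the centre** -/
theorem faith_A [Fintype ↥H] {D Q Z : Subgroup A} {f : MonoidAlgebra k A} (hD : IsDefectGroup p H b D)
    (hL : Loc H Q D) (hQ : IsPGroup p Q)
    (hZ : ∀ x ∈ D, (∀ q ∈ Q, q * x = x * q) → x ∈ Z) (hfs : SuppIn H f)
    (hroot : Root p (dn H b) (D.subgroupOf H) (dn H f)) {g : A} (hgH : g ∈ H) (hg : g ∈ St D f)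
    (hz : ∀ z ∈ Z, z ^ p = 1 → g * z = z * g) : g ∈ CD D := by
  have hp : p.Prime := Fact.out
  have hDH := hL.le
  -- a p-regular power of `g`
  obtain ⟨m, n, hn, hm⟩ : ∃ m n : ℕ, ¬ p ∣ n ∧ orderOf g = p ^ m * n := by
    have h0 : orderOf g ≠ 0 := (orderOf_pos g).ne'
    obtain ⟨m, n, hn, hm⟩ := Nat.exists_eq_pow_mul_and_not_dvd h0 p hp.ne_one
    exact ⟨m, n, hn, hm⟩
  have hreg : Preg p (g ^ p ^ m) := by
    intro h
    apply hn
    have h1 : (g ^ p ^ m) ^ n = 1 := by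
      rw [← pow_mul, ← hm]
      exact pow_orderOf_eq_one g
    exact h.trans (orderOf_dvd_of_pow_eq_one h1)
  have hgD : ∀ t ∈ D, g ^ p ^ m * t * (g ^ p ^ m)⁻¹ ∈ D := fun t ht =>
    (Subgroup.mem_normalizer_iff.1 (Subgroup.pow_mem _ hg.1 (p ^ m)) t).1 ht
  have h2 := faith_z hL hD.isPGroup hQ (H.pow_mem hgH (p ^ m)) hgD hreg
    (fun z hzD hzp hzq => by
      have h3 : Commute g z := hz z (hZ z hzD hzq) hzp
      exact (h3.pow_left _).eq)
  have h3 : (⟨g, hgH⟩ : ↥H) ^ p ^ m ∈ CD (D.subgroupOf H) := by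
    rw [Subgroup.mem_centralizer_iff]
    intro t ht
    apply Subtype.ext
    exact (h2 t (Subgroup.mem_subgroupOf.1 ht)).symm
  have h4 : (⟨g, hgH⟩ : ↥H) ∈ St (D.subgroupOf H) (dn H f) := by
    rw [Ex.FinAux.St_subgroupOf hDH hfs, Subgroup.mem_subgroupOf]
    exact Subgroup.mem_inf.2 ⟨hgH, hg⟩
  have h5 := mem_CD_of_pow hroot h4 h3
  rw [Ex.FinAux.CD_subgroupOf hDH, Subgroup.mem_subgroupOf] at h5
  exact (Subgroup.mem_inf.1 h5).2

/-- the root of a block with abelian defect group -/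
theorem exists_root [Fintype ↥H] {D : Subgroup A} (hb : IsBlock H b) (hD : IsDefectGroup p H b D)
    (hcom : ∀ x ∈ D, ∀ y ∈ D, x * y = y * x) :
    ∃ f : MonoidAlgebra k A, IsBlock (H ⊓ CD D) f ∧
      Root p (dn H b) (D.subgroupOf H) (dn H f) := by
  have hDH : D ≤ H := hD.le
  have hDp := hD.isPGroup
  have hN : H ⊓ CD D ≤ Subgroup.normalizer (D : Set A) :=
    inf_le_right.trans (Subgroup.centralizer_le_normalizer _)
  obtain ⟨f, hf, hbf⟩ := exists_blk (K := H ⊓ CD D) (e := resS (CD D : Set A) b)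
    (mem_fixAlg.2 ⟨resS_suppIn' hb.suppIn, invBy_res (hb.invBy.mono inf_le_left) hN⟩)
    (by rw [← resS_mul hDp (hb.invBy.mono hDH) (hb.invBy.mono hDH), hb.idem])
    (ne_of_hasBr hD.br)
  exact ⟨f, hf, root_dn H hb hD hcom hf hbf⟩

end

section
universe u v
variable {p : ℕ} {k : Type v} [Field k] {A : Type u} [Group A] [Fintype A]
variable [Fact p.Prime] [CharP k p] [IsAlgClosed k]
variable {b c e : MonoidAlgebra k A} {G H S : Subgroup A} {σ : Finset (Subgroup A)}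

/-- the weight conjecture as `NavarroEq` -/
theorem nav_of_gap [Fintype ↥H] (hb : IsBlock H b) (h : gap p (⊤ : Subgroup ↥H) ⊤ (dn H b) = 0) :
    NavarroEq p H H b := by
  have hHH : ∀ x ∈ H, ∃ m : ℕ, x ^ p ^ m ∈ H := fun x hx => ⟨0, by simpa using hx⟩
  rw [navarroEq_iff_gap le_rfl Subgroup.le_normalizer hHH hb hb.invBy, ← gap_transport hb]
  exact h

/-- **Navarro's equality, small automizer of `Ω₁(Z(P) ∩ G)`** -/
theorem nav_w' (hgap : ∀ {B : Type u} [Group B] [Fintype B] {b f : MonoidAlgebra k B}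
      {D : Subgroup B}, Root p b D f → eN D f < p → gap p (⊤ : Subgroup B) ⊤ b = 0)
    (hG : G.Normal) (hp : ∀ x : A, ∃ n : ℕ, x ^ p ^ n ∈ G)
    (he : IsBlock G e) (hinv : InvBy ⊤ e) {P : Subgroup A}
    (hP : IsDefectGroup p (⊤ : Subgroup A) e P)
    (hcom : ∀ x ∈ P ⊓ G, ∀ y ∈ P ⊓ G, x * y = y * x) {W : Subgroup A}
    (hW : ∀ x, x ∈ W ↔ x ∈ P ⊓ G ⊓ CD P ∧ x ^ p = 1)
    (hE : ∀ m, m ∣ (CD W).relIndex (G ⊓ Subgroup.normalizer (W : Set A)) → ¬ p ∣ m → m < p) :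
    NavarroEq p G ⊤ e := by
  refine nav_frame hG hp he hinv hP hcom ?_
  intro H D Q g b hHG hb hD hDP hL hQ hZD hZ1 hZ2
  have hDH := hL.le
  have : Fintype ↥H := Fintype.ofFinite _
  obtain ⟨f, hf, hroot⟩ := exists_root hb hD hL.com
  have hfs : SuppIn H f := fun x hx => (Subgroup.mem_inf.1 (hf.suppIn x hx)).1
  refine nav_of_gap hb (hgap hroot ?_)
  rw [eN_dn H hDH hfs]
  have hGc : cg g G = G := cg_eq_self_iff.2 (by
    rw [Subgroup.normalizer_eq_top]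
    exact Subgroup.mem_top g)
  -- the conjugate of `W`
  have hWg : ∀ x, x ∈ cg g W ↔ x ∈ cg g P ⊓ G ⊓ CD (cg g P) ∧ x ^ p = 1 := by
    intro x
    have h1 : x ∈ cg g P ⊓ G ⊓ CD (cg g P) ↔ g⁻¹ * x * g ∈ P ⊓ G ⊓ CD P := by
      rw [← FuAux.cg_CD]
      conv_lhs => rw [← hGc]
      rw [Subgroup.mem_inf, Subgroup.mem_inf, Subgroup.mem_inf, Subgroup.mem_inf, mem_cg, mem_cg,
        mem_cg]
    have h2 : x ^ p = 1 ↔ (g⁻¹ * x * g) ^ p = 1 := by
      have h3 := conj_pow (a := g⁻¹) (b := x) (i := p)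
      rw [inv_inv] at h3
      rw [h3]
      constructor
      · intro h
        rw [h]
        group
      · intro h
        calc x ^ p = g * (g⁻¹ * x ^ p * g) * g⁻¹ := by group
          _ = 1 := by rw [h]; group
    rw [mem_cg, hW, h1, h2]
  have hidx : (CD (cg g W)).relIndex (G ⊓ Subgroup.normalizer (cg g W : Set A))
      = (CD W).relIndex (G ⊓ Subgroup.normalizer (W : Set A)) := by
    have h1 : G ⊓ Subgroup.normalizer (cg g W : Set A)
        = cg g (G ⊓ Subgroup.normalizer (W : Set A)) := by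
      rw [← cg_normalizer]
      conv_lhs => rw [← hGc]
      ext x
      rw [Subgroup.mem_inf, mem_cg, mem_cg, mem_cg, Subgroup.mem_inf]
    rw [h1, ← FuAux.cg_CD]
    exact Subgroup.relIndex_map_map_of_injective _ _ (MulAut.conj g).injective
  have hWD : cg g W ≤ D := fun x hx => hZD ((hWg x).1 hx).1
  -- the inertial group
  have hMN : H ⊓ St D f ≤ G ⊓ Subgroup.normalizer (cg g W : Set A) := by
    have key : ∀ y ∈ H, y ∈ St D f → ∀ x ∈ cg g W, y * x * y⁻¹ ∈ cg g W := by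
      intro y hyH hy x hx
      have hxD := hWD hx
      have hyx : y * x * y⁻¹ ∈ D := (Subgroup.mem_normalizer_iff.1 hy.1 x).1 hxD
      refine (hWg _).2 ⟨hZ1 _ hyx fun q hq => ?_, ?_⟩
      · have h1 := hL.comm hyH hq hyx
        have h2 : q * x * q⁻¹ = x := by
          rw [hZ2 x ((hWg x).1 hx).1 q hq, mul_inv_cancel_right]
        rw [h2] at h1
        calc q * (y * x * y⁻¹) = q * (y * x * y⁻¹) * q⁻¹ * q := by group
          _ = y * x * y⁻¹ * q := by rw [← h1]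
      · rw [conj_pow, ((hWg x).1 hx).2]
        group
    intro y hy
    have hyH := (Subgroup.mem_inf.1 hy).1
    have hyS := (Subgroup.mem_inf.1 hy).2
    refine Subgroup.mem_inf.2 ⟨hHG hyH, ?_⟩
    rw [Subgroup.mem_normalizer_iff]
    intro x
    refine ⟨key y hyH hyS x, fun h => ?_⟩
    have h1 := key y⁻¹ (H.inv_mem hyH) (Subgroup.inv_mem _ hyS) _ h
    have h2 : y⁻¹ * (y * x * y⁻¹) * y⁻¹⁻¹ = x := by group
    rwa [h2] at h1
  have hCC : (CD D).relIndex (H ⊓ St D f) = (CD (cg g W)).relIndex (H ⊓ St D f) := by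
    rw [← Subgroup.inf_relIndex_right (CD D), ← Subgroup.inf_relIndex_right (CD (cg g W))]
    congr 1
    ext y
    rw [Subgroup.mem_inf, Subgroup.mem_inf]
    refine and_congr_left fun hy => ⟨fun h => Subgroup.centralizer_le hWD h, fun h => ?_⟩
    exact faith_A hD hL hQ hZ1 hfs hroot (Subgroup.mem_inf.1 hy).1 (Subgroup.mem_inf.1 hy).2
      fun z hz hzp => (Subgroup.mem_centralizer_iff.1 h z ((hWg z).2 ⟨hz, hzp⟩)).symm
  refine hE _ ?_ ?_
  · rw [← hidx, hCC]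
    exact relIndex_dvd_of_le_right hMN
      (inf_le_right.trans (NDAux.N_le_NC))
  · rw [← eN_dn H hDH hfs]
    exact ndvd hroot

/-- **Navarro's equality, small automizer of `Ω₁(Z(P) ∩ G)`**, `p` odd -/
theorem nav_w (hp2 : p ≠ 2) (hG : G.Normal) (hp : ∀ x : A, ∃ n : ℕ, x ^ p ^ n ∈ G)
    (he : IsBlock G e) (hinv : InvBy ⊤ e) {P : Subgroup A}
    (hP : IsDefectGroup p (⊤ : Subgroup A) e P)
    (hcom : ∀ x ∈ P ⊓ G, ∀ y ∈ P ⊓ G, x * y = y * x) {W : Subgroup A}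
    (hW : ∀ x, x ∈ W ↔ x ∈ P ⊓ G ⊓ CD P ∧ x ^ p = 1)
    (hE : ∀ m, m ∣ (CD W).relIndex (G ⊓ Subgroup.normalizer (W : Set A)) → ¬ p ∣ m → m < p) :
    NavarroEq p G ⊤ e :=
  nav_w' (fun h hE => gap_lt_p hp2 h hE) hG hp he hinv hP hcom hW hE

end

end Pool.Agent.Lib.P0c8ca5.Ku
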