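import Mathlib
import Pool.Agent.Lib.P0c8ca5Ku.La
import Pool.Agent.Lib.P0c8ca5Ex.Fm

/-!
# Lb: extension of automorphisms of pairs to a defect group

`G` is normal in `A`, `e` a block of `A` such that the intersections of its defect groups with `G` are abelian, `(R, c)` a
pair below `e` with `G R = A`. `ext_top`: there is a maximal pair `(P, f)` with `R ≤ P` such that each element of the
stabilizer of `(R, c)` acts on `R ∩ G` like an element of the stabilizer of `(P, f)`.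
-/

set_option autoImplicit false
set_option linter.unusedSectionVars false

namespace Pool.Agent.Lib.P0c8ca5.Ku

open MonoidAlgebra Ex Rk Kk Kk.KgAux Kk.KxAux Kk.KxaAux Kk.KxbAux

section
variable {A : Type*} [Group A]

theorem mem_mul_of_sup {K R : Subgroup A} (h : ∀ r ∈ R, ∀ x ∈ K, r * x * r⁻¹ ∈ K) {x : A}
    (hx : x ∈ K ⊔ R) : ∃ a ∈ K, ∃ r ∈ R, x = a * r := by
  let M : Subgroup A :=
    { carrier := {x | ∃ a ∈ K, ∃ r ∈ R, x = a * r}
      mul_mem' := by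
        rintro _ _ ⟨a, ha, r, hr, rfl⟩ ⟨a', ha', r', hr', rfl⟩
        exact ⟨a * (r * a' * r⁻¹), K.mul_mem ha (h r hr a' ha'), r * r', R.mul_mem hr hr', by group⟩
      one_mem' := ⟨1, K.one_mem, 1, R.one_mem, by group⟩
      inv_mem' := by
        rintro _ ⟨a, ha, r, hr, rfl⟩
        refine ⟨r⁻¹ * a⁻¹ * r, ?_, r⁻¹, R.inv_mem hr, by group⟩
        have h1 := h r⁻¹ (R.inv_mem hr) a⁻¹ (K.inv_mem ha)
        rwa [inv_inv] at h1 }
  have h1 : K ⊔ R ≤ M := sup_le (fun a ha => ⟨a, ha, 1, R.one_mem, (mul_one a).symm⟩)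
    fun r hr => ⟨1, K.one_mem, r, hr, (one_mul r).symm⟩
  exact h1 hx

theorem mul_pow_mem {K : Subgroup A} {a r : A} (h : ∀ x ∈ K, r * x * r⁻¹ ∈ K) (ha : a ∈ K)
    (n : ℕ) : (a * r) ^ n * (r ^ n)⁻¹ ∈ K := by
  have h' : ∀ n : ℕ, ∀ x ∈ K, r ^ n * x * (r ^ n)⁻¹ ∈ K := by
    intro n
    induction n with
    | zero =>
      intro x hx
      simpa using hx
    | succ n ih =>
      intro x hx
      have h1 := h _ (ih x hx)
      have h2 : r * (r ^ n * x * (r ^ n)⁻¹) * r⁻¹ = r ^ (n + 1) * x * (r ^ (n + 1))⁻¹ := by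
        rw [pow_succ']
        group
      rwa [h2] at h1
  induction n with
  | zero => simpa using K.one_mem
  | succ n ih =>
    have h1 := K.mul_mem ih (h' n a ha)
    have h2 : (a * r) ^ n * (r ^ n)⁻¹ * (r ^ n * a * (r ^ n)⁻¹)
        = (a * r) ^ (n + 1) * (r ^ (n + 1))⁻¹ := by
      rw [pow_succ, pow_succ]
      group
    rwa [h2] at h1

/-- a commutator which commutes with `x` -/
theorem conj_pow_eq {x q v : A} (hv : x * q * x⁻¹ = v * q) (hxv : x * v = v * x) (n : ℕ) :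
    x ^ n * q * (x ^ n)⁻¹ = v ^ n * q := by
  induction n with
  | zero => simp
  | succ n ih =>
    have h2 : x * v ^ n = v ^ n * x := by
      have h3 : Commute x v := hxv
      exact (h3.pow_right n).eq
    calc x ^ (n + 1) * q * (x ^ (n + 1))⁻¹ = x * (x ^ n * q * (x ^ n)⁻¹) * x⁻¹ := by
          rw [pow_succ']
          group
      _ = x * (v ^ n * q) * x⁻¹ := by rw [ih]
      _ = (x * v ^ n) * q * x⁻¹ := by simp only [mul_assoc]
      _ = (v ^ n * x) * q * x⁻¹ := by rw [h2]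
      _ = v ^ n * (x * q * x⁻¹) := by simp only [mul_assoc]
      _ = v ^ (n + 1) * q := by rw [hv, pow_succ, mul_assoc]

end

section
variable {p : ℕ} {k : Type*} [Field k] {A : Type*} [Group A] [Fintype A]
variable [Fact p.Prime] [CharP k p] [IsAlgClosed k]
variable {e c : MonoidAlgebra k A} {G R : Subgroup A}

/-- the elements of the stabilizer of `(R, c)` which act trivially on `R ∩ G` and modulo `G` -/
def K1 (hG : G.Normal) (R : Subgroup A) (c : MonoidAlgebra k A) : Subgroup A where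
  carrier := {x | x ∈ St R c ∧ (∀ v ∈ R ⊓ G, x * v = v * x) ∧ ∀ r ∈ R, x * r * x⁻¹ * r⁻¹ ∈ G}
  mul_mem' := by
    rintro x y ⟨hx, hx1, hx2⟩ ⟨hy, hy1, hy2⟩
    refine ⟨Subgroup.mul_mem _ hx hy, fun v hv => ?_, fun r hr => ?_⟩
    · rw [mul_assoc, hy1 v hv, ← mul_assoc, hx1 v hv, mul_assoc]
    · have h1 : y * r * y⁻¹ ∈ R := (Subgroup.mem_normalizer_iff.1 hy.1 r).1 hr
      have h2 := G.mul_mem (hx2 _ h1) (hy2 r hr)
      have h3 : x * (y * r * y⁻¹) * x⁻¹ * (y * r * y⁻¹)⁻¹ * (y * r * y⁻¹ * r⁻¹)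
          = x * y * r * (x * y)⁻¹ * r⁻¹ := by group
      rwa [h3] at h2
  one_mem' := ⟨Subgroup.one_mem _, fun v _ => by rw [one_mul, mul_one], fun r _ => by
    have h1 : (1 : A) * r * 1⁻¹ * r⁻¹ = 1 := by group
    rw [h1]
    exact G.one_mem⟩
  inv_mem' := by
    rintro x ⟨hx, hx1, hx2⟩
    refine ⟨Subgroup.inv_mem _ hx, fun v hv => ?_, fun r hr => ?_⟩
    · have h1 : Commute x v := hx1 v hv
      exact h1.inv_left.eq
    · have h1 : x⁻¹ * r * x⁻¹⁻¹ ∈ R := (Subgroup.mem_normalizer_iff.1 (Subgroup.inv_mem _ hx).1 r).1 hr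
      have h2 := G.inv_mem (hx2 _ h1)
      have h3 : (x * (x⁻¹ * r * x⁻¹⁻¹) * x⁻¹ * (x⁻¹ * r * x⁻¹⁻¹)⁻¹)⁻¹ = x⁻¹ * r * x⁻¹⁻¹ * r⁻¹ := by
        group
      rwa [h3] at h2

theorem K1_conj (hG : G.Normal) {y x : A} (hy : y ∈ St R c) (hx : x ∈ K1 hG R c) :
    y * x * y⁻¹ ∈ K1 hG R c := by
  obtain ⟨hx0, hx1, hx2⟩ := hx
  have hyR : ∀ r ∈ R, y⁻¹ * r * y ∈ R := by
    intro r hr
    have h1 := (Subgroup.mem_normalizer_iff.1 (Subgroup.inv_mem _ hy).1 r).1 hr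
    rwa [inv_inv] at h1
  have hyG : ∀ r ∈ G, y⁻¹ * r * y ∈ G := by
    intro r hr
    have h1 := hG.conj_mem r hr y⁻¹
    rwa [inv_inv] at h1
  refine ⟨Subgroup.mul_mem _ (Subgroup.mul_mem _ hy hx0) (Subgroup.inv_mem _ hy), fun v hv => ?_,
    fun r hr => ?_⟩
  · have h1 := hx1 (y⁻¹ * v * y) (Subgroup.mem_inf.2
      ⟨hyR v (Subgroup.mem_inf.1 hv).1, hyG v (Subgroup.mem_inf.1 hv).2⟩)
    calc y * x * y⁻¹ * v = y * (x * (y⁻¹ * v * y)) * y⁻¹ := by group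
      _ = y * ((y⁻¹ * v * y) * x) * y⁻¹ := by rw [h1]
      _ = v * (y * x * y⁻¹) := by group
  · have h1 := hG.conj_mem _ (hx2 (y⁻¹ * r * y) (hyR r hr)) y
    have h2 : y * (x * (y⁻¹ * r * y) * x⁻¹ * (y⁻¹ * r * y)⁻¹) * y⁻¹
        = y * x * y⁻¹ * r * (y * x * y⁻¹)⁻¹ * r⁻¹ := by group
    rwa [h2] at h1

theorem CD_le_K1 (hG : G.Normal) (hc : IsBlock (CD R) c) : CD R ≤ K1 hG R c := by
  intro x hx
  refine ⟨CD_le_StR hc hx, fun v hv => ?_, fun r hr => ?_⟩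
  · exact (Subgroup.mem_centralizer_iff.1 hx v (Subgroup.mem_inf.1 hv).1).symm
  · have h1 := Subgroup.mem_centralizer_iff.1 hx r hr
    have h2 : x * r * x⁻¹ * r⁻¹ = 1 := by
      rw [← h1]
      group
    rw [h2]
    exact G.one_mem

theorem K2_pow (hG : G.Normal) (hR : IsPGroup p R) (hc : IsBlock (CD R) c) {x : A}
    (hx : x ∈ K1 hG R c ⊔ R) : ∃ n : ℕ, x ^ p ^ n ∈ CD R := by
  have hRS : R ≤ St R c := le_St hc
  obtain ⟨a, ha, r, hr, rfl⟩ := mem_mul_of_sup (K := K1 hG R c) (R := R)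
    (fun r hr x hx => K1_conj hG (hRS hr) hx) hx
  obtain ⟨N, hN⟩ := IsPGroup.iff_card.1 hR
  have hRN : ∀ r ∈ R, r ^ p ^ N = 1 := by
    intro r hr
    have h1 : (⟨r, hr⟩ : R) ^ Nat.card R = 1 := pow_card_eq_one'
    rw [hN] at h1
    exact congrArg Subtype.val h1
  have h1 := mul_pow_mem (K := K1 hG R c) (a := a) (r := r)
    (fun x hx => K1_conj hG (hRS hr) hx) ha (p ^ N)
  rw [hRN r hr, inv_one, mul_one] at h1
  refine ⟨N + N, ?_⟩
  rw [pow_add, pow_mul]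
  set x := (a * r) ^ p ^ N with hx
  obtain ⟨hx0, hx1, hx2⟩ := h1
  rw [Subgroup.mem_centralizer_iff]
  intro s hs
  have h2 : x * s * x⁻¹ ∈ R := (Subgroup.mem_normalizer_iff.1 hx0.1 s).1 hs
  have h3 : x * s * x⁻¹ * s⁻¹ ∈ R ⊓ G :=
    Subgroup.mem_inf.2 ⟨R.mul_mem h2 (R.inv_mem hs), hx2 s hs⟩
  have h4 := conj_pow_eq (x := x) (q := s) (v := x * s * x⁻¹ * s⁻¹) (by group) (hx1 _ h3) (p ^ N)
  rw [hRN _ (Subgroup.mem_inf.1 h3).1, one_mul, mul_inv_eq_iff_eq_mul] at h4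
  exact h4.symm

theorem InvBy_K2 (hG : G.Normal) (hc : IsBlock (CD R) c) : InvBy (K1 hG R c ⊔ R) c := by
  have h1 : K1 hG R c ⊔ R ≤ St R c := sup_le (fun x hx => hx.1) (le_St hc)
  exact invBy_iff_cj.2 fun g hg => (h1 hg).2

/-- **the step** -/
theorem ext_step (hG : G.Normal) (he : IsBlock (⊤ : Subgroup A) e)
    (hab : ∀ P, IsDefectGroup p (⊤ : Subgroup A) e P → ∀ x ∈ P ⊓ G, ∀ y ∈ P ⊓ G, x * y = y * x)
    (hR : IsPGroup p R) (hGR : G ⊔ R = ⊤) (hc : IsBlock (CD R) c)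
    (hec : resS (CD R : Set A) e * c = c) : IsDefectGroup p (⊤ : Subgroup A) e R ∨
      ∃ R' : Subgroup A, R < R' ∧ IsPGroup p R' ∧
        ∃ c', IsBlock (CD R') c' ∧ resS (CD R' : Set A) e * c' = c' ∧
          ∀ y ∈ St R c, ∃ z ∈ St R' c', ∀ v ∈ R ⊓ G, z * v * z⁻¹ = y * v * y⁻¹ := by
  classical
  rcases climb he hR hc hec with h | ⟨R', hRR, hR'p, hR'S, c', hc', hcc'⟩
  · exact Or.inl h
  right
  have hRS : R ≤ St R c := le_St hc
  have hCC' : CD R' ≤ CD R := Subgroup.centralizer_le hRR.le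
  have hK2 : K1 hG R c ⊔ R ≤ St R c := sup_le (fun x hx => hx.1) hRS
  -- the Brauer maps
  have hres : ∀ R'' : Subgroup A, R ≤ R'' → R'' ≤ St R c → IsPGroup p R'' →
      resS (CD R'' : Set A) c = resS (CD R'' : Set A) e * resS (CD R'' : Set A) c := by
    intro R'' h1 h2 h3
    have hN : R'' ≤ Subgroup.normalizer (R : Set A) := fun x hx => (h2 hx).1
    have hcR : InvBy R'' c := invBy_iff_cj.2 fun g hg => (h2 hg).2
    have h4 := resS_mul h3 (invBy_res (he.invBy.mono le_top) hN) hcR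
    rw [resS_resS_le h1, hec] at h4
    exact h4
  have hbrc : HasBr R' c := by
    apply hasBr_of_ne
    intro h0
    rw [h0, zero_mul] at hcc'
    exact hc'.ne_zero hcc'.symm
  have hbre : HasBr R' e := by
    apply hasBr_of_ne
    intro h0
    apply ne_of_hasBr hbrc
    rw [hres R' hRR.le hR'S hR'p, h0, zero_mul]
  obtain ⟨P₁, hP₁, hRP₁⟩ := exists_defect (p := p) (N := ⊤) le_top hR'p hbre
  -- `R'` is contained in `K1 R`
  have hR'K : R' ≤ K1 hG R c ⊔ R := by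
    intro x hx
    have h1 : x ∈ G ⊔ R := by
      rw [hGR]
      exact Subgroup.mem_top x
    obtain ⟨g, hg, r, hr, rfl⟩ := Subgroup.mem_sup_of_normal_left.1 h1
    have hgR' : g ∈ R' := by
      have h2 := R'.mul_mem hx (R'.inv_mem (hRR.le hr))
      rwa [mul_inv_cancel_right] at h2
    refine Subgroup.mul_mem_sup ⟨hR'S hgR', fun v hv => ?_, fun s hs => ?_⟩ hr
    · exact hab P₁ hP₁ g (Subgroup.mem_inf.2 ⟨hRP₁ hgR', hg⟩) v
        (Subgroup.mem_inf.2 ⟨hRP₁ (hRR.le (Subgroup.mem_inf.1 hv).1), (Subgroup.mem_inf.1 hv).2⟩)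
    · have h2 := G.mul_mem hg (hG.conj_mem _ (G.inv_mem hg) s)
      have h3 : g * (s * g⁻¹ * s⁻¹) = g * s * g⁻¹ * s⁻¹ := by group
      rwa [h3] at h2
  -- `c` as a block of `K1 R`
  have hCK : CD R ≤ K1 hG R c ⊔ R := (CD_le_K1 hG hc).trans le_sup_left
  have hKN : K1 hG R c ⊔ R ≤ Subgroup.normalizer (CD R : Set A) := by
    intro x hx
    exact NDAux.N_le_NC (hK2 hx).1
  have hcK : IsBlock (K1 hG R c ⊔ R) c :=
    isBlock_up' hCK hKN (fun x hx => K2_pow hG hR hc hx) hc (InvBy_K2 hG hc)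
  obtain ⟨T, hT, hR'T⟩ := exists_defect (p := p) hR'K hR'p hbrc
  have hRT : R < T := lt_of_lt_of_le hRR hR'T
  have hTS : T ≤ St R c := hT.le.trans hK2
  have hCT : CD T ≤ CD R := Subgroup.centralizer_le hRT.le
  -- a block of `C(T)`
  have hTC : InvBy (CD T) c := hc.invBy.mono hCT
  have hTT : InvBy T c := invBy_iff_cj.2 fun g hg => (hTS hg).2
  obtain ⟨c₁, hc₁, hcc₁⟩ := exists_blk (K := CD T) (e := resS (CD T : Set A) c)
    (mem_fixAlg.2 ⟨fun x hx => by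
      by_contra h
      exact hx (coeff_resS_of_notMem _ h),
      invBy_res hTC (Subgroup.centralizer_le_normalizer _)⟩)
    (by rw [← resS_mul hT.isPGroup hTT hTT, hc.idem]) (ne_of_hasBr hT.br)
  refine ⟨T, hRT, hT.isPGroup, c₁, hc₁, ?_, fun y hy => ?_⟩
  · calc resS (CD T : Set A) e * c₁ = resS (CD T : Set A) e * (resS (CD T : Set A) c * c₁) := by
          rw [hcc₁]
      _ = (resS (CD T : Set A) e * resS (CD T : Set A) c) * c₁ := by rw [mul_assoc]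
      _ = c₁ := by rw [← hres T hRT.le hTS hT.isPGroup, hcc₁]
  -- the element `y`
  have hdec : ∀ x ∈ K1 hG R c ⊔ R, ∃ a ∈ K1 hG R c, ∃ r ∈ R, x = a * r := fun x hx =>
    mem_mul_of_sup (fun r hr x hx => K1_conj hG (hRS hr) hx) hx
  have hyK : cg y (K1 hG R c ⊔ R) = K1 hG R c ⊔ R := by
    have key : ∀ y ∈ St R c, ∀ x ∈ K1 hG R c ⊔ R, y * x * y⁻¹ ∈ K1 hG R c ⊔ R := by
      intro y hy x hx
      obtain ⟨a, ha, r, hr, rfl⟩ := hdec x hx
      have h1 := Subgroup.mul_mem_sup (K1_conj hG hy ha)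
        ((Subgroup.mem_normalizer_iff.1 hy.1 r).1 hr)
      have h2 : y * a * y⁻¹ * (y * r * y⁻¹) = y * (a * r) * y⁻¹ := by group
      rwa [h2] at h1
    ext x
    rw [mem_cg]
    constructor
    · intro h
      have h1 := key y hy _ h
      have h2 : y * (y⁻¹ * x * y) * y⁻¹ = x := by group
      rwa [h2] at h1
    · intro h
      have h1 := key y⁻¹ (Subgroup.inv_mem _ hy) _ h
      rwa [inv_inv] at h1
  have hTy := FuAux.isDefectGroup_cg hT y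
  rw [hyK, hy.2] at hTy
  obtain ⟨x₁, hx₁, hx₁T⟩ := Hy.defect_conj_sub hcK hT hTy
  obtain ⟨a, ha, r, hr, rfl⟩ := hdec x₁ hx₁
  have hrT : cg r T = T := cg_eq_self_iff.2 (Subgroup.le_normalizer (hRT.le hr))
  have hy₁N : a⁻¹ * y ∈ Subgroup.normalizer (T : Set A) := by
    rw [← cg_eq_self_iff, ← cg_cg, hx₁T, cg_cg]
    have h1 : a⁻¹ * (a * r) = r := by group
    rw [h1, hrT]
  have hy₁S : a⁻¹ * y ∈ St R c := Subgroup.mul_mem _ (Subgroup.inv_mem _ ha.1) hy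
  -- the blocks of `C(T)`
  have hc₂ : IsBlock (CD T) (cj (a⁻¹ * y) c₁) := isBlock_cjR hc₁ hy₁N
  have hcc₂ : resS (CD T : Set A) c * cj (a⁻¹ * y) c₁ = cj (a⁻¹ * y) c₁ := by
    have h1 := congrArg (cj (a⁻¹ * y)) hcc₁
    rw [cj_mul, ← FmAux.resS_CD_cj hy₁N, hy₁S.2] at h1
    exact h1
  obtain ⟨n, hn, hnN, hnc⟩ := fm hcK hT (hCT.trans hCK) hc₁ hc₂ hcc₁ hcc₂
  obtain ⟨a', ha', r', hr', rfl⟩ := hdec n hn
  have hr'S : r' ∈ St T c₁ := le_St hc₁ (hRT.le hr')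
  refine ⟨a'⁻¹ * (a⁻¹ * y), ?_, fun v hv => ?_⟩
  · have h1 : (a' * r')⁻¹ * (a⁻¹ * y) ∈ St T c₁ := by
      refine ⟨Subgroup.mul_mem _ (Subgroup.inv_mem _ hnN) hy₁N, ?_⟩
      rw [← cj_cj, ← hnc, cj_cj, inv_mul_cancel]
      exact (Subgroup.one_mem (St T c₁)).2
    have h2 := Subgroup.mul_mem _ hr'S h1
    have h3 : r' * ((a' * r')⁻¹ * (a⁻¹ * y)) = a'⁻¹ * (a⁻¹ * y) := by group
    rwa [h3] at h2
  · have hyv : y * v * y⁻¹ ∈ R ⊓ G := Subgroup.mem_inf.2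
      ⟨(Subgroup.mem_normalizer_iff.1 hy.1 v).1 (Subgroup.mem_inf.1 hv).1,
        hG.conj_mem v (Subgroup.mem_inf.1 hv).2 y⟩
    have h1 := ha.2.1 _ hyv
    have h2 := ha'.2.1 _ hyv
    calc a'⁻¹ * (a⁻¹ * y) * v * (a'⁻¹ * (a⁻¹ * y))⁻¹
        = a'⁻¹ * (a⁻¹ * (y * v * y⁻¹ * a)) * a' := by group
      _ = a'⁻¹ * (y * v * y⁻¹ * a') := by rw [← h1]; group
      _ = y * v * y⁻¹ := by rw [← h2]; group

/-- **extension to a maximal pair** -/
theorem ext_top (hG : G.Normal) (he : IsBlock (⊤ : Subgroup A) e)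
    (hab : ∀ P, IsDefectGroup p (⊤ : Subgroup A) e P → ∀ x ∈ P ⊓ G, ∀ y ∈ P ⊓ G, x * y = y * x)
    (hR : IsPGroup p R) (hGR : G ⊔ R = ⊤) (hc : IsBlock (CD R) c)
    (hec : resS (CD R : Set A) e * c = c) :
    ∃ (P : Subgroup A) (f : MonoidAlgebra k A), IsDefectGroup p (⊤ : Subgroup A) e P ∧ R ≤ P ∧
      IsBlock (CD P) f ∧ resS (CD P : Set A) e * f = f ∧
      ∀ y ∈ St R c, ∃ z ∈ St P f, ∀ v ∈ R ⊓ G, z * v * z⁻¹ = y * v * y⁻¹ := by
  induction hn : Nat.card A - Nat.card R using Nat.strong_induction_on generalizing R c with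
  | _ n ih =>
  rcases ext_step hG he hab hR hGR hc hec with h | ⟨R', hRR, hR'p, c', hc', hec', hy'⟩
  · exact ⟨R, c, h, le_rfl, hc, hec, fun y hy => ⟨y, hy, fun v _ => rfl⟩⟩
  have hlt : Nat.card R < Nat.card R' :=
    lt_of_le_of_ne (Subgroup.card_le_of_le hRR.le) fun h =>
      hRR.ne (Subgroup.eq_of_le_of_card_ge hRR.le h.ge)
  have hle : Nat.card R' ≤ Nat.card A := Subgroup.card_le_card_group R'
  obtain ⟨P, f, hP, hRP, hf, hef, hz⟩ := ih (Nat.card A - Nat.card R') (by omega) hR'p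
    (top_le_iff.1 (hGR.ge.trans (sup_le_sup_left hRR.le G))) hc' hec' rfl
  refine ⟨P, f, hP, hRR.le.trans hRP, hf, hef, fun y hy => ?_⟩
  obtain ⟨z, hz1, hz2⟩ := hy' y hy
  obtain ⟨w, hw1, hw2⟩ := hz z hz1
  exact ⟨w, hw1, fun v hv => (hw2 v (inf_le_inf_right G hRR.le hv)).trans (hz2 v hv)⟩

end

end Pool.Agent.Lib.P0c8ca5.Ku
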