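import Mathlib
import Pool.Agent.Lib.P0c8ca5Ku.Lb

/-!
# Lc: the inertial indices of the local blocks

`G` is normal in `A`, `A / G` a p-group, `e` a block of `G` which is invariant under `A`, `(P, f)` a maximal pair of `e` in
`A`, and `P ∩ G` is abelian. The inertial indices of the local blocks divide the inertial index
`|St(P, f) : P C(P)|`. `nav_ind`: Navarro's equality if this index is less than `p`.
-/

set_option autoImplicit false
set_option linter.unusedSectionVars false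

namespace Pool.Agent.Lib.P0c8ca5.Ku

open MonoidAlgebra Ex Rk Kk Kk.KgAux Kk.KxAux Kk.KxaAux Kk.KxbAux

section
variable {A : Type*} [Group A]

theorem relIndex_eq_of_mul {C M L N : Subgroup A} (hM : M ≤ N) (hL : L ≤ N) (hC : C ≤ N)
    (hN : N ≤ Subgroup.normalizer (C : Set A)) (h1 : ∀ y ∈ M, ∃ z ∈ L, z⁻¹ * y ∈ C)
    (h2 : ∀ z ∈ L, ∃ y ∈ M, y⁻¹ * z ∈ C) : C.relIndex M = C.relIndex L := by
  have h0 : (C.subgroupOf N).Normal := by
    refine ⟨fun x hx y => ?_⟩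
    rw [Subgroup.mem_subgroupOf] at hx ⊢
    exact (Subgroup.mem_normalizer_iff.1 (hN y.2) x).1 hx
  have key : ∀ {M L : Subgroup A}, M ≤ N → L ≤ N → (∀ y ∈ M, ∃ z ∈ L, z⁻¹ * y ∈ C) →
      M.subgroupOf N ⊔ C.subgroupOf N ≤ L.subgroupOf N ⊔ C.subgroupOf N := by
    intro M L hM hL h
    refine sup_le (fun y hy => ?_) le_sup_right
    obtain ⟨z, hz, hzy⟩ := h y (Subgroup.mem_subgroupOf.1 hy)
    have h3 : y = (⟨z, hL hz⟩ : N) * ⟨z⁻¹ * y, N.mul_mem (N.inv_mem (hL hz)) y.2⟩ := by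
      apply Subtype.ext
      change (y : A) = z * (z⁻¹ * y)
      rw [mul_inv_cancel_left]
    rw [h3]
    exact Subgroup.mul_mem_sup (Subgroup.mem_subgroupOf.2 hz) (Subgroup.mem_subgroupOf.2 hzy)
  have h3 := Subgroup.relIndex_sup_right (M.subgroupOf N) (C.subgroupOf N)
  have h4 := Subgroup.relIndex_sup_right (L.subgroupOf N) (C.subgroupOf N)
  rw [Subgroup.relIndex_subgroupOf hM] at h3
  rw [Subgroup.relIndex_subgroupOf hL] at h4
  rw [← h3, ← h4, le_antisymm (key hM hL h1) (key hL hM h2)]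

/-- the order of the automorphism group induced on `D` -/
theorem relIndex_dvd_of_act {D P M S : Subgroup A} (hDP : D ≤ P)
    (hM : M ≤ Subgroup.normalizer (D : Set A)) (hS : S ≤ Subgroup.normalizer (P : Set A))
    (h : ∀ y ∈ M, ∃ z ∈ S, ∀ v ∈ D, z * v * z⁻¹ = y * v * y⁻¹) :
    (CD D).relIndex M ∣ (CD P).relIndex S := by
  let L : Subgroup A :=
    { carrier := {z | z ∈ S ∧ ∃ y ∈ M, ∀ v ∈ D, z * v * z⁻¹ = y * v * y⁻¹}
      mul_mem' := by
        rintro z w ⟨hz, y, hy, hzy⟩ ⟨hw, x, hx, hwx⟩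
        refine ⟨S.mul_mem hz hw, y * x, M.mul_mem hy hx, fun v hv => ?_⟩
        have h1 : x * v * x⁻¹ ∈ D := (Subgroup.mem_normalizer_iff.1 (hM hx) v).1 hv
        calc z * w * v * (z * w)⁻¹ = z * (w * v * w⁻¹) * z⁻¹ := by group
          _ = z * (x * v * x⁻¹) * z⁻¹ := by rw [hwx v hv]
          _ = y * (x * v * x⁻¹) * y⁻¹ := hzy _ h1
          _ = y * x * v * (y * x)⁻¹ := by group
      one_mem' := ⟨S.one_mem, 1, M.one_mem, fun v _ => rfl⟩
      inv_mem' := by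
        rintro z ⟨hz, y, hy, hzy⟩
        refine ⟨S.inv_mem hz, y⁻¹, M.inv_mem hy, fun v hv => ?_⟩
        have h1 : y⁻¹ * v * y⁻¹⁻¹ ∈ D :=
          (Subgroup.mem_normalizer_iff.1 (hM (M.inv_mem hy)) v).1 hv
        have h2 := hzy _ h1
        calc z⁻¹ * v * z⁻¹⁻¹ = z⁻¹ * (y * (y⁻¹ * v * y⁻¹⁻¹) * y⁻¹) * z := by group
          _ = z⁻¹ * (z * (y⁻¹ * v * y⁻¹⁻¹) * z⁻¹) * z := by rw [h2]
          _ = y⁻¹ * v * y⁻¹⁻¹ := by group }
  have hLS : L ≤ S := fun z hz => hz.1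
  have hact : ∀ {z y : A}, (∀ v ∈ D, z * v * z⁻¹ = y * v * y⁻¹) → z⁻¹ * y ∈ CD D := by
    intro z y h1
    rw [Subgroup.mem_centralizer_iff]
    intro v hv
    have h2 := h1 v hv
    calc v * (z⁻¹ * y) = z⁻¹ * (z * v * z⁻¹) * y := by group
      _ = z⁻¹ * (y * v * y⁻¹) * y := by rw [h2]
      _ = z⁻¹ * y * v := by group
  have hLN : L ≤ Subgroup.normalizer (D : Set A) := by
    have key : ∀ z ∈ L, ∀ v ∈ D, z * v * z⁻¹ ∈ D := by
      rintro z ⟨hz, y, hy, hzy⟩ v hv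
      rw [hzy v hv]
      exact (Subgroup.mem_normalizer_iff.1 (hM hy) v).1 hv
    intro z hz
    rw [Subgroup.mem_normalizer_iff]
    intro v
    refine ⟨key z hz v, fun h => ?_⟩
    have h1 := key z⁻¹ (L.inv_mem hz) _ h
    have h2 : z⁻¹ * (z * v * z⁻¹) * z⁻¹⁻¹ = v := by group
    rwa [h2] at h1
  have h1 : (CD D).relIndex M = (CD D).relIndex L := by
    refine relIndex_eq_of_mul hM hLN (Subgroup.centralizer_le_normalizer _)
      NDAux.N_le_NC (fun y hy => ?_) fun z hz => ?_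
    · obtain ⟨z, hz, hzy⟩ := h y hy
      exact ⟨z, ⟨hz, y, hy, hzy⟩, hact hzy⟩
    · obtain ⟨hz, y, hy, hzy⟩ := hz
      exact ⟨y, hy, hact fun v hv => (hzy v hv).symm⟩
  rw [h1]
  exact (Subgroup.relIndex_dvd_of_le_left L (Subgroup.centralizer_le hDP)).trans
    (relIndex_dvd_of_le_right hLS (hS.trans NDAux.N_le_NC))

/-- the p-part -/
theorem dvd_ind [Finite A] {p m : ℕ} [Fact p.Prime] {P S : Subgroup A} (hP : IsPGroup p P)
    (hPS : P ⊔ CD P ≤ S) (hm : ¬ p ∣ m) (h : m ∣ (CD P).relIndex S) :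
    m ∣ (P ⊔ CD P).relIndex S := by
  have hp : p.Prime := Fact.out
  have h1 : (CD P).relIndex (P ⊔ CD P) * (P ⊔ CD P).relIndex S = (CD P).relIndex S :=
    Subgroup.relIndex_mul_relIndex _ _ _ le_sup_right hPS
  have h2 : (CD P).relIndex (P ⊔ CD P) ∣ Nat.card P := by
    have hN : P ⊔ CD P ≤ Subgroup.normalizer (P : Set A) :=
      sup_le Subgroup.le_normalizer (Subgroup.centralizer_le_normalizer _)
    have h3 : (CD P).relIndex (P ⊔ CD P) = (CD P).relIndex P := by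
      refine relIndex_eq_of_mul (N := P ⊔ CD P) le_rfl le_sup_left le_sup_right
        (hN.trans NDAux.N_le_NC) (fun y hy => ?_) fun z hz =>
          ⟨z, Subgroup.mem_sup_left hz, by rw [inv_mul_cancel]; exact Subgroup.one_mem _⟩
      have h4 : y ∈ CD P ⊔ P := by rwa [sup_comm]
      obtain ⟨a, ha, r, hr, rfl⟩ := mem_mul_of_sup (K := CD P) (R := P) (fun r hr x hx =>
        (NDAux.conj_CD_iff (Subgroup.le_normalizer hr)).1 hx) h4
      refine ⟨r, hr, ?_⟩
      have h5 := (NDAux.conj_CD_iff (D := P) (x := a)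
        (Subgroup.le_normalizer (P.inv_mem hr))).1 ha
      rw [inv_inv] at h5
      rwa [← mul_assoc]
    rw [h3]
    exact Subgroup.relIndex_dvd_card _ _
  obtain ⟨N, hN⟩ := IsPGroup.iff_card.1 hP
  have h4 : Nat.Coprime m ((CD P).relIndex (P ⊔ CD P)) := by
    rw [hN] at h2
    exact Nat.Coprime.coprime_dvd_right h2
      (Nat.Coprime.pow_right N ((hp.coprime_iff_not_dvd).2 hm).symm)
  rw [← h1] at h
  exact h4.dvd_of_dvd_mul_left h

end

end Pool.Agent.Lib.P0c8ca5.Ku
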