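import Mathlib
import Pool.Agent.Lib.P0c8ca5Ku.Lc
import Pool.Agent.Lib.P0c8ca5Kk.Kzc
import Pool.Agent.Lib.P0c8ca5Ex.N2b
import Pool.Agent.Lib.P0c8ca5Ex.Wa

/-!
# Ld: Navarro's equality for blocks of small inertial index

`G` is normal in `A`, `A / G` a p-group, `e` a block of `G` which is invariant under `A`, `(P, f)` a maximal pair of `e` in
`A`, and `P ∩ G` is abelian. `nav_ind`: Navarro's equality if the inertial index `|St(P, f) : P C(P)|` is less than `p`.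
-/

set_option autoImplicit false
set_option linter.unusedSectionVars false

namespace Pool.Agent.Lib.P0c8ca5.Ku

open MonoidAlgebra Ex Rk Kk Kk.KgAux Kk.KxAux Kk.KxaAux Kk.KxbAux

universe u v

section
variable {p : ℕ} {k : Type v} [Field k] {A : Type u} [Group A] [Fintype A]
variable [Fact p.Prime] [CharP k p] [IsAlgClosed k]
variable {b c e f : MonoidAlgebra k A} {G H P : Subgroup A} {σ : Finset (Subgroup A)}

/-- the inertial index is the same for all maximal pairs -/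
theorem ind_conj (heT : IsBlock (⊤ : Subgroup A) e) (hP : IsDefectGroup p (⊤ : Subgroup A) e P)
    (hf : IsBlock (CD P) f) (hef : resS (CD P : Set A) e * f = f) {P' : Subgroup A}
    {f' : MonoidAlgebra k A} (hP' : IsDefectGroup p (⊤ : Subgroup A) e P')
    (hf' : IsBlock (CD P') f') (hef' : resS (CD P' : Set A) e * f' = f') :
    ∃ g : A, P' = cg g P ∧ St P' f' = cg g (St P f) := by
  obtain ⟨g, rfl⟩ := defect_conj heT hP hP'
  have he' : InvBy (⊤ : Subgroup A) e := heT.invBy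
  have h1 : IsBlock (CD (cg g P)) (cj g f) := by
    rw [← FuAux.cg_CD]
    exact isBlock_cg hf g
  have h2 : resS (CD (cg g P) : Set A) e * cj g f = cj g f := by
    have h3 := congrArg (cj g) hef
    rw [cj_mul, ← WaAux.resS_cj_cg, ← WaAux.CD_cg, invBy_iff_cj.1 he' g (Subgroup.mem_top g)] at h3
    exact h3
  obtain ⟨n, -, hn, hnf⟩ := fm heT hP' le_top h1 hf' h2 hef'
  refine ⟨n * g, ?_, ?_⟩
  · rw [← cg_cg]
    exact (cg_eq_self_iff.2 hn).symm
  · ext x
    have h3 : ∀ h : A, ∀ x : A, x ∈ St (cg h P) (cj h f) ↔ h⁻¹ * x * h ∈ St P f := by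
      intro h x
      rw [mem_St, mem_St, ← cg_normalizer, mem_cg]
      refine and_congr_right fun _ => ?_
      rw [cj_cj]
      constructor
      · intro h4
        rw [mul_assoc, ← cj_cj, h4, cj_cj, inv_mul_cancel]
        exact (Subgroup.one_mem (St P f)).2
      · intro h4
        have h5 : x * h = h * (h⁻¹ * x * h) := by group
        rw [h5, ← cj_cj, h4]
    have h4 := h3 (n * g) x
    rw [← cj_cj, hnf, ← cg_cg, cg_eq_self_iff.2 hn] at h4
    rw [h4, mem_cg]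

theorem exists_root' [Fintype ↥H] {D : Subgroup A} (hb : IsBlock H b)
    (hD : IsDefectGroup p H b D) (hcom : ∀ x ∈ D, ∀ y ∈ D, x * y = y * x) :
    ∃ f : MonoidAlgebra k A, IsBlock (H ⊓ CD D) f ∧ resS (CD D : Set A) b * f = f ∧
      Root p (dn H b) (D.subgroupOf H) (dn H f) := by
  have hDH : D ≤ H := hD.le
  have hDp := hD.isPGroup
  have hN : H ⊓ CD D ≤ Subgroup.normalizer (D : Set A) :=
    inf_le_right.trans (Subgroup.centralizer_le_normalizer _)
  obtain ⟨f, hf, hbf⟩ := exists_blk (K := H ⊓ CD D) (e := resS (CD D : Set A) b)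
    (mem_fixAlg.2 ⟨resS_suppIn' hb.suppIn, invBy_res (hb.invBy.mono inf_le_left) hN⟩)
    (by rw [← resS_mul hDp (hb.invBy.mono hDH) (hb.invBy.mono hDH), hb.idem])
    (ne_of_hasBr hD.br)
  exact ⟨f, hf, hbf, root_dn H hb hD hcom hf hbf⟩

/-- **the inertial indices of the local blocks** divide the inertial index -/
theorem chain_ind (hG : G.Normal) (hp : ∀ x : A, ∃ n : ℕ, x ^ p ^ n ∈ G)
    (he : IsBlock G e) (hinv : InvBy ⊤ e) (hP : IsDefectGroup p (⊤ : Subgroup A) e P)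
    (hcom : ∀ x ∈ P ⊓ G, ∀ y ∈ P ⊓ G, x * y = y * x)
    (hf : IsBlock (CD P) f) (hef : resS (CD P : Set A) e * f = f)
    (hne : σ.Nonempty) (hσ : IsChain (· ≤ ·) (σ : Set (Subgroup A)))
    (hσS : ∀ Q ∈ σ, Q ∈ Supp p G ⊤) (hb : IsBlock (G ⊓ stab ⊤ σ) b)
    (hbe : b * cS (σ.sup id) e ≠ 0) {D : Subgroup A}
    (hD : IsDefectGroup p (G ⊓ stab ⊤ σ) b D) {d : MonoidAlgebra k A}
    (hd : IsBlock (G ⊓ stab ⊤ σ ⊓ CD D) d) (hbd : resS (CD D : Set A) b * d = d) :
    (CD D).relIndex (G ⊓ stab ⊤ σ ⊓ St D d) ∣ (CD P).relIndex (St P f) := by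
  have heT : IsBlock (⊤ : Subgroup A) e := isBlock_up' le_top
    (by rw [Subgroup.normalizer_eq_top]) (fun x _ => hp x) he hinv
  have hGc : ∀ g : A, cg g G = G := fun g => cg_eq_self_iff.2 (by
    rw [Subgroup.normalizer_eq_top]
    exact Subgroup.mem_top g)
  have hmem : ∀ g x : A, x ∈ cg g P ⊓ G ↔ g⁻¹ * x * g ∈ P ⊓ G := by
    intro g x
    conv_lhs => rw [← hGc g]
    rw [Subgroup.mem_inf, mem_cg, mem_cg, Subgroup.mem_inf]
  have hab : ∀ P', IsDefectGroup p (⊤ : Subgroup A) e P' →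
      ∀ x ∈ P' ⊓ G, ∀ y ∈ P' ⊓ G, x * y = y * x := by
    intro P' hP'
    obtain ⟨g, rfl⟩ := defect_conj heT hP hP'
    intro x hx y hy
    have h1 := hcom _ ((hmem g x).1 hx) _ ((hmem g y).1 hy)
    calc x * y = g * ((g⁻¹ * x * g) * (g⁻¹ * y * g)) * g⁻¹ := by group
      _ = g * ((g⁻¹ * y * g) * (g⁻¹ * x * g)) * g⁻¹ := by rw [h1]
      _ = y * x := by group
  have hSσ : σ.sup id ∈ σ := sup_mem_chain hne hσ
  have hSp : IsPGroup p (σ.sup id : Subgroup A) := (hσS _ hSσ).2.1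
  have hDN : D ≤ Subgroup.normalizer (σ.sup id : Subgroup A) := fun x hx =>
    (mem_H (hD.le hx)).2 _ hSσ
  have hDSp : IsPGroup p (D ⊔ σ.sup id : Subgroup A) :=
    hD.isPGroup.to_sup_of_normal_right' hSp hDN
  have hDG : D ≤ G := hD.le.trans inf_le_left
  obtain ⟨c, hc, hec, hy⟩ := exists_cover hG hp he hinv hP hcom hne hσ hσS hb hbe hD hd hbd
  have hGR : G ⊔ (D ⊔ σ.sup id) = ⊤ := by
    refine top_le_iff.1 ((hσS _ hSσ).2.2.ge.trans ?_)
    exact sup_le_sup_left le_sup_right G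
  obtain ⟨P', f', hP', hRP', hf', hef', hz⟩ := ext_top hG heT hab hDSp hGR hc hec
  obtain ⟨g, rfl, hSt⟩ := ind_conj heT hP hf hef hP' hf' hef'
  have h1 : (CD D).relIndex (G ⊓ stab ⊤ σ ⊓ St D d) ∣ (CD (cg g P)).relIndex (St (cg g P) f') := by
    refine relIndex_dvd_of_act (le_sup_left.trans hRP')
      (fun x hx => (Subgroup.mem_inf.1 hx).2.1) (fun x hx => hx.1) fun y hyM => ?_
    obtain ⟨y', hy', hyv⟩ := hy y hyM
    obtain ⟨z, hz', hzv⟩ := hz y' hy'
    exact ⟨z, hz', fun v hv => (hzv v (Subgroup.mem_inf.2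
      ⟨Subgroup.mem_sup_left hv, hDG hv⟩)).trans (hyv v hv)⟩
  rw [hSt, WaAux.CD_cg] at h1
  have h2 : (cg g (CD P)).relIndex (cg g (St P f)) = (CD P).relIndex (St P f) :=
    Subgroup.relIndex_map_map_of_injective _ _ (MulAut.conj g).injective
  rwa [h2] at h1

/-- **Theorem I: small inertial index** -/
theorem nav_ind (hG : G.Normal) (hp : ∀ x : A, ∃ n : ℕ, x ^ p ^ n ∈ G)
    (he : IsBlock G e) (hinv : InvBy ⊤ e) (hP : IsDefectGroup p (⊤ : Subgroup A) e P)
    (hcom : ∀ x ∈ P ⊓ G, ∀ y ∈ P ⊓ G, x * y = y * x)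
    (hf : IsBlock (CD P) f) (hef : resS (CD P : Set A) e * f = f)
    (hI : (P ⊔ CD P).relIndex (St P f) < p) : NavarroEq p G ⊤ e := by
  classical
  have heT : IsBlock (⊤ : Subgroup A) e := isBlock_up' le_top
    (by rw [Subgroup.normalizer_eq_top]) (fun x _ => hp x) he hinv
  have hGc : ∀ g : A, cg g G = G := fun g => cg_eq_self_iff.2 (by
    rw [Subgroup.normalizer_eq_top]
    exact Subgroup.mem_top g)
  have hmem : ∀ g x : A, x ∈ cg g P ⊓ G ↔ g⁻¹ * x * g ∈ P ⊓ G := by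
    intro g x
    conv_lhs => rw [← hGc g]
    rw [Subgroup.mem_inf, mem_cg, mem_cg, Subgroup.mem_inf]
  have hab : ∀ P', IsDefectGroup p (⊤ : Subgroup A) e P' →
      ∀ x ∈ P' ⊓ G, ∀ y ∈ P' ⊓ G, x * y = y * x := by
    intro P' hP'
    obtain ⟨g, rfl⟩ := defect_conj heT hP hP'
    intro x hx y hy
    have h1 := hcom _ ((hmem g x).1 hx) _ ((hmem g y).1 hy)
    calc x * y = g * ((g⁻¹ * x * g) * (g⁻¹ * y * g)) * g⁻¹ := by group
      _ = g * ((g⁻¹ * y * g) * (g⁻¹ * x * g)) * g⁻¹ := by rw [h1]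
      _ = y * x := by group
  refine navarro_of_baw le_top (by rw [Subgroup.normalizer_eq_top]) (fun x _ => hp x) he hinv ?_
  intro σ hne hσ hσS b hb hbe
  set H := G ⊓ stab ⊤ σ with hH
  have : Fintype ↥H := Fintype.ofFinite _
  obtain ⟨D, hD, -⟩ := exists_defect (p := p) (N := H) (P := ⊥) bot_le (IsPGroup.of_bot)
    (by
      obtain ⟨x, hx⟩ : ∃ x, b.coeff x ≠ 0 := by
        by_contra hcon
        push Not at hcon
        apply hb.ne_zero
        ext x
        exact hcon x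
      refine ⟨x, ?_, hx⟩
      rw [Subgroup.mem_centralizer_iff]
      intro y hy
      have h1 : y = 1 := Subgroup.mem_bot.1 hy
      rw [h1, one_mul, mul_one])
  have hSσ : σ.sup id ∈ σ := sup_mem_chain hne hσ
  have hSp : IsPGroup p (σ.sup id : Subgroup A) := (hσS _ hSσ).2.1
  have hDN : D ≤ Subgroup.normalizer (σ.sup id : Subgroup A) := fun x hx =>
    (mem_H (hD.le hx)).2 _ hSσ
  have hDSp : IsPGroup p (D ⊔ σ.sup id : Subgroup A) :=
    hD.isPGroup.to_sup_of_normal_right' hSp hDN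
  have hDG : D ≤ G := hD.le.trans inf_le_left
  -- `D` is abelian
  have hDe : HasBr D e :=
    hasBr_of_chain_block le_top he hinv hne hσ hσS hb hbe hD.isPGroup hD.le hD.br
  obtain ⟨P₂, hP₂, hDP₂⟩ := exists_defect (p := p) (N := ⊤) le_top hD.isPGroup hDe
  have hDcom : ∀ x ∈ D, ∀ y ∈ D, x * y = y * x := fun x hx y hy =>
    hab P₂ hP₂ x (Subgroup.mem_inf.2 ⟨hDP₂ hx, hDG hx⟩) y (Subgroup.mem_inf.2 ⟨hDP₂ hy, hDG hy⟩)
  obtain ⟨d, hd, hbd, hroot⟩ := exists_root' hb hD hDcom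
  have hds : SuppIn H d := fun x hx => (Subgroup.mem_inf.1 (hd.suppIn x hx)).1
  have h1 := chain_ind hG hp he hinv hP hcom hf hef hne hσ hσS hb hbe hD hd hbd
  rw [← hH, ← eN_dn H hD.le hds] at h1
  have h2 := dvd_ind hP.isPGroup (sup_le (le_St hf) (CD_le_StR hf)) (ndvd hroot) h1
  have h3 : eN (D.subgroupOf H) (dn H d) < p :=
    lt_of_le_of_lt (Nat.le_of_dvd (Nat.pos_of_ne_zero Subgroup.index_ne_zero_of_finite) h2) hI
  refine nav_of_gap hb ?_
  by_cases hp2 : p = 2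
  · refine Ex.gap_one hroot ?_
    have h4 := eN_pos (D.subgroupOf H) (dn H d)
    omega
  · exact gap_lt_p hp2 hroot h3

end

end Pool.Agent.Lib.P0c8ca5.Ku
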