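import Mathlib
import Pool.Agent.Lib.P0c8ca5Ku.Li
import Pool.Agent.Lib.P0c8ca5Kk.Kze
import Pool.Agent.Lib.P0c8ca5Kk.Kzk

/-!
# Lj: the normalizers of the lines in the inertial quotients of the local blocks

`G` is normal in `A`, `A / G` a p-group, `e` a block of `G` which is invariant under `A`, `(P, f)` a
maximal pair of `e` in `A`, `P ∩ G` is abelian, `E = St(P, f) / P C(P)`, `Z = Z(P) ∩ G`.

* `nav_lines`: the weight conjecture for the blocks of the stabilizers of the chains, with the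
  conditions `LineOK` on the lines of the defect group.
* `nav_line`: if `n ≥ 1`, `|E| < p ^ (n + 1)`, `E` acts faithfully on the `p ^ n`-th powers of `Z`
  and `|N_E(L)| < p - 1` for the subgroups `L` of order `p` of `Z`, then Navarro's equality holds for
  `(G, A, e)`.
-/

set_option autoImplicit false
set_option linter.unusedSectionVars false

namespace Pool.Agent.Lib.P0c8ca5.Ku

open MonoidAlgebra Ex Rk Kk Kk.KgAux Kk.KxAux Kk.KxaAux Kk.KxbAux Kk.KybAux FinAux

universe u v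

/-- the normalizer of the group generated by `x` -/
abbrev NZ {A : Type*} [Group A] (x : A) : Subgroup A :=
  Subgroup.normalizer (Subgroup.zpowers x : Set A)

theorem mem_NZ {A : Type*} [Group A] [Finite A] {x g : A} :
    g ∈ NZ x ↔ g * x * g⁻¹ ∈ Subgroup.zpowers x := by
  constructor
  · intro h
    exact (Subgroup.mem_normalizer_iff.1 h x).1 (Subgroup.mem_zpowers x)
  · intro h1
    have h2 : (Subgroup.zpowers x).map (MulAut.conj g).toMonoidHom ≤ Subgroup.zpowers x := by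
      rw [MonoidHom.map_zpowers, Subgroup.zpowers_le]
      exact h1
    have h3 : (Subgroup.zpowers x).map (MulAut.conj g).toMonoidHom = Subgroup.zpowers x := by
      apply Subgroup.eq_of_le_of_card_ge h2
      exact (Subgroup.card_map_of_injective (MulAut.conj g).injective).ge
    refine Subgroup.mem_normalizer_iff.2 fun y => ?_
    constructor
    · intro hy
      have h4 : g * y * g⁻¹ ∈ (Subgroup.zpowers x).map (MulAut.conj g).toMonoidHom :=
        ⟨y, hy, rfl⟩
      exact h2 h4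
    · intro hy
      have hy' : g * y * g⁻¹ ∈ Subgroup.zpowers x := hy
      rw [← h3] at hy'
      obtain ⟨z, hz, hzy⟩ := hy'
      have h5 : g * z * g⁻¹ = g * y * g⁻¹ := hzy
      have h6 : z = y := mul_left_cancel (mul_right_cancel h5)
      rw [← h6]
      exact hz

/-- the condition on the line generated by `x`: the stabilizer of `x` is trivial or the normalizer
of the line has order less than `p - 1`. `N` is the trivial part. -/
def LineOK {A : Type*} [Group A] (p : ℕ) (N S : Subgroup A) (x : A) : Prop :=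
  N.relIndex (S ⊓ C1 x) = 1 ∨ N.relIndex (S ⊓ NZ x) + 1 < p

section
variable {p : ℕ} {k : Type v} [Field k] {A : Type u} [Group A] [Fintype A]
variable [Fact p.Prime] [CharP k p] [IsAlgClosed k]
variable {b c e f d : MonoidAlgebra k A} {G H S P D : Subgroup A}

/-- **Navarro's equality for `(G, A, e)`**, with the lines -/
theorem nav_lines (hG : G.Normal) (hp : ∀ x : A, ∃ n : ℕ, x ^ p ^ n ∈ G)
    (he : IsBlock G e) (hinv : InvBy ⊤ e) (hP : IsDefectGroup p (⊤ : Subgroup A) e P)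
    (hcom : ∀ x ∈ P ⊓ G, ∀ y ∈ P ⊓ G, x * y = y * x)
    (hf : IsBlock (CD P) f) (hef : resS (CD P : Set A) e * f = f)
    (hline : ∀ z ∈ P ⊓ G ⊓ CD P, z ^ p = 1 → z ≠ 1 → LineOK p (P ⊔ CD P) (St P f) z)
    (hloc : ∀ (H D : Subgroup A) (b d : MonoidAlgebra k A) (g : A) [Fintype ↥H], D ≤ H →
      SuppIn H d → Root p (dn H b) (D.subgroupOf H) (dn H d) → D ≤ cg g (P ⊓ G) →
      ActBy p H D (cg g (P ⊓ G ⊓ CD P)) (cg g (St P f)) d →
      (∀ x ∈ D.subgroupOf H, x ≠ 1 →
        LineOK p (CD (D.subgroupOf H)) (St (D.subgroupOf H) (dn H d)) x) →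
      gap p (⊤ : Subgroup ↥H) ⊤ (dn H b) = 0) :
    NavarroEq p G ⊤ e := by
  classical
  have hPp := hP.isPGroup
  refine nav_actQ hG hp he hinv hP hcom hf hef ?_
  intro H D Q b d g _ hDH hds hroot hDP hA hQ hDZ hQD hWQ
  refine hloc H D b d g hDH hds hroot hDP hA ?_
  have hDp : IsPGroup p ↥D := by
    have h1 : IsPGroup p ↥(cg g (P ⊓ G)) := (hPp.to_le inf_le_left).map _
    exact h1.to_le hDP
  have hDcom : ∀ x ∈ D, ∀ y ∈ D, x * y = y * x := by
    intro x hx y hy
    have h1 := hcom _ (mem_cg.1 (hDP hx)) _ (mem_cg.1 (hDP hy))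
    calc x * y = g * ((g⁻¹ * x * g) * (g⁻¹ * y * g)) * g⁻¹ := by group
      _ = g * ((g⁻¹ * y * g) * (g⁻¹ * x * g)) * g⁻¹ := by rw [h1]
      _ = y * x := by group
  have hSt : ∀ x : ↥H, x ∈ St (D.subgroupOf H) (dn H d) ↔ (x : A) ∈ H ⊓ St D d := by
    intro x
    rw [St_subgroupOf hDH hds, Subgroup.mem_subgroupOf]
  have hCD : CD (D.subgroupOf H) = (CD D).subgroupOf H := by
    ext x
    rw [CD_subgroupOf hDH, Subgroup.mem_subgroupOf, Subgroup.mem_subgroupOf, Subgroup.mem_inf]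
    exact ⟨fun h => h.2, fun h => ⟨x.2, h⟩⟩
  have hconj : ∀ x z : A, x * z = z * x ↔
      (g⁻¹ * x * g) * (g⁻¹ * z * g) = (g⁻¹ * z * g) * (g⁻¹ * x * g) := by
    intro x z
    constructor
    · intro h
      calc (g⁻¹ * x * g) * (g⁻¹ * z * g) = g⁻¹ * (x * z) * g := by group
        _ = g⁻¹ * (z * x) * g := by rw [h]
        _ = (g⁻¹ * z * g) * (g⁻¹ * x * g) := by group
    · intro h
      calc x * z = g * ((g⁻¹ * x * g) * (g⁻¹ * z * g)) * g⁻¹ := by group
        _ = g * ((g⁻¹ * z * g) * (g⁻¹ * x * g)) * g⁻¹ := by rw [h]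
        _ = z * x := by group
  intro u hu hu1
  have huD : (u : A) ∈ D := Subgroup.mem_subgroupOf.1 hu
  have hu1' : (u : A) ≠ 1 := fun h => hu1 (Subtype.ext h)
  obtain ⟨z, hzD, hzQ, hzp, hz1, hzs⟩ := line_of_cent hDp hQ hDcom hQD hWQ huD hu1'
  have hzZ : z ∈ cg g (P ⊓ G ⊓ CD P) := by
    rw [← hDZ]
    exact Subgroup.mem_inf.2 ⟨hzD, hzQ⟩
  set w : A := g⁻¹ * z * g with hw
  have hwZ : w ∈ P ⊓ G ⊓ CD P := mem_cg.1 hzZ
  have hwp : w ^ p = 1 := by
    have h1 := conj_pow (a := g⁻¹) (b := z) (i := p)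
    rw [inv_inv] at h1
    rw [hw, h1, hzp]
    group
  have hw1 : w ≠ 1 := by
    intro h
    apply hz1
    calc z = g * w * g⁻¹ := by rw [hw]; group
      _ = 1 := by rw [h]; group
  -- the transfer of an index
  have key : ∀ (M R : Subgroup A), M ≤ H ⊓ St D d → P ⊔ CD P ≤ St P f ⊓ R →
      (∀ y ∈ M, ∀ s ∈ cg g (St P f), (∀ v ∈ D, s * v * s⁻¹ = y * v * y⁻¹) → s ∈ cg g R) →
      (CD D).relIndex M ≤ (P ⊔ CD P).relIndex (St P f ⊓ R) := by
    intro M R hM hle hMR
    have h1 : (CD D).relIndex M ∣ (CD (cg g P)).relIndex (cg g (St P f ⊓ R)) := by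
      refine relIndex_dvd_of_act (hDP.trans (cg_le_cg inf_le_left))
        (fun x hx => (Subgroup.mem_inf.1 (hM hx)).2.1) ?_ ?_
      · rw [← cg_normalizer]
        exact cg_le_cg fun x hx => (mem_St.1 (Subgroup.mem_inf.1 hx).1).1
      · intro y hy
        obtain ⟨s, hs, hsy⟩ := hA.act y (hM hy)
        refine ⟨s, ?_, hsy⟩
        rw [cg_inf]
        exact Subgroup.mem_inf.2 ⟨hs, hMR y hy s hs hsy⟩
    rw [← FuAux.cg_CD] at h1
    have h2 : (cg g (CD P)).relIndex (cg g (St P f ⊓ R)) = (CD P).relIndex (St P f ⊓ R) :=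
      Subgroup.relIndex_map_map_of_injective _ _ (MulAut.conj g).injective
    rw [h2] at h1
    have h3 : ¬ p ∣ (CD D).relIndex M := by
      intro h4
      have h5 := Ku.ndvd hroot
      rw [eN_dn H hDH hds] at h5
      exact h5 (h4.trans (relIndex_dvd_of_le_right hM
        (fun x hx => NDAux.N_le_NC (Subgroup.mem_inf.1 hx).2.1)))
    exact Nat.le_of_dvd (Nat.pos_of_ne_zero Subgroup.index_ne_zero_of_finite)
      (dvd_ind hPp hle h3 h1)
  have hcomPC : ∀ x ∈ P ⊔ CD P, x * w = w * x := fun x hx => com_PC hx hwZ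
  have hsub : P ⊔ CD P ≤ St P f := sup_le (le_St hf) (CD_le_StR hf)
  rcases hline w hwZ hwp hw1 with h1 | h1
  · left
    have e3 : St (D.subgroupOf H) (dn H d) ⊓ C1 u
        = (H ⊓ St D d ⊓ C1 (u : A)).subgroupOf H := by
      ext x
      constructor
      · rintro ⟨h9, h10⟩
        exact Subgroup.mem_subgroupOf.2 (Subgroup.mem_inf.2 ⟨(hSt x).1 h9,
          Subgroup.mem_centralizer_singleton_iff.2
            (congrArg Subtype.val (Subgroup.mem_centralizer_singleton_iff.1 h10))⟩)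
      · intro h9
        obtain ⟨h10, h11⟩ := Subgroup.mem_inf.1 (Subgroup.mem_subgroupOf.1 h9)
        exact ⟨(hSt x).2 h10, Subgroup.mem_centralizer_singleton_iff.2
          (Subtype.ext (Subgroup.mem_centralizer_singleton_iff.1 h11))⟩
    rw [hCD, e3, Subgroup.relIndex_subgroupOf (inf_le_left.trans inf_le_left)]
    have h2 := key (H ⊓ St D d ⊓ C1 (u : A)) (C1 w) inf_le_left
      (le_inf hsub fun x hx => Subgroup.mem_centralizer_singleton_iff.2 (hcomPC x hx)) (by
      intro y hy s hs hsy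
      obtain ⟨hyM, hyu⟩ := Subgroup.mem_inf.1 hy
      have h3 : y * (u : A) * y⁻¹ = (u : A) ^ (1 : ℤ) := by
        rw [zpow_one, mul_inv_eq_iff_eq_mul]
        exact Subgroup.mem_centralizer_singleton_iff.1 hyu
      have h4 := hzs y hyM 1 h3
      rw [zpow_one, ← hsy z hzD, mul_inv_eq_iff_eq_mul] at h4
      rw [mem_cg]
      exact Subgroup.mem_centralizer_singleton_iff.2 ((hconj s z).1 h4))
    rw [h1] at h2
    have h4 : (CD D).relIndex (H ⊓ St D d ⊓ C1 (u : A)) ≠ 0 :=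
      Subgroup.index_ne_zero_of_finite
    omega
  · right
    refine lt_of_le_of_lt (Nat.add_le_add_right ?_ 1) h1
    have e3 : St (D.subgroupOf H) (dn H d) ⊓ NZ u
        = (H ⊓ St D d ⊓ NZ (u : A)).subgroupOf H := by
      have h5 : ∀ x : ↥H, x * u * x⁻¹ ∈ Subgroup.zpowers u ↔
          (x : A) * u * (x : A)⁻¹ ∈ Subgroup.zpowers (u : A) := by
        intro x
        rw [Subgroup.mem_zpowers_iff, Subgroup.mem_zpowers_iff]
        constructor
        · rintro ⟨n, hn⟩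
          exact ⟨n, congrArg Subtype.val hn⟩
        · rintro ⟨n, hn⟩
          exact ⟨n, Subtype.ext hn⟩
      ext x
      constructor
      · rintro ⟨h9, h10⟩
        exact Subgroup.mem_subgroupOf.2 (Subgroup.mem_inf.2 ⟨(hSt x).1 h9,
          mem_NZ.2 ((h5 x).1 (mem_NZ.1 h10))⟩)
      · intro h9
        obtain ⟨h10, h11⟩ := Subgroup.mem_inf.1 (Subgroup.mem_subgroupOf.1 h9)
        exact ⟨(hSt x).2 h10, mem_NZ.2 ((h5 x).2 (mem_NZ.1 h11))⟩
    rw [hCD, e3, Subgroup.relIndex_subgroupOf (inf_le_left.trans inf_le_left)]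
    refine key (H ⊓ St D d ⊓ NZ (u : A)) (NZ w) inf_le_left
      (le_inf hsub fun x hx => mem_NZ.2 ?_) ?_
    · rw [hcomPC x hx, mul_inv_cancel_right]
      exact Subgroup.mem_zpowers w
    · intro y hy s hs hsy
      obtain ⟨hyM, hyu⟩ := Subgroup.mem_inf.1 hy
      obtain ⟨n, hn⟩ := Subgroup.mem_zpowers_iff.1 (mem_NZ.1 hyu)
      have h4 := hzs y hyM n hn.symm
      rw [← hsy z hzD] at h4
      rw [mem_cg]
      refine mem_NZ.2 ?_
      have h5 : g⁻¹ * s * g * w * (g⁻¹ * s * g)⁻¹ = g⁻¹ * (s * z * s⁻¹) * g := by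
        rw [hw]
        group
      rw [h5, h4]
      have h6 : g⁻¹ * z ^ n * g = w ^ n := by
        have h7 := conj_zpow (a := g⁻¹) (b := z) (i := n)
        rw [inv_inv] at h7
        rw [hw, h7]
      rw [h6]
      exact Subgroup.zpow_mem_zpowers _ _

/-- **Navarro's equality for `(G, A, e)`, small normalizers of lines** -/
theorem nav_line (hG : G.Normal) (hp : ∀ x : A, ∃ n : ℕ, x ^ p ^ n ∈ G)
    (he : IsBlock G e) (hinv : InvBy ⊤ e) (hP : IsDefectGroup p (⊤ : Subgroup A) e P)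
    (hcom : ∀ x ∈ P ⊓ G, ∀ y ∈ P ⊓ G, x * y = y * x)
    (hf : IsBlock (CD P) f) (hef : resS (CD P : Set A) e * f = f) {n : ℕ}
    (hE : (P ⊔ CD P).relIndex (St P f) < p ^ (n + 1))
    (hF : ∀ g ∈ St P f, (∀ y ∈ P ⊓ G ⊓ CD P, g * y ^ p ^ n = y ^ p ^ n * g) → g ∈ P ⊔ CD P)
    (hline : ∀ z ∈ P ⊓ G ⊓ CD P, z ^ p = 1 → z ≠ 1 → LineOK p (P ⊔ CD P) (St P f) z)
    (hk : ∀ {B : Type u} [Group B] [Fintype B] {b f : MonoidAlgebra k B} {D : Subgroup B},
      Root p b D f → Faith p n D f → eN D f < p ^ (n + 1) →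
      (∀ x ∈ D, x ≠ 1 → LineOK p (CD D) (St D f) x) → gap p (⊤ : Subgroup B) ⊤ b = 0) :
    NavarroEq p G ⊤ e := by
  classical
  refine nav_lines hG hp he hinv hP hcom hf hef hline ?_
  intro H D b d g _ hDH hds hroot hDP hA hlD
  set Z : Subgroup A := cg g (P ⊓ G ⊓ CD P) with hZ
  set S : Subgroup A := cg g (St P f) with hS
  have hSt : ∀ x : ↥H, x ∈ St (D.subgroupOf H) (dn H d) ↔ (x : A) ∈ H ⊓ St D d := by
    intro x
    rw [St_subgroupOf hDH hds, Subgroup.mem_subgroupOf]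
  have hCD : ∀ x : ↥H, x ∈ CD (D.subgroupOf H) ↔ (x : A) ∈ CD D := by
    intro x
    rw [CD_subgroupOf hDH, Subgroup.mem_subgroupOf, Subgroup.mem_inf]
    exact ⟨fun h => h.2, fun h => ⟨x.2, h⟩⟩
  have hconj : ∀ x z : A, x * z = z * x ↔
      (g⁻¹ * x * g) * (g⁻¹ * z * g) = (g⁻¹ * z * g) * (g⁻¹ * x * g) := by
    intro x z
    constructor
    · intro h
      calc (g⁻¹ * x * g) * (g⁻¹ * z * g) = g⁻¹ * (x * z) * g := by group
        _ = g⁻¹ * (z * x) * g := by rw [h]
        _ = (g⁻¹ * z * g) * (g⁻¹ * x * g) := by group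
    · intro h
      calc x * z = g * ((g⁻¹ * x * g) * (g⁻¹ * z * g)) * g⁻¹ := by group
        _ = g * ((g⁻¹ * z * g) * (g⁻¹ * x * g)) * g⁻¹ := by rw [h]
        _ = z * x := by group
  -- the elements of `P C(P)` centralize `Z`
  have hNZ : ∀ x ∈ cg g (P ⊔ CD P), ∀ z ∈ Z, x * z = z * x := by
    intro x hx z hz
    rw [mem_cg] at hx hz
    exact (hconj x z).2 (com_PC hx hz)
  -- the elements of `S` which act trivially on the powers are in `P C(P)`
  have hFS : ∀ x ∈ S, (∀ z ∈ Z, x * z ^ p ^ n = z ^ p ^ n * x) → x ∈ cg g (P ⊔ CD P) := by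
    intro x hx h
    rw [mem_cg] at hx ⊢
    refine hF _ hx fun y hy => ?_
    have h1 : g * y * g⁻¹ ∈ Z := by
      rw [hZ, mem_cg]
      have h2 : g⁻¹ * (g * y * g⁻¹) * g = y := by group
      rwa [h2]
    have h2 := (hconj _ _).1 (h _ h1)
    have h3 : g⁻¹ * (g * y * g⁻¹) ^ p ^ n * g = y ^ p ^ n := by
      rw [conj_pow]
      group
    rwa [h3] at h2
  refine hk hroot ?_ ?_ hlD
  · -- faithfulness
    intro x hx hxy
    rw [hCD]
    have hxM := (hSt x).1 hx
    obtain ⟨z, hz, hzx⟩ := hA.act _ hxM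
    refine hA.faith _ hxM fun w hw _ => ?_
    have h1 : z ∈ cg g (P ⊔ CD P) := by
      refine hFS z hz fun w hw => ?_
      have hwD : w ^ p ^ n ∈ D := D.pow_mem (hA.le hw) _
      refine (Kk.act_iff (x := z) (hzx _ hwD)).2 ?_
      exact congrArg Subtype.val (hxy ⟨w, hDH (hA.le hw)⟩ (Subgroup.mem_subgroupOf.2 (hA.le hw)))
    exact (Kk.act_iff (x := z) (hzx _ (hA.le hw))).1 (hNZ z h1 w hw)
  · -- the inertial index
    exact lt_of_le_of_lt (Nat.le_of_dvd
      (Nat.pos_of_ne_zero Subgroup.index_ne_zero_of_finite)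
      (eN_of_act hP.isPGroup hf hDH hds hroot hDP hA)) hE

end

end Pool.Agent.Lib.P0c8ca5.Ku
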