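import Mathlib
import Pool.Agent.Lib.P0c8ca5Ku.Lj
import Pool.Agent.Lib.P0c8ca5Kk.Kzg

/-!
# Lk: `nav_line` for a subgroup `X` that contains `G`

`nav_lineX`: the theorem of Lj for `(G, X, e)`.
-/

set_option autoImplicit false
set_option linter.unusedSectionVars false

namespace Pool.Agent.Lib.P0c8ca5.Ku

open MonoidAlgebra Ex Rk Kk Kk.KgAux Kk.KxAux Kk.KxaAux Kk.KxbAux Kk.KybAux FinAux

universe u v

section
variable {p : ℕ} {k : Type v} [Field k] {A : Type u} [Group A] [Fintype A]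
variable [Fact p.Prime] [CharP k p] [IsAlgClosed k]
variable {e f : MonoidAlgebra k A} {G X P : Subgroup A}

/-- `LineOK` in a subgroup -/
theorem lineOK_sub {N S : Subgroup A} (hSX : S ≤ X) {z : ↥X}
    (h : LineOK p N S (z : A)) : LineOK p (N.subgroupOf X) (S.subgroupOf X) z := by
  have e3 : S.subgroupOf X ⊓ C1 z = (S ⊓ C1 (z : A)).subgroupOf X := by
    ext x
    constructor
    · rintro ⟨h9, h10⟩
      exact Subgroup.mem_subgroupOf.2 (Subgroup.mem_inf.2 ⟨Subgroup.mem_subgroupOf.1 h9,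
        Subgroup.mem_centralizer_singleton_iff.2
          (congrArg Subtype.val (Subgroup.mem_centralizer_singleton_iff.1 h10))⟩)
    · intro h9
      obtain ⟨h10, h11⟩ := Subgroup.mem_inf.1 (Subgroup.mem_subgroupOf.1 h9)
      exact ⟨Subgroup.mem_subgroupOf.2 h10, Subgroup.mem_centralizer_singleton_iff.2
        (Subtype.ext (Subgroup.mem_centralizer_singleton_iff.1 h11))⟩
  have e4 : S.subgroupOf X ⊓ NZ z = (S ⊓ NZ (z : A)).subgroupOf X := by
    have h5 : ∀ x : ↥X, x * z * x⁻¹ ∈ Subgroup.zpowers z ↔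
        (x : A) * z * (x : A)⁻¹ ∈ Subgroup.zpowers (z : A) := by
      intro x
      rw [Subgroup.mem_zpowers_iff, Subgroup.mem_zpowers_iff]
      constructor
      · rintro ⟨n, hn⟩
        exact ⟨n, congrArg Subtype.val hn⟩
      · rintro ⟨n, hn⟩
        exact ⟨n, Subtype.ext hn⟩
    ext x
    constructor
    · rintro ⟨h9, h10⟩
      exact Subgroup.mem_subgroupOf.2 (Subgroup.mem_inf.2 ⟨Subgroup.mem_subgroupOf.1 h9,
        mem_NZ.2 ((h5 x).1 (mem_NZ.1 h10))⟩)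
    · intro h9
      obtain ⟨h10, h11⟩ := Subgroup.mem_inf.1 (Subgroup.mem_subgroupOf.1 h9)
      exact ⟨Subgroup.mem_subgroupOf.2 h10, mem_NZ.2 ((h5 x).2 (mem_NZ.1 h11))⟩
  rcases h with h | h
  · left
    rw [e3, Subgroup.relIndex_subgroupOf (inf_le_left.trans hSX)]
    exact h
  · right
    rw [e4, Subgroup.relIndex_subgroupOf (inf_le_left.trans hSX)]
    exact h

/-- **small normalizers of lines, `(G, X, e)`** -/
theorem nav_lineX (hGX : G ≤ X) (hX : X ≤ Subgroup.normalizer (G : Set A))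
    (hp : ∀ x ∈ X, ∃ n : ℕ, x ^ p ^ n ∈ G)
    (he : IsBlock G e) (hinv : InvBy X e) (hP : IsDefectGroup p X e P)
    (hcom : ∀ x ∈ P ⊓ G, ∀ y ∈ P ⊓ G, x * y = y * x)
    (hf : IsBlock (X ⊓ CD P) f) (hef : resS (CD P : Set A) e * f = f) {n : ℕ}
    (hE : (P ⊔ X ⊓ CD P).relIndex (X ⊓ St P f) < p ^ (n + 1))
    (hF : ∀ g ∈ X ⊓ St P f, (∀ y ∈ P ⊓ G ⊓ CD P, g * y ^ p ^ n = y ^ p ^ n * g) →
      g ∈ P ⊔ X ⊓ CD P)
    (hline : ∀ z ∈ P ⊓ G ⊓ CD P, z ^ p = 1 → z ≠ 1 →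
      LineOK p (P ⊔ X ⊓ CD P) (X ⊓ St P f) z)
    (hk : ∀ {B : Type u} [Group B] [Fintype B] {b f : MonoidAlgebra k B} {D : Subgroup B},
      Root p b D f → Faith p n D f → eN D f < p ^ (n + 1) →
      (∀ x ∈ D, x ≠ 1 → LineOK p (CD D) (St D f) x) → gap p (⊤ : Subgroup B) ⊤ b = 0) :
    NavarroEq p G X e := by
  have : Fintype ↥X := Fintype.ofFinite _
  have hPX : P ≤ X := hP.le
  have hfs : SuppIn X f := fun x hx => ((mem_fixAlg.1 hf.mem).1 x hx).1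
  obtain ⟨h1, h2, h3, h4, h5, h6, h7⟩ := data_dn hGX hX he hP hcom hf hef
  have e1 : P.subgroupOf X ⊔ CD (P.subgroupOf X) = (P ⊔ X ⊓ CD P).subgroupOf X := by
    rw [CD_subgroupOf hPX, ← Subgroup.subgroupOf_sup hPX inf_le_left]
  have e2 : St (P.subgroupOf X) (dn X f) = (X ⊓ St P f).subgroupOf X := St_subgroupOf hPX hfs
  have hZ : ∀ y : ↥X, y ∈ P.subgroupOf X ⊓ G.subgroupOf X ⊓ CD (P.subgroupOf X) ↔
      (y : A) ∈ P ⊓ G ⊓ CD P := by
    intro y
    rw [CD_subgroupOf hPX]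
    simp only [Subgroup.mem_inf, Subgroup.mem_subgroupOf]
    exact ⟨fun h => ⟨h.1, h.2.2⟩, fun h => ⟨h.1, y.2, h.2⟩⟩
  refine nav_dn hGX hX hp he hinv ?_
  refine nav_line (n := n) h1 (fun x => by
    obtain ⟨n, hn⟩ := hp x x.2
    exact ⟨n, Subgroup.mem_subgroupOf.2 hn⟩) h2 (fun g _ x => hinv g g.2 x) h3 h4 h5 h6
    (by rw [h7]; exact hE) ?_ ?_ hk
  · intro g hg h
    rw [e2, Subgroup.mem_subgroupOf] at hg
    rw [e1, Subgroup.mem_subgroupOf]
    refine hF g hg fun y hy => ?_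
    have hyX : y ∈ X := hPX (Subgroup.mem_inf.1 (Subgroup.mem_inf.1 hy).1).1
    exact congrArg Subtype.val (h ⟨y, hyX⟩ ((hZ _).2 hy))
  · intro z hz hzp hz1
    have h8 := hline z ((hZ z).1 hz) (congrArg Subtype.val hzp) (fun h => hz1 (Subtype.ext h))
    rw [e1, e2]
    exact lineOK_sub inf_le_left h8

end

end Pool.Agent.Lib.P0c8ca5.Ku
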