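import Mathlib
import Pool.Agent.Lib.P0c8ca5Ku.KE

/-!
# Lm: the commutator subgroup of an action of order prime to `p` on an abelian p-group

`W` normalizes the abelian p-group `D` and the index of `C_W(D)` in `W` is prime to `p`; `cmW D W` is
the subgroup generated by the elements `u⁻¹ (g u g⁻¹)`, `u ∈ D`, `g ∈ W`.

* `cmW_fix`: an element of `cmW D W` which commutes with `W` is trivial.
* `cmW_dec`: `D` is the product of `cmW D W` and of the subgroup of the elements that commute with `W`.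
-/

set_option autoImplicit false
set_option linter.unusedSectionVars false

namespace Pool.Agent.Lib.P0c8ca5.Ku

section
variable {T : Type*} [CommGroup T] [Finite T] {p : ℕ}

/-- `[T, E]` -/
def cmT (E : Subgroup (MulAut T)) : Subgroup T :=
  Subgroup.closure {w | ∃ ψ ∈ E, ∃ u : T, w = u⁻¹ * ψ u}

theorem cop_pow (hp : p.Prime) (hT : IsPGroup p T) {n : ℕ} (hn : ¬ p ∣ n) {x : T}
    (h : x ^ n = 1) : x = 1 := by
  obtain ⟨m, hm⟩ := hT x
  have h1 : orderOf x ∣ Nat.gcd n (p ^ m) :=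
    Nat.dvd_gcd (orderOf_dvd_of_pow_eq_one h) (orderOf_dvd_of_pow_eq_one hm)
  have h2 : Nat.gcd n (p ^ m) = 1 :=
    Nat.Coprime.pow_right m ((hp.coprime_iff_not_dvd.2 hn).symm)
  rw [h2, Nat.dvd_one, orderOf_eq_one_iff] at h1
  exact h1

/-- the norm -/
noncomputable def nmT (E : Subgroup (MulAut T)) [Fintype E] : T →* T where
  toFun u := ∏ α : E, (α : MulAut T) u
  map_one' := by
    refine Finset.prod_eq_one fun α _ => ?_
    rw [map_one]
  map_mul' u v := by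
    rw [← Finset.prod_mul_distrib]
    refine Finset.prod_congr rfl fun α _ => ?_
    rw [map_mul]

theorem nmT_fix (E : Subgroup (MulAut T)) [Fintype E] (u : T) {ψ : MulAut T} (hψ : ψ ∈ E) :
    ψ (nmT E u) = nmT E u := by
  change ψ (∏ α : E, (α : MulAut T) u) = ∏ α : E, (α : MulAut T) u
  rw [map_prod]
  exact Fintype.prod_equiv (Equiv.mulLeft (⟨ψ, hψ⟩ : E)) _ _ fun φ => rfl

theorem nmT_al (E : Subgroup (MulAut T)) [Fintype E] (u : T) {ψ : MulAut T} (hψ : ψ ∈ E) :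
    nmT E (ψ u) = nmT E u := by
  change ∏ α : E, (α : MulAut T) (ψ u) = ∏ α : E, (α : MulAut T) u
  exact Fintype.prod_equiv (Equiv.mulRight (⟨ψ, hψ⟩ : E)) _ _ fun φ => rfl

theorem nmT_of_fix (E : Subgroup (MulAut T)) [Fintype E] {u : T} (h : ∀ ψ ∈ E, ψ u = u) :
    nmT E u = u ^ Nat.card E := by
  change ∏ α : E, (α : MulAut T) u = _
  rw [Finset.prod_congr rfl fun (α : E) _ => h α α.2, Finset.prod_const, Finset.card_univ,
    Nat.card_eq_fintype_card]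

theorem cmT_fix (hp : p.Prime) (hT : IsPGroup p T) {E : Subgroup (MulAut T)} [Finite E]
    (hE : ¬ p ∣ Nat.card E) {x : T} (hx : x ∈ cmT E) (h : ∀ ψ ∈ E, ψ x = x) : x = 1 := by
  classical
  have := Fintype.ofFinite E
  have h1 : cmT E ≤ (nmT E).ker := by
    unfold cmT
    rw [Subgroup.closure_le]
    rintro w ⟨ψ, hψ, u, rfl⟩
    change nmT E (u⁻¹ * ψ u) = 1
    rw [map_mul, map_inv, nmT_al E u hψ, inv_mul_cancel]
  have h2 : nmT E x = 1 := h1 hx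
  rw [nmT_of_fix E h] at h2
  exact cop_pow hp hT hE h2

theorem cmT_dec (hp : p.Prime) (hT : IsPGroup p T) {E : Subgroup (MulAut T)} [Finite E]
    (hE : ¬ p ∣ Nat.card E) (u : T) : ∃ c y : T, u = c * y ∧ (∀ ψ ∈ E, ψ c = c) ∧ y ∈ cmT E := by
  classical
  have := Fintype.ofFinite E
  have h4 : (Nat.card E).Coprime (orderOf u) := by
    have hpf := Fact.mk hp
    obtain ⟨n, hn⟩ := IsPGroup.iff_orderOf.1 hT u
    rw [hn]
    exact Nat.Coprime.pow_right n ((hp.coprime_iff_not_dvd.2 hE).symm)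
  obtain ⟨m, hm⟩ := exists_pow_eq_self_of_coprime h4
  set d : T := ∏ φ : E, (u * ((φ : MulAut T) u)⁻¹) with hd
  have hdm : d ∈ cmT E := by
    refine Subgroup.prod_mem _ fun φ _ => ?_
    have h1 : (u⁻¹ * (φ : MulAut T) u)⁻¹ ∈ cmT E :=
      (cmT E).inv_mem (Subgroup.subset_closure ⟨φ, φ.2, u, rfl⟩)
    rwa [mul_inv_rev, inv_inv, mul_comm] at h1
  have h5 : u ^ Nat.card E = nmT E u * d := by
    change _ = (∏ α : E, (α : MulAut T) u) * d
    rw [hd, ← Finset.prod_mul_distrib]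
    rw [Finset.prod_congr rfl fun (φ : E) _ =>
      (show (φ : MulAut T) u * (u * ((φ : MulAut T) u)⁻¹) = u by
        rw [mul_comm u, mul_inv_cancel_left]), Finset.prod_const, Finset.card_univ,
      Nat.card_eq_fintype_card]
  refine ⟨(nmT E u) ^ m, d ^ m, ?_, fun ψ hψ => ?_, (cmT E).pow_mem hdm m⟩
  · rw [← mul_pow, ← h5, hm]
  · rw [map_pow, nmT_fix E u hψ]

end

section
variable {A : Type*} [Group A] [Finite A] {p : ℕ} {D W : Subgroup A}

/-- `[D, W]` -/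
def cmW (D W : Subgroup A) : Subgroup A :=
  Subgroup.closure {w | ∃ g ∈ W, ∃ u ∈ D, w = u⁻¹ * (g * u * g⁻¹)}

theorem cmW_mono {D D' W W' : Subgroup A} (hD : D ≤ D')
    (h : ∀ g ∈ W, ∃ g' ∈ W', ∀ u ∈ D, g' * u * g'⁻¹ = g * u * g⁻¹) : cmW D W ≤ cmW D' W' := by
  unfold cmW
  rw [Subgroup.closure_le]
  rintro w ⟨g, hg, u, hu, rfl⟩
  obtain ⟨g', hg', h1⟩ := h g hg
  exact Subgroup.subset_closure ⟨g', hg', u, hD hu, by rw [h1 u hu]⟩

theorem cmW_le (hW : ∀ g ∈ W, ∀ u ∈ D, g * u * g⁻¹ ∈ D) : cmW D W ≤ D := by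
  unfold cmW
  rw [Subgroup.closure_le]
  rintro w ⟨g, hg, u, hu, rfl⟩
  exact D.mul_mem (D.inv_mem hu) (hW g hg u hu)

theorem norm_of (hW : ∀ g ∈ W, ∀ u ∈ D, g * u * g⁻¹ ∈ D) :
    W ≤ Subgroup.normalizer (D : Set A) := by
  intro g hg
  refine Subgroup.mem_normalizer_iff.2 fun u => ⟨fun hu => hW g hg u hu, fun hu => ?_⟩
  have h1 := hW g⁻¹ (W.inv_mem hg) _ hu
  have h2 : g⁻¹ * (g * u * g⁻¹) * g⁻¹⁻¹ = u := by group
  rwa [h2] at h1

/-- the automorphisms induced by `W` -/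
theorem exists_auts [Fact p.Prime] (hW : ∀ g ∈ W, ∀ u ∈ D, g * u * g⁻¹ ∈ D)
    (hpW : ¬ p ∣ (Subgroup.centralizer (D : Set A)).relIndex W) :
    ∃ E : Subgroup (MulAut ↥D), ¬ p ∣ Nat.card E ∧
      (∀ ψ ∈ E, ∃ g ∈ W, ∀ u : ↥D, ((ψ u : ↥D) : A) = g * u * g⁻¹) ∧
      ∀ g ∈ W, ∃ ψ ∈ E, ∀ u : ↥D, ((ψ u : ↥D) : A) = g * u * g⁻¹ := by
  have hWn := norm_of hW
  let F : ↥W →* MulAut ↥D := (Subgroup.normalizerMonoidHom D).comp (Subgroup.inclusion hWn)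
  have hF : ∀ (g : ↥W) (u : ↥D), ((F g u : ↥D) : A) = g * u * (g : A)⁻¹ := fun g u => rfl
  refine ⟨F.range, ?_, ?_, ?_⟩
  · have hker : F.ker = (Subgroup.centralizer (D : Set A)).subgroupOf W := by
      ext g
      rw [MonoidHom.mem_ker, Subgroup.mem_subgroupOf, Subgroup.mem_centralizer_iff]
      constructor
      · intro h u hu
        have h1 := hF g ⟨u, hu⟩
        rw [h] at h1
        change u = g * u * (g : A)⁻¹ at h1
        rw [eq_mul_inv_iff_mul_eq] at h1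
        exact h1
      · intro h
        refine MulEquiv.ext fun u => Subtype.ext ?_
        rw [hF g u]
        change (g : A) * u * (g : A)⁻¹ = u
        rw [← h u u.2, mul_inv_cancel_right]
    have h1 : Nat.card F.range = (Subgroup.centralizer (D : Set A)).relIndex W := by
      rw [Subgroup.relIndex, ← hker, Subgroup.index_ker]
    rwa [h1]
  · rintro ψ ⟨g, rfl⟩
    exact ⟨g, g.2, hF g⟩
  · intro g hg
    exact ⟨F ⟨g, hg⟩, ⟨⟨g, hg⟩, rfl⟩, hF ⟨g, hg⟩⟩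

variable [Fact p.Prime]

theorem cmW_fix (hD : IsPGroup p D) (hDc : ∀ x ∈ D, ∀ y ∈ D, x * y = y * x)
    (hW : ∀ g ∈ W, ∀ u ∈ D, g * u * g⁻¹ ∈ D)
    (hpW : ¬ p ∣ (Subgroup.centralizer (D : Set A)).relIndex W) {x : A} (hx : x ∈ cmW D W)
    (h : ∀ g ∈ W, g * x = x * g) : x = 1 := by
  have hp : p.Prime := Fact.out
  let _ : CommGroup ↥D := { (inferInstance : Group ↥D) with
    mul_comm := fun a b => Subtype.ext (hDc a a.2 b b.2) }
  obtain ⟨E, hE, h1, h2⟩ := exists_auts hW hpW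
  have hle : cmW D W ≤ (cmT E).map D.subtype := by
    unfold cmW
    rw [Subgroup.closure_le]
    rintro w ⟨g, hg, u, hu, rfl⟩
    obtain ⟨ψ, hψ, h3⟩ := h2 g hg
    refine ⟨(⟨u, hu⟩ : ↥D)⁻¹ * ψ ⟨u, hu⟩, Subgroup.subset_closure ⟨ψ, hψ, _, rfl⟩, ?_⟩
    change u⁻¹ * ((ψ ⟨u, hu⟩ : ↥D) : A) = _
    rw [h3]
  obtain ⟨y, hy, rfl⟩ := hle hx
  have h4 : y = 1 := by
    refine cmT_fix hp hD hE hy fun ψ hψ => ?_
    obtain ⟨g, hg, h3⟩ := h1 ψ hψ
    refine Subtype.ext ?_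
    rw [h3 y]
    have h5 := h g hg
    change g * (y : A) = y * g at h5
    rw [h5, mul_inv_cancel_right]
  rw [h4]
  rfl

theorem cmW_dec (hD : IsPGroup p D) (hDc : ∀ x ∈ D, ∀ y ∈ D, x * y = y * x)
    (hW : ∀ g ∈ W, ∀ u ∈ D, g * u * g⁻¹ ∈ D)
    (hpW : ¬ p ∣ (Subgroup.centralizer (D : Set A)).relIndex W) {x : A} (hx : x ∈ D) :
    ∃ c ∈ D, ∃ y ∈ cmW D W, x = c * y ∧ ∀ g ∈ W, g * c = c * g := by
  have hp : p.Prime := Fact.out
  let _ : CommGroup ↥D := { (inferInstance : Group ↥D) with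
    mul_comm := fun a b => Subtype.ext (hDc a a.2 b b.2) }
  obtain ⟨E, hE, h1, h2⟩ := exists_auts hW hpW
  have hle : (cmT E).map D.subtype ≤ cmW D W := by
    unfold cmT
    rw [MonoidHom.map_closure, Subgroup.closure_le]
    rintro w ⟨w', ⟨ψ, hψ, u, rfl⟩, rfl⟩
    obtain ⟨g, hg, h3⟩ := h1 ψ hψ
    refine Subgroup.subset_closure ⟨g, hg, u, u.2, ?_⟩
    change (u : A)⁻¹ * ((ψ u : ↥D) : A) = _
    rw [h3]
  obtain ⟨c, y, h3, h4, h5⟩ := cmT_dec hp hD hE (⟨x, hx⟩ : ↥D)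
  refine ⟨c, c.2, y, hle ⟨y, h5, rfl⟩, congrArg Subtype.val h3, fun g hg => ?_⟩
  obtain ⟨ψ, hψ, h6⟩ := h2 g hg
  have h7 := h6 c
  rw [h4 ψ hψ] at h7
  rw [eq_mul_inv_iff_mul_eq] at h7
  exact h7.symm

end

end Pool.Agent.Lib.P0c8ca5.Ku
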