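import Mathlib
import Pool.Agent.Lib.P0c8ca5Ku.Lm

/-!
# Ln: similar actions

`D` abelian p-group, `W` normalizes `D` and acts on it as a group of order prime to `p`.

* `Sim D W D' W'`: an isomorphism of `cmW D W` with `cmW D' W'` that is compatible with the actions
  of `W` and `W'` up to the choice of the elements.
* `Sim.of_hom`: the image under a homomorphism with kernel in the subgroup of the elements of `D` that
  commute with `W`.
* `Sim.card_le`: the orders of the quotients by the centralizers.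
* `Sim.gen`: cyclic quotients.
-/

set_option autoImplicit false
set_option linter.unusedSectionVars false

namespace Pool.Agent.Lib.P0c8ca5.Ku

universe u v w

/-- `W` acts on the abelian p-group `D` as a group of order prime to `p` -/
structure Cop {A : Type*} [Group A] (p : ℕ) (D W : Subgroup A) : Prop where
  pg : IsPGroup p D
  com : ∀ x ∈ D, ∀ y ∈ D, x * y = y * x
  inv : ∀ g ∈ W, ∀ u ∈ D, g * u * g⁻¹ ∈ D
  cop : ¬ p ∣ (Subgroup.centralizer (D : Set A)).relIndex W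

section
variable {A : Type u} [Group A] [Finite A] {p : ℕ} [Fact p.Prime] {D W : Subgroup A}

theorem Cop.le (h : Cop p D W) : cmW D W ≤ D := cmW_le h.inv

theorem Cop.fix (h : Cop p D W) {x : A} (hx : x ∈ cmW D W) (hg : ∀ g ∈ W, g * x = x * g) :
    x = 1 := cmW_fix h.pg h.com h.inv h.cop hx hg

theorem Cop.dec (h : Cop p D W) {x : A} (hx : x ∈ D) :
    ∃ c ∈ D, ∃ y ∈ cmW D W, x = c * y ∧ ∀ g ∈ W, g * c = c * g :=
  cmW_dec h.pg h.com h.inv h.cop hx

/-- `cmW D W` is normalized by `W` -/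
theorem cmW_inv {D W : Subgroup A} (hinv : ∀ g ∈ W, ∀ u ∈ D, g * u * g⁻¹ ∈ D) {g : A}
    (hg : g ∈ W) {x : A} (hx : x ∈ cmW D W) : g * x * g⁻¹ ∈ cmW D W := by
  unfold cmW at hx
  induction hx using Subgroup.closure_induction with
  | mem x hx =>
    obtain ⟨h, hh, u, hu, rfl⟩ := hx
    refine Subgroup.subset_closure ⟨g * h * g⁻¹, W.mul_mem (W.mul_mem hg hh) (W.inv_mem hg),
      g * u * g⁻¹, hinv g hg u hu, ?_⟩
    group
  | one =>
    rw [mul_one, mul_inv_cancel]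
    exact one_mem _
  | mul x y _ _ hx hy =>
    have h1 : g * (x * y) * g⁻¹ = (g * x * g⁻¹) * (g * y * g⁻¹) := by group
    rw [h1]
    exact mul_mem hx hy
  | inv x _ hx =>
    have h1 : g * x⁻¹ * g⁻¹ = (g * x * g⁻¹)⁻¹ := by group
    rw [h1]
    exact inv_mem hx

/-- the action on `cmW D W` is faithful -/
theorem Cop.faith (h : Cop p D W) {g : A} (hg : g ∈ W)
    (hx : ∀ x ∈ cmW D W, g * x = x * g) : g ∈ Subgroup.centralizer (D : Set A) := by
  rw [Subgroup.mem_centralizer_iff]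
  intro u hu
  obtain ⟨c, -, y, hy, rfl, hc⟩ := h.dec hu
  calc c * y * g = c * (y * g) := by group
    _ = c * (g * y) := by rw [hx y hy]
    _ = (c * g) * y := by group
    _ = (g * c) * y := by rw [hc g hg]
    _ = g * (c * y) := by group

end

/-- similar actions -/
structure Sim {A : Type u} [Group A] {A' : Type v} [Group A'] (D W : Subgroup A)
    (D' W' : Subgroup A') where
  σ : ↥(cmW D W) ≃* ↥(cmW D' W')
  fw : ∀ g ∈ W, ∃ g' ∈ W', ∀ x y : ↥(cmW D W), (y : A) = g * x * g⁻¹ →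
    (σ y : A') = g' * σ x * g'⁻¹
  bw : ∀ g' ∈ W', ∃ g ∈ W, ∀ x y : ↥(cmW D W), (y : A) = g * x * g⁻¹ →
    (σ y : A') = g' * σ x * g'⁻¹

section
variable {A : Type u} [Group A] {A' : Type v} [Group A'] {A'' : Type w} [Group A'']
variable {D W : Subgroup A} {D' W' : Subgroup A'} {D'' W'' : Subgroup A''}

def Sim.refl (D W : Subgroup A) : Sim D W D W where
  σ := MulEquiv.refl _
  fw g hg := ⟨g, hg, fun _ _ h => h⟩
  bw g hg := ⟨g, hg, fun _ _ h => h⟩

def Sim.trans (s : Sim D W D' W') (t : Sim D' W' D'' W'') : Sim D W D'' W'' where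
  σ := s.σ.trans t.σ
  fw g hg := by
    obtain ⟨g', hg', h1⟩ := s.fw g hg
    obtain ⟨g'', hg'', h2⟩ := t.fw g' hg'
    exact ⟨g'', hg'', fun x y h => h2 _ _ (h1 x y h)⟩
  bw g'' hg'' := by
    obtain ⟨g', hg', h2⟩ := t.bw g'' hg''
    obtain ⟨g, hg, h1⟩ := s.bw g' hg'
    exact ⟨g, hg, fun x y h => h2 _ _ (h1 x y h)⟩

/-- the correspondence of two elements -/
def Sim.Rel (s : Sim D W D' W') (g : A) (g' : A') : Prop :=
  ∀ x y : ↥(cmW D W), (y : A) = g * x * g⁻¹ → (s.σ y : A') = g' * s.σ x * g'⁻¹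

theorem Sim.Rel.mul (s : Sim D W D' W') (hinv : ∀ g ∈ W, ∀ x ∈ cmW D W, g * x * g⁻¹ ∈ cmW D W)
    {g h : A} {g' h' : A'} (hh : h ∈ W) (h1 : s.Rel g g') (h2 : s.Rel h h') :
    s.Rel (g * h) (g' * h') := by
  intro x y hy
  have h3 := h2 x ⟨h * x * h⁻¹, hinv h hh x x.2⟩ rfl
  have h4 := h1 ⟨h * x * h⁻¹, hinv h hh x x.2⟩ y (by
    rw [hy]
    change g * h * x * (g * h)⁻¹ = g * (h * x * h⁻¹) * g⁻¹
    group)
  rw [h4, h3]
  group

theorem Sim.Rel.inv (s : Sim D W D' W') {g : A} {g' : A'} (h1 : s.Rel g g') :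
    s.Rel g⁻¹ g'⁻¹ := by
  intro x y hy
  have h3 := h1 y x (by
    rw [hy]
    group)
  rw [h3]
  group

theorem Sim.Rel.pow (s : Sim D W D' W') (hinv : ∀ g ∈ W, ∀ x ∈ cmW D W, g * x * g⁻¹ ∈ cmW D W)
    {g : A} {g' : A'} (hg : g ∈ W) (h1 : s.Rel g g') (n : ℕ) : s.Rel (g ^ n) (g' ^ n) := by
  induction n with
  | zero =>
    intro x y hy
    rw [pow_zero, one_mul, inv_one, mul_one] at hy
    have h2 : y = x := Subtype.ext hy
    rw [h2, pow_zero]
    group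
  | succ n ih =>
    rw [pow_succ, pow_succ]
    exact Sim.Rel.mul s hinv hg ih h1

/-- related elements fix corresponding elements -/
theorem Sim.Rel.fix_iff {s : Sim D W D' W'}
    (hinv : ∀ g ∈ W, ∀ x ∈ cmW D W, g * x * g⁻¹ ∈ cmW D W) {g : A} {g' : A'} (hg : g ∈ W)
    (h1 : s.Rel g g') (x : ↥(cmW D W)) (n : ℤ) :
    g' * s.σ x * g'⁻¹ = (s.σ x : A') ^ n ↔ g * x * g⁻¹ = (x : A) ^ n := by
  have h2 := h1 x ⟨g * x * g⁻¹, hinv g hg x x.2⟩ rfl
  rw [← h2]
  constructor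
  · intro h3
    have h4 : s.σ ⟨g * x * g⁻¹, hinv g hg x x.2⟩ = s.σ (x ^ n) := by
      refine Subtype.ext ?_
      rw [h3, map_zpow]
      rfl
    exact congrArg Subtype.val (s.σ.injective h4)
  · intro h3
    have h4 : (⟨g * x * g⁻¹, hinv g hg x x.2⟩ : ↥(cmW D W)) = x ^ n := Subtype.ext h3
    rw [h4, map_zpow]
    rfl

/-- related elements centralize corresponding elements -/
theorem Sim.Rel.com_iff {s : Sim D W D' W'}
    (hinv : ∀ g ∈ W, ∀ x ∈ cmW D W, g * x * g⁻¹ ∈ cmW D W) {g : A} {g' : A'} (hg : g ∈ W)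
    (h1 : s.Rel g g') (x : ↥(cmW D W)) :
    g' * s.σ x = (s.σ x : A') * g' ↔ g * x = (x : A) * g := by
  have h2 := Sim.Rel.fix_iff hinv hg h1 x 1
  rw [zpow_one, zpow_one, mul_inv_eq_iff_eq_mul, mul_inv_eq_iff_eq_mul] at h2
  exact h2

variable [Finite A] [Finite A'] {p : ℕ} [Fact p.Prime]

/-- the order of a quotient by the centralizer -/
theorem Sim.card_le (s : Sim D W D' W') (h : Cop p D W) (h' : Cop p D' W')
    {M : Subgroup A} {M' : Subgroup A'} (hM : M ≤ W) (hM' : M' ≤ W')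
    (hr : ∀ g' ∈ M', ∃ g ∈ M, s.Rel g g') :
    (Subgroup.centralizer (D' : Set A')).relIndex M' ≤
      (Subgroup.centralizer (D : Set A)).relIndex M := by
  classical
  have hinv : ∀ g ∈ W, ∀ x ∈ cmW D W, g * x * g⁻¹ ∈ cmW D W := fun g hg x hx =>
    cmW_inv h.inv hg hx
  choose! τ hτ using hr
  rw [Subgroup.relIndex, Subgroup.index, Subgroup.relIndex, Subgroup.index]
  refine Nat.card_le_card_of_injective (fun q => (QuotientGroup.mk
    (⟨τ (Quotient.out q : ↥M'), (hτ _ (Quotient.out q : ↥M').2).1⟩ : ↥M) :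
      ↥M ⧸ (Subgroup.centralizer (D : Set A)).subgroupOf M)) ?_
  intro q₁ q₂ hq
  have h1 := Subgroup.mem_subgroupOf.1 (QuotientGroup.eq.1 hq)
  set a : ↥M' := Quotient.out q₁ with ha
  set b : ↥M' := Quotient.out q₂ with hb
  have ea : (QuotientGroup.mk a : ↥M' ⧸ (Subgroup.centralizer (D' : Set A')).subgroupOf M') = q₁ :=
    Quotient.out_eq' q₁
  have eb : (QuotientGroup.mk b : ↥M' ⧸ (Subgroup.centralizer (D' : Set A')).subgroupOf M') = q₂ :=
    Quotient.out_eq' q₂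
  rw [← ea, ← eb]
  refine QuotientGroup.eq.2 (Subgroup.mem_subgroupOf.2 ?_)
  obtain ⟨ha1, ha2⟩ := hτ a a.2
  obtain ⟨hb1, hb2⟩ := hτ b b.2
  have h3 : s.Rel ((τ a)⁻¹ * τ b) ((a : A')⁻¹ * b) :=
    Sim.Rel.mul s hinv (hM hb1) (Sim.Rel.inv s ha2) hb2
  have h5 : (τ a)⁻¹ * τ b ∈ W := W.mul_mem (W.inv_mem (hM ha1)) (hM hb1)
  have h6 : (a : A')⁻¹ * b ∈ W' := W'.mul_mem (W'.inv_mem (hM' a.2)) (hM' b.2)
  refine h'.faith h6 fun x' hx' => ?_
  obtain ⟨x, hx⟩ := s.σ.surjective ⟨x', hx'⟩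
  have h4 := (Sim.Rel.com_iff hinv h5 h3 x).2 (by
    have h7 : (τ (a : A'))⁻¹ * τ b ∈ Subgroup.centralizer (D : Set A) := h1
    exact (Subgroup.mem_centralizer_iff.1 h7 x (h.le x.2)).symm)
  rw [hx] at h4
  exact h4

end

end Pool.Agent.Lib.P0c8ca5.Ku
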