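import Mathlib
import Pool.Agent.Lib.P0c8ca5Ku.Ln
import Pool.Agent.Lib.P0c8ca5Ku.Lk

/-!
# Lo: reduction to the case that no element `≠ 1` of the defect group is centralized by the inertial group

* `Sim.ofHom`, `Sim.symm`: similar actions from a homomorphism.
* `exists_red`: if for every central step there is a smaller similar block with the same gap, then there is a similar
  block with the same gap such that no element `≠ 1` of its defect group is centralized by the inertial group.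
-/

set_option autoImplicit false
set_option linter.unusedSectionVars false

namespace Pool.Agent.Lib.P0c8ca5.Ku

open MonoidAlgebra Ex Rk Kk Kk.KgAux Kk.KxAux Kk.KxaAux Kk.KxbAux Kk.KybAux FinAux

universe u v w

section
variable {A : Type u} [Group A] {A' : Type v} [Group A'] {D W : Subgroup A} {D' W' : Subgroup A'}

/-- the inverse -/
def Sim.symm (s : Sim D W D' W') (hinv : ∀ g ∈ W, ∀ x ∈ cmW D W, g * x * g⁻¹ ∈ cmW D W) :
    Sim D' W' D W where
  σ := s.σ.symm
  fw g' hg' := by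
    obtain ⟨g, hg, h1⟩ := s.bw g' hg'
    refine ⟨g, hg, fun x' y' h => ?_⟩
    have h2 := h1 (s.σ.symm x') ⟨g * s.σ.symm x' * g⁻¹, hinv g hg _ (s.σ.symm x').2⟩ rfl
    rw [MulEquiv.apply_symm_apply, ← h] at h2
    have h3 : (⟨g * s.σ.symm x' * g⁻¹, hinv g hg _ (s.σ.symm x').2⟩ : ↥(cmW D W))
        = s.σ.symm y' := by
      rw [MulEquiv.eq_symm_apply]
      exact Subtype.ext h2
    exact (congrArg Subtype.val h3).symm
  bw g hg := by
    obtain ⟨g', hg', h1⟩ := s.fw g hg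
    refine ⟨g', hg', fun x' y' h => ?_⟩
    have h2 := h1 (s.σ.symm x') ⟨g * s.σ.symm x' * g⁻¹, hinv g hg _ (s.σ.symm x').2⟩ rfl
    rw [MulEquiv.apply_symm_apply, ← h] at h2
    have h3 : (⟨g * s.σ.symm x' * g⁻¹, hinv g hg _ (s.σ.symm x').2⟩ : ↥(cmW D W))
        = s.σ.symm y' := by
      rw [MulEquiv.eq_symm_apply]
      exact Subtype.ext h2
    exact (congrArg Subtype.val h3).symm

/-- similar actions from a homomorphism -/
theorem Sim.ofHom [Finite A] {p : ℕ} [Fact p.Prime] (π : A →* A') (h : Cop p D W)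
    (hD : ∀ x', x' ∈ D' ↔ ∃ x ∈ D, π x = x')
    (hk : ∀ x ∈ D, π x = 1 → ∀ g ∈ W, g * x = x * g)
    (hfw : ∀ g ∈ W, ∃ g' ∈ W', ∀ u ∈ D, g' * π u * g'⁻¹ = π (g * u * g⁻¹))
    (hbw : ∀ g' ∈ W', ∃ g ∈ W, ∀ u ∈ D, g' * π u * g'⁻¹ = π (g * u * g⁻¹)) :
    Nonempty (Sim D W D' W') := by
  classical
  have h1 : ∀ x ∈ cmW D W, π x ∈ cmW D' W' := by
    have hle : cmW D W ≤ (cmW D' W').comap π := by
      unfold cmW
      rw [Subgroup.closure_le]
      rintro w ⟨g, hg, u, hu, rfl⟩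
      obtain ⟨g', hg', h2⟩ := hfw g hg
      refine Subgroup.subset_closure ⟨g', hg', π u, (hD _).2 ⟨u, hu, rfl⟩, ?_⟩
      rw [h2 u hu, map_mul, map_inv]
    exact fun x hx => hle hx
  have h2 : ∀ x' ∈ cmW D' W', ∃ x ∈ cmW D W, π x = x' := by
    have hle : cmW D' W' ≤ (cmW D W).map π := by
      unfold cmW
      rw [Subgroup.closure_le]
      rintro w ⟨g', hg', u', hu', rfl⟩
      obtain ⟨u, hu, rfl⟩ := (hD _).1 hu'
      obtain ⟨g, hg, h3⟩ := hbw g' hg'
      refine ⟨u⁻¹ * (g * u * g⁻¹), Subgroup.subset_closure ⟨g, hg, u, hu, rfl⟩, ?_⟩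
      rw [h3 u hu, map_mul, map_inv]
    exact fun x hx => hle hx
  let F : ↥(cmW D W) →* ↥(cmW D' W') :=
    { toFun := fun x => ⟨π x, h1 x x.2⟩
      map_one' := Subtype.ext (map_one π)
      map_mul' := fun x y => Subtype.ext (map_mul π _ _) }
  have hF : Function.Bijective F := by
    constructor
    · rw [injective_iff_map_eq_one]
      intro x hx
      have h3 : π x = 1 := congrArg Subtype.val hx
      exact Subtype.ext (h.fix x.2 (hk x (h.le x.2) h3))
    · rintro ⟨x', hx'⟩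
      obtain ⟨x, hx, h3⟩ := h2 x' hx'
      exact ⟨⟨x, hx⟩, Subtype.ext h3⟩
  refine ⟨⟨MulEquiv.ofBijective F hF, fun g hg => ?_, fun g' hg' => ?_⟩⟩
  · obtain ⟨g', hg', h3⟩ := hfw g hg
    refine ⟨g', hg', fun x y hxy => ?_⟩
    change π y = g' * π x * g'⁻¹
    rw [hxy, h3 x (h.le x.2)]
  · obtain ⟨g, hg, h3⟩ := hbw g' hg'
    refine ⟨g, hg, fun x y hxy => ?_⟩
    change π y = g' * π x * g'⁻¹
    rw [hxy, h3 x (h.le x.2)]

end

section
variable {p : ℕ} {k : Type v} [Field k] {A : Type u} [Group A] [Fintype A]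
variable [Fact p.Prime] [CharP k p] [IsAlgClosed k]
variable {b f : MonoidAlgebra k A} {D : Subgroup A}

theorem cop_root (h : Root p b D f) : Cop p D (St D f) where
  pg := h.dfg.isPGroup
  com := h.com
  inv _ hg u hu := (Subgroup.mem_normalizer_iff.1 (mem_St.1 hg).1 u).1 hu
  cop := ndvd h

/-- a smaller similar block with the same gap -/
def Step (p : ℕ) (k : Type v) [Field k] {A : Type u} [Group A] [Fintype A]
    (b f : MonoidAlgebra k A) (D : Subgroup A) [CharP k p] [IsAlgClosed k] : Prop :=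
  ∃ (A' : Type u) (_ : Group A') (_ : Fintype A') (b' f' : MonoidAlgebra k A') (D' : Subgroup A'),
    Nat.card A' < Nat.card A ∧ Root p b' D' f' ∧
      gap p (⊤ : Subgroup A') ⊤ b' = gap p (⊤ : Subgroup A) ⊤ b ∧
      Nonempty (Sim D (St D f) D' (St D' f'))

/-- **the reduction** -/
theorem exists_red
    (hstep : ∀ {A : Type u} [Group A] [Fintype A] {b f : MonoidAlgebra k A} {D : Subgroup A},
      Root p b D f → ∀ z ∈ D, z ≠ 1 → (∀ g ∈ St D f, g * z = z * g) → Step p k b f D)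
    (h : Root p b D f) :
    ∃ (A' : Type u) (_ : Group A') (_ : Fintype A') (b' f' : MonoidAlgebra k A')
      (D' : Subgroup A'), Root p b' D' f' ∧
      gap p (⊤ : Subgroup A') ⊤ b' = gap p (⊤ : Subgroup A) ⊤ b ∧
      Nonempty (Sim D (St D f) D' (St D' f')) ∧ cmW D' (St D' f') = D' := by
  suffices H : ∀ (m : ℕ) (A : Type u) [Group A] [Fintype A], Nat.card A = m →
      ∀ (b f : MonoidAlgebra k A) (D : Subgroup A), Root p b D f →
      ∃ (A' : Type u) (_ : Group A') (_ : Fintype A') (b' f' : MonoidAlgebra k A')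
        (D' : Subgroup A'), Root p b' D' f' ∧
        gap p (⊤ : Subgroup A') ⊤ b' = gap p (⊤ : Subgroup A) ⊤ b ∧
        Nonempty (Sim D (St D f) D' (St D' f')) ∧ cmW D' (St D' f') = D' from
    H _ A rfl b f D h
  intro m
  induction m using Nat.strong_induction_on with
  | _ m ih =>
    intro A _ _ hA b f D h
    have hc := cop_root h
    by_cases hz : ∃ z ∈ D, z ≠ 1 ∧ ∀ g ∈ St D f, g * z = z * g
    · obtain ⟨z, hzD, hz1, hzE⟩ := hz
      obtain ⟨A₁, _, _, b₁, f₁, D₁, hlt, h₁, hg₁, ⟨s₁⟩⟩ := hstep h z hzD hz1 hzE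
      obtain ⟨A₂, i1, i2, b₂, f₂, D₂, h₂, hg₂, ⟨s₂⟩, hc₂⟩ := ih _ (by rw [← hA]; exact hlt) A₁ rfl
        b₁ f₁ D₁ h₁
      exact ⟨A₂, i1, i2, b₂, f₂, D₂, h₂, hg₂.trans hg₁, ⟨s₁.trans s₂⟩, hc₂⟩
    · refine ⟨A, inferInstance, inferInstance, b, f, D, h, rfl, ⟨Sim.refl _ _⟩,
        le_antisymm hc.le fun x hx => ?_⟩
      push Not at hz
      obtain ⟨c, hcD, y, hy, rfl, hcc⟩ := hc.dec hx
      have h1 : c = 1 := by
        by_contra h2
        obtain ⟨g, hg, h3⟩ := hz c hcD h2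
        exact h3 (hcc g hg)
      rw [h1, one_mul]
      exact hy

end

end Pool.Agent.Lib.P0c8ca5.Ku
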