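import Mathlib
import Pool.Agent.Lib.P0c8ca5Ku.Ln
import Pool.Agent.Lib.P0c8ca5Kk.Kzk

/-!
# Lr: lemmas on the commutator subgroup `cmW D W`

* `line_cmW`: a p-group `Q` acts on `D`, `[W, Q] ≤ D`; for `x ≠ 1` in `cmW D W` there is `z` of order
  `p` in `cmW D W` centralized by `Q` such that the elements of `W` that normalize the group generated
  by `x` normalize the group generated by `z`, with the same exponent.
* `cop_sub`, `cmW_inf_le`: invariant subgroups.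
* `cmW_le_of_act`, `cg_cmW`, `cmW_subgroupOf`: comparison of actions, conjugates, subgroups.
-/

set_option autoImplicit false
set_option linter.unusedSectionVars false

namespace Pool.Agent.Lib.P0c8ca5.Ku

open MonoidAlgebra Ex Rk Kk KgAux KxAux KxaAux KxbAux KybAux FinAux KyeAux

universe u v

section
variable {p : ℕ} {A : Type u} [Group A]

/-- a group `Q` with `[W, Q] ≤ D` normalizes `cmW D W` -/
theorem cmW_conj {D Q W : Subgroup A} (hDc : ∀ x ∈ D, ∀ y ∈ D, x * y = y * x)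
    (hQD : ∀ q ∈ Q, ∀ v ∈ D, q * v * q⁻¹ ∈ D) (hWD : ∀ h ∈ W, ∀ v ∈ D, h * v * h⁻¹ ∈ D)
    (hWQ : ∀ h ∈ W, ∀ q ∈ Q, h * q * h⁻¹ * q⁻¹ ∈ D) {q : A} (hq : q ∈ Q) {x : A}
    (hx : x ∈ cmW D W) : q * x * q⁻¹ ∈ cmW D W := by
  unfold cmW at hx
  induction hx using Subgroup.closure_induction with
  | mem x hx =>
    obtain ⟨g, hg, u, hu, rfl⟩ := hx
    have hu' : q * u * q⁻¹ ∈ D := hQD q hq u hu
    have hgu : g * (q * u * q⁻¹) * g⁻¹ ∈ D := hWD g hg _ hu'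
    refine Subgroup.subset_closure ⟨g, hg, q * u * q⁻¹, hu', ?_⟩
    obtain ⟨d, hd, h1⟩ : ∃ d ∈ D, g * q = d * q * g :=
      ⟨g * q * g⁻¹ * q⁻¹, hWQ g hg q hq, by group⟩
    have h2 := hDc d⁻¹ (D.inv_mem hd) _ hgu
    have h3 : q * g = d⁻¹ * (g * q) := by rw [h1]; group
    calc q * (u⁻¹ * (g * u * g⁻¹)) * q⁻¹
        = (q * u * q⁻¹)⁻¹ * ((q * g) * u * (q * g)⁻¹) := by group
      _ = (q * u * q⁻¹)⁻¹ * (d⁻¹ * (g * (q * u * q⁻¹) * g⁻¹) * d⁻¹⁻¹) := by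
          rw [h3]
          group
      _ = (q * u * q⁻¹)⁻¹ * (g * (q * u * q⁻¹) * g⁻¹) := by
          rw [h2, mul_inv_cancel_right]
  | one =>
    rw [mul_one, mul_inv_cancel]
    exact one_mem _
  | mul x y _ _ hx hy =>
    have h1 : q * (x * y) * q⁻¹ = (q * x * q⁻¹) * (q * y * q⁻¹) := by group
    rw [h1]
    exact mul_mem hx hy
  | inv x _ hx =>
    have h1 : q * x⁻¹ * q⁻¹ = (q * x * q⁻¹)⁻¹ := by group
    rw [h1]
    exact inv_mem hx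

/-- the normalizers of the subgroups of order `p` of `[D, W]` are seen in `C_[D, W](Q)` -/
theorem line_cmW [Finite A] [Fact p.Prime] {D Q W : Subgroup A} (hD : IsPGroup p D)
    (hQ : IsPGroup p Q) (hDc : ∀ x ∈ D, ∀ y ∈ D, x * y = y * x)
    (hQD : ∀ q ∈ Q, ∀ v ∈ D, q * v * q⁻¹ ∈ D) (hWD : ∀ h ∈ W, ∀ v ∈ D, h * v * h⁻¹ ∈ D)
    (hWQ : ∀ h ∈ W, ∀ q ∈ Q, h * q * h⁻¹ * q⁻¹ ∈ D) {x : A} (hx : x ∈ cmW D W) (hx1 : x ≠ 1) :
    ∃ z ∈ cmW D W, z ∈ CD Q ∧ z ^ p = 1 ∧ z ≠ 1 ∧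
      ∀ g ∈ W, ∀ n : ℤ, g * x * g⁻¹ = x ^ n → g * z * g⁻¹ = z ^ n := by
  classical
  have hle : cmW D W ≤ D := cmW_le hWD
  let V : Subgroup A :=
    { carrier := {y | y ∈ cmW D W ∧
        ∀ g ∈ W, ∀ n : ℤ, g * x * g⁻¹ = x ^ n → g * y * g⁻¹ = y ^ n}
      mul_mem' := by
        rintro a b ⟨ha, ha'⟩ ⟨hb, hb'⟩
        refine ⟨(cmW D W).mul_mem ha hb, fun g hg n hgx => ?_⟩
        have h1 : Commute a b := hDc a (hle ha) b (hle hb)
        calc g * (a * b) * g⁻¹ = (g * a * g⁻¹) * (g * b * g⁻¹) := by group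
          _ = a ^ n * b ^ n := by rw [ha' g hg n hgx, hb' g hg n hgx]
          _ = (a * b) ^ n := (h1.mul_zpow n).symm
      one_mem' := ⟨(cmW D W).one_mem, fun g _ n _ => by rw [mul_one, mul_inv_cancel, one_zpow]⟩
      inv_mem' := by
        rintro a ⟨ha, ha'⟩
        refine ⟨(cmW D W).inv_mem ha, fun g hg n hgx => ?_⟩
        have h1 := ha' g hg n hgx
        rw [_root_.inv_zpow, ← h1]
        group }
  have hV : ∀ y, y ∈ V ↔ y ∈ cmW D W ∧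
      ∀ g ∈ W, ∀ n : ℤ, g * x * g⁻¹ = x ^ n → g * y * g⁻¹ = y ^ n := fun y => Iff.rfl
  have hVW : V ≤ cmW D W := fun y hy => ((hV y).1 hy).1
  have hVD : V ≤ D := hVW.trans hle
  have hV1 : V ≠ ⊥ := by
    rw [Subgroup.ne_bot_iff_exists_ne_one]
    exact ⟨⟨x, (hV x).2 ⟨hx, fun g _ n h => h⟩⟩, fun h => hx1 (congrArg Subtype.val h)⟩
  have hQV : ∀ q ∈ Q, ∀ v ∈ V, q * v * q⁻¹ ∈ V := by
    intro q hq v hv
    obtain ⟨hvW, hv'⟩ := (hV v).1 hv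
    have hvD : v ∈ D := hle hvW
    refine (hV _).2 ⟨cmW_conj hDc hQD hWD hWQ hq hvW, fun g hg n hgx => ?_⟩
    obtain ⟨d, hd, h1⟩ : ∃ d ∈ D, g * q = d * q * g :=
      ⟨g * q * g⁻¹ * q⁻¹, hWQ g hg q hq, by group⟩
    have hqn : (q * v * q⁻¹) ^ n = q * v ^ n * q⁻¹ := by rw [conj_zpow]
    have h2 := hDc d hd ((q * v * q⁻¹) ^ n) (D.zpow_mem (hQD q hq v hvD) n)
    have h3 := hv' g hg n hgx
    have h4 : q⁻¹ * g⁻¹ = g⁻¹ * q⁻¹ * d⁻¹ := by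
      rw [← mul_inv_rev, ← mul_inv_rev, ← mul_inv_rev, h1]
      group
    calc g * (q * v * q⁻¹) * g⁻¹ = (g * q) * v * (q⁻¹ * g⁻¹) := by group
      _ = d * q * g * v * (g⁻¹ * q⁻¹ * d⁻¹) := by rw [h1, h4]
      _ = d * (q * (g * v * g⁻¹) * q⁻¹) * d⁻¹ := by group
      _ = d * (q * v ^ n * q⁻¹) * d⁻¹ := by rw [h3]
      _ = d * (q * v * q⁻¹) ^ n * d⁻¹ := by rw [hqn]
      _ = (q * v * q⁻¹) ^ n := by rw [h2, mul_inv_cancel_right]
  obtain ⟨z, hz, hz1, hzp, hzQ⟩ := exists_fix hQ (hD.to_le hVD) hV1 hQV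
    fun a ha b hb => hDc a (hVD ha) b (hVD hb)
  exact ⟨z, hVW hz, hzQ, hzp, hz1, ((hV z).1 hz).2⟩

/-- an invariant subgroup -/
theorem cop_sub {D W Z : Subgroup A} (h : Cop p D W) (hZ : Z ≤ D)
    (hinv : ∀ g ∈ W, ∀ z ∈ Z, g * z * g⁻¹ ∈ Z) : Cop p Z W where
  pg := h.pg.to_le hZ
  com x hx y hy := h.com x (hZ hx) y (hZ hy)
  inv := hinv
  cop hd := h.cop (hd.trans (Subgroup.relIndex_dvd_of_le_left W (Subgroup.centralizer_le hZ)))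

theorem cmW_inf_le [Finite A] [Fact p.Prime] {D W Z : Subgroup A} (h : Cop p D W) (hZ : Z ≤ D)
    (hinv : ∀ g ∈ W, ∀ z ∈ Z, g * z * g⁻¹ ∈ Z) : cmW D W ⊓ Z ≤ cmW Z W := by
  rintro z ⟨hz, hzZ⟩
  obtain ⟨c, -, y, hy, hcy, hc⟩ := (cop_sub h hZ hinv).dec hzZ
  have hyD : y ∈ cmW D W := cmW_mono hZ (fun g hg => ⟨g, hg, fun _ _ => rfl⟩) hy
  have h1 : c ∈ cmW D W := by
    have h2 : c = z * y⁻¹ := by rw [hcy, mul_inv_cancel_right]
    rw [h2]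
    exact mul_mem hz (inv_mem hyD)
  have h2 : c = 1 := h.fix h1 hc
  rw [hcy, h2, one_mul]
  exact hy

theorem cmW_le_of_act [Finite A] {D W S : Subgroup A}
    (hact : ∀ y ∈ W, ∃ s ∈ S, ∀ v ∈ D, s * v * s⁻¹ = y * v * y⁻¹) : cmW D W ≤ cmW D S :=
  cmW_mono le_rfl hact

theorem cg_cmW (g : A) (D S : Subgroup A) : cg g (cmW D S) = cmW (cg g D) (cg g S) := by
  have key : ∀ (g : A) (D S : Subgroup A), cg g (cmW D S) ≤ cmW (cg g D) (cg g S) := by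
    intro g D S x hx
    have hx' : g⁻¹ * x * g ∈ cmW D S := mem_cg.1 hx
    have h1 : x = g * (g⁻¹ * x * g) * g⁻¹ := by group
    rw [h1]
    generalize g⁻¹ * x * g = w at hx'
    unfold cmW at hx'
    induction hx' using Subgroup.closure_induction with
    | mem w hw =>
      obtain ⟨s, hs, u, hu, rfl⟩ := hw
      refine Subgroup.subset_closure ⟨g * s * g⁻¹, mem_cg.2 ?_, g * u * g⁻¹, mem_cg.2 ?_, ?_⟩
      · have h2 : g⁻¹ * (g * s * g⁻¹) * g = s := by group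
        rwa [h2]
      · have h2 : g⁻¹ * (g * u * g⁻¹) * g = u := by group
        rwa [h2]
      · group
    | one =>
      rw [mul_one, mul_inv_cancel]
      exact one_mem _
    | mul x y _ _ hx hy =>
      have h1 : g * (x * y) * g⁻¹ = (g * x * g⁻¹) * (g * y * g⁻¹) := by group
      rw [h1]
      exact mul_mem hx hy
    | inv x _ hx =>
      have h1 : g * x⁻¹ * g⁻¹ = (g * x * g⁻¹)⁻¹ := by group
      rw [h1]
      exact inv_mem hx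
  refine le_antisymm (key g D S) ?_
  have h1 := key g⁻¹ (cg g D) (cg g S)
  rw [cg_cg, cg_cg, inv_mul_cancel, cg_one, cg_one] at h1
  intro x hx
  have h2 : g⁻¹ * x * g⁻¹⁻¹ ∈ cg g⁻¹ (cmW (cg g D) (cg g S)) := mem_cg.2 (by
    have h3 : g⁻¹⁻¹ * (g⁻¹ * x * g⁻¹⁻¹) * g⁻¹ = x := by group
    rwa [h3])
  have h3 := h1 h2
  rw [inv_inv] at h3
  exact mem_cg.2 h3

theorem cmW_subgroupOf {D W H : Subgroup A} (hD : D ≤ H) (hW : W ≤ H) :
    cmW (D.subgroupOf H) (W.subgroupOf H) = (cmW D W).subgroupOf H := by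
  have hle : cmW D W ≤ H := by
    unfold cmW
    rw [Subgroup.closure_le]
    rintro w ⟨g, hg, u, hu, rfl⟩
    exact H.mul_mem (H.inv_mem (hD hu)) (H.mul_mem (H.mul_mem (hW hg) (hD hu)) (H.inv_mem (hW hg)))
  have h1 : (cmW (D.subgroupOf H) (W.subgroupOf H)).map H.subtype = cmW D W := by
    unfold cmW
    rw [MonoidHom.map_closure]
    congr 1
    ext w
    constructor
    · rintro ⟨w', ⟨g, hg, u, hu, rfl⟩, rfl⟩
      exact ⟨g, Subgroup.mem_subgroupOf.1 hg, u, Subgroup.mem_subgroupOf.1 hu, rfl⟩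
    · rintro ⟨g, hg, u, hu, rfl⟩
      exact ⟨(⟨u, hD hu⟩ : ↥H)⁻¹ * ((⟨g, hW hg⟩ : ↥H) * ⟨u, hD hu⟩ * (⟨g, hW hg⟩ : ↥H)⁻¹),
        ⟨⟨g, hW hg⟩, Subgroup.mem_subgroupOf.2 hg, ⟨u, hD hu⟩, Subgroup.mem_subgroupOf.2 hu, rfl⟩,
        rfl⟩
  ext x
  rw [Subgroup.mem_subgroupOf]
  constructor
  · intro hx
    rw [← h1]
    exact ⟨x, hx, rfl⟩
  · intro hx
    rw [← h1] at hx
    obtain ⟨y, hy, hyx⟩ := hx
    have h2 : y = x := Subtype.ext hyx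
    rwa [← h2]

end

end Pool.Agent.Lib.P0c8ca5.Ku
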