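import Mathlib
import Pool.Agent.Lib.P0c8ca5Ku.Ld
import Pool.Agent.Lib.P0c8ca5Ex.V3

/-!
# Le: Navarro's equality for all pairs above `G` if `|E| < p`, all primes

`navarro_all_lt'`: `navarro_all_lt` of V3 for all primes `p`.
-/

set_option autoImplicit false
set_option linter.unusedSectionVars false

namespace Pool.Agent.Lib.P0c8ca5.Ku

open MonoidAlgebra Ex

universe u v

theorem l_lt_all {p : ℕ} [Fact p.Prime] {k : Type v} [Field k] [IsAlgClosed k] [CharP k p]
    {A : Type u} [Group A] [Fintype A] {b f : MonoidAlgebra k A} {D : Subgroup A}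
    (h : Root p b D f) (hE : eN D f < p) :
    Nat.card (Quotient (irrInvSetoid (⊤ : Subgroup A) ⊤ b)) < p := by
  by_cases hp2 : p = 2
  · have h1 := eN_pos D f
    have h2 := l_le_one h (by omega)
    omega
  · exact lt_of_le_of_lt (l_le_lt_p hp2 h hE) hE

/-- **Navarro's equality for all pairs above `G`**, `|E| < p` -/
theorem navarro_all_lt' {p : ℕ} [Fact p.Prime] {k : Type v} [Field k]
    [IsAlgClosed k] [CharP k p] {Γ : Type u} [Group Γ] [Finite Γ] (G : Subgroup Γ)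
    [hG : G.Normal] (hΓ : IsPGroup p (Γ ⧸ G)) {e : MonoidAlgebra k Γ} (he : IsBlock G e)
    (hinv : InvBy ⊤ e) {D : Subgroup Γ} (hD : IsDefectGroup p G e D)
    (hcom : ∀ x ∈ D, ∀ y ∈ D, x * y = y * x) {f : MonoidAlgebra k Γ}
    (hf : IsBlock (G ⊓ CD D) f) (hef : resS (CD D : Set Γ) e * f = f)
    (hE : (CD D).relIndex (G ⊓ St D f) < p) {N H : Subgroup Γ} (hGN : G ≤ N) (hNH : N ≤ H)
    (hn : H ≤ Subgroup.normalizer (N : Set Γ)) : NavarroEq p N H e := by
  have : Fintype Γ := Fintype.ofFinite Γ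
  have : Fintype ↥G := Fintype.ofFinite _
  have hDG : D ≤ G := hD.le
  have hfs : SuppIn G f := fun x hx => ((mem_fixAlg.1 hf.mem).1 x hx).1
  have hroot := root_dn G he hD hcom hf hef
  have heN : eN (D.subgroupOf G) (dn G f) < p := by
    rw [eN_dn G hDG hfs]
    exact hE
  have hl := l_lt_all hroot heN
  have h0 := gap_zero_lt hroot heN hl
  rw [gap_transport he] at h0
  have hp' : ∀ x : Γ, ∃ n : ℕ, x ^ p ^ n ∈ G := by
    intro x
    obtain ⟨n, hn⟩ := hΓ (QuotientGroup.mk x)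
    refine ⟨n, ?_⟩
    rwa [← QuotientGroup.mk_pow, QuotientGroup.eq_one_iff] at hn
  have h1 : ∀ H, G ≤ H → NavarroEq p G H e := fun H hH =>
    (navarroEq_iff_gap hH (fun x _ => mem_norm_of_normal G x) (fun x _ => hp' x) he
      (hinv.mono le_top)).2 (gap_ext_all hΓ he hinv h0 hl hH)
  obtain ⟨h2, h3⟩ := equivariant_iff (p := p) (G := G) hp' he hinv
  exact h3 (h2.1 h1) N H hGN hNH hn

section
variable {p : ℕ} {k : Type v} [Field k] {A : Type u} [Group A] [Fintype A]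
variable [Fact p.Prime] [CharP k p] [IsAlgClosed k]
variable {e : MonoidAlgebra k A} {G P : Subgroup A}

theorem relIndex_le_aut {A : Type*} [Group A] [Finite A] {W N : Subgroup A}
    (hN : N ≤ Subgroup.normalizer (W : Set A)) : (CD W).relIndex N ≤ Nat.card (MulAut W) := by
  have h1 : (CD W).relIndex N ≤ (CD W).relIndex (Subgroup.normalizer (W : Set A)) := by
    refine Nat.le_of_dvd (Nat.pos_of_ne_zero Subgroup.index_ne_zero_of_finite) ?_
    exact relIndex_dvd_of_le_right hN NDAux.N_le_NC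
  refine h1.trans ?_
  rw [Subgroup.relIndex, ← Subgroup.normalizerMonoidHom_ker, Subgroup.index_ker]
  exact Nat.card_le_card_of_injective _ Subtype.val_injective

/-- **Navarro's equality, `Z(P) ∩ G` cyclic** -/
theorem nav_cyc (hG : G.Normal) (hp : ∀ x : A, ∃ n : ℕ, x ^ p ^ n ∈ G)
    (he : IsBlock G e) (hinv : InvBy ⊤ e) (hP : IsDefectGroup p (⊤ : Subgroup A) e P)
    (hcom : ∀ x ∈ P ⊓ G, ∀ y ∈ P ⊓ G, x * y = y * x)
    (hZ : IsCyclic ↥(P ⊓ G ⊓ CD P)) : NavarroEq p G ⊤ e := by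
  classical
  have hp' : p.Prime := Fact.out
  have hZc : ∀ x ∈ P ⊓ G ⊓ CD P, ∀ y ∈ P ⊓ G ⊓ CD P, x * y = y * x := fun x hx y hy =>
    Subgroup.mem_centralizer_iff.1 (Subgroup.mem_inf.1 hy).2 x
      (Subgroup.mem_inf.1 (Subgroup.mem_inf.1 hx).1).1
  let W : Subgroup A :=
    { carrier := {x | x ∈ P ⊓ G ⊓ CD P ∧ x ^ p = 1}
      mul_mem' := by
        rintro x y ⟨hx, hx'⟩ ⟨hy, hy'⟩
        refine ⟨Subgroup.mul_mem _ hx hy, ?_⟩
        have h1 : Commute x y := hZc x hx y hy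
        rw [h1.mul_pow, hx', hy', one_mul]
      one_mem' := ⟨Subgroup.one_mem _, one_pow p⟩
      inv_mem' := by
        rintro x ⟨hx, hx'⟩
        exact ⟨Subgroup.inv_mem _ hx, by rw [inv_pow, hx', inv_one]⟩ }
  have hWZ : W ≤ P ⊓ G ⊓ CD P := fun x hx => hx.1
  have hWc : IsCyclic ↥W :=
    isCyclic_of_injective (Subgroup.inclusion hWZ) (Subgroup.inclusion_injective hWZ)
  have hWp : Nat.card ↥W ≤ p := by
    have h1 : Nat.card ↥W ≤ Nat.card {a : ↥(P ⊓ G ⊓ CD P) // a ^ p = 1} :=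
      Nat.card_le_card_of_injective (fun x => ⟨⟨x.1, x.2.1⟩, Subtype.ext x.2.2⟩) fun x y h =>
        Subtype.ext (congrArg (fun z : {a : ↥(P ⊓ G ⊓ CD P) // a ^ p = 1} => ((z : _) : A)) h)
    refine h1.trans ?_
    have := Fintype.ofFinite ↥(P ⊓ G ⊓ CD P)
    rw [Nat.card_eq_fintype_card, Fintype.card_subtype]
    exact IsCyclic.card_pow_eq_one_le hp'.pos
  have hlt : Nat.card (MulAut ↥W) < p := by
    rw [hWc.card_mulAut]
    rcases hWp.lt_or_eq with h | h
    · exact lt_of_le_of_lt (Nat.totient_le _) h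
    · rw [h, Nat.totient_prime hp']
      have := hp'.pos
      omega
  refine nav_w' (fun h hE => gap_zero_lt h hE (l_lt_all h hE)) hG hp he hinv hP hcom (W := W)
    (fun x => Iff.rfl) fun m hm _ => ?_
  refine lt_of_le_of_lt ?_ hlt
  exact (Nat.le_of_dvd (Nat.pos_of_ne_zero Subgroup.index_ne_zero_of_finite) hm).trans
    (relIndex_le_aut inf_le_right)

end

end Pool.Agent.Lib.P0c8ca5.Ku
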