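import Mathlib
import Pool.Agent.Lib.P0c8ca5Ku.Lo
import Pool.Agent.Lib.P0c8ca5Ex.T4b
import Pool.Agent.Lib.P0c8ca5Ex.V5Y
import Pool.Agent.Lib.P0c8ca5Ku.KZ
import Pool.Agent.Lib.P0c8ca5Kk.Kyg

/-!
# Lp: the weight conjecture under conditions on `[D, E]`

`StepAll`: for every block with abelian defect group `D` and every `z ≠ 1` of `D` which is centralized by the inertial
group there is a smaller similar block with the same gap (Theorem W).

`gap_cycW`, `gap_lineW`, `gap_stabW`: the theorems with conditions on the elements of order `p` of `D`, for `[D, E]`.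
-/

set_option autoImplicit false
set_option linter.unusedSectionVars false

namespace Pool.Agent.Lib.P0c8ca5.Ku

open MonoidAlgebra Ex Rk Kk Kk.KgAux Kk.KxAux Kk.KxaAux Kk.KxbAux Kk.KybAux FinAux

universe u v

/-- the central steps -/
def StepAll (p : ℕ) [Fact p.Prime] (k : Type v) [Field k] [CharP k p] [IsAlgClosed k] : Prop :=
  ∀ (A : Type u) [Group A] [Fintype A] (b f : MonoidAlgebra k A) (D : Subgroup A),
    Root p b D f → ∀ z ∈ D, z ≠ 1 → (∀ g ∈ St D f, g * z = z * g) → Step p k b f D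

section
variable {p : ℕ} {k : Type v} [Field k] {A : Type u} [Group A] [Fintype A]
variable {A' : Type u} [Group A'] [Fintype A']
variable [Fact p.Prime] [CharP k p] [IsAlgClosed k]
variable {b f : MonoidAlgebra k A} {D : Subgroup A} {b' f' : MonoidAlgebra k A'}
variable {D' : Subgroup A'}

theorem cinv (h : Root p b D f) : ∀ g ∈ St D f, ∀ x ∈ cmW D (St D f),
    g * x * g⁻¹ ∈ cmW D (St D f) := fun _ hg _ hx => cmW_inv (cop_root h).inv hg hx

/-- an element over a given element of `D'` -/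
theorem pre (s : Sim D (St D f) D' (St D' f')) (hD : cmW D' (St D' f') = D') {x' : A'}
    (hx : x' ∈ D') : ∃ x : ↥(cmW D (St D f)), (s.σ x : A') = x' := by
  obtain ⟨x, h1⟩ := s.σ.surjective ⟨x', by rw [hD]; exact hx⟩
  exact ⟨x, congrArg Subtype.val h1⟩

/-- faithful actions -/
theorem faith_sim (h : Root p b D f) (h' : Root p b' D' f') (s : Sim D (St D f) D' (St D' f'))
    (hD : cmW D' (St D' f') = D') {n : ℕ} (hF : Faith p n D f) : Faith p n D' f' := by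
  intro g' hg' hy'
  obtain ⟨g, hg, hr⟩ := s.bw g' hg'
  have hr' : s.Rel g g' := hr
  have hinv := cinv h
  have h1 : ∀ y ∈ cmW D (St D f), g * y ^ p ^ n = y ^ p ^ n * g := by
    intro y hy
    have h3 : ((s.σ ⟨y, hy⟩ : ↥(cmW D' (St D' f'))) : A') ∈ D' := hD.le (s.σ ⟨y, hy⟩).2
    have h2 := (Sim.Rel.com_iff hinv hg hr' ((⟨y, hy⟩ : ↥(cmW D (St D f))) ^ p ^ n)).1 (by
      rw [map_pow]
      exact hy' _ h3)
    exact h2
  have h2 : g ∈ CD D := by
    refine hF g hg fun y hy => ?_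
    obtain ⟨c, hcD, y₀, hy₀, rfl, hc⟩ := (cop_root h).dec hy
    have hcy : Commute c y₀ := h.com c hcD y₀ ((cop_root h).le hy₀)
    have hgc : Commute g (c ^ p ^ n) := (show Commute g c from hc g hg).pow_right _
    rw [hcy.mul_pow]
    exact (hgc.mul_right (show Commute g (y₀ ^ p ^ n) from h1 y₀ hy₀))
  refine (cop_root h').faith hg' fun x' hx' => ?_
  obtain ⟨x, hx⟩ := s.σ.surjective ⟨x', hx'⟩
  have h3 := (Sim.Rel.com_iff hinv hg hr' x).2
    (Subgroup.mem_centralizer_iff.1 h2 x ((cop_root h).le x.2)).symm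
  rw [hx] at h3
  exact h3

theorem eN_sim (h : Root p b D f) (h' : Root p b' D' f') (s : Sim D (St D f) D' (St D' f')) :
    eN D' f' ≤ eN D f :=
  s.card_le (cop_root h) (cop_root h') le_rfl le_rfl fun g' hg' => s.bw g' hg'

theorem st_sim (h : Root p b D f) (h' : Root p b' D' f') (s : Sim D (St D f) D' (St D' f'))
    (x : ↥(cmW D (St D f))) :
    (CD D').relIndex (St D' f' ⊓ C1 (s.σ x : A')) ≤ (CD D).relIndex (St D f ⊓ C1 (x : A)) := by
  refine s.card_le (cop_root h) (cop_root h') inf_le_left inf_le_left fun g' hg' => ?_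
  obtain ⟨g, hg, hr⟩ := s.bw g' hg'.1
  refine ⟨g, ⟨hg, Subgroup.mem_centralizer_singleton_iff.2 ?_⟩, hr⟩
  exact (Sim.Rel.com_iff (cinv h) hg hr x).1 (Subgroup.mem_centralizer_singleton_iff.1 hg'.2)

theorem ln_sim (h : Root p b D f) (h' : Root p b' D' f') (s : Sim D (St D f) D' (St D' f'))
    (x : ↥(cmW D (St D f))) :
    (CD D').relIndex (St D' f' ⊓ NZ (s.σ x : A')) ≤ (CD D).relIndex (St D f ⊓ NZ (x : A)) := by
  refine s.card_le (cop_root h) (cop_root h') inf_le_left inf_le_left fun g' hg' => ?_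
  obtain ⟨g, hg, hr⟩ := s.bw g' hg'.1
  refine ⟨g, ⟨hg, mem_NZ.2 ?_⟩, hr⟩
  obtain ⟨n, hn⟩ := Subgroup.mem_zpowers_iff.1 (mem_NZ.1 hg'.2)
  rw [(Sim.Rel.fix_iff (cinv h) hg hr x n).1 hn.symm]
  exact Subgroup.zpow_mem_zpowers _ _

theorem lineOK_sim (h : Root p b D f) (h' : Root p b' D' f') (s : Sim D (St D f) D' (St D' f'))
    (x : ↥(cmW D (St D f))) (hl : LineOK p (CD D) (St D f) (x : A)) :
    LineOK p (CD D') (St D' f') (s.σ x : A') := by
  rcases hl with h1 | h1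
  · left
    have h2 := st_sim h h' s x
    have h3 : (CD D').relIndex (St D' f' ⊓ C1 (s.σ x : A')) ≠ 0 :=
      Subgroup.index_ne_zero_of_finite
    omega
  · right
    have h2 := ln_sim h h' s x
    omega

theorem sim_pow (s : Sim D (St D f) D' (St D' f')) {x : ↥(cmW D (St D f))} {n : ℕ} :
    (s.σ x : A') ^ n = 1 ↔ (x : A) ^ n = 1 := by
  constructor
  · intro h1
    have h2 : s.σ (x ^ n) = 1 := by
      rw [map_pow]
      exact Subtype.ext h1
    have h3 : x ^ n = 1 := s.σ.injective (h2.trans (map_one _).symm)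
    exact congrArg Subtype.val h3
  · intro h1
    have h2 : x ^ n = 1 := Subtype.ext h1
    have h3 : (s.σ x) ^ n = 1 := by rw [← map_pow, h2, map_one]
    exact congrArg Subtype.val h3

theorem sim_ne (s : Sim D (St D f) D' (St D' f')) {x : ↥(cmW D (St D f))} :
    (s.σ x : A') ≠ 1 ↔ (x : A) ≠ 1 := by
  have h1 := sim_pow s (x := x) (n := 1)
  rw [pow_one, pow_one] at h1
  exact not_congr h1

theorem rank_sim (s : Sim D (St D f) D' (St D' f')) (hD : cmW D' (St D' f') = D') :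
    Nat.card {x : A' // x ∈ D' ∧ x ^ p = 1} ≤
      Nat.card {x : A // x ∈ cmW D (St D f) ∧ x ^ p = 1} := by
  classical
  choose! F hF using fun (x' : A') (hx : x' ∈ D') => pre s hD hx
  refine Nat.card_le_card_of_injective (fun x : {x : A' // x ∈ D' ∧ x ^ p = 1} =>
    (⟨(F x.1 : A), (F x.1).2, (sim_pow s).1 (by rw [hF x.1 x.2.1]; exact x.2.2)⟩ :
      {x : A // x ∈ cmW D (St D f) ∧ x ^ p = 1})) ?_
  intro x y hxy
  have h1 : F x.1 = F y.1 := Subtype.ext (congrArg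
    (fun z : {x : A // x ∈ cmW D (St D f) ∧ x ^ p = 1} => (z : A)) hxy)
  refine Subtype.ext ?_
  rw [← hF x.1 x.2.1, ← hF y.1 y.2.1, h1]

/-- **cyclic stabilizers of the elements of `[D, E]`** -/
theorem gap_cycW (hW : StepAll.{u, v} p k) (hp2 : p ≠ 2) (h : Root p b D f) {n : ℕ}
    (hn : 1 ≤ n) (hF : Faith p n D f) (hE : eN D f < p ^ (n + 1))
    (hcyc : ∀ u ∈ cmW D (St D f), u ≠ 1 → ∃ g₀ ∈ St D f,
      ∀ g ∈ St D f, g * u = u * g → ∃ j : ℕ, (g₀ ^ j)⁻¹ * g ∈ CD D) :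
    gap p (⊤ : Subgroup A) ⊤ b = 0 := by
  obtain ⟨A', _, _, b', f', D', h', hg, ⟨s⟩, hD⟩ :=
    exists_red (fun {A} _ _ {b f D} h z hz hz1 hzE => hW A b f D h z hz hz1 hzE) h
  rw [← hg]
  refine (k2_cyce hp2 h' hn (faith_sim h h' s hD hF) (lt_of_le_of_lt (eN_sim h h' s) hE) ?_).1
  intro u' hu' hu1
  obtain ⟨u, rfl⟩ := pre s hD hu'
  obtain ⟨g₀, hg₀, h1⟩ := hcyc u u.2 ((sim_ne s).1 hu1)
  obtain ⟨g₀', hg₀', hr₀⟩ := s.fw g₀ hg₀
  refine ⟨g₀', hg₀', fun g' hg' hgu => ?_⟩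
  obtain ⟨g, hg, hr⟩ := s.bw g' hg'
  obtain ⟨j, hj⟩ := h1 g hg ((Sim.Rel.com_iff (cinv h) hg hr u).1 hgu)
  refine ⟨j, ?_⟩
  have h2 : s.Rel ((g₀ ^ j)⁻¹ * g) ((g₀' ^ j)⁻¹ * g') :=
    Sim.Rel.mul s (cinv h) hg (Sim.Rel.inv s (Sim.Rel.pow s (cinv h) hg₀ hr₀ j)) hr
  have h3 : (g₀ ^ j)⁻¹ * g ∈ St D f :=
    (St D f).mul_mem ((St D f).inv_mem ((St D f).pow_mem hg₀ j)) hg
  have h4 : (g₀' ^ j)⁻¹ * g' ∈ St D' f' :=
    (St D' f').mul_mem ((St D' f').inv_mem ((St D' f').pow_mem hg₀' j)) hg'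
  refine (cop_root h').faith h4 fun x' hx' => ?_
  obtain ⟨x, hx⟩ := s.σ.surjective ⟨x', hx'⟩
  have h5 := (Sim.Rel.com_iff (cinv h) h3 h2 x).2
    (Subgroup.mem_centralizer_iff.1 hj x ((cop_root h).le x.2)).symm
  rw [hx] at h5
  exact h5

/-- **small normalizers of the lines of `[D, E]`** -/
theorem gap_lineW (hW : StepAll.{u, v} p k) (hp2 : p ≠ 2) (h : Root p b D f) {n : ℕ}
    (hn : 1 ≤ n) (hF : Faith p n D f) (hE : eN D f < p ^ (n + 1))
    (hl : ∀ x ∈ cmW D (St D f), x ^ p = 1 → x ≠ 1 → LineOK p (CD D) (St D f) x) :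
    gap p (⊤ : Subgroup A) ⊤ b = 0 := by
  obtain ⟨A', _, _, b', f', D', h', hg, ⟨s⟩, hD⟩ :=
    exists_red (fun {A} _ _ {b f D} h z hz hz1 hzE => hW A b f D h z hz hz1 hzE) h
  rw [← hg]
  refine (k2_linef hp2 h' hn (faith_sim h h' s hD hF) (lt_of_le_of_lt (eN_sim h h' s) hE) ?_).1
  intro x' hx' hxp hx1
  obtain ⟨x, rfl⟩ := pre s hD hx'
  exact lineOK_sim h h' s x (hl x x.2 ((sim_pow s).1 hxp) ((sim_ne s).1 hx1))

/-- **small stabilizers of the elements of `[D, E]`** -/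
theorem gap_stabW (hW : StepAll.{u, v} p k) (hp2 : p ≠ 2) (h : Root p b D f) {r j n : ℕ}
    (hr : Nat.card {x : A // x ∈ cmW D (St D f) ∧ x ^ p = 1} ≤ p ^ r) (hE : eN D f ≤ p ^ n)
    (hst : ∀ x ∈ cmW D (St D f), x ≠ 1 → (CD D).relIndex (St D f ⊓ C1 x) ≤ p ^ j)
    (hn : (r - 2) * j + 3 ≤ n) (hF : Faith p n D f) : gap p (⊤ : Subgroup A) ⊤ b = 0 := by
  obtain ⟨A', _, _, b', f', D', h', hg, ⟨s⟩, hD⟩ :=
    exists_red (fun {A} _ _ {b f D} h z hz hz1 hzE => hW A b f D h z hz hz1 hzE) h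
  rw [← hg]
  refine (large_stab (r := r) (j := j) hp2 h' ((rank_sim s hD).trans hr) ((eN_sim h h' s).trans hE)
    ?_ hn (faith_sim h h' s hD hF)).1
  intro x' hx' hx1
  obtain ⟨x, rfl⟩ := pre s hD hx'
  exact (st_sim h h' s x).trans (hst x x.2 ((sim_ne s).1 hx1))

end

end Pool.Agent.Lib.P0c8ca5.Ku
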