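import Mathlib
import Pool.Agent.Lib.P0c8ca5Ku.Lp

/-!
# Lq: large subgroups `Z` of `[D, E]`

`gap_z2W`, `gap_cenW`: the theorems of Kk/Kyg and Ku/KZ (a subgroup `Z` of `D` with large cyclic
factors and the faithful action of `E`) with `[D, E]` in place of `D`.
-/

set_option autoImplicit false
set_option linter.unusedSectionVars false

namespace Pool.Agent.Lib.P0c8ca5.Ku

open MonoidAlgebra Ex Rk Kk Kk.KgAux Kk.KxAux Kk.KxaAux Kk.KxbAux Kk.KybAux FinAux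

universe u v

/-- the action on `[D, E]` is seen on its subgroup `Z` -/
structure CenW {k : Type v} [Field k] {A : Type u} [Group A] (p : ℕ) (D Z : Subgroup A)
    (f : MonoidAlgebra k A) : Prop where
  le : Z ≤ cmW D (St D f)
  faith : ∀ g ∈ St D f, (∀ z ∈ Z, z ^ p = 1 → g * z = z * g) → g ∈ CD D
  stab : ∀ x ∈ cmW D (St D f), x ≠ 1 → ∃ z ∈ Z, z ^ p = 1 ∧ z ≠ 1 ∧
    ∀ g ∈ St D f, g * x = x * g → g * z = z * g
  inv : ∀ g ∈ St D f, ∀ z ∈ Z, g * z * g⁻¹ ∈ Z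

section
variable {A : Type u} [Group A] {A' : Type u} [Group A'] {D W Z : Subgroup A}
variable {D' W' : Subgroup A'}

/-- the image of `Z` -/
def img (s : Sim D W D' W') (Z : Subgroup A) : Subgroup A' :=
  ((Z.subgroupOf (cmW D W)).map s.σ.toMonoidHom).map (cmW D' W').subtype

theorem mem_img (s : Sim D W D' W') {x : ↥(cmW D W)} (hx : (x : A) ∈ Z) :
    (s.σ x : A') ∈ img s Z :=
  ⟨s.σ x, ⟨x, Subgroup.mem_subgroupOf.2 hx, rfl⟩, rfl⟩

theorem of_img (s : Sim D W D' W') {x' : A'} (hx : x' ∈ img s Z) :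
    ∃ x : ↥(cmW D W), (x : A) ∈ Z ∧ (s.σ x : A') = x' := by
  obtain ⟨y, ⟨x, hx, rfl⟩, rfl⟩ := hx
  exact ⟨x, Subgroup.mem_subgroupOf.1 hx, rfl⟩

end

section
variable {p : ℕ} {k : Type v} [Field k] {A : Type u} [Group A] [Fintype A]
variable {A' : Type u} [Group A'] [Fintype A']
variable [Fact p.Prime] [CharP k p] [IsAlgClosed k]
variable {b f : MonoidAlgebra k A} {D Z : Subgroup A} {b' f' : MonoidAlgebra k A'}
variable {D' : Subgroup A'}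

/-- transport of the conditions -/
theorem cen_sim (h : Root p b D f) (h' : Root p b' D' f') (s : Sim D (St D f) D' (St D' f'))
    (hD : cmW D' (St D' f') = D') (hc : CenW p D Z f) : CenAct p D' (img s Z) f' where
  le := by
    intro x' hx'
    obtain ⟨x, -, rfl⟩ := of_img s hx'
    exact hD.le (s.σ x).2
  faith := by
    intro g' hg' hz'
    obtain ⟨g, hg, hr⟩ := s.bw g' hg'
    have hr' : s.Rel g g' := hr
    have h2 : g ∈ CD D := by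
      refine hc.faith g hg fun z hz hzp => ?_
      have h3 : (s.σ ⟨z, hc.le hz⟩ : A') ^ p = 1 := (sim_pow s).2 hzp
      exact (Sim.Rel.com_iff (cinv h) hg hr' ⟨z, hc.le hz⟩).1
        (hz' _ (mem_img s (x := ⟨z, hc.le hz⟩) hz) h3)
    refine (cop_root h').faith hg' fun x' hx' => ?_
    obtain ⟨x, hx⟩ := s.σ.surjective ⟨x', hx'⟩
    have h3 := (Sim.Rel.com_iff (cinv h) hg hr' x).2
      (Subgroup.mem_centralizer_iff.1 h2 x ((cop_root h).le x.2)).symm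
    rw [hx] at h3
    exact h3
  stab := by
    intro x' hx' hx1
    obtain ⟨x, rfl⟩ := pre s hD hx'
    obtain ⟨z, hz, hzp, hz1, h1⟩ := hc.stab x x.2 ((sim_ne s).1 hx1)
    refine ⟨s.σ ⟨z, hc.le hz⟩, mem_img s (x := ⟨z, hc.le hz⟩) hz, (sim_pow s).2 hzp,
      (sim_ne s).2 hz1, fun g' hg' hgx => ?_⟩
    obtain ⟨g, hg, hr⟩ := s.bw g' hg'
    have hr' : s.Rel g g' := hr
    exact (Sim.Rel.com_iff (cinv h) hg hr' ⟨z, hc.le hz⟩).2
      (h1 g hg ((Sim.Rel.com_iff (cinv h) hg hr' x).1 hgx))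
  inv := by
    intro g' hg' z' hz'
    obtain ⟨z, hz, rfl⟩ := of_img s hz'
    obtain ⟨g, hg, hr⟩ := s.bw g' hg'
    have h1 := hc.inv g hg z hz
    rw [← hr z ⟨g * z * g⁻¹, hc.le h1⟩ rfl]
    exact mem_img s (x := ⟨g * z * g⁻¹, hc.le h1⟩) h1

theorem card_img (s : Sim D (St D f) D' (St D' f')) :
    Nat.card {x : A' // x ∈ img s Z ∧ x ^ p = 1} ≤ Nat.card {x : A // x ∈ Z ∧ x ^ p = 1} := by
  classical
  choose! F hF hF' using fun (x' : A') (hx : x' ∈ img s Z) => of_img s hx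
  refine Nat.card_le_card_of_injective (fun x : {x : A' // x ∈ img s Z ∧ x ^ p = 1} =>
    (⟨(F x.1 : A), hF x.1 x.2.1, (sim_pow s).1 (by rw [hF' x.1 x.2.1]; exact x.2.2)⟩ :
      {x : A // x ∈ Z ∧ x ^ p = 1})) ?_
  intro x y hxy
  have h1 : F x.1 = F y.1 := Subtype.ext (congrArg
    (fun z : {x : A // x ∈ Z ∧ x ^ p = 1} => (z : A)) hxy)
  refine Subtype.ext ?_
  rw [← hF' x.1 x.2.1, ← hF' y.1 y.2.1, h1]

theorem pow_sim (s : Sim D (St D f) D' (St D' f')) {x y : ↥(cmW D (St D f))} {n : ℕ}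
    (h : (y : A) ^ n = x) : (s.σ y : A') ^ n = s.σ x := by
  have h1 : y ^ n = x := Subtype.ext h
  have h2 : s.σ y ^ n = s.σ x := by rw [← map_pow, h1]
  exact congrArg Subtype.val h2

/-- **a large `Z` of rank 2** -/
theorem gap_z2W (hW : StepAll.{u, v} p k) (hp2 : p ≠ 2) (h : Root p b D f) (hc : CenW p D Z f)
    (hs : Nat.card {z : A // z ∈ Z ∧ z ^ p = 1} ≤ p ^ 2)
    (hZ : ∀ z ∈ Z, z ^ p = 1 → ∃ y ∈ cmW D (St D f), y ^ p ^ 2 = z) :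
    gap p (⊤ : Subgroup A) ⊤ b = 0 := by
  obtain ⟨A', _, _, b', f', D', h', hg, ⟨s⟩, hD⟩ :=
    exists_red (fun {A} _ _ {b f D} h z hz hz1 hzE => hW A b f D h z hz hz1 hzE) h
  rw [← hg]
  refine gap_z2 hp2 h' (cen_sim h h' s hD hc) ((card_img s).trans hs) fun z' hz' hzp => ?_
  obtain ⟨z, hz, rfl⟩ := of_img s hz'
  obtain ⟨y, hy, h1⟩ := hZ z hz ((sim_pow s).1 hzp)
  exact ⟨s.σ ⟨y, hy⟩, hD.le (s.σ ⟨y, hy⟩).2, pow_sim s (y := ⟨y, hy⟩) h1⟩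

/-- **a large `Z`** -/
theorem gap_cenW (hW : StepAll.{u, v} p k) (hp2 : p ≠ 2) (h : Root p b D f) (hc : CenW p D Z f)
    {r s n : ℕ} (hr : Nat.card {x : A // x ∈ cmW D (St D f) ∧ x ^ p = 1} ≤ p ^ r)
    (hs : Nat.card {x : A // x ∈ Z ∧ x ^ p = 1} ≤ p ^ s)
    (hbig : ∀ z ∈ Z, z ^ p = 1 → ∃ y ∈ Z, y ^ p ^ n = z)
    (hn : (r - 2) * (s * (s - 1) / 2) + 3 ≤ n) (hn' : s * (s + 1) / 2 ≤ n) :
    gap p (⊤ : Subgroup A) ⊤ b = 0 := by
  obtain ⟨A', _, _, b', f', D', h', hg, ⟨t⟩, hD⟩ :=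
    exists_red (fun {A} _ _ {b f D} h z hz hz1 hzE => hW A b f D h z hz hz1 hzE) h
  rw [← hg]
  have hc' := cen_sim h h' t hD hc
  refine gap_cen hp2 h' hc'.le hc'.inv ((rank_sim t hD).trans hr) ((card_img t).trans hs)
    (fun z' hz' hzp => ?_) hn hn' hc'.faith fun x hx hx1 => ?_
  · obtain ⟨z, hz, rfl⟩ := of_img t hz'
    obtain ⟨y, hy, h1⟩ := hbig z hz ((sim_pow t).1 hzp)
    exact ⟨t.σ ⟨y, hc.le hy⟩, mem_img t (x := ⟨y, hc.le hy⟩) hy,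
      pow_sim t (y := ⟨y, hc.le hy⟩) h1⟩
  · obtain ⟨z, hz, -, h1, h2⟩ := hc'.stab x hx hx1
    exact ⟨z, hz, h1, h2⟩

end

end Pool.Agent.Lib.P0c8ca5.Ku
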