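import Mathlib
import Pool.Agent.Lib.P0c8ca5Ku.KD

/-!
# KM: the number of elements moved by `φ` modulo `T ^ (p ^ i)`, exponent version

As `card_irr`, but only `exp [T, φ] ≥ p ^ i` is used.
-/

set_option autoImplicit false
set_option linter.unusedSectionVars false

namespace Pool.Agent.Lib.P0c8ca5.Ku

open Finset

section
variable {T : Type*} [CommGroup T] [Finite T] {p : ℕ}

/-- the number of elements moved by `φ` modulo `T ^ (p ^ i)` -/
theorem card_irr' (hp : p.Prime) (hT : IsPGroup p T) {φ : MulAut T} {n : ℕ} (hn : φ ^ n = 1)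
    (hpn : ¬ p ∣ n) {i : ℕ} (hw : i = 0 ∨ ∃ u : T, (u⁻¹ * φ u) ^ p ^ (i - 1) ≠ 1) :
    p ^ i * Nat.card {x : T // ∃ y : T, x⁻¹ * φ x = y ^ p ^ i} ≤ Nat.card T := by
  have hcase : i = 0 ∨ ∃ d ∈ (cm φ).range, orderOf d = p ^ i := by
    rcases hw with h | ⟨u, hu⟩
    · exact Or.inl h
    · rcases Nat.eq_zero_or_pos i with h0 | h0
      · exact Or.inl h0
      · right
        have hpf : Fact p.Prime := ⟨hp⟩
        obtain ⟨k, hk⟩ := hT (cm φ u)
        obtain ⟨m, _, hm⟩ := (Nat.dvd_prime_pow hp).1 (orderOf_dvd_of_pow_eq_one hk)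
        have him : i ≤ m := by
          by_contra hlt
          apply hu
          have h1 : orderOf (cm φ u) ∣ p ^ (i - 1) := by
            rw [hm]
            exact pow_dvd_pow p (by omega)
          exact orderOf_dvd_iff_pow_eq_one.1 h1
        refine ⟨cm φ u ^ p ^ (m - i), (cm φ).range.pow_mem ⟨u, rfl⟩ _, ?_⟩
        rw [orderOf_pow' _ (pow_ne_zero _ hp.ne_zero), hm]
        have h3 : (p ^ m).gcd (p ^ (m - i)) = p ^ (m - i) :=
          Nat.gcd_eq_right (pow_dvd_pow p (Nat.sub_le m i))
        rw [h3, Nat.pow_div (Nat.sub_le m i) hp.pos]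
        congr 1
        omega
  rcases hcase with h0 | ⟨d, hd, hdo⟩
  · rw [h0, pow_zero, one_mul]
    exact Nat.card_le_card_of_injective Subtype.val Subtype.val_injective
  -- `D1 = [T, φ]`
  set D1 := (cm φ).range with hD1d
  let P : D1 →* D1 := powMonoidHom (p ^ i)
  -- the kernel of `P` has at least `p ^ i` elements
  have hker : p ^ i ≤ Nat.card P.ker := by
    let g : Subgroup.zpowers d → P.ker := fun z => ⟨⟨z.1, (Subgroup.zpowers_le.2 hd) z.2⟩, by
        rw [MonoidHom.mem_ker]
        apply Subtype.ext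
        change z.1 ^ p ^ i = 1
        obtain ⟨k, hk⟩ := z.2
        have hk' : d ^ k = z.1 := hk
        rw [← hk', ← zpow_natCast, ← zpow_mul, mul_comm, zpow_mul, zpow_natCast]
        have h4 : d ^ p ^ i = 1 := by
          rw [← hdo]
          exact pow_orderOf_eq_one _
        rw [h4, one_zpow]⟩
    have h3 : Nat.card (Subgroup.zpowers d) ≤ Nat.card P.ker := by
      refine Nat.card_le_card_of_injective g ?_
      intro a b hab
      have h4 : ((g a).1 : D1) = (g b).1 := congrArg Subtype.val hab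
      have h5 : ((g a).1 : D1).1 = ((g b).1 : D1).1 := congrArg Subtype.val h4
      exact Subtype.ext h5
    rw [Nat.card_zpowers, hdo] at h3
    exact h3
  have hP := card_ker_mul_range P
  have hg := card_ker_mul_range (cm φ)
  -- the irregular elements
  let S := {x : T // ∃ y : T, x⁻¹ * φ x = y ^ p ^ i}
  let A : Subgroup T := {
    carrier := {x | ∃ y : T, x⁻¹ * φ x = y ^ p ^ i}
    mul_mem' := by
      rintro a b ⟨y, hy⟩ ⟨z, hz⟩
      refine ⟨y * z, ?_⟩
      rw [mul_pow, ← hy, ← hz, map_mul, mul_inv]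
      exact mul_mul_mul_comm _ _ _ _
    one_mem' := ⟨1, by simp⟩
    inv_mem' := by
      rintro a ⟨y, hy⟩
      refine ⟨y⁻¹, ?_⟩
      rw [inv_pow, ← hy, map_inv, mul_inv] }
  have hA : Nat.card S = Nat.card A := rfl
  let f : A →* D1 := ((cm φ).rangeRestrict).comp A.subtype
  have hf := card_ker_mul_range f
  have hfk : Nat.card f.ker ≤ Nat.card (cm φ).ker := by
    let g : f.ker → (cm φ).ker := fun a => ⟨a.1.1, by
      have h1 := a.2
      rw [MonoidHom.mem_ker] at h1 ⊢
      exact congrArg Subtype.val h1⟩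
    refine Nat.card_le_card_of_injective g ?_
    intro a b hab
    have h4 : (g a).1 = (g b).1 := congrArg Subtype.val hab
    exact Subtype.ext (Subtype.ext h4)
  have hfr : Nat.card f.range ≤ Nat.card P.range := by
    have h1 : f.range ≤ P.range := by
      rintro _ ⟨a, rfl⟩
      obtain ⟨y, hy⟩ := a.2
      have h2 : (f a).1 ∈ (cm φ).range := (f a).2
      have h3 : (f a).1 = y ^ p ^ i := hy
      obtain ⟨z, hz, hz'⟩ := pow_cm hp hT hn hpn h2 h3
      exact ⟨⟨z, hz⟩, Subtype.ext hz'.symm⟩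
    exact Nat.card_le_card_of_injective (Subgroup.inclusion h1) (Subgroup.inclusion_injective h1)
  change p ^ i * Nat.card S ≤ Nat.card T
  rw [hA, ← hf]
  calc p ^ i * (Nat.card f.ker * Nat.card f.range)
      ≤ Nat.card P.ker * (Nat.card (cm φ).ker * Nat.card P.range) :=
        Nat.mul_le_mul hker (Nat.mul_le_mul hfk hfr)
    _ = Nat.card (cm φ).ker * (Nat.card P.ker * Nat.card P.range) := by ring
    _ = Nat.card T := by rw [hP, hg]

end

end Pool.Agent.Lib.P0c8ca5.Ku
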