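import Mathlib
import Pool.Agent.Lib.P0c8ca5Ex.ZF

/-!
# KO: the invariant rows, counted over all characters

`fix_orb`: the number of the nonzero rows invariant under `u ↦ u ^ (1 + p)` times `|E|` is at most
the sum of `(|E_l| / tau l) ^ 2` over the characters `l` with `tau l ≤ |E_l|` (the first factor is
rounded down).
-/

set_option linter.unusedSectionVars false

namespace Pool.Agent.Lib.P0c8ca5.Ex

open Finset YLx YZx ZFx

section
variable {T : Type*} [CommGroup T] [Fintype T] {K : Type*} [Field K] [CharZero K]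
  [HasEnoughRootsOfUnity K (Monoid.exponent T)]

theorem stl_dl {E : Subgroup (MulAut T)} (l : T →* Kˣ) {β : MulAut T} (hβ : β ∈ E) :
    stl E (dl l β) = stl E l := by
  refine Nat.card_congr
    { toFun := fun α => ⟨(⟨β, hβ⟩ : E) * α.1 * (⟨β, hβ⟩ : E)⁻¹, ?_⟩
      invFun := fun α => ⟨(⟨β, hβ⟩ : E)⁻¹ * α.1 * (⟨β, hβ⟩ : E), ?_⟩
      left_inv := fun α => Subtype.ext (by group)
      right_inv := fun α => Subtype.ext (by group) }
  · have h1 := α.2
    have h2 : (((⟨β, hβ⟩ : E) * α.1 * (⟨β, hβ⟩ : E)⁻¹ : E) : MulAut T)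
        = β * (α.1 : MulAut T) * β⁻¹ := rfl
    rw [h2, dl_mul, dl_mul, h1, ← dl_mul, mul_inv_cancel, dl_one]
  · have h1 := α.2
    have h2 : (((⟨β, hβ⟩ : E)⁻¹ * α.1 * (⟨β, hβ⟩ : E) : E) : MulAut T)
        = β⁻¹ * (α.1 : MulAut T) * β := rfl
    rw [h2, ← dl_mul, mul_assoc, mul_inv_cancel_left, dl_mul, h1]

theorem pw_inj {p : ℕ} (hcop : (Nat.card T).Coprime p) {l m : T →* Kˣ}
    (h : pw l p = pw m p) : l = m := by
  ext u
  obtain ⟨v, hv⟩ := (powCoprime hcop).surjective u
  rw [← hv, powCoprime_apply, ← pw_apply, ← pw_apply, h]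

theorem stl_pw {E : Subgroup (MulAut T)} (l : T →* Kˣ) {n : ℕ} (hcop : (Nat.card T).Coprime n) :
    stl E (pw l n) = stl E l := by
  unfold stl
  congr 1
  have h1 : ∀ α : E, dl (pw l n) (α : MulAut T) = pw l n ↔ dl l (α : MulAut T) = l := by
    intro α
    rw [dl_pw]
    exact ⟨fun h => pw_inj hcop h, fun h => by rw [h]⟩
  simp only [h1]

theorem od_pw (l : T →* Kˣ) {n : ℕ} (hcop : (Nat.card T).Coprime n) : od (pw l n) = od l := by
  unfold od
  congr 2
  ext x
  constructor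
  · rintro ⟨u, rfl⟩
    exact ⟨u ^ n, rfl⟩
  · rintro ⟨u, rfl⟩
    obtain ⟨v, hv⟩ := (powCoprime hcop).surjective u
    exact ⟨v, by rw [← hv]; rfl⟩

theorem od_dl (l : T →* Kˣ) (β : MulAut T) : od (dl l β) = od l := by
  unfold od
  congr 2
  ext x
  constructor
  · rintro ⟨u, rfl⟩
    exact ⟨β u, rfl⟩
  · rintro ⟨u, rfl⟩
    exact ⟨β⁻¹ u, by
      change l (β (β⁻¹ u)) = l u
      rw [MulAut.apply_inv_self]⟩

/-- **the number of the invariant rows**, by the orbits of `E` and `u ↦ u ^ (1 + p)` -/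
theorem fix_orb {p : ℕ} (hp : p.Prime) (hp2 : p ≠ 2) (hT : IsPGroup p T)
    {E : Subgroup (MulAut T)} (hpE : ¬ p ∣ Nat.card E) {I : Type*} [Fintype I]
    {ψ : I → T → K} (hv : ∀ i, ψ i ∈ vir T K) (hG : ∀ u v, GramR E ⊥ ψ u v) (S : Finset I)
    (hS : ∀ i ∈ S, ∀ u, ψ i (u ^ (1 + p)) = ψ i u) (hne : ∀ i ∈ S, ∃ u, ψ i u ≠ 0)
    [Fintype (T →* Kˣ)] :
    (S.card : ℚ) * Nat.card E
      ≤ ∑ l : T →* Kˣ, ((stl E l / tau p l : ℕ) : ℚ) * ((stl E l : ℚ) / tau p l) := by
  classical
  have : Fintype E := Fintype.ofFinite _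
  have hst : ∀ l : T →* Kˣ, stl E l = cn E l l := by
    intro l
    unfold stl cn
    rw [Nat.card_eq_fintype_card, Fintype.card_subtype]
  obtain ⟨M, hM⟩ := int_mlt hv
  have hgram : ∀ a c : T →* Kˣ, ∑ i, M i a * M i c = (cn E a c : ℤ) := by
    intro a c
    have h1 := gram_bot hG a c
    simp only [hM] at h1
    exact_mod_cast h1
  have hcop : (Nat.card T).Coprime (1 + p) := by
    have hF : Fact p.Prime := ⟨hp⟩
    obtain ⟨n, hn⟩ := IsPGroup.iff_card.1 hT
    rw [hn]
    refine Nat.Coprime.pow_left n ?_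
    rw [hp.coprime_iff_not_dvd]
    intro h1
    exact hp.one_lt.ne' (Nat.dvd_one.1 ((Nat.dvd_add_left (dvd_refl p)).1 h1))
  -- the multiplicities are constant on the orbits of `E`
  have horb : ∀ (l : T →* Kˣ) (β : MulAut T), β ∈ E → ∀ i, M i (dl l β) = M i l := by
    intro l β hβ i
    have h1 : ∑ i, (M i (dl l β) - M i l) ^ 2 = 0 := by
      have h2 : ∀ i, (M i (dl l β) - M i l) ^ 2 = M i (dl l β) * M i (dl l β)
          - 2 * (M i (dl l β) * M i l) + M i l * M i l := fun i => by ring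
      rw [sum_congr rfl fun i _ => h2 i, sum_add_distrib, sum_sub_distrib, ← mul_sum, hgram,
        hgram, hgram, cn_dl_left E _ _ hβ, cn_dl_right E _ _ hβ, cn_dl_left E _ _ hβ]
      ring
    have h2 := (sum_eq_zero_iff_of_nonneg fun i _ => sq_nonneg (M i (dl l β) - M i l)).1 h1 i
      (mem_univ i)
    exact sub_eq_zero.1 (pow_eq_zero_iff (two_ne_zero)|>.1 h2)
  -- one character
  have hone : ∀ l : T →* Kˣ, ∑ i ∈ S, M i l ^ 2 ≤ ((stl E l / tau p l : ℕ) : ℤ) := by
    intro l
    set d := tau p l with hd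
    have hd0 : 0 < d := tau_pos p l
    have h1 : ∑ i', (∑ j ∈ range d, M i' (pw l ((1 + p) ^ j))) ^ 2 ≤ (d : ℤ) * stl E l := by
      have h2 : ∀ i', (∑ j ∈ range d, M i' (pw l ((1 + p) ^ j))) ^ 2
          = ∑ j' ∈ range d, ∑ j ∈ range d, M i' (pw l ((1 + p) ^ j)) *
            M i' (pw l ((1 + p) ^ j')) := by
        intro i'
        rw [sq, sum_mul_sum, sum_comm]
      rw [sum_congr rfl fun i' _ => h2 i', sum_comm]
      have h3 : ∀ j' ∈ range d, ∑ i', ∑ j ∈ range d, M i' (pw l ((1 + p) ^ j)) *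
          M i' (pw l ((1 + p) ^ j')) ≤ (stl E l : ℤ) := by
        intro j' hj'
        rw [sum_comm]
        have h4 : ∀ j ∈ range d, ∑ i', M i' (pw l ((1 + p) ^ j)) * M i' (pw l ((1 + p) ^ j'))
            ≤ if j = j' then (stl E l : ℤ) else 0 := by
          intro j hj
          rw [hgram]
          have h5 : ∀ α : E, dl (pw l ((1 + p) ^ j')) (α : MulAut T) = pw l ((1 + p) ^ j) →
              j = j' ∧ dl l (α : MulAut T) = l := fun α hα =>
            conj_pw hp hp2 hT hpE α.2 (mem_range.1 hj) (mem_range.1 hj') hα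
          split_ifs with h6
          · rw [hst]
            have h7 : cn E (pw l ((1 + p) ^ j)) (pw l ((1 + p) ^ j')) ≤ cn E l l := by
              unfold cn
              refine card_le_card fun α hα => ?_
              rw [mem_filter] at hα ⊢
              exact ⟨mem_univ _, (h5 α hα.2).2⟩
            exact_mod_cast h7
          · have h7 : cn E (pw l ((1 + p) ^ j)) (pw l ((1 + p) ^ j')) = 0 := by
              unfold cn
              rw [Finset.card_eq_zero, filter_eq_empty_iff]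
              intro α _ hα
              exact h6 (h5 α hα).1
            rw [h7, Nat.cast_zero]
        refine (sum_le_sum h4).trans ?_
        rw [sum_ite_eq' (range d) j', if_pos hj']
      calc _ ≤ ∑ _j' ∈ range d, (stl E l : ℤ) := sum_le_sum h3
        _ = (d : ℤ) * stl E l := by rw [sum_const, Finset.card_range, nsmul_eq_mul]
    have h2 : ∀ i ∈ S, ∑ j ∈ range d, M i (pw l ((1 + p) ^ j)) = (d : ℤ) * M i l := by
      intro i hi
      have h3 : ∀ j ∈ range d, M i (pw l ((1 + p) ^ j)) = M i l := by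
        intro j _
        have h4 := mlt_pow_pow hcop (hS i hi) l j
        rw [hM, hM] at h4
        exact_mod_cast h4
      rw [sum_congr rfl h3, sum_const, Finset.card_range, nsmul_eq_mul]
    have h3 : (d : ℤ) * ((d : ℤ) * ∑ i ∈ S, M i l ^ 2) ≤ (d : ℤ) * stl E l := by
      calc (d : ℤ) * ((d : ℤ) * ∑ i ∈ S, M i l ^ 2)
          = ∑ i ∈ S, (∑ j ∈ range d, M i (pw l ((1 + p) ^ j))) ^ 2 := by
            rw [mul_sum, mul_sum]
            refine sum_congr rfl fun i hi => ?_
            rw [h2 i hi]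
            ring
        _ ≤ ∑ i', (∑ j ∈ range d, M i' (pw l ((1 + p) ^ j))) ^ 2 :=
            sum_le_sum_of_subset_of_nonneg (subset_univ S) fun i _ _ => sq_nonneg _
        _ ≤ _ := h1
    have h4 : (d : ℤ) * ∑ i ∈ S, M i l ^ 2 ≤ stl E l :=
      le_of_mul_le_mul_left h3 (by exact_mod_cast hd0)
    obtain ⟨N, hN⟩ := Int.eq_ofNat_of_zero_le (sum_nonneg fun i (_ : i ∈ S) => sq_nonneg (M i l))
    rw [hN] at h4 ⊢
    have h5 : d * N ≤ stl E l := by exact_mod_cast h4
    have h6 : N ≤ stl E l / d := by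
      rw [Nat.le_div_iff_mul_le hd0, mul_comm]
      exact h5
    exact_mod_cast h6
  -- one row
  have hrow : ∀ i ∈ S, (Nat.card E : ℚ)
      ≤ ∑ l : T →* Kˣ, (M i l : ℚ) ^ 2 * ((stl E l : ℚ) / tau p l) := by
    intro i hi
    obtain ⟨u, hu⟩ := hne i hi
    obtain ⟨l, hl⟩ : ∃ l : T →* Kˣ, M i l ≠ 0 := by
      by_contra hcon
      push Not at hcon
      apply hu
      rw [eq_sum_mlt (ψ i) u]
      exact sum_eq_zero fun l _ => by rw [hM, hcon, Int.cast_zero, zero_mul]
    have hτ := tau_pos p l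
    have hst0 : 0 < stl E l := by
      rw [hst]
      exact card_pos.2 ⟨1, mem_filter.2 ⟨mem_univ _, by rw [Subgroup.coe_one, dl_one]⟩⟩
    let F : E × Fin (tau p l) → (T →* Kˣ) := fun x => dl (pw l ((1 + p) ^ (x.2 : ℕ))) (x.1 : MulAut T)
    have hcopj : ∀ j : ℕ, (Nat.card T).Coprime ((1 + p) ^ j) := fun j => Nat.Coprime.pow_right j hcop
    -- the fibres
    have hfib : ∀ m : T →* Kˣ, (univ.filter fun x => F x = m).card ≤ stl E l := by
      intro m
      by_cases hm : ∃ x, F x = m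
      · obtain ⟨x₀, rfl⟩ := hm
        rw [hst]
        have hc : ∀ x, F x = F x₀ → (x₀.2 : ℕ) = x.2 ∧ dl l ((x.1 * x₀.1⁻¹ : E) : MulAut T) = l := by
          intro x hx
          refine conj_pw hp hp2 hT hpE (x.1 * x₀.1⁻¹).2 x₀.2.2 x.2.2 ?_
          have h2 : ((x.1 * x₀.1⁻¹ : E) : MulAut T) = (x.1 : MulAut T) * (x₀.1 : MulAut T)⁻¹ := rfl
          have h3 : dl (pw l ((1 + p) ^ (x.2 : ℕ))) (x.1 : MulAut T)
              = dl (pw l ((1 + p) ^ (x₀.2 : ℕ))) (x₀.1 : MulAut T) := hx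
          rw [h2, dl_mul, h3, ← dl_mul, mul_inv_cancel, dl_one]
        refine card_le_card_of_injOn (fun x => x.1 * x₀.1⁻¹) ?_ ?_
        · intro x hx
          exact mem_coe.2 (mem_filter.2 ⟨mem_univ _, (hc x (mem_filter.1 hx).2).2⟩)
        · intro x hx y hy hxy
          have h1 := (hc x (mem_filter.1 hx).2).1
          have h2 := (hc y (mem_filter.1 hy).2).1
          exact Prod.ext (mul_right_cancel hxy) (Fin.ext (h1.symm.trans h2))
      · have h1 : (univ.filter fun x => F x = m) = ∅ := by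
          rw [filter_eq_empty_iff]
          intro x _ hx
          exact hm ⟨x, hx⟩
        rw [h1, card_empty]
        exact Nat.zero_le _
    have hval : ∀ x, M i (F x) = M i l ∧ stl E (F x) = stl E l ∧ tau p (F x) = tau p l := by
      intro x
      refine ⟨?_, ?_, ?_⟩
      · have h4 := mlt_pow_pow hcop (hS i hi) l (x.2 : ℕ)
        rw [hM, hM] at h4
        rw [horb _ _ x.1.2]
        exact_mod_cast h4
      · rw [stl_dl _ x.1.2, stl_pw _ (hcopj _)]
      · unfold tau
        rw [od_dl, od_pw _ (hcopj _)]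
    have hcard : (Nat.card E : ℚ) * tau p l
        ≤ (univ.image F).card * (stl E l : ℚ) := by
      have h1 : Fintype.card (E × Fin (tau p l)) ≤ (univ.image F).card * stl E l := by
        rw [← Finset.card_univ, card_eq_sum_card_image F, ← smul_eq_mul, ← sum_const]
        exact sum_le_sum fun m _ => hfib m
      rw [Fintype.card_prod, Fintype.card_fin] at h1
      rw [Nat.card_eq_fintype_card]
      exact_mod_cast h1
    calc (Nat.card E : ℚ) ≤ (univ.image F).card * ((stl E l : ℚ) / tau p l) := by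
          rw [← mul_div_assoc, le_div_iff₀ (by exact_mod_cast hτ)]
          exact hcard
      _ = ∑ _m ∈ univ.image F, ((stl E l : ℚ) / tau p l) := by rw [sum_const, nsmul_eq_mul]
      _ ≤ ∑ m ∈ univ.image F, (M i m : ℚ) ^ 2 * ((stl E m : ℚ) / tau p m) := by
          refine sum_le_sum fun m hm => ?_
          obtain ⟨x, -, rfl⟩ := mem_image.1 hm
          rw [(hval x).1, (hval x).2.1, (hval x).2.2]
          have h1 : (1 : ℚ) ≤ (M i l : ℚ) ^ 2 := by
            have h2 : 1 ≤ M i l ^ 2 := by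
              have := sq_pos_of_ne_zero hl
              omega
            exact_mod_cast h2
          exact le_mul_of_one_le_left (by positivity) h1
      _ ≤ ∑ m : T →* Kˣ, (M i m : ℚ) ^ 2 * ((stl E m : ℚ) / tau p m) :=
          sum_le_sum_of_subset_of_nonneg (subset_univ _) fun m _ _ => by positivity
  have h1 : (S.card : ℚ) * Nat.card E
      ≤ ∑ i ∈ S, ∑ l : T →* Kˣ, (M i l : ℚ) ^ 2 * ((stl E l : ℚ) / tau p l) := by
    rw [← nsmul_eq_mul, ← sum_const]
    exact sum_le_sum hrow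
  rw [sum_comm] at h1
  refine h1.trans (sum_le_sum fun l _ => ?_)
  rw [← sum_mul]
  refine mul_le_mul_of_nonneg_right ?_ (by positivity)
  have h2 : ((∑ i ∈ S, M i l ^ 2 : ℤ) : ℚ) ≤ (((stl E l / tau p l : ℕ) : ℤ) : ℚ) := by
    exact_mod_cast hone l
  rw [Int.cast_sum, Int.cast_natCast] at h2
  simpa only [Int.cast_pow] using h2

end

end Pool.Agent.Lib.P0c8ca5.Ex
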