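import Mathlib
import Pool.Agent.Lib.P0c8ca5Ku.KV
import Pool.Agent.Lib.P0c8ca5Kk.Kze

/-!
# Lf: Navarro's equality for small stabilizers in the inertial quotient of the block of the large group

`G` is normal in `A`, `A / G` a p-group, `e` a block of `G` which is invariant under `A`, `(P, f)` a
maximal pair of `e` in `A`, `P ∩ G` is abelian of rank at most `r`, `E = St(P, f) / P C(P)`,
`Z = Z(P) ∩ G`.

`nav_stab`: if `|E| ≤ p ^ n`, `E` acts faithfully on the `p ^ n`-th powers of `Z`, the stabilizers in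
`E` of the elements of order `p` of `Z` have order at most `p ^ j`, and `(r - 2) * j + 3 ≤ n`, then
Navarro's equality holds for `(G, A, e)`.
-/

set_option autoImplicit false
set_option linter.unusedSectionVars false

namespace Pool.Agent.Lib.P0c8ca5.Ku

open MonoidAlgebra Ex Rk Kk Kk.KgAux Kk.KxAux Kk.KxaAux Kk.KxbAux Kk.KybAux FinAux

universe u v

section
variable {p : ℕ} {k : Type v} [Field k] {A : Type u} [Group A] [Fintype A]
variable [Fact p.Prime] [CharP k p] [IsAlgClosed k]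
variable {b c e f d : MonoidAlgebra k A} {G H S P D : Subgroup A}

/-- **Navarro's equality for `(G, A, e)`, small stabilizers** -/
theorem nav_stab (hp2 : p ≠ 2) (hG : G.Normal) (hp : ∀ x : A, ∃ n : ℕ, x ^ p ^ n ∈ G)
    (he : IsBlock G e) (hinv : InvBy ⊤ e) (hP : IsDefectGroup p (⊤ : Subgroup A) e P)
    (hcom : ∀ x ∈ P ⊓ G, ∀ y ∈ P ⊓ G, x * y = y * x)
    (hf : IsBlock (CD P) f) (hef : resS (CD P : Set A) e * f = f) {r j n : ℕ}
    (hr : Nat.card {x : A // x ∈ P ⊓ G ∧ x ^ p = 1} ≤ p ^ r)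
    (hn : (r - 2) * j + 3 ≤ n)
    (hE : (P ⊔ CD P).relIndex (St P f) ≤ p ^ n)
    (hF : ∀ g ∈ St P f, (∀ y ∈ P ⊓ G ⊓ CD P, g * y ^ p ^ n = y ^ p ^ n * g) → g ∈ P ⊔ CD P)
    (hst : ∀ z ∈ P ⊓ G ⊓ CD P, z ^ p = 1 → z ≠ 1 →
      (P ⊔ CD P).relIndex (St P f ⊓ C1 z) ≤ p ^ j) :
    NavarroEq p G ⊤ e := by
  classical
  have hPp := hP.isPGroup
  refine nav_act hG hp he hinv hP hcom hf hef ?_
  intro H D b d g _ hDH hds hroot hDP hA
  set Z : Subgroup A := cg g (P ⊓ G ⊓ CD P) with hZ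
  set S : Subgroup A := cg g (St P f) with hS
  have hmem : ∀ (L : Subgroup A) (x : A), g⁻¹ * x * g ∈ L ↔ x ∈ cg g L := fun L x => mem_cg.symm
  have hSt : ∀ x : ↥H, x ∈ St (D.subgroupOf H) (dn H d) ↔ (x : A) ∈ H ⊓ St D d := by
    intro x
    rw [St_subgroupOf hDH hds, Subgroup.mem_subgroupOf]
  have hCD : ∀ x : ↥H, x ∈ CD (D.subgroupOf H) ↔ (x : A) ∈ CD D := by
    intro x
    rw [CD_subgroupOf hDH, Subgroup.mem_subgroupOf, Subgroup.mem_inf]
    exact ⟨fun h => h.2, fun h => ⟨x.2, h⟩⟩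
  have hconj : ∀ x z : A, x * z = z * x ↔
      (g⁻¹ * x * g) * (g⁻¹ * z * g) = (g⁻¹ * z * g) * (g⁻¹ * x * g) := by
    intro x z
    constructor
    · intro h
      calc (g⁻¹ * x * g) * (g⁻¹ * z * g) = g⁻¹ * (x * z) * g := by group
        _ = g⁻¹ * (z * x) * g := by rw [h]
        _ = (g⁻¹ * z * g) * (g⁻¹ * x * g) := by group
    · intro h
      calc x * z = g * ((g⁻¹ * x * g) * (g⁻¹ * z * g)) * g⁻¹ := by group
        _ = g * ((g⁻¹ * z * g) * (g⁻¹ * x * g)) * g⁻¹ := by rw [h]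
        _ = z * x := by group
  -- the elements of `P C(P)` centralize `Z`
  have hNZ : ∀ x ∈ cg g (P ⊔ CD P), ∀ z ∈ Z, x * z = z * x := by
    intro x hx z hz
    rw [mem_cg] at hx hz
    exact (hconj x z).2 (com_PC hx hz)
  -- the elements of `S` which act trivially on the powers are in `P C(P)`
  have hFS : ∀ x ∈ S, (∀ z ∈ Z, x * z ^ p ^ n = z ^ p ^ n * x) → x ∈ cg g (P ⊔ CD P) := by
    intro x hx h
    rw [mem_cg] at hx ⊢
    refine hF _ hx fun y hy => ?_
    have h1 : g * y * g⁻¹ ∈ Z := by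
      rw [hZ, mem_cg]
      have h2 : g⁻¹ * (g * y * g⁻¹) * g = y := by group
      rwa [h2]
    have h2 := (hconj _ _).1 (h _ h1)
    have h3 : g⁻¹ * (g * y * g⁻¹) ^ p ^ n * g = y ^ p ^ n := by
      rw [conj_pow]
      group
    rwa [h3] at h2
  refine (large_stab (r := r) (j := j) hp2 hroot ?_ ?_ ?_ hn ?_).1
  · -- the rank
    refine le_trans ?_ hr
    refine Nat.card_le_card_of_injective (fun x : {x : ↥H // x ∈ D.subgroupOf H ∧ x ^ p = 1} =>
      (⟨g⁻¹ * (x.1 : A) * g, mem_cg.1 (hDP (Subgroup.mem_subgroupOf.1 x.2.1)), ?_⟩ :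
        {x : A // x ∈ P ⊓ G ∧ x ^ p = 1})) ?_
    · have h1 := conj_pow (a := g⁻¹) (b := (x.1 : A)) (i := p)
      rw [inv_inv] at h1
      have h2 : (x.1 : A) ^ p = 1 := congrArg Subtype.val x.2.2
      rw [h1, h2]
      group
    · intro x y hxy
      have h1 : g⁻¹ * (x.1 : A) * g = g⁻¹ * (y.1 : A) * g := congrArg Subtype.val hxy
      exact Subtype.ext (Subtype.ext (mul_left_cancel (mul_right_cancel h1)))
  · -- the inertial index
    exact (Nat.le_of_dvd (Nat.pos_of_ne_zero Subgroup.index_ne_zero_of_finite)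
      (eN_of_act hPp hf hDH hds hroot hDP hA)).trans hE
  · -- the stabilizers
    intro u hu hu1
    obtain ⟨z, hzZ, hzp, hz1, hzs⟩ := hA.stab _ (Subgroup.mem_subgroupOf.1 hu)
      (fun h => hu1 (Subtype.ext h))
    have hz' : g⁻¹ * z * g ∈ P ⊓ G ⊓ CD P := mem_cg.1 hzZ
    have hzp' : (g⁻¹ * z * g) ^ p = 1 := by
      have h1 := conj_pow (a := g⁻¹) (b := z) (i := p)
      rw [inv_inv] at h1
      rw [h1, hzp]
      group
    have hz1' : g⁻¹ * z * g ≠ 1 := by
      intro h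
      apply hz1
      calc z = g * (g⁻¹ * z * g) * g⁻¹ := by group
        _ = 1 := by rw [h]; group
    have hcs : ∀ x w : A, w ∈ C1 x ↔ w * x = x * w := fun x w =>
      Subgroup.mem_centralizer_singleton_iff
    have e1 : (CD (D.subgroupOf H)).relIndex (St (D.subgroupOf H) (dn H d) ⊓ C1 u)
        = (CD D).relIndex (H ⊓ St D d ⊓ C1 (u : A)) := by
      have e2 : CD (D.subgroupOf H) = (CD D).subgroupOf H := by
        ext x
        rw [hCD, Subgroup.mem_subgroupOf]
      have e3 : St (D.subgroupOf H) (dn H d) ⊓ C1 u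
          = (H ⊓ St D d ⊓ C1 (u : A)).subgroupOf H := by
        ext x
        rw [Subgroup.mem_subgroupOf, Subgroup.mem_inf, Subgroup.mem_inf, hSt]
        refine and_congr Iff.rfl ?_
        rw [Subgroup.mem_centralizer_singleton_iff, Subgroup.mem_centralizer_singleton_iff]
        exact ⟨fun h => congrArg Subtype.val h, fun h => Subtype.ext h⟩
      rw [e2, e3, Subgroup.relIndex_subgroupOf (inf_le_left.trans inf_le_left)]
    rw [e1]
    have hle : P ⊔ CD P ≤ St P f ⊓ C1 (g⁻¹ * z * g) := by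
      refine le_inf (sup_le (le_St hf) (CD_le_StR hf)) fun x hx => ?_
      rw [hcs]
      exact com_PC hx hz'
    have h1 : (CD D).relIndex (H ⊓ St D d ⊓ C1 (u : A))
        ∣ (CD (cg g P)).relIndex (cg g (St P f ⊓ C1 (g⁻¹ * z * g))) := by
      refine relIndex_dvd_of_act (hDP.trans (cg_le_cg inf_le_left))
        (fun x hx => (Subgroup.mem_inf.1 (Subgroup.mem_inf.1 hx).1).2.1) ?_ ?_
      · rw [← cg_normalizer]
        exact cg_le_cg fun x hx => (mem_St.1 (Subgroup.mem_inf.1 hx).1).1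
      · intro y hy
        obtain ⟨hyM, hyu⟩ := Subgroup.mem_inf.1 hy
        obtain ⟨w, hw, hwy⟩ := hA.act y hyM
        refine ⟨w, ?_, hwy⟩
        rw [cg_inf]
        refine Subgroup.mem_inf.2 ⟨hw, ?_⟩
        rw [mem_cg, hcs]
        refine (hconj w z).1 ?_
        exact (Kk.act_iff (x := w) (hwy z (hA.le hzZ))).2 (hzs y hyM ((hcs _ _).1 hyu))
    rw [← FuAux.cg_CD] at h1
    have h2 : (cg g (CD P)).relIndex (cg g (St P f ⊓ C1 (g⁻¹ * z * g)))
        = (CD P).relIndex (St P f ⊓ C1 (g⁻¹ * z * g)) :=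
      Subgroup.relIndex_map_map_of_injective _ _ (MulAut.conj g).injective
    rw [h2] at h1
    have h3 : ¬ p ∣ (CD D).relIndex (H ⊓ St D d ⊓ C1 (u : A)) := by
      intro h4
      have h5 := Ku.ndvd hroot
      rw [eN_dn H hDH hds] at h5
      apply h5
      refine h4.trans ?_
      exact relIndex_dvd_of_le_right inf_le_left
        (fun x hx => NDAux.N_le_NC (Subgroup.mem_inf.1 hx).2.1)
    exact (Nat.le_of_dvd (Nat.pos_of_ne_zero Subgroup.index_ne_zero_of_finite)
      (dvd_ind hPp hle h3 h1)).trans (hst _ hz' hzp' hz1')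
  · -- faithfulness
    intro x hx hxy
    rw [hCD]
    have hxM := (hSt x).1 hx
    obtain ⟨z, hz, hzx⟩ := hA.act _ hxM
    refine hA.faith _ hxM fun w hw _ => ?_
    have h1 : z ∈ cg g (P ⊔ CD P) := by
      refine hFS z hz fun w hw => ?_
      have hwD : w ^ p ^ n ∈ D := D.pow_mem (hA.le hw) _
      refine (Kk.act_iff (x := z) (hzx _ hwD)).2 ?_
      exact congrArg Subtype.val (hxy ⟨w, hDH (hA.le hw)⟩ (Subgroup.mem_subgroupOf.2 (hA.le hw)))
    exact (Kk.act_iff (x := z) (hzx _ (hA.le hw))).1 (hNZ z h1 w hw)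

end

end Pool.Agent.Lib.P0c8ca5.Ku
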