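import Mathlib
import Pool.Agent.Lib.P0c8ca5Ku.Lf
import Pool.Agent.Lib.P0c8ca5Kk.Kzg

/-!
# Lg: `nav_stab` for a subgroup `X` that contains `G`

`nav_stabX`: the theorem of Lf for `(G, X, e)`.
-/

set_option autoImplicit false
set_option linter.unusedSectionVars false

namespace Pool.Agent.Lib.P0c8ca5.Ku

open MonoidAlgebra Ex Rk Kk Kk.KgAux Kk.KxAux Kk.KxaAux Kk.KxbAux Kk.KybAux FinAux

universe u v

section
variable {p : ℕ} {k : Type v} [Field k] {A : Type u} [Group A] [Fintype A]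
variable [Fact p.Prime] [CharP k p] [IsAlgClosed k]
variable {e f : MonoidAlgebra k A} {G X P : Subgroup A}

/-- **small stabilizers, `(G, X, e)`** -/
theorem nav_stabX (hp2 : p ≠ 2) (hGX : G ≤ X) (hX : X ≤ Subgroup.normalizer (G : Set A))
    (hp : ∀ x ∈ X, ∃ n : ℕ, x ^ p ^ n ∈ G)
    (he : IsBlock G e) (hinv : InvBy X e) (hP : IsDefectGroup p X e P)
    (hcom : ∀ x ∈ P ⊓ G, ∀ y ∈ P ⊓ G, x * y = y * x)
    (hf : IsBlock (X ⊓ CD P) f) (hef : resS (CD P : Set A) e * f = f) {r j n : ℕ}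
    (hr : Nat.card {x : A // x ∈ P ⊓ G ∧ x ^ p = 1} ≤ p ^ r)
    (hn : (r - 2) * j + 3 ≤ n)
    (hE : (P ⊔ X ⊓ CD P).relIndex (X ⊓ St P f) ≤ p ^ n)
    (hF : ∀ g ∈ X ⊓ St P f, (∀ y ∈ P ⊓ G ⊓ CD P, g * y ^ p ^ n = y ^ p ^ n * g) →
      g ∈ P ⊔ X ⊓ CD P)
    (hst : ∀ z ∈ P ⊓ G ⊓ CD P, z ^ p = 1 → z ≠ 1 →
      (P ⊔ X ⊓ CD P).relIndex (X ⊓ St P f ⊓ C1 z) ≤ p ^ j) : NavarroEq p G X e := by
  have : Fintype ↥X := Fintype.ofFinite _
  have hPX : P ≤ X := hP.le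
  have hfs : SuppIn X f := fun x hx => ((mem_fixAlg.1 hf.mem).1 x hx).1
  obtain ⟨h1, h2, h3, h4, h5, h6, h7⟩ := data_dn hGX hX he hP hcom hf hef
  have e1 : P.subgroupOf X ⊔ CD (P.subgroupOf X) = (P ⊔ X ⊓ CD P).subgroupOf X := by
    rw [CD_subgroupOf hPX, ← Subgroup.subgroupOf_sup hPX inf_le_left]
  have e2 : St (P.subgroupOf X) (dn X f) = (X ⊓ St P f).subgroupOf X := St_subgroupOf hPX hfs
  have hZ : ∀ y : ↥X, y ∈ P.subgroupOf X ⊓ G.subgroupOf X ⊓ CD (P.subgroupOf X) ↔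
      (y : A) ∈ P ⊓ G ⊓ CD P := by
    intro y
    rw [CD_subgroupOf hPX]
    simp only [Subgroup.mem_inf, Subgroup.mem_subgroupOf]
    exact ⟨fun h => ⟨h.1, h.2.2⟩, fun h => ⟨h.1, y.2, h.2⟩⟩
  refine nav_dn hGX hX hp he hinv ?_
  refine nav_stab (r := r) (j := j) (n := n) hp2 h1 (fun x => by
    obtain ⟨n, hn⟩ := hp x x.2
    exact ⟨n, Subgroup.mem_subgroupOf.2 hn⟩) h2 (fun g _ x => hinv g g.2 x) h3 h4 h5 h6
    ?_ hn (by rw [h7]; exact hE) ?_ ?_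
  · refine le_trans ?_ hr
    refine Nat.card_le_card_of_injective
      (fun x : {x : ↥X // x ∈ P.subgroupOf X ⊓ G.subgroupOf X ∧ x ^ p = 1} =>
      (⟨(x.1 : A), Subgroup.mem_inf.2 ⟨Subgroup.mem_subgroupOf.1 (Subgroup.mem_inf.1 x.2.1).1,
        Subgroup.mem_subgroupOf.1 (Subgroup.mem_inf.1 x.2.1).2⟩, congrArg Subtype.val x.2.2⟩ :
        {x : A // x ∈ P ⊓ G ∧ x ^ p = 1})) ?_
    intro x y hxy
    exact Subtype.ext (Subtype.ext (congrArg (fun w : {x : A // x ∈ P ⊓ G ∧ x ^ p = 1} =>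
      (w : A)) hxy))
  · intro g hg h
    rw [e2, Subgroup.mem_subgroupOf] at hg
    rw [e1, Subgroup.mem_subgroupOf]
    refine hF g hg fun y hy => ?_
    have hyX : y ∈ X := hPX (Subgroup.mem_inf.1 (Subgroup.mem_inf.1 hy).1).1
    exact congrArg Subtype.val (h ⟨y, hyX⟩ ((hZ _).2 hy))
  · intro z hz hzp hz1
    have h8 := hst z ((hZ z).1 hz) (congrArg Subtype.val hzp) (fun h => hz1 (Subtype.ext h))
    have e3 : St (P.subgroupOf X) (dn X f) ⊓ C1 z = (X ⊓ St P f ⊓ C1 (z : A)).subgroupOf X := by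
      rw [e2]
      ext x
      constructor
      · rintro ⟨h9, h10⟩
        exact Subgroup.mem_subgroupOf.2 (Subgroup.mem_inf.2 ⟨Subgroup.mem_subgroupOf.1 h9,
          Subgroup.mem_centralizer_singleton_iff.2
            (congrArg Subtype.val (Subgroup.mem_centralizer_singleton_iff.1 h10))⟩)
      · intro h9
        obtain ⟨h10, h11⟩ := Subgroup.mem_inf.1 (Subgroup.mem_subgroupOf.1 h9)
        exact ⟨Subgroup.mem_subgroupOf.2 h10, Subgroup.mem_centralizer_singleton_iff.2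
          (Subtype.ext (Subgroup.mem_centralizer_singleton_iff.1 h11))⟩
    rw [e1, e3, Subgroup.relIndex_subgroupOf (inf_le_left.trans inf_le_left)]
    exact h8

end

end Pool.Agent.Lib.P0c8ca5.Ku
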