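import Mathlib
import Pool.Agent.Lib.P0c8ca5Ku.Lq
import Pool.Agent.Lib.P0c8ca5Ku.Lk
import Pool.Agent.Lib.P0c8ca5Kk.Kzi

/-!
# Ls: the local blocks, seen in the big group

`Seen p ι D d Z S N K`: the local block with the pair `(D, d)` lives in the group `B`, `ι : B → A` is
injective, `Z = Z(P) ∩ G`, `S` is the inertial group of `(P, f)`, `N = P C(P)`, `K = [D₀, E_G]`. The
inertial group of `(D, d)` acts as a part of `S`, it acts faithfully on the elements of order `p` of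
`Z`, and its action on `[D, E]` is seen on `[Z, E]`.
-/

set_option autoImplicit false
set_option linter.unusedSectionVars false

namespace Pool.Agent.Lib.P0c8ca5.Ku

open MonoidAlgebra Ex Rk Kk Kk.KgAux Kk.KxAux Kk.KxaAux Kk.KxbAux Kk.KybAux FinAux

universe u v

/-- the local block, seen in the big group -/
structure Seen {k : Type v} [Field k] {B A : Type u} [Group B] [Group A] (p : ℕ) (ι : B →* A)
    (D : Subgroup B) (d : MonoidAlgebra k B) (Z S N K : Subgroup A) : Prop where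
  inj : Function.Injective ι
  ge : Z ≤ D.map ι
  act : ∀ y ∈ St D d, ∃ s ∈ S, ∀ v ∈ D, s * ι v * s⁻¹ = ι y * ι v * (ι y)⁻¹
  faith : ∀ y ∈ St D d, (∀ z, ι z ∈ Z → z ^ p = 1 → y * z = z * y) → y ∈ CD D
  line : ∀ x ∈ cmW D (St D d), x ≠ 1 → ∃ z ∈ cmW (Z.comap ι) (St D d), z ^ p = 1 ∧ z ≠ 1 ∧
    ∀ y ∈ St D d, ∀ n : ℤ, y * x * y⁻¹ = x ^ n → y * z * y⁻¹ = z ^ n
  card : ∀ (M : Subgroup B) (R : Subgroup A), M ≤ St D d → N ≤ S ⊓ R →
    (∀ y ∈ M, ∀ s ∈ S, (∀ v ∈ D, s * ι v * s⁻¹ = ι y * ι v * (ι y)⁻¹) → s ∈ R) →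
    (CD D).relIndex M ≤ N.relIndex (S ⊓ R)
  rk : ∃ g : A, (cmW D (St D d)).map ι ≤ cg g K
  nz : ∀ s ∈ S, ∀ z ∈ Z, s * z * s⁻¹ ∈ Z
  cen : ∀ x ∈ N, ∀ z ∈ Z, x * z = z * x
  nn : ∀ s ∈ S, ∀ x ∈ N, s * x * s⁻¹ ∈ N
  sub : N ≤ S

/-- a group related to a cyclic group is cyclic -/
theorem cyc_transfer' {A B : Type*} [Group A] [Finite A] [Group B] [Finite B] {S N : Subgroup A}
    {M C : Subgroup B}
    (hN : ∀ s ∈ S, ∀ n ∈ N, s * n * s⁻¹ ∈ N) {γ : A} (hγ : γ ∈ S)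
    (hcyc : ∀ z ∈ S, ∃ j : ℕ, (γ ^ j)⁻¹ * z ∈ N) (R : Subgroup (B × A))
    (hR1 : ∀ q ∈ R, q.1 ∈ M ∧ q.2 ∈ S) (hR2 : ∀ y ∈ M, ∃ z, (y, z) ∈ R)
    (hR3 : ∀ q ∈ R, q.2 ∈ N → q.1 ∈ C) :
    ∃ y₁ ∈ M, ∀ y ∈ M, ∃ j : ℕ, (y₁ ^ j)⁻¹ * y ∈ C := by
  classical
  have nml : (N.subgroupOf S).Normal := by
    refine ⟨fun x hx y => ?_⟩
    rw [Subgroup.mem_subgroupOf] at hx ⊢
    exact hN y y.2 x hx
  let π : ↥S →* ↥S ⧸ N.subgroupOf S := QuotientGroup.mk' (N.subgroupOf S)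
  have hπ : ∀ z : ↥S, π z = 1 ↔ (z : A) ∈ N := by
    intro z
    change (QuotientGroup.mk z : ↥S ⧸ N.subgroupOf S) = 1 ↔ _
    rw [QuotientGroup.eq_one_iff, Subgroup.mem_subgroupOf]
  have hQ : IsCyclic (↥S ⧸ N.subgroupOf S) := by
    refine ⟨π ⟨γ, hγ⟩, fun x => ?_⟩
    obtain ⟨z, rfl⟩ := QuotientGroup.mk'_surjective (N.subgroupOf S) x
    obtain ⟨j, hj⟩ := hcyc z z.2
    refine ⟨(j : ℤ), ?_⟩
    have h1 : π ((⟨γ, hγ⟩ ^ j)⁻¹ * z) = 1 := (hπ _).2 hj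
    rw [map_mul, map_inv, map_pow, inv_mul_eq_one] at h1
    change π ⟨γ, hγ⟩ ^ (j : ℤ) = π z
    rw [zpow_natCast]
    exact h1
  let ψ : ↥R →* ↥S ⧸ N.subgroupOf S :=
    { toFun := fun q => π ⟨(q : B × A).2, (hR1 q q.2).2⟩
      map_one' := map_one π
      map_mul' := fun a b => by
        rw [← map_mul]
        rfl }
  have hψ : ∀ q : ↥R, ψ q = 1 ↔ (q : B × A).2 ∈ N := fun q => hπ _
  obtain ⟨⟨r, q₁, rfl⟩, hr⟩ := IsCyclic.exists_generator (α := ↥ψ.range)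
  refine ⟨(q₁ : B × A).1, (hR1 q₁ q₁.2).1, fun y hy => ?_⟩
  obtain ⟨z, hz⟩ := hR2 y hy
  obtain ⟨t, ht⟩ := Subgroup.mem_zpowers_iff.1 (hr ⟨ψ ⟨(y, z), hz⟩, ⟨_, rfl⟩⟩)
  have h1 : ψ q₁ ^ t = ψ ⟨(y, z), hz⟩ := congrArg Subtype.val ht
  have h2 : ψ ((q₁ ^ t)⁻¹ * ⟨(y, z), hz⟩) = 1 := by
    rw [map_mul, map_inv, map_zpow, h1, inv_mul_cancel]
  have h3 := hR3 _ (((q₁ ^ t)⁻¹ * ⟨(y, z), hz⟩ : ↥R)).2 ((hψ _).1 h2)
  have h4 : (((q₁ ^ t)⁻¹ * ⟨(y, z), hz⟩ : ↥R) : B × A).1 = ((q₁ : B × A).1 ^ t)⁻¹ * y := by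
    rfl
  rw [h4] at h3
  obtain ⟨j, hj⟩ := (mem_powers_iff_mem_zpowers (x := (q₁ : B × A).1)).2
    (Subgroup.mem_zpowers_iff.2 ⟨t, rfl⟩)
  refine ⟨j, ?_⟩
  change (q₁ : B × A).1 ^ j = (q₁ : B × A).1 ^ t at hj
  rw [hj]
  exact h3

section
variable {p : ℕ} {k : Type v} [Field k] {A B : Type u} [Group A] [Fintype A] [Group B] [Fintype B]
variable {D : Subgroup B} {d b : MonoidAlgebra k B} {Z S N K : Subgroup A} {ι : B →* A}

theorem Seen.memD (L : Seen p ι D d Z S N K) {z : B} (hz : ι z ∈ Z) : z ∈ D := by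
  obtain ⟨v, hv, h1⟩ := L.ge hz
  rwa [← L.inj h1]

theorem Seen.zle (L : Seen p ι D d Z S N K) : Z.comap ι ≤ D := fun _ hz => L.memD hz

theorem Seen.inv (L : Seen p ι D d Z S N K) : ∀ y ∈ St D d, ∀ z ∈ Z.comap ι,
    y * z * y⁻¹ ∈ Z.comap ι := by
  intro y hy z hz
  obtain ⟨s, hs, h1⟩ := L.act y hy
  rw [Subgroup.mem_comap, map_mul, map_mul, map_inv, ← h1 z (L.memD hz)]
  exact L.nz s hs _ hz

theorem Seen.act_iff (L : Seen p ι D d Z S N K) {s : A} {y v : B}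
    (h1 : ∀ v ∈ D, s * ι v * s⁻¹ = ι y * ι v * (ι y)⁻¹) (hv : v ∈ D) :
    s * ι v = ι v * s ↔ y * v = v * y := by
  rw [← mul_inv_eq_iff_eq_mul, h1 v hv, mul_inv_eq_iff_eq_mul, ← map_mul, ← map_mul]
  exact L.inj.eq_iff

/-- `[Z, E]` of the local block is a part of `[Z, E]` -/
theorem Seen.img (L : Seen p ι D d Z S N K) {w : B} (hw : w ∈ cmW (Z.comap ι) (St D d)) :
    ι w ∈ cmW Z S := by
  have h1 : cmW (Z.comap ι) (St D d) ≤ (cmW Z S).comap ι := by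
    unfold cmW
    rw [Subgroup.closure_le]
    rintro w ⟨y, hy, u, hu, rfl⟩
    obtain ⟨s, hs, h2⟩ := L.act y hy
    rw [SetLike.mem_coe, Subgroup.mem_comap]
    refine Subgroup.subset_closure ⟨s, hs, ι u, hu, ?_⟩
    rw [map_mul, map_mul, map_mul, map_inv, map_inv, h2 u (L.memD hu)]
  exact h1 hw

theorem Seen.vle (L : Seen p ι D d Z S N K) : cmW (Z.comap ι) (St D d) ≤ cmW D (St D d) :=
  cmW_mono L.zle fun g hg => ⟨g, hg, fun _ _ => rfl⟩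

end

theorem Cop.sub {A : Type*} [Group A] [Finite A] {p : ℕ} {D W Z : Subgroup A} (h : Cop p D W)
    (hZ : Z ≤ D) (hinv : ∀ g ∈ W, ∀ z ∈ Z, g * z * g⁻¹ ∈ Z) : Cop p Z W where
  pg := h.pg.to_le hZ
  com x hx y hy := h.com x (hZ hx) y (hZ hy)
  inv := hinv
  cop hp := h.cop (hp.trans (Subgroup.relIndex_dvd_of_le_left W
    (Subgroup.centralizer_le (SetLike.coe_subset_coe.2 hZ))))

section
variable {p : ℕ} {k : Type v} [Field k] {A B : Type u} [Group A] [Fintype A] [Group B] [Fintype B]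
variable [Fact p.Prime] [CharP k p] [IsAlgClosed k]
variable {D : Subgroup B} {d b : MonoidAlgebra k B} {Z S N K : Subgroup A} {ι : B →* A}

theorem Seen.cop (L : Seen p ι D d Z S N K) (h : Root p b D d) : Cop p (Z.comap ι) (St D d) :=
  (cop_root h).sub L.zle L.inv

theorem Seen.faithN (L : Seen p ι D d Z S N K) {n : ℕ}
    (hF : ∀ g ∈ S, (∀ y ∈ Z, g * y ^ p ^ n = y ^ p ^ n * g) → g ∈ N) : Faith p n D d := by
  intro y hy hyv
  obtain ⟨s, hs, h1⟩ := L.act y hy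
  have h2 : s ∈ N := hF s hs fun w hw => by
    obtain ⟨v, hv, rfl⟩ := L.ge hw
    have h3 := (L.act_iff h1 (D.pow_mem hv _)).2 (hyv v hv)
    rwa [map_pow] at h3
  exact L.faith y hy fun z hz _ => (L.act_iff h1 (L.memD hz)).1 (L.cen s h2 _ hz)

theorem Seen.eN_le (L : Seen p ι D d Z S N K) : eN D d ≤ N.relIndex S := by
  have h1 := L.card (St D d) ⊤ le_rfl (by rw [inf_top_eq]; exact L.sub)
    fun _ _ _ _ _ => Subgroup.mem_top _
  rw [inf_top_eq] at h1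
  exact h1

theorem Seen.fix (L : Seen p ι D d Z S N K) {x z : B} (hz : z ∈ cmW (Z.comap ι) (St D d))
    (hD : cmW (Z.comap ι) (St D d) ≤ Z.comap ι)
    (h1 : ∀ y ∈ St D d, ∀ n : ℤ, y * x * y⁻¹ = x ^ n → y * z * y⁻¹ = z ^ n) {y : B} {s : A}
    (hy : y ∈ St D d) (hyx : y * x = x * y)
    (h2 : ∀ v ∈ D, s * ι v * s⁻¹ = ι y * ι v * (ι y)⁻¹) : s * ι z = ι z * s := by
  refine (L.act_iff h2 (L.zle (hD hz))).2 ?_
  have h3 := h1 y hy 1 (by rw [zpow_one]; exact mul_inv_eq_iff_eq_mul.2 hyx)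
  rw [zpow_one] at h3
  exact mul_inv_eq_iff_eq_mul.1 h3

theorem Seen.ne {L : Seen p ι D d Z S N K} {z : B} (hz : z ≠ 1) : ι z ≠ 1 := by
  intro h
  exact hz (L.inj (by rw [h, map_one]))

/-- the stabilizers of the elements -/
theorem Seen.stab (L : Seen p ι D d Z S N K) (h : Root p b D d) {x : B}
    (hx : x ∈ cmW D (St D d)) (hx1 : x ≠ 1) : ∃ z ∈ cmW Z S, z ^ p = 1 ∧ z ≠ 1 ∧
      (CD D).relIndex (St D d ⊓ C1 x) ≤ N.relIndex (S ⊓ C1 z) := by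
  obtain ⟨z, hz, hzp, hz1, h1⟩ := L.line x hx hx1
  have hV : cmW (Z.comap ι) (St D d) ≤ Z.comap ι := (L.cop h).le
  refine ⟨ι z, L.img hz, by rw [← map_pow, hzp, map_one], Seen.ne (L := L) hz1, ?_⟩
  refine L.card _ _ inf_le_left (le_inf L.sub fun n hn =>
    Subgroup.mem_centralizer_singleton_iff.2 (L.cen n hn _ (hV hz))) ?_
  intro y hy s _ hsy
  exact Subgroup.mem_centralizer_singleton_iff.2 (L.fix hz hV h1 hy.1
    (Subgroup.mem_centralizer_singleton_iff.1 hy.2) hsy)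

/-- the lines -/
theorem Seen.lineOK (L : Seen p ι D d Z S N K) (h : Root p b D d)
    (hl : ∀ z ∈ cmW Z S, z ^ p = 1 → z ≠ 1 → LineOK p N S z) {x : B}
    (hx : x ∈ cmW D (St D d)) (hx1 : x ≠ 1) : LineOK p (CD D) (St D d) x := by
  obtain ⟨z, hz, hzp, hz1, h1⟩ := L.line x hx hx1
  have hV : cmW (Z.comap ι) (St D d) ≤ Z.comap ι := (L.cop h).le
  have hcN : ∀ n ∈ N, n * ι z = ι z * n := fun n hn => L.cen n hn _ (hV hz)
  rcases hl (ι z) (L.img hz) (by rw [← map_pow, hzp, map_one]) (Seen.ne (L := L) hz1) with h2 | h2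
  · left
    have h3 := L.card (St D d ⊓ C1 x) (C1 (ι z)) inf_le_left (le_inf L.sub fun n hn =>
      Subgroup.mem_centralizer_singleton_iff.2 (hcN n hn)) fun y hy s _ hsy =>
        Subgroup.mem_centralizer_singleton_iff.2 (L.fix hz hV h1 hy.1
          (Subgroup.mem_centralizer_singleton_iff.1 hy.2) hsy)
    have h4 : (CD D).relIndex (St D d ⊓ C1 x) ≠ 0 := Subgroup.index_ne_zero_of_finite
    omega
  · right
    refine lt_of_le_of_lt (Nat.add_le_add_right (L.card (St D d ⊓ NZ x) (NZ (ι z)) inf_le_left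
      (le_inf L.sub fun n hn => mem_NZ.2 ?_) ?_) 1) h2
    · rw [hcN n hn, mul_inv_cancel_right]
      exact Subgroup.mem_zpowers _
    · intro y hy s _ hsy
      obtain ⟨n, hn⟩ := Subgroup.mem_zpowers_iff.1 (mem_NZ.1 hy.2)
      have h4 := h1 y hy.1 n hn.symm
      refine mem_NZ.2 ?_
      rw [hsy z (L.zle (hV hz)), ← map_inv, ← map_mul, ← map_mul, h4, map_zpow]
      exact Subgroup.zpow_mem_zpowers _ _

/-- cyclic stabilizers -/
theorem Seen.cyc (L : Seen p ι D d Z S N K) (h : Root p b D d)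
    (hcyc : ∀ z ∈ cmW Z S, z ^ p = 1 → z ≠ 1 → ∃ g₀ ∈ S, g₀ * z = z * g₀ ∧
      ∀ g ∈ S, g * z = z * g → ∃ j : ℕ, (g₀ ^ j)⁻¹ * g ∈ N) :
    ∀ u ∈ cmW D (St D d), u ≠ 1 → ∃ g₀ ∈ St D d,
      ∀ g ∈ St D d, g * u = u * g → ∃ j : ℕ, (g₀ ^ j)⁻¹ * g ∈ CD D := by
  intro u hu hu1
  obtain ⟨z, hz, hzp, hz1, h1⟩ := L.line u hu hu1
  have hV : cmW (Z.comap ι) (St D d) ≤ Z.comap ι := (L.cop h).le
  obtain ⟨γ, hγ, hγz, hγc⟩ := hcyc (ι z) (L.img hz) (by rw [← map_pow, hzp, map_one])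
    (Seen.ne (L := L) hz1)
  have hinv : ∀ g ∈ St D d, ∀ v ∈ D, g * v * g⁻¹ ∈ D := (cop_root h).inv
  let M : Subgroup B := St D d ⊓ C1 u
  let S₁ : Subgroup A := S ⊓ C1 (ι z)
  have hMS : ∀ y ∈ M, y ∈ St D d := fun y hy => hy.1
  let R : Subgroup (B × A) :=
    { carrier := {q | q.1 ∈ M ∧ q.2 ∈ S₁ ∧ ∀ v ∈ D, q.2 * ι v * q.2⁻¹ = ι q.1 * ι v * (ι q.1)⁻¹}
      mul_mem' := by
        rintro ⟨y, s⟩ ⟨x, w⟩ ⟨hy, hs, hsy⟩ ⟨hx, hw, hwx⟩
        refine ⟨M.mul_mem hy hx, S₁.mul_mem hs hw, fun v hv => ?_⟩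
        change s * w * ι v * (s * w)⁻¹ = ι (y * x) * ι v * (ι (y * x))⁻¹
        have h2 := hsy _ (hinv x (hMS x hx) v hv)
        have h3 := hwx v hv
        change s * ι (x * v * x⁻¹) * s⁻¹ = ι y * ι (x * v * x⁻¹) * (ι y)⁻¹ at h2
        change w * ι v * w⁻¹ = ι x * ι v * (ι x)⁻¹ at h3
        rw [map_mul, map_mul, map_inv] at h2
        calc s * w * ι v * (s * w)⁻¹ = s * (w * ι v * w⁻¹) * s⁻¹ := by group
          _ = s * (ι x * ι v * (ι x)⁻¹) * s⁻¹ := by rw [h3]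
          _ = ι y * (ι x * ι v * (ι x)⁻¹) * (ι y)⁻¹ := h2
          _ = ι (y * x) * ι v * (ι (y * x))⁻¹ := by rw [map_mul]; group
      one_mem' := ⟨M.one_mem, S₁.one_mem, fun v _ => by
        change 1 * ι v * 1⁻¹ = ι 1 * ι v * (ι 1)⁻¹
        rw [map_one]⟩
      inv_mem' := by
        rintro ⟨y, s⟩ ⟨hy, hs, hsy⟩
        refine ⟨M.inv_mem hy, S₁.inv_mem hs, fun v hv => ?_⟩
        change s⁻¹ * ι v * s⁻¹⁻¹ = ι y⁻¹ * ι v * (ι y⁻¹)⁻¹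
        have h2 := hsy _ (hinv y⁻¹ (hMS _ (M.inv_mem hy)) v hv)
        change s * ι (y⁻¹ * v * y⁻¹⁻¹) * s⁻¹ = ι y * ι (y⁻¹ * v * y⁻¹⁻¹) * (ι y)⁻¹ at h2
        rw [map_mul, map_mul, map_inv, map_inv, map_inv, inv_inv] at h2
        rw [map_inv, inv_inv, inv_inv]
        calc s⁻¹ * ι v * s = s⁻¹ * (ι y * ((ι y)⁻¹ * ι v * ι y) * (ι y)⁻¹) * s := by group
          _ = s⁻¹ * (s * ((ι y)⁻¹ * ι v * ι y) * s⁻¹) * s := by rw [h2]
          _ = (ι y)⁻¹ * ι v * ι y := by group }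
  have hRm : ∀ q, q ∈ R ↔ q.1 ∈ M ∧ q.2 ∈ S₁ ∧
      ∀ v ∈ D, q.2 * ι v * q.2⁻¹ = ι q.1 * ι v * (ι q.1)⁻¹ := fun q => Iff.rfl
  obtain ⟨y₁, hy₁, hy₁c⟩ := cyc_transfer' (S := S₁) (N := N) (M := M) (C := CD D) (γ := γ)
    (fun s hs n hn => L.nn s hs.1 n hn) ⟨hγ, Subgroup.mem_centralizer_singleton_iff.2 hγz⟩
    (fun w hw => hγc w hw.1 (Subgroup.mem_centralizer_singleton_iff.1 hw.2)) R
    (fun q hq => ⟨((hRm q).1 hq).1, ((hRm q).1 hq).2.1⟩) (by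
      intro y hy
      obtain ⟨s, hs, hsy⟩ := L.act y (hMS y hy)
      exact ⟨s, (hRm _).2 ⟨hy, ⟨hs, Subgroup.mem_centralizer_singleton_iff.2
        (L.fix hz hV h1 (hMS y hy) (Subgroup.mem_centralizer_singleton_iff.1 hy.2) hsy)⟩,
        hsy⟩⟩) (by
      intro q hq hqN
      obtain ⟨hqM, -, hqv⟩ := (hRm q).1 hq
      exact L.faith _ (hMS _ hqM) fun w hw _ => (L.act_iff hqv (L.memD hw)).1 (L.cen _ hqN _ hw))
  exact ⟨y₁, hMS y₁ hy₁, fun g hg hgu =>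
    hy₁c g ⟨hg, Subgroup.mem_centralizer_singleton_iff.2 hgu⟩⟩

/-- `[Z, E]` of the local block -/
theorem Seen.cenW (L : Seen p ι D d Z S N K) (h : Root p b D d) :
    CenW p D (cmW (Z.comap ι) (St D d)) d where
  le := L.vle
  faith := by
    intro y hy hyz
    refine L.faith y hy fun z hz hzp => ?_
    obtain ⟨c, hc, w, hw, rfl, hcf⟩ := (L.cop h).dec (x := z) hz
    have hcw : Commute c w := (L.cop h).com c hc w ((L.cop h).le hw)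
    have h1 : w ^ p = 1 := by
      refine (L.cop h).fix (Subgroup.pow_mem _ hw p) fun g hg => ?_
      have h2 : w ^ p = (c ^ p)⁻¹ := by
        rw [hcw.mul_pow] at hzp
        exact eq_inv_of_mul_eq_one_right hzp
      rw [h2]
      exact ((show Commute g c from hcf g hg).pow_right p).inv_right
    exact (show Commute y c from hcf y hy).mul_right (show Commute y w from hyz w hw h1)
  stab := by
    intro x hx hx1
    obtain ⟨z, hz, hzp, hz1, h1⟩ := L.line x hx hx1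
    refine ⟨z, hz, hzp, hz1, fun g hg hgx => ?_⟩
    have h3 := h1 g hg 1 (by rw [zpow_one]; exact mul_inv_eq_iff_eq_mul.2 hgx)
    rw [zpow_one] at h3
    exact mul_inv_eq_iff_eq_mul.1 h3
  inv := fun g hg z hz => cmW_inv L.inv hg hz

/-- the rank of `[Z, E]` -/
theorem Seen.rankV (L : Seen p ι D d Z S N K) :
    Nat.card {z : B // z ∈ cmW (Z.comap ι) (St D d) ∧ z ^ p = 1} ≤
      Nat.card {z : A // z ∈ cmW Z S ∧ z ^ p = 1} := by
  refine Nat.card_le_card_of_injective (fun x => (⟨ι x.1, L.img x.2.1, by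
    rw [← map_pow, x.2.2, map_one]⟩ : {z : A // z ∈ cmW Z S ∧ z ^ p = 1})) ?_
  intro x y hxy
  exact Subtype.ext (L.inj (congrArg (fun z : {z : A // z ∈ cmW Z S ∧ z ^ p = 1} => (z : A)) hxy))

/-- the rank of `[D, E]` -/
theorem Seen.rankD (L : Seen p ι D d Z S N K) :
    Nat.card {z : B // z ∈ cmW D (St D d) ∧ z ^ p = 1} ≤
      Nat.card {z : A // z ∈ K ∧ z ^ p = 1} := by
  obtain ⟨g, hg⟩ := L.rk
  have hpow : ∀ x : A, (g⁻¹ * x * g) ^ p = g⁻¹ * x ^ p * g := by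
    intro x
    have h1 := conj_pow (a := g⁻¹) (b := x) (i := p)
    rwa [inv_inv] at h1
  refine Nat.card_le_card_of_injective (fun x => (⟨g⁻¹ * ι x.1 * g,
    mem_cg.1 (hg ⟨x.1, x.2.1, rfl⟩), by
    rw [hpow, ← map_pow, x.2.2, map_one]
    group⟩ : {z : A // z ∈ K ∧ z ^ p = 1})) ?_
  intro x y hxy
  have h1 : g⁻¹ * ι x.1 * g = g⁻¹ * ι y.1 * g :=
    congrArg (fun z : {z : A // z ∈ K ∧ z ^ p = 1} => (z : A)) hxy
  exact Subtype.ext (L.inj (mul_left_cancel (mul_right_cancel h1)))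

/-- the powers in `[Z, E]` -/
theorem Seen.pow (L : Seen p ι D d Z S N K) (h : Root p b D d) {m : ℕ}
    (hZS : ∀ s ∈ S, ∀ z ∈ Z, s * z * s⁻¹ ∈ Z)
    (hbig : ∀ z ∈ cmW Z S, z ^ p = 1 → ∃ y ∈ cmW Z S, y ^ m = z) :
    ∀ z ∈ cmW (Z.comap ι) (St D d), z ^ p = 1 →
      ∃ y ∈ cmW (Z.comap ι) (St D d), y ^ m = z := by
  intro z hz hzp
  obtain ⟨y', hy', h1⟩ := hbig (ι z) (L.img hz) (by rw [← map_pow, hzp, map_one])
  obtain ⟨y, hy, rfl⟩ := L.ge (cmW_le hZS hy')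
  have h2 : y ^ m = z := L.inj (by rw [map_pow]; exact h1)
  have hyZ : y ∈ Z.comap ι := cmW_le hZS hy'
  obtain ⟨c, hc, w, hw, rfl, hcf⟩ := (L.cop h).dec (x := y) hyZ
  have hcw : Commute c w := (L.cop h).com c hc w ((L.cop h).le hw)
  rw [hcw.mul_pow] at h2
  refine ⟨w, hw, ?_⟩
  have h3 : w ^ m * z⁻¹ = 1 := by
    refine (L.cop h).fix (Subgroup.mul_mem _ (Subgroup.pow_mem _ hw m) (Subgroup.inv_mem _ hz))
      fun g hg => ?_
    have h4 : w ^ m * z⁻¹ = (c ^ m)⁻¹ := by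
      have h5 : Commute (c ^ m) (w ^ m) := (hcw.pow_left m).pow_right m
      rw [← h2, mul_inv_rev, mul_inv_cancel_left]
    rw [h4]
    exact ((show Commute g c from hcf g hg).pow_right m).inv_right
  exact mul_inv_eq_one.1 h3

end

end Pool.Agent.Lib.P0c8ca5.Ku
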