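import Mathlib
import Pool.Agent.Lib.P0c8ca5Ku.Ls
import Pool.Agent.Lib.P0c8ca5Ku.Lr
import Pool.Agent.Lib.P0c8ca5Ex.WRc

/-!
# Lt: Navarro's equality from the local blocks, seen in the big group

`nav_seen`: Navarro's equality for `(G, A, e)` if the gap of the local blocks `Seen` in `A` is zero.
-/

set_option autoImplicit false
set_option linter.unusedSectionVars false

namespace Pool.Agent.Lib.P0c8ca5.Ku

open MonoidAlgebra Ex Rk Kk Kk.KgAux Kk.KxAux Kk.KxaAux Kk.KxbAux Kk.KybAux FinAux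

universe u v

section
variable {p : ℕ} {k : Type v} [Field k] {A : Type u} [Group A] [Fintype A]
variable [Fact p.Prime] [CharP k p] [IsAlgClosed k]
variable {b c e f d : MonoidAlgebra k A} {G H S P D K : Subgroup A}

theorem PC_inv {s : A} (hs : s ∈ St P f) {x : A} (hx : x ∈ P ⊔ CD P) :
    s * x * s⁻¹ ∈ P ⊔ CD P := by
  have hsN : s ∈ Subgroup.normalizer (P : Set A) := (mem_St.1 hs).1
  have h2 : cg s (P ⊔ CD P) = P ⊔ CD P := by
    apply Subgroup.eq_of_le_of_card_ge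
    · rw [cg_le_iff]
      refine sup_le ?_ ?_
      · rw [← cg_le_iff, cg_eq_self_iff.2 hsN]
        exact le_sup_left
      · rw [← cg_le_iff, FuAux.cg_CD, cg_eq_self_iff.2 hsN]
        exact le_sup_right
    · rw [card_cg]
  rw [← h2, mem_cg]
  have h3 : s⁻¹ * (s * x * s⁻¹) * s = x := by group
  rwa [h3]

theorem Z_inv (hG : G.Normal) {s : A} (hs : s ∈ St P f) {z : A} (hz : z ∈ P ⊓ G ⊓ CD P) :
    s * z * s⁻¹ ∈ P ⊓ G ⊓ CD P := by
  have hsN : s ∈ Subgroup.normalizer (P : Set A) := (mem_St.1 hs).1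
  refine ⟨⟨(Subgroup.mem_normalizer_iff.1 hsN z).1 hz.1.1, hG.conj_mem z hz.1.2 s⟩, ?_⟩
  have h1 : cg s (CD P) = CD P := by rw [FuAux.cg_CD, cg_eq_self_iff.2 hsN]
  have h3 : s⁻¹ * (s * z * s⁻¹) * s = z := by group
  have h4 : s * z * s⁻¹ ∈ cg s (CD P) := by
    rw [mem_cg, h3]
    exact hz.2
  rwa [h1] at h4

/-- **Navarro's equality for `(G, A, e)`** from the local blocks -/
theorem nav_seen (hG : G.Normal) (hp : ∀ x : A, ∃ n : ℕ, x ^ p ^ n ∈ G)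
    (he : IsBlock G e) (hinv : InvBy ⊤ e) (hP : IsDefectGroup p (⊤ : Subgroup A) e P)
    (hcom : ∀ x ∈ P ⊓ G, ∀ y ∈ P ⊓ G, x * y = y * x)
    (hf : IsBlock (CD P) f) (hef : resS (CD P : Set A) e * f = f)
    (hK : ∀ {H D : Subgroup A} {b d : MonoidAlgebra k A} {g : A}, D ≤ H → SuppIn H d →
      Root p (dn H b) (D.subgroupOf H) (dn H d) → D ≤ cg g (P ⊓ G) →
      (∀ y ∈ H ⊓ St D d, ∃ z ∈ cg g (St P f), ∀ v ∈ D, z * v * z⁻¹ = y * v * y⁻¹) →
      ∃ g', cmW D (H ⊓ St D d) ≤ cg g' K)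
    (hk : ∀ {B : Type u} [Group B] [Fintype B] {b d : MonoidAlgebra k B} {D : Subgroup B}
      (ι : B →* A), Root p b D d →
      Seen p ι D d (P ⊓ G ⊓ CD P) (St P f) (P ⊔ CD P) K → gap p (⊤ : Subgroup B) ⊤ b = 0) :
    NavarroEq p G ⊤ e := by
  classical
  have hPp := hP.isPGroup
  refine nav_actQ hG hp he hinv hP hcom hf hef ?_
  intro H D Q b d g _ hDH hds hroot hDP hA hQ hDZ hQD hWQ
  have hDp : IsPGroup p ↥D := by
    have h1 : IsPGroup p ↥(cg g (P ⊓ G)) := (hPp.to_le inf_le_left).map _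
    exact h1.to_le hDP
  have hDcom : ∀ x ∈ D, ∀ y ∈ D, x * y = y * x := by
    intro x hx y hy
    have h1 := hcom _ (mem_cg.1 (hDP hx)) _ (mem_cg.1 (hDP hy))
    calc x * y = g * ((g⁻¹ * x * g) * (g⁻¹ * y * g)) * g⁻¹ := by group
      _ = g * ((g⁻¹ * y * g) * (g⁻¹ * x * g)) * g⁻¹ := by rw [h1]
      _ = y * x := by group
  have hStH : St (D.subgroupOf H) (dn H d) = (H ⊓ St D d).subgroupOf H := St_subgroupOf hDH hds
  have hSt : ∀ x : ↥H, x ∈ St (D.subgroupOf H) (dn H d) ↔ (x : A) ∈ H ⊓ St D d := by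
    intro x
    rw [hStH, Subgroup.mem_subgroupOf]
  have hCD : CD (D.subgroupOf H) = (CD D).subgroupOf H := by
    ext x
    rw [CD_subgroupOf hDH, Subgroup.mem_subgroupOf, Subgroup.mem_subgroupOf, Subgroup.mem_inf]
    exact ⟨fun h => h.2, fun h => ⟨x.2, h⟩⟩
  have hWn : ∀ y ∈ H ⊓ St D d, ∀ v ∈ D, y * v * y⁻¹ ∈ D := fun y hy v hv =>
    (Subgroup.mem_normalizer_iff.1 (Subgroup.mem_inf.1 hy).2.1 v).1 hv
  have hpE : ¬ p ∣ (CD D).relIndex (H ⊓ St D d) := by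
    have h5 := Ku.ndvd hroot
    rwa [eN_dn H hDH hds] at h5
  have hcop : Cop p D (H ⊓ St D d) := ⟨hDp, hDcom, hWn, hpE⟩
  let ι : ↥H →* A := (MulAut.conj g⁻¹).toMonoidHom.comp H.subtype
  have hι : ∀ y : ↥H, ι y = g⁻¹ * y * g := by
    intro y
    change g⁻¹ * (y : A) * g⁻¹⁻¹ = _
    rw [inv_inv]
  have hcgz : ∀ {L : Subgroup A} {z : A}, z ∈ L → g * z * g⁻¹ ∈ cg g L := by
    intro L z hz
    rw [mem_cg]
    have h3 : g⁻¹ * (g * z * g⁻¹) * g = z := by group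
    rwa [h3]
  have hZι : (P ⊓ G ⊓ CD P).comap ι = (cg g (P ⊓ G ⊓ CD P)).subgroupOf H := by
    ext x
    rw [Subgroup.mem_comap, hι, Subgroup.mem_subgroupOf, mem_cg]
  have hDle : D ≤ H := hDH
  have hcmZ : cmW ((P ⊓ G ⊓ CD P).comap ι) (St (D.subgroupOf H) (dn H d))
      = (cmW (cg g (P ⊓ G ⊓ CD P)) (H ⊓ St D d)).subgroupOf H := by
    rw [hZι, hStH, cmW_subgroupOf (hA.le.trans hDH) inf_le_left]
  have hcmD : cmW (D.subgroupOf H) (St (D.subgroupOf H) (dn H d))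
      = (cmW D (H ⊓ St D d)).subgroupOf H := by
    rw [hStH, cmW_subgroupOf hDH inf_le_left]
  have hact : ∀ (y v : ↥H) (s : A), (g * s * g⁻¹) * v * (g * s * g⁻¹)⁻¹ = (y : A) * v * (y : A)⁻¹ ↔
      s * ι v * s⁻¹ = ι y * ι v * (ι y)⁻¹ := by
    intro y v s
    rw [hι, hι]
    constructor
    · intro h
      calc s * (g⁻¹ * v * g) * s⁻¹ = g⁻¹ * ((g * s * g⁻¹) * v * (g * s * g⁻¹)⁻¹) * g := by group
        _ = g⁻¹ * ((y : A) * v * (y : A)⁻¹) * g := by rw [h]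
        _ = g⁻¹ * y * g * (g⁻¹ * v * g) * (g⁻¹ * y * g)⁻¹ := by group
    · intro h
      calc (g * s * g⁻¹) * v * (g * s * g⁻¹)⁻¹ = g * (s * (g⁻¹ * v * g) * s⁻¹) * g⁻¹ := by group
        _ = g * (g⁻¹ * y * g * (g⁻¹ * v * g) * (g⁻¹ * y * g)⁻¹) * g⁻¹ := by rw [h]
        _ = (y : A) * v * (y : A)⁻¹ := by group
  refine hk ι hroot ⟨?_, ?_, ?_, ?_, ?_, ?_, ?_, ?_, ?_, ?_, ?_⟩
  · -- injective
    intro x y hxy
    rw [hι, hι] at hxy
    exact Subtype.ext (mul_left_cancel (mul_right_cancel hxy))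
  · intro z hz
    refine ⟨⟨g * z * g⁻¹, hDH (hA.le (hcgz hz))⟩, Subgroup.mem_subgroupOf.2 (hA.le (hcgz hz)), ?_⟩
    rw [hι]
    group
  · intro y hy
    obtain ⟨s, hs, h1⟩ := hA.act y ((hSt y).1 hy)
    refine ⟨g⁻¹ * s * g, mem_cg.1 hs, fun v hv => (hact y v _).1 ?_⟩
    have h2 : g * (g⁻¹ * s * g) * g⁻¹ = s := by group
    rw [h2]
    exact h1 v (Subgroup.mem_subgroupOf.1 hv)
  · intro y hy hyz
    rw [hCD, Subgroup.mem_subgroupOf]
    refine hA.faith y ((hSt y).1 hy) fun z hz hzp => ?_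
    have hzH : z ∈ H := hDH (hA.le hz)
    exact congrArg Subtype.val (hyz ⟨z, hzH⟩ (by rw [hι]; exact mem_cg.1 hz) (Subtype.ext hzp))
  · intro x hx hx1
    rw [hcmD, Subgroup.mem_subgroupOf] at hx
    have hx1' : (x : A) ≠ 1 := fun h => hx1 (Subtype.ext h)
    obtain ⟨z, hz, hzQ, hzp, hz1, h1⟩ := line_cmW hDp hQ hDcom hQD hWn hWQ hx hx1'
    have hzD : z ∈ D := cmW_le hWn hz
    have hzZ : z ∈ cg g (P ⊓ G ⊓ CD P) := by
      rw [← hDZ]
      exact Subgroup.mem_inf.2 ⟨hzD, hzQ⟩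
    have hzV := cmW_inf_le hcop hA.le hA.inv ⟨hz, hzZ⟩
    refine ⟨⟨z, hDH hzD⟩, ?_, Subtype.ext hzp, fun h => hz1 (congrArg Subtype.val h),
      fun y hy n hn => Subtype.ext (h1 y ((hSt y).1 hy) n (congrArg Subtype.val hn))⟩
    rw [hcmZ, Subgroup.mem_subgroupOf]
    exact hzV
  · -- the index
    intro M R hM hle hMR
    have hMm : M = (M.map H.subtype).subgroupOf H := by
      rw [Subgroup.subgroupOf, Subgroup.comap_map_eq_self_of_injective H.subtype_injective]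
    have hM' : M.map H.subtype ≤ H ⊓ St D d := by
      rintro _ ⟨y, hy, rfl⟩
      exact (hSt y).1 (hM hy)
    have h0 : (CD (D.subgroupOf H)).relIndex M = (CD D).relIndex (M.map H.subtype) := by
      conv_lhs => rw [hMm, hCD]
      exact Subgroup.relIndex_subgroupOf (hM'.trans inf_le_left)
    rw [h0]
    have h1 : (CD D).relIndex (M.map H.subtype) ∣
        (CD (cg g P)).relIndex (cg g (St P f ⊓ R)) := by
      refine relIndex_dvd_of_act (hDP.trans (cg_le_cg inf_le_left))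
        (fun x hx => (Subgroup.mem_inf.1 (hM' hx)).2.1) ?_ ?_
      · rw [← cg_normalizer]
        exact cg_le_cg fun x hx => (mem_St.1 (Subgroup.mem_inf.1 hx).1).1
      · rintro _ ⟨y, hy, rfl⟩
        obtain ⟨s, hs, hsy⟩ := hA.act y ((hSt y).1 (hM hy))
        refine ⟨s, ?_, hsy⟩
        rw [cg_inf]
        refine Subgroup.mem_inf.2 ⟨hs, mem_cg.2 (hMR y hy _ (mem_cg.1 hs) fun v hv =>
          (hact y v _).1 ?_)⟩
        have h2 : g * (g⁻¹ * s * g) * g⁻¹ = s := by group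
        rw [h2]
        exact hsy v (Subgroup.mem_subgroupOf.1 hv)
    rw [← FuAux.cg_CD] at h1
    have h2 : (cg g (CD P)).relIndex (cg g (St P f ⊓ R)) = (CD P).relIndex (St P f ⊓ R) :=
      Subgroup.relIndex_map_map_of_injective _ _ (MulAut.conj g).injective
    rw [h2] at h1
    have h3 : ¬ p ∣ (CD D).relIndex (M.map H.subtype) := by
      intro h4
      exact hpE (h4.trans (relIndex_dvd_of_le_right hM'
        (fun x hx => NDAux.N_le_NC (Subgroup.mem_inf.1 hx).2.1)))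
    exact Nat.le_of_dvd (Nat.pos_of_ne_zero Subgroup.index_ne_zero_of_finite)
      (dvd_ind hPp hle h3 h1)
  · obtain ⟨g', hg'⟩ := hK hDH hds hroot hDP hA.act
    refine ⟨g⁻¹ * g', ?_⟩
    rintro _ ⟨x, hx, rfl⟩
    rw [hcmD] at hx
    have hx' : (x : A) ∈ cg g' K := hg' (Subgroup.mem_subgroupOf.1 hx)
    rw [mem_cg] at hx' ⊢
    have h1 : (g⁻¹ * g')⁻¹ * ι x * (g⁻¹ * g') = g'⁻¹ * x * g' := by
      rw [hι]
      group
    rwa [h1]
  · intro s hs z hz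
    exact Z_inv hG hs hz
  · intro x hx z hz
    exact com_PC hx hz
  · intro s hs x hx
    exact PC_inv hs hx
  · exact sup_le (le_St hf) (CD_le_StR hf)

end

section
variable {p : ℕ} {k : Type v} [Field k] {A B : Type u} [Group A] [Fintype A] [Group B] [Fintype B]
variable {D : Subgroup B} {d : MonoidAlgebra k B} {X Z S N K : Subgroup A} {ι : B →* ↥X}

/-- from the subgroup `X` to the whole group -/
theorem Seen.up (L : Seen p ι D d (Z.subgroupOf X) (S.subgroupOf X) (N.subgroupOf X)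
    (K.subgroupOf X)) (hZX : Z ≤ X) (hSX : S ≤ X) (hNX : N ≤ X) :
    Seen p (X.subtype.comp ι) D d Z S N K := by
  have hι : ∀ y : B, (X.subtype.comp ι) y = (ι y : A) := fun _ => rfl
  have hZι : Z.comap (X.subtype.comp ι) = (Z.subgroupOf X).comap ι := rfl
  refine ⟨?_, ?_, ?_, ?_, ?_, ?_, ?_, ?_, ?_, ?_, ?_⟩
  · intro x y hxy
    exact L.inj (Subtype.ext hxy)
  · intro z hz
    obtain ⟨v, hv, h1⟩ := L.ge (x := ⟨z, hZX hz⟩) (Subgroup.mem_subgroupOf.2 hz)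
    exact ⟨v, hv, congrArg Subtype.val h1⟩
  · intro y hy
    obtain ⟨s, hs, h1⟩ := L.act y hy
    exact ⟨s, Subgroup.mem_subgroupOf.1 hs, fun v hv => congrArg Subtype.val (h1 v hv)⟩
  · intro y hy hyz
    exact L.faith y hy fun z hz hzp => hyz z (Subgroup.mem_subgroupOf.1 hz) hzp
  · intro x hx hx1
    rw [hZι]
    exact L.line x hx hx1
  · intro M R hM hle hMR
    have h1 : N.relIndex (S ⊓ R) = (N.subgroupOf X).relIndex ((S ⊓ R).subgroupOf X) :=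
      (Subgroup.relIndex_subgroupOf (inf_le_left.trans hSX)).symm
    have h2 : (S ⊓ R).subgroupOf X = S.subgroupOf X ⊓ R.subgroupOf X := rfl
    rw [h1, h2]
    refine L.card M (R.subgroupOf X) hM (fun x hx => hle (Subgroup.mem_subgroupOf.1 hx)) ?_
    intro y hy s hs hsy
    exact Subgroup.mem_subgroupOf.2 (hMR y hy s (Subgroup.mem_subgroupOf.1 hs)
      fun v hv => congrArg Subtype.val (hsy v hv))
  · obtain ⟨g, hg⟩ := L.rk
    refine ⟨g, ?_⟩
    rintro _ ⟨x, hx, rfl⟩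
    have h1 := mem_cg.1 (hg ⟨x, hx, rfl⟩)
    exact mem_cg.2 (Subgroup.mem_subgroupOf.1 h1)
  · intro s hs z hz
    exact Subgroup.mem_subgroupOf.1 (L.nz ⟨s, hSX hs⟩ (Subgroup.mem_subgroupOf.2 hs)
      ⟨z, hZX hz⟩ (Subgroup.mem_subgroupOf.2 hz))
  · intro x hx z hz
    exact congrArg Subtype.val (L.cen ⟨x, hNX hx⟩ (Subgroup.mem_subgroupOf.2 hx)
      ⟨z, hZX hz⟩ (Subgroup.mem_subgroupOf.2 hz))
  · intro s hs x hx
    exact Subgroup.mem_subgroupOf.1 (L.nn ⟨s, hSX hs⟩ (Subgroup.mem_subgroupOf.2 hs)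
      ⟨x, hNX hx⟩ (Subgroup.mem_subgroupOf.2 hx))
  · intro x hx
    exact Subgroup.mem_subgroupOf.1 (L.sub (x := ⟨x, hNX hx⟩) (Subgroup.mem_subgroupOf.2 hx))

end

section
variable {p : ℕ} {k : Type v} [Field k] {A : Type u} [Group A] [Fintype A]
variable [Fact p.Prime] [CharP k p] [IsAlgClosed k]
variable {e f f₀ : MonoidAlgebra k A} {G X P D₀ : Subgroup A}

theorem isDefect_dnG {D : Subgroup A} (hGX : G ≤ X) (he : SuppIn X e)
    (h : IsDefectGroup p G e D) :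
    IsDefectGroup p (G.subgroupOf X) (dn X e) (D.subgroupOf X) := by
  refine ⟨fun x hx => Subgroup.mem_subgroupOf.2 (h.le (Subgroup.mem_subgroupOf.1 hx)),
    h.isPGroup.comap_subtype, Hy.hasBr_dn he h.br, ?_⟩
  intro P hPG hP hbr hDP
  have h1 : P.map X.subtype = D := by
    refine h.max _ ?_ (hP.map _) (Hy.hasBr_up hbr) ?_
    · rintro _ ⟨x, hx, rfl⟩
      exact Subgroup.mem_subgroupOf.1 (hPG hx)
    · intro x hx
      exact ⟨⟨x, hGX (h.le hx)⟩, hDP (Subgroup.mem_subgroupOf.2 hx), rfl⟩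
  rw [← h1, Subgroup.subgroupOf]
  exact (Subgroup.comap_map_eq_self_of_injective X.subtype_injective P).symm

/-- **Navarro's equality for `(G, X, e)`** from the local blocks -/
theorem nav_seenX (hG : G.Normal) (hGX : G ≤ X)
    (hp : ∀ x ∈ X, ∃ n : ℕ, x ^ p ^ n ∈ G)
    (he : IsBlock G e) (hinv : InvBy X e) (hP : IsDefectGroup p X e P)
    (hcom : ∀ x ∈ P ⊓ G, ∀ y ∈ P ⊓ G, x * y = y * x)
    (hf : IsBlock (X ⊓ CD P) f) (hef : resS (CD P : Set A) e * f = f)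
    (hD₀ : IsDefectGroup p G e D₀) (hf₀ : IsBlock (G ⊓ CD D₀) f₀)
    (hef₀ : resS (CD D₀ : Set A) e * f₀ = f₀)
    (hk : ∀ {B : Type u} [Group B] [Fintype B] {b d : MonoidAlgebra k B} {D : Subgroup B}
      (ι : B →* A), Root p b D d →
      Seen p ι D d (P ⊓ G ⊓ CD P) (X ⊓ St P f) (P ⊔ X ⊓ CD P) (cmW D₀ (G ⊓ St D₀ f₀)) →
      gap p (⊤ : Subgroup B) ⊤ b = 0) :
    NavarroEq p G X e := by
  have : Fintype ↥X := Fintype.ofFinite _
  have hPX : P ≤ X := hP.le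
  have hX : X ≤ Subgroup.normalizer (G : Set A) := fun x _ => mem_norm_of_normal G x
  have hDX : D₀ ≤ X := hD₀.le.trans hGX
  have hf₀s : SuppIn X f₀ := hf₀.suppIn.mono (inf_le_left.trans hGX)
  obtain ⟨h1, h2, h3, h4, h5, h6, h7⟩ := data_dn hGX hX he hP hcom hf hef
  have hpX : ∀ x : ↥X, ∃ n : ℕ, x ^ p ^ n ∈ G.subgroupOf X := fun x => by
    obtain ⟨n, hn⟩ := hp x x.2
    exact ⟨n, Subgroup.mem_subgroupOf.2 hn⟩
  have hiX : InvBy (⊤ : Subgroup ↥X) (dn X e) := fun g _ x => hinv g g.2 x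
  have d1 := isDefect_dnG (p := p) hGX (he.suppIn.mono hGX) hD₀
  have hCD₀ : (CD (D₀.subgroupOf X) : Subgroup ↥X) = (X ⊓ CD D₀).subgroupOf X :=
    CD_subgroupOf hDX
  have d2 : IsBlock (G.subgroupOf X ⊓ CD (D₀.subgroupOf X)) (dn X f₀) := by
    have e1 : G.subgroupOf X ⊓ CD (D₀.subgroupOf X) = (G ⊓ CD D₀).subgroupOf X := by
      rw [hCD₀]
      ext x
      simp only [Subgroup.mem_inf, Subgroup.mem_subgroupOf]
      exact ⟨fun h => ⟨h.1, h.2.2⟩, fun h => ⟨h.1, x.2, h.2⟩⟩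
    rw [e1]
    exact dn_blk (inf_le_left.trans hGX) hf₀
  have d3 : resS (CD (D₀.subgroupOf X) : Set ↥X) (dn X e) * dn X f₀ = dn X f₀ := by
    have e1 : resS ((CD (D₀.subgroupOf X) : Subgroup ↥X) : Set ↥X) (dn X e)
        = dn X (resS (CD D₀ : Set A) e) := by
      rw [dn_resS]
      congr 1
      ext x
      rw [hCD₀]
      simp only [SetLike.mem_coe, Subgroup.mem_subgroupOf, Subgroup.mem_inf, Set.mem_preimage]
      exact ⟨fun h => h.2, fun h => ⟨x.2, h⟩⟩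
    rw [e1, ← dn_mul_right _ hf₀s, hef₀]
  have hSt₀ : G.subgroupOf X ⊓ St (D₀.subgroupOf X) (dn X f₀) = (G ⊓ St D₀ f₀).subgroupOf X := by
    rw [St_subgroupOf hDX hf₀s]
    ext x
    simp only [Subgroup.mem_inf, Subgroup.mem_subgroupOf]
    exact ⟨fun h => ⟨h.1, h.2.2⟩, fun h => ⟨h.1, x.2, h.2⟩⟩
  obtain ⟨g₀, -, -, hloc, -⟩ := Ex.WR.cm_loc h1 hpX h2 hiX h3 h4 h5 h6 d1 d2 d3
  rw [hSt₀, cmW_subgroupOf hDX (inf_le_left.trans hGX)] at hloc
  refine nav_dn hGX hX hp he hinv ?_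
  refine nav_seen (K := (cmW D₀ (G ⊓ St D₀ f₀)).subgroupOf X) h1 hpX h2 hiX h3 h4 h5 h6
    (fun h8 h9 h10 h11 h12 => ⟨_, (hloc h8 h9 h10 h11 h12).2⟩) ?_
  intro B _ _ b d D ι hroot hL
  have e1 : P.subgroupOf X ⊓ G.subgroupOf X ⊓ CD (P.subgroupOf X)
      = (P ⊓ G ⊓ CD P).subgroupOf X := by
    ext x
    rw [mem_Z_dn hPX, Subgroup.mem_subgroupOf]
  have e2 : St (P.subgroupOf X) (dn X f) = (X ⊓ St P f).subgroupOf X := by
    ext x
    rw [mem_St_dn hPX hf, Subgroup.mem_subgroupOf]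
  have e3 : P.subgroupOf X ⊔ CD (P.subgroupOf X) = (P ⊔ X ⊓ CD P).subgroupOf X := by
    ext x
    rw [mem_PC_dn hPX, Subgroup.mem_subgroupOf]
  rw [e1, e2, e3] at hL
  exact hk (X.subtype.comp ι) hroot (hL.up (inf_le_left.trans (inf_le_left.trans hPX))
    inf_le_left (sup_le hPX inf_le_left))

end

end Pool.Agent.Lib.P0c8ca5.Ku
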