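import Mathlib
import Pool.Agent.Lib.P0c8ca5Ku.Lt
import Pool.Agent.Lib.P0c8ca5Ex.WQf

/-!
# Lu: the conditions of the theorems for the local blocks

`stepAll`: the central steps (Theorem W). `cmW_eq`: `cmW D W` is the commutator subgroup.
`seen_z2`, `seen_zs`, `seen_cyc`, `seen_line`, `seen_stab`: the gap of a local block is zero.
-/

set_option autoImplicit false
set_option linter.unusedSectionVars false

namespace Pool.Agent.Lib.P0c8ca5.Ku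

open MonoidAlgebra Ex Rk Kk Kk.KgAux Kk.KxAux Kk.KxaAux Kk.KxbAux Kk.KybAux FinAux

universe u v

theorem stepAll {p : ℕ} [Fact p.Prime] (hp2 : p ≠ 2) (k : Type v) [Field k] [CharP k p]
    [IsAlgClosed k] : StepAll.{u, v} p k :=
  fun _ _ _ _ _ _ h _ hz hz1 hzE => Ex.WQ.step_all hp2 h hz hz1 hzE

open scoped commutatorElement in
theorem cmW_eq {A : Type*} [Group A] [Finite A] (D W : Subgroup A) : cmW D W = ⁅D, W⁆ := by
  unfold cmW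
  apply le_antisymm
  · rw [Subgroup.closure_le]
    rintro w ⟨g, hg, u, hu, rfl⟩
    have h1 : u⁻¹ * (g * u * g⁻¹) = ⁅u⁻¹, g⁆ := by
      rw [commutatorElement_def]
      group
    rw [h1]
    exact Subgroup.commutator_mem_commutator (D.inv_mem hu) hg
  · rw [Subgroup.commutator_le]
    intro u hu g hg
    refine Subgroup.subset_closure ⟨g, hg, u⁻¹, D.inv_mem hu, ?_⟩
    rw [commutatorElement_def]
    group

section
variable {p : ℕ} {k : Type v} [Field k] {A B : Type u} [Group A] [Fintype A] [Group B] [Fintype B]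
variable [Fact p.Prime] [CharP k p] [IsAlgClosed k]
variable {D : Subgroup B} {d b : MonoidAlgebra k B} {Z S N K : Subgroup A} {ι : B →* A}

theorem seen_z2 (hp2 : p ≠ 2) (h : Root p b D d) (L : Seen p ι D d Z S N K) {n : ℕ} (hn : 2 ≤ n)
    (hs : Nat.card {z : A // z ∈ cmW Z S ∧ z ^ p = 1} ≤ p ^ 2)
    (hZ : ∀ z ∈ cmW Z S, z ^ p = 1 → ∃ y ∈ cmW Z S, y ^ p ^ n = z) :
    gap p (⊤ : Subgroup B) ⊤ b = 0 := by
  refine gap_z2W (stepAll hp2 k) hp2 h (L.cenW h) (L.rankV.trans hs) fun z hz hzp => ?_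
  obtain ⟨y, hy, h1⟩ := L.pow h L.nz hZ z hz hzp
  refine ⟨y ^ p ^ (n - 2), L.vle (Subgroup.pow_mem _ hy _), ?_⟩
  rw [← pow_mul, ← pow_add, Nat.sub_add_cancel hn]
  exact h1

theorem seen_zs (hp2 : p ≠ 2) (h : Root p b D d) (L : Seen p ι D d Z S N K) {r s n : ℕ}
    (hr : Nat.card {z : A // z ∈ K ∧ z ^ p = 1} ≤ p ^ r)
    (hs : Nat.card {z : A // z ∈ cmW Z S ∧ z ^ p = 1} ≤ p ^ s)
    (hZ : ∀ z ∈ cmW Z S, z ^ p = 1 → ∃ y ∈ cmW Z S, y ^ p ^ n = z)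
    (hn : (r - 2) * (s * (s - 1) / 2) + 3 ≤ n) (hn' : s * (s + 1) / 2 ≤ n) :
    gap p (⊤ : Subgroup B) ⊤ b = 0 :=
  gap_cenW (stepAll hp2 k) hp2 h (L.cenW h) (L.rankD.trans hr) (L.rankV.trans hs)
    (L.pow h L.nz hZ) hn hn'

theorem seen_cyc (hp2 : p ≠ 2) (h : Root p b D d) (L : Seen p ι D d Z S N K) {n : ℕ}
    (hn : 1 ≤ n) (hE : N.relIndex S < p ^ (n + 1))
    (hF : ∀ g ∈ S, (∀ y ∈ Z, g * y ^ p ^ n = y ^ p ^ n * g) → g ∈ N)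
    (hcyc : ∀ z ∈ cmW Z S, z ^ p = 1 → z ≠ 1 → ∃ g₀ ∈ S, g₀ * z = z * g₀ ∧
      ∀ g ∈ S, g * z = z * g → ∃ j : ℕ, (g₀ ^ j)⁻¹ * g ∈ N) :
    gap p (⊤ : Subgroup B) ⊤ b = 0 :=
  gap_cycW (stepAll hp2 k) hp2 h hn (L.faithN hF) (lt_of_le_of_lt L.eN_le hE) (L.cyc h hcyc)

theorem seen_line (hp2 : p ≠ 2) (h : Root p b D d) (L : Seen p ι D d Z S N K) {n : ℕ}
    (hn : 1 ≤ n) (hE : N.relIndex S < p ^ (n + 1))
    (hF : ∀ g ∈ S, (∀ y ∈ Z, g * y ^ p ^ n = y ^ p ^ n * g) → g ∈ N)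
    (hl : ∀ z ∈ cmW Z S, z ^ p = 1 → z ≠ 1 → LineOK p N S z) :
    gap p (⊤ : Subgroup B) ⊤ b = 0 :=
  gap_lineW (stepAll hp2 k) hp2 h hn (L.faithN hF) (lt_of_le_of_lt L.eN_le hE)
    fun _ hx _ hx1 => L.lineOK h hl hx hx1

theorem seen_stab (hp2 : p ≠ 2) (h : Root p b D d) (L : Seen p ι D d Z S N K) {r j n : ℕ}
    (hr : Nat.card {z : A // z ∈ K ∧ z ^ p = 1} ≤ p ^ r) (hE : N.relIndex S ≤ p ^ n)
    (hst : ∀ z ∈ cmW Z S, z ^ p = 1 → z ≠ 1 → N.relIndex (S ⊓ C1 z) ≤ p ^ j)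
    (hn : (r - 2) * j + 3 ≤ n)
    (hF : ∀ g ∈ S, (∀ y ∈ Z, g * y ^ p ^ n = y ^ p ^ n * g) → g ∈ N) :
    gap p (⊤ : Subgroup B) ⊤ b = 0 :=
  gap_stabW (stepAll hp2 k) hp2 h (L.rankD.trans hr) (L.eN_le.trans hE) (fun x hx hx1 => by
    obtain ⟨z, hz, hzp, hz1, h1⟩ := L.stab h hx hx1
    exact h1.trans (hst z hz hzp hz1)) hn (L.faithN hF)

end

end Pool.Agent.Lib.P0c8ca5.Ku
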